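import Pool.Agent.ZO.Aff
import Pool.Agent.RelGap.Fox

/-!
# Functoriality of the kernel of the Fox Jacobian
-/

set_option autoImplicit false

open scoped BigOperators

namespace Pool.Agent.ZO

open Pool.Agent.FoxAsph Pool.Agent.WT Pool.Agent.RelGap

variable {X Y ι κ : Type}

theorem lift_aff_D (rel : ι → Word X) (rel' : κ → Word Y)
    (ρ : MonoidAlgebra ℤ (Grp rel) →+* MonoidAlgebra ℤ (Grp rel')) (f : X → FreeGroup Y)
    (hρ : ∀ x, ρ (MonoidAlgebra.of ℤ (Grp rel) (val rel [(x, true)])) =
      MonoidAlgebra.of ℤ (Grp rel') (valF rel' (f x))) (w : FreeGroup X) :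
    ∀ y : Y → MonoidAlgebra ℤ (Grp rel'),
    FreeGroup.lift (aff rel ρ (fun x => D rel' (f x))) w y =
      MonoidAlgebra.of ℤ (Grp rel') (valF rel' (FreeGroup.lift f w)) • y +
        D rel' (FreeGroup.lift f w) := by
  have hρ' : ∀ x, ρ (MonoidAlgebra.of ℤ (Grp rel) (val rel [(x, false)])) =
      MonoidAlgebra.of ℤ (Grp rel') (valF rel' (f x))⁻¹ := by
    intro x
    have h1 : ρ (MonoidAlgebra.of ℤ (Grp rel) (val rel [(x, false)])) *
        MonoidAlgebra.of ℤ (Grp rel') (valF rel' (f x)) = 1 := by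
      rw [← hρ x, ← map_mul, ← map_mul, val_inv_mul, map_one, map_one]
    calc ρ (MonoidAlgebra.of ℤ (Grp rel) (val rel [(x, false)]))
        = ρ (MonoidAlgebra.of ℤ (Grp rel) (val rel [(x, false)])) *
          (MonoidAlgebra.of ℤ (Grp rel') (valF rel' (f x)) *
            MonoidAlgebra.of ℤ (Grp rel') (valF rel' (f x))⁻¹) := by
          rw [← map_mul, mul_inv_cancel, map_one, mul_one]
      _ = _ := by rw [← mul_assoc, h1, one_mul]
  induction w using FreeGroup.induction_on with
  | C1 =>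
    intro y
    rw [map_one, map_one, map_one, map_one, one_smul, D_one, add_zero]
    rfl
  | of x =>
    intro y
    rw [FreeGroup.lift_apply_of, FreeGroup.lift_apply_of, aff_apply, hρ]
  | inv_of x _ =>
    intro y
    rw [map_inv, FreeGroup.lift_apply_of, map_inv, FreeGroup.lift_apply_of, aff_inv_apply, hρ',
      D_inv, map_inv (valF rel'), smul_sub, sub_eq_add_neg]
  | mul a b iha ihb =>
    intro y
    rw [map_mul, Equiv.Perm.mul_apply, ihb, iha, map_mul, map_mul, D_mul, smul_add, smul_smul,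
      ← map_mul]
    abel

/-- a kernel vector is carried to a kernel vector -/
theorem ker_transfer [Fintype X] [Fintype ι] (rel : ι → Word X) (rel' : κ → Word Y)
    (φ : Grp rel →* Grp rel') (f : X → FreeGroup Y)
    (hf : ∀ x, φ (val rel [(x, true)]) = valF rel' (f x))
    (z : ι → MonoidAlgebra ℤ (Grp rel)) (hz : ∀ x : X, ∑ i, z i * fox rel x (rel i) = 0) :
    ∑ i, MonoidAlgebra.mapDomainRingHom ℤ φ (z i) •
      D rel' (FreeGroup.lift f (FreeGroup.mk (rel i))) = 0 := by
  have hρ : ∀ x, MonoidAlgebra.mapDomainRingHom ℤ φ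
      (MonoidAlgebra.of ℤ (Grp rel) (val rel [(x, true)])) =
      MonoidAlgebra.of ℤ (Grp rel') (valF rel' (f x)) := by
    intro x
    rw [← hf x]
    show MonoidAlgebra.mapDomainRingHom ℤ φ _ = _
    simp [MonoidAlgebra.of_apply]
  have h1 := sum_affW rel (MonoidAlgebra.mapDomainRingHom ℤ φ) (fun x => D rel' (f x)) z hz
  have h2 : ∀ i, affW rel (MonoidAlgebra.mapDomainRingHom ℤ φ) (fun x => D rel' (f x)) (rel i) 0 =
      D rel' (FreeGroup.lift f (FreeGroup.mk (rel i))) := by
    intro i
    have h3 := lift_aff_D rel rel' (MonoidAlgebra.mapDomainRingHom ℤ φ) f hρ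
      (FreeGroup.mk (rel i)) 0
    rw [smul_zero, zero_add] at h3
    exact h3
  rw [Finset.sum_congr rfl fun i _ => by rw [h2 i]] at h1
  exact h1

/-- asphericity in terms of the rows -/
theorem aspherical_iff [Fintype ι] (rel : ι → Word X) : Aspherical rel ↔
    ∀ z : ι → MonoidAlgebra ℤ (Grp rel), ∑ i, z i • D rel (FreeGroup.mk (rel i)) = 0 → z = 0 := by
  have key : ∀ z : ι → MonoidAlgebra ℤ (Grp rel),
      (∑ i, z i • D rel (FreeGroup.mk (rel i)) = 0 ↔ ∀ x : X, ∑ i, z i * fox rel x (rel i) = 0) := by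
    intro z
    rw [funext_iff]
    refine forall_congr' fun x => ?_
    rw [Finset.sum_apply]
    rfl
  constructor
  · intro h z hz
    exact h z ((key z).1 hz)
  · intro h z hz
    exact h z ((key z).2 hz)

theorem of_val (rel : ι → Word X) (x : X) : valF rel (FreeGroup.of x) = val rel [(x, true)] := rfl

theorem valF_mkw (rel : ι → Word X) (w : Word X) : valF rel (FreeGroup.mk w) = val rel w := rfl

/-- a homomorphism from the presented group -/
theorem exists_map {G : Type} [Group G] (rel : ι → Word X) (θ : FreeGroup X →* G)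
    (h : ∀ i, θ (FreeGroup.mk (rel i)) = 1) : ∃ φ : Grp rel →* G, ∀ w, φ (valF rel w) = θ w := by
  have h1 : ∀ r ∈ Set.range fun i => FreeGroup.mk (rel i),
      FreeGroup.lift (fun x => θ (FreeGroup.of x)) r = 1 := by
    rintro _ ⟨i, rfl⟩
    rw [← h i]
    exact DFunLike.congr_fun (FreeGroup.ext_hom (FreeGroup.lift fun x => θ (FreeGroup.of x)) θ
      (fun x => by rw [FreeGroup.lift_apply_of])) _
  refine ⟨PresentedGroup.toGroup h1, fun w => ?_⟩
  have h2 : (PresentedGroup.toGroup h1).comp (valF rel) = θ := by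
    refine FreeGroup.ext_hom _ _ fun x => ?_
    show PresentedGroup.toGroup h1 (PresentedGroup.of x) = _
    rw [PresentedGroup.toGroup.of]
  exact DFunLike.congr_fun h2 w

end Pool.Agent.ZO
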