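import Pool.Agent.WT.LotDefs
import Pool.Agent.GX.Defs

/-!
# A zero-one law for the complexes of labelled oriented trees: definitions
-/

set_option autoImplicit false

namespace Pool.Agent.ZO

open Pool.Agent.FoxAsph Pool.Agent.WT Pool.Agent.GX Pool.Agent.WT.Trees

/-- The subpresentation with the generators in `U` and the relators `rel i` for `i` in `S`, where all
letters of these relators belong to `U`. -/
def SubPres {X ι : Type} (rel : ι → Word X) (U : Set X) (S : Finset ι)
    (h : ∀ i ∈ S, ∀ l ∈ rel i, l.1 ∈ U) (i : S) : Word U :=
  (rel i).pmap (fun l hl => ((⟨l.1, hl⟩ : U), l.2)) (h i i.2)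

/-- Every subcomplex of the complex `K(Γ, v)`, which has one vertex, the 1-cells `V` and a 2-cell for
every relator `Γ.rel e` and one for the relator `v`, is aspherical: for every set `U` of generators
and every finite set `S` of the relators whose letters are in `U`, the presentation with generators
`U` and relators `S` is aspherical. -/
def AllAspherical {V : Type} (Γ : LOT V) (v : V) : Prop :=
  ∀ (U : Set V) (S : Finset (Option Γ.graph.edgeSet))
    (h : ∀ i ∈ S, ∀ l ∈ Γ.relPlus v i, l.1 ∈ U),
    Aspherical (SubPres (Γ.relPlus v) U S h)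

/-- A pattern: `N` steps; step `s + 1` (for `s < N`) joins segment `s` to segment `s + 1`; its edge
has its label in segment `lam (s + 1)` and the orientation `eps (s + 1)`. -/
structure Pattern where
  N : ℕ
  lam : ℕ → ℕ
  eps : ℕ → Bool
  le : ∀ s, lam s ≤ N

/-- The pattern `P` is realised at `u`: `p` is the parent function of a tree with root `r`, the edge
of `x ≠ r` is the edge that joins `x` to `p x`, it has the label `l x`, and `o x` is true if its
tail is `p x` and false if its tail is `x`. The set `H` is a part of the branch at `u`, closed under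
`p` down to `u`, and `seg` cuts it into segments; `top s` is the lowest vertex of segment `s`. -/
structure Realises (P : Pattern) {V : Type} (p : V → V) (r u : V) (o : V → Bool)
    (l : V → V) (H : Set V) (seg : V → ℕ) (top : ℕ → V) : Prop where
  ne_root : u ≠ r
  sub : H ⊆ below p u
  top_zero : top 0 = u
  top_mem : ∀ s ≤ P.N, top s ∈ H
  seg_top : ∀ s ≤ P.N, seg (top s) = s
  seg_le : ∀ x ∈ H, seg x ≤ P.N
  par_mem : ∀ x ∈ H, x ≠ u → p x ∈ H
  static : ∀ x ∈ H, x ≠ top (seg x) → seg (p x) = seg x ∧ l x ∉ below p u
  step : ∀ s < P.N, seg (p (top (s + 1))) = s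
  real : ∀ s < P.N, l (top (s + 1)) ∈ H ∧ seg (l (top (s + 1))) = P.lam (s + 1) ∧
    o (top (s + 1)) = P.eps (s + 1)

/-- the pattern is realised at `u` -/
def RealAt (P : Pattern) {V : Type} (p : V → V) (r u : V) (o : V → Bool) (l : V → V) : Prop :=
  ∃ (H : Set V) (seg : V → ℕ) (top : ℕ → V), Realises P p r u o l H seg top

/-- The pattern is realised at two places with disjoint branches. -/
def Twice (P : Pattern) {V : Type} (p : V → V) (r : V) (o : V → Bool) (l : V → V) : Prop :=
  ∃ u u' : V, RealAt P p r u o l ∧ RealAt P p r u' o l ∧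
    Disjoint (below p u) (below p u')

end Pool.Agent.ZO
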