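import Pool.Agent.ZO.Tour
import Pool.Agent.ZO.Defs
import Pool.Agent.GX.Fringe

/-!
# A realised pattern gives a non-aspherical subcomplex
-/

set_option autoImplicit false

open scoped BigOperators

namespace Pool.Agent.ZO

open Pool.Agent.FoxAsph Pool.Agent.WT Pool.Agent.WT.Trees Pool.Agent.GX Pool.Agent.GX.FringeAux

/-- `p`, `o`, `l` describe the labelled oriented tree `Γ`: parents towards `r`, orientations and
labels -/
structure Desc {V : Type} (Γ : LOT V) (p : V → V) (r : V) (o : V → Bool) (l : V → V) : Prop where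
  mem : p ∈ PF r
  graph : pGraph p = Γ.graph
  edge : ∀ x, x ≠ r → ∀ e : Γ.graph.edgeSet, (e : Sym2 V) = s(x, p x) →
    Γ.label e = l x ∧ (o x = true → Γ.tail e = p x ∧ Γ.head e = x) ∧
      (o x = false → Γ.tail e = x ∧ Γ.head e = p x)

/-- the value of the relator of the edge `{x, p x}` -/
def EVal {V G : Type} [Group G] (p : V → V) (o : V → Bool) (l : V → V) (Θ : V → G) (x : V) : G :=
  if o x = true then Θ (p x) * Θ (l x) * (Θ x)⁻¹ * (Θ (l x))⁻¹
  else Θ x * Θ (l x) * (Θ (p x))⁻¹ * (Θ (l x))⁻¹

theorem lift_four {X G : Type} [Group G] (Θ : X → G) (a b c d : X) :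
    FreeGroup.lift Θ (FreeGroup.mk [(a, true), (b, true), (c, false), (d, false)]) =
      Θ a * Θ b * (Θ c)⁻¹ * (Θ d)⁻¹ := by
  rw [lift_cons, lift_cons, lift_cons, lift_cons, lift_nil]
  simp [mul_assoc]

theorem lift_one' {X G : Type} [Group G] (Θ : X → G) (a : X) :
    FreeGroup.lift Θ (FreeGroup.mk [(a, true)]) = Θ a := by
  rw [lift_cons, lift_nil]
  simp

section
variable {V G : Type} [Group G] {p : V → V} {r : V} {o : V → Bool} {l : V → V} {Θ : V → G}

theorem eval_one_iff (x : V) (h : Θ (l x) = 1) : EVal p o l Θ x = 1 ↔ Θ x = Θ (p x) := by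
  unfold EVal
  split
  · rw [h, mul_one, inv_one, mul_one, mul_inv_eq_one]
    exact eq_comm
  · rw [h, mul_one, inv_one, mul_one, mul_inv_eq_one]

theorem eval_kill (x : V) (h : EVal p o l Θ x = 1) : Θ x = 1 ↔ Θ (p x) = 1 := by
  unfold EVal at h
  split at h
  · rw [mul_inv_eq_one, mul_inv_eq_iff_eq_mul] at h
    constructor
    · intro h1
      rw [h1, mul_one] at h
      exact mul_eq_right.1 h
    · intro h1
      rw [h1, one_mul] at h
      exact mul_eq_left.1 h.symm
  · rw [mul_inv_eq_one, mul_inv_eq_iff_eq_mul] at h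
    constructor
    · intro h1
      rw [h1, one_mul] at h
      exact mul_eq_left.1 h.symm
    · intro h1
      rw [h1, mul_one] at h
      exact mul_eq_right.1 h

theorem eval_of_one (x : V) (h : Θ x = 1) (h' : Θ (p x) = 1) : EVal p o l Θ x = 1 := by
  unfold EVal
  rw [h, h']
  simp

theorem outside (hp : p ∈ PF r) {u v : V} (hv : v ∉ below p u) (h1 : Θ v = 1)
    (h : ∀ x, x ∉ below p u → x ≠ r → EVal p o l Θ x = 1) (x : V) (hx : x ∉ below p u) :
    Θ x = 1 := by
  have key : ∀ (m : ℕ) (x : V), x ∉ below p u → p^[m] x = r → (Θ x = 1 ↔ Θ r = 1) := by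
    intro m
    induction m with
    | zero =>
      intro x _ hm
      rw [Function.iterate_zero_apply] at hm
      rw [hm]
    | succ m ih =>
      intro x hx hm
      rw [Function.iterate_succ_apply] at hm
      by_cases hxr : x = r
      · rw [hxr]
      · rw [eval_kill x (h x hx hxr)]
        exact ih (p x) (fun hpx => hx (mem_below_of_parent hpx)) hm
  obtain ⟨m, hm⟩ := hp.2 x
  obtain ⟨m', hm'⟩ := hp.2 v
  exact (key m x hx hm).2 ((key m' v hv hm').1 h1)

end

/-- the pattern of a tour -/
noncomputable def Tour.pattern {F : LOF} (T : Tour F) : Pattern where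
  N := T.N
  lam := fun s => match T.st s with
    | some (e, _) => T.fst (F.label e)
    | none => 0
  eps := fun s => match T.st s with
    | some (_, b) => b
    | none => false
  le := by
    intro s
    rcases T.st s with _ | ⟨e, b⟩
    · exact Nat.zero_le _
    · exact T.fst_le _

theorem pattern_lam {F : LOF} (T : Tour F) {s : ℕ} {e : F.E} {b : Bool} (h : T.st s = some (e, b)) :
    T.pattern.lam s = T.fst (F.label e) := by
  show (match T.st s with
    | some (e, _) => T.fst (F.label e)
    | none => 0) = _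
  rw [h]

theorem pattern_eps {F : LOF} (T : Tour F) {s : ℕ} {e : F.E} {b : Bool} (h : T.st s = some (e, b)) :
    T.pattern.eps s = b := by
  show (match T.st s with
    | some (_, b) => b
    | none => false) = _
  rw [h]

section
variable {V : Type} {F : LOF} (T : Tour F) {p : V → V} {r u : V} {o : V → Bool} {l : V → V}
  {H : Set V} {seg : V → ℕ} {top : ℕ → V}

theorem top_inj (hR : Realises T.pattern p r u o l H seg top) {s t : ℕ} (hs : s ≤ T.N)
    (ht : t ≤ T.N) (h : top s = top t) : s = t := by
  rw [← hR.seg_top s hs, ← hR.seg_top t ht, h]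

theorem top_ne_root (hp : p ∈ PF r) (hR : Realises T.pattern p r u o l H seg top) {s : ℕ}
    (hs : s ≤ T.N) : top s ≠ r := by
  intro h
  have h1 := hR.sub (hR.top_mem s hs)
  rw [h] at h1
  exact root_notMem_below hp hR.ne_root h1

variable {G : Type} [Group G] {Θ : V → G}

theorem static_eq (hR : Realises T.pattern p r u o l H seg top)
    (hout : ∀ x, x ∉ below p u → Θ x = 1)
    (h : ∀ x ∈ H, x ≠ top (seg x) → EVal p o l Θ x = 1) (x : V) (hx : x ∈ H) :
    Θ x = Θ (top (seg x)) := by
  have key : ∀ (m : ℕ) (x : V), x ∈ H → p^[m] x = u → Θ x = Θ (top (seg x)) := by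
    intro m
    induction m with
    | zero =>
      intro x _ hm
      rw [Function.iterate_zero_apply] at hm
      have h0 : seg u = 0 := by
        have := hR.seg_top 0 (Nat.zero_le _)
        rwa [hR.top_zero] at this
      rw [hm, h0, hR.top_zero]
    | succ m ih =>
      intro x hx hm
      by_cases hxt : x = top (seg x)
      · rw [← hxt]
      · obtain ⟨h1, h2⟩ := hR.static x hx hxt
        have hxu : x ≠ u := by
          intro hxu
          apply hxt
          have h0 : seg u = 0 := by
            have := hR.seg_top 0 (Nat.zero_le _)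
            rwa [hR.top_zero] at this
          rw [hxu, h0, hR.top_zero]
        rw [(eval_one_iff x (hout _ h2)).1 (h x hx hxt),
          ih (p x) (hR.par_mem x hx hxu) (by rw [← hm, Function.iterate_succ_apply]), h1]
  obtain ⟨m, hm⟩ := hR.sub hx
  exact key m x hx hm

/-- the relator of a step in terms of the lowest vertices of the segments -/
theorem eval_step (hR : Realises T.pattern p r u o l H seg top)
    (hst : ∀ x ∈ H, Θ x = Θ (top (seg x))) {s : ℕ} (hs : s < T.N) {e : F.E} {b : Bool}
    (h : T.st (s + 1) = some (e, b)) :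
    EVal p o l Θ (top (s + 1)) = if b = true then
      Θ (top s) * Θ (top (T.fst (F.label e))) * (Θ (top (s + 1)))⁻¹ *
        (Θ (top (T.fst (F.label e))))⁻¹
      else Θ (top (s + 1)) * Θ (top (T.fst (F.label e))) * (Θ (top s))⁻¹ *
        (Θ (top (T.fst (F.label e))))⁻¹ := by
  obtain ⟨h1, h2, h3⟩ := hR.real s hs
  have htu : top (s + 1) ≠ u := by
    rw [← hR.top_zero]
    intro h4
    have := top_inj T hR (Nat.succ_le_of_lt hs) (Nat.zero_le _) h4
    omega
  have h5 : Θ (p (top (s + 1))) = Θ (top s) := by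
    rw [hst _ (hR.par_mem _ (hR.top_mem (s + 1) hs) htu), hR.step s hs]
  have h6 : Θ (l (top (s + 1))) = Θ (top (T.fst (F.label e))) := by
    rw [hst _ h1, h2, pattern_lam T h]
  unfold EVal
  rw [h3, pattern_eps T h, h5, h6]

end

section
variable {V : Type} [Fintype V] {F : LOF} (T : Tour F) {p : V → V} {r u : V} {o : V → Bool}
  {l : V → V} {H : Set V} {seg : V → ℕ} {top : ℕ → V} (Γ : LOT V)

/-- the 2-cells that are kept -/
def Keep (p : V → V) (r u : V) (H : Set V) (seg : V → ℕ) (top : ℕ → V) :
    Option Γ.graph.edgeSet → Prop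
  | none => True
  | some e => ∃ x, x ≠ r ∧ (e : Sym2 V) = s(x, p x) ∧ (x ∉ below p u ∨ (x ∈ H ∧ x ≠ top (seg x)) ∨
      ∃ s, s < T.N ∧ T.st (s + 1) ≠ none ∧ x = top (s + 1))

omit [Fintype V] in
theorem edge_unique (hp : p ∈ PF r) {x y : V} (hx : x ≠ r) (h : s(x, p x) = s(y, p y)) :
    x = y := by
  rw [Sym2.eq_iff] at h
  rcases h with ⟨h, _⟩ | ⟨h1, h2⟩
  · exact h
  · exfalso
    apply hx
    apply eq_root_of_two hp
    rw [h2]
    exact h1.symm

omit [Fintype V] in
/-- the value of the relator of an edge -/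
theorem lift_edge {G : Type} [Group G] (hD : Desc Γ p r o l) (Θ : ↥(Set.univ : Set V) → G) (v : V)
    (S : Finset (Option Γ.graph.edgeSet)) (e : Γ.graph.edgeSet) (he : some e ∈ S) (x : V)
    (hx : x ≠ r) (hex : (e : Sym2 V) = s(x, p x)) :
    FreeGroup.lift Θ (FreeGroup.mk (SubPres (Γ.relPlus v) Set.univ S (fun _ _ _ _ => trivial)
      ⟨some e, he⟩)) = EVal p o l (fun y => Θ ⟨y, trivial⟩) x := by
  obtain ⟨h1, h2, h3⟩ := hD.edge x hx e hex
  have h0 : SubPres (Γ.relPlus v) Set.univ S (fun _ _ _ _ => trivial) ⟨some e, he⟩ =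
      [((⟨Γ.tail e, trivial⟩ : (Set.univ : Set V)), true), (⟨Γ.label e, trivial⟩, true),
        (⟨Γ.head e, trivial⟩, false), (⟨Γ.label e, trivial⟩, false)] := rfl
  rw [h0, lift_four]
  unfold EVal
  by_cases ho : o x = true
  · obtain ⟨h4, h5⟩ := h2 ho
    rw [if_pos ho]
    simp only [h1, h4, h5]
  · obtain ⟨h4, h5⟩ := h3 (by simpa using ho)
    rw [if_neg ho]
    simp only [h1, h4, h5]

omit [Fintype V] in
theorem lift_none {G : Type} [Group G] (Θ : ↥(Set.univ : Set V) → G) (v : V)
    (S : Finset (Option Γ.graph.edgeSet)) (he : none ∈ S) :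
    FreeGroup.lift Θ (FreeGroup.mk (SubPres (Γ.relPlus v) Set.univ S (fun _ _ _ _ => trivial)
      ⟨none, he⟩)) = Θ ⟨v, trivial⟩ := by
  have h0 : SubPres (Γ.relPlus v) Set.univ S (fun _ _ _ _ => trivial) ⟨none, he⟩ =
      [((⟨v, trivial⟩ : (Set.univ : Set V)), true)] := rfl
  rw [h0, lift_one']

theorem fail (hF : ¬ Aspherical F.rel) (hD : Desc Γ p r o l)
    (hR : Realises T.pattern p r u o l H seg top) (v : V) (hv : v ∉ below p u) :
    ¬ AllAspherical Γ v := by
  classical
  intro hall
  apply hF
  have hp := hD.mem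
  have : Fintype Γ.graph.edgeSet := Fintype.ofFinite _
  let S : Finset (Option Γ.graph.edgeSet) := Finset.univ.filter (Keep T Γ p r u H seg top)
  have hS : ∀ i, i ∈ S ↔ Keep T Γ p r u H seg top i := by
    intro i
    simp [S]
  have hnone : none ∈ S := (hS none).2 trivial
  have hasph := hall Set.univ S (fun _ _ _ _ => trivial)
  -- the edge of a vertex
  have hed : ∀ x, x ≠ r → ∃ e : Γ.graph.edgeSet, (e : Sym2 V) = s(x, p x) := by
    intro x hx
    refine ⟨⟨s(x, p x), ?_⟩, rfl⟩
    rw [← hD.graph]
    exact adj_parent hp x hx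
  have hj : ∀ e : F.E, ∃ i : S, ∃ e' : Γ.graph.edgeSet, (e' : Sym2 V) =
      s(top (T.tm e + 1), p (top (T.tm e + 1))) ∧ i.1 = some e' := by
    intro e
    have hr := top_ne_root T hp hR (s := T.tm e + 1) (T.tm_lt e)
    obtain ⟨e', he'⟩ := hed _ hr
    obtain ⟨b, hb⟩ := T.tm_spec e
    refine ⟨⟨some e', (hS _).2 ⟨_, hr, he', Or.inr (Or.inr ⟨T.tm e, T.tm_lt e, ?_, rfl⟩)⟩⟩, e',
      he', rfl⟩
    rw [hb]
    exact Option.some_ne_none _
  choose j je hje hjs using hj
  refine transfer F.rel _ (fun x => (⟨top (T.fst x), trivial⟩ : (Set.univ : Set V))) j T.tm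
    T.tm_inj ?_ ?_ hasph
  · -- the homomorphism to the group of the forest
    let f : ↥(Set.univ : Set V) → Grp F.rel :=
      fun x => if x.1 ∈ H then val F.rel [(T.w (seg x.1), true)] else 1
    have hf : ∀ i : S, FreeGroup.lift f (FreeGroup.mk (SubPres (Γ.relPlus v) Set.univ S
        (fun _ _ _ _ => trivial) i)) = 1 := by
      rintro ⟨i, hi⟩
      rcases i with _ | e'
      · rw [lift_none]
        exact if_neg (fun h => hv (hR.sub h))
      · obtain ⟨x, hx, hex, hcase⟩ := (hS _).1 hi
        rw [lift_edge Γ hD f v S e' hi x hx hex]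
        rcases hcase with hxD | ⟨hxH, hxt⟩ | ⟨s, hs, hst, rfl⟩
        · apply eval_of_one
          · exact if_neg (fun h => hxD (hR.sub h))
          · exact if_neg (fun h => hxD (mem_below_of_parent (hR.sub h)))
        · obtain ⟨h1, h2⟩ := hR.static x hxH hxt
          have hxu : x ≠ u := by
            intro hxu
            apply hxt
            have h0 : seg u = 0 := by
              have := hR.seg_top 0 (Nat.zero_le _)
              rwa [hR.top_zero] at this
            rw [hxu, h0, hR.top_zero]
          rw [eval_one_iff (Θ := fun y => f ⟨y, trivial⟩) x (if_neg (fun h => h2 (hR.sub h)))]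
          show (if x ∈ H then _ else _) = (if p x ∈ H then _ else _)
          rw [if_pos hxH, if_pos (hR.par_mem x hxH hxu), h1]
        · rcases hst' : T.st (s + 1) with _ | ⟨e, b⟩
          · exact absurd hst' hst
          · have hst2 : ∀ x ∈ H, f ⟨x, trivial⟩ = f ⟨top (seg x), trivial⟩ := by
              intro x hxH
              show (if x ∈ H then _ else _) = (if top (seg x) ∈ H then _ else _)
              rw [if_pos hxH, if_pos (hR.top_mem _ (hR.seg_le x hxH)),
                hR.seg_top _ (hR.seg_le x hxH)]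
            rw [eval_step T (Θ := fun y => f ⟨y, trivial⟩) hR hst2 hs hst']
            have hfw : ∀ t ≤ T.N, f ⟨top t, trivial⟩ = val F.rel [(T.w t, true)] := by
              intro t ht
              show (if top t ∈ H then _ else _) = _
              rw [if_pos (hR.top_mem t ht), hR.seg_top t ht]
            simp only [hfw s (by omega), hfw (s + 1) (by omega), hfw _ (T.fst_le _), T.w_fst]
            have hrel : val F.rel [(F.tail e, true)] * val F.rel [(F.label e, true)] *
                (val F.rel [(F.head e, true)])⁻¹ * (val F.rel [(F.label e, true)])⁻¹ = 1 := by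
              have h1 : val F.rel [(F.tail e, true), (F.label e, true), (F.head e, false),
                (F.label e, false)] = 1 := val_rel F.rel e
              rw [val_cons, val_cons F.rel (F.label e, true), val_cons F.rel (F.head e, false),
                val_inv, val_inv] at h1
              rw [mul_assoc, mul_assoc]
              exact h1
            cases b with
            | true =>
              obtain ⟨h1, h2⟩ := T.fwd s hs e hst'
              rw [if_pos rfl, h1, h2]
              exact hrel
            | false =>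
              obtain ⟨h1, h2⟩ := T.bwd s hs e hst'
              rw [if_neg Bool.false_ne_true, h1, h2]
              exact hrel
    refine ⟨PresentedGroup.toGroup (f := f) (by rintro _ ⟨i, rfl⟩; exact hf i), fun x => ?_⟩
    have h1 : PresentedGroup.toGroup (f := f) (rels := Set.range fun i : S => FreeGroup.mk
        (SubPres (Γ.relPlus v) Set.univ S (fun _ _ _ _ => trivial) i))
        (by rintro _ ⟨i, rfl⟩; exact hf i) (PresentedGroup.of (⟨top (T.fst x), trivial⟩ :
          (Set.univ : Set V))) = f ⟨top (T.fst x), trivial⟩ := PresentedGroup.toGroup.of _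
    refine (show _ = f ⟨top (T.fst x), trivial⟩ from h1).trans ?_
    show (if top (T.fst x) ∈ H then _ else _) = _
    rw [if_pos (hR.top_mem _ (T.fst_le x)), hR.seg_top _ (T.fst_le x), T.w_fst]
  · -- the relators
    intro G _ Θ e₀ hΘ
    have hv1 : Θ ⟨v, trivial⟩ = 1 := by
      rw [← lift_none Γ Θ v S hnone]
      apply hΘ
      intro h
      have h1 := hjs e₀
      rw [← h] at h1
      exact Option.some_ne_none _ h1.symm
    -- relators other than that of `e₀`
    have hrel : ∀ x, x ≠ r → (x ∉ below p u ∨ (x ∈ H ∧ x ≠ top (seg x)) ∨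
        ∃ s, s < T.N ∧ T.st (s + 1) ≠ none ∧ x = top (s + 1)) → x ≠ top (T.tm e₀ + 1) →
        EVal p o l (fun y => Θ ⟨y, trivial⟩) x = 1 := by
      intro x hx hcase hne
      obtain ⟨e', he'⟩ := hed x hx
      have hmem : some e' ∈ S := (hS _).2 ⟨x, hx, he', hcase⟩
      rw [← lift_edge Γ hD Θ v S e' hmem x hx he']
      apply hΘ
      intro h
      have h1 := hjs e₀
      rw [← h] at h1
      have h2 : e' = je e₀ := Option.some.inj h1
      have h3 := hje e₀
      rw [← h2, he'] at h3
      exact hne (edge_unique hp hx h3)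
    have hout := outside (Θ := fun y => Θ ⟨y, trivial⟩) (o := o) (l := l) hp hv hv1
      (fun x hx hxr => hrel x hxr (Or.inl hx) (by
        intro h
        rw [h] at hx
        exact hx (hR.sub (hR.top_mem _ (T.tm_lt e₀)))))
    have hstat := static_eq T (Θ := fun y => Θ ⟨y, trivial⟩) hR hout
      (fun x hx hxt => hrel x (fun h => by
          rw [h] at hx
          exact root_notMem_below hp hR.ne_root (hR.sub hx)) (Or.inr (Or.inl ⟨hx, hxt⟩)) (by
        intro h
        rw [h, hR.seg_top _ (T.tm_lt e₀)] at hxt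
        exact hxt rfl))
    have htour := T.relations (fun s => Θ ⟨top s, trivial⟩) (T.tm e₀) (T.tm_lt e₀).le (by
      intro s hs e b hst
      have hsN : s < T.N := hs.trans (T.tm_lt e₀)
      have h1 := hrel (top (s + 1)) (top_ne_root T hp hR hsN)
        (Or.inr (Or.inr ⟨s, hsN, by rw [hst]; exact Option.some_ne_none _, rfl⟩)) (by
          intro h
          have := top_inj T hR hsN (T.tm_lt e₀) h
          omega)
      rw [eval_step T (Θ := fun y => Θ ⟨y, trivial⟩) hR hstat hsN hst] at h1
      unfold Tour.StepRel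
      cases b with
      | true =>
        rw [if_pos rfl, mul_inv_eq_one, mul_inv_eq_iff_eq_mul] at h1
        rw [if_pos rfl]
        exact h1
      | false =>
        rw [if_neg Bool.false_ne_true, mul_inv_eq_one, mul_inv_eq_iff_eq_mul] at h1
        rw [if_neg Bool.false_ne_true]
        exact h1)
    refine ⟨fun e he => ?_, ?_⟩
    · obtain ⟨b, hb⟩ := T.tm_spec e
      have h1 := htour.2 (T.tm e) he e b hb
      unfold LOF.rel
      rw [lift_four, mul_inv_eq_one, mul_inv_eq_iff_eq_mul]
      exact h1
    · obtain ⟨b, hb⟩ := T.tm_spec e₀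
      have hlt := T.tm_lt e₀
      have hji : j e₀ = ⟨some (je e₀), by rw [← hjs e₀]; exact (j e₀).2⟩ := Subtype.ext (hjs e₀)
      rw [hji, lift_edge Γ hD Θ v S (je e₀) _ (top (T.tm e₀ + 1)) (top_ne_root T hp hR hlt) (hje e₀),
        eval_step T (Θ := fun y => Θ ⟨y, trivial⟩) hR hstat hlt hb]
      have h2 := htour.1 (T.tm e₀) le_rfl
      have h3 := T.fst_w_tm e₀
      unfold LOF.rel
      rw [lift_four]
      cases b with
      | true =>
        obtain ⟨h4, h5⟩ := T.fwd _ hlt e₀ hb
        rw [if_pos rfl]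
        rw [h4] at h2
        rw [h5] at h3
        rw [h3]
        have h2' : Θ ⟨top (T.tm e₀), trivial⟩ = Θ ⟨top (T.fst (F.tail e₀)), trivial⟩ := h2
        rw [h2']
      | false =>
        obtain ⟨h4, h5⟩ := T.bwd _ hlt e₀ hb
        rw [if_neg Bool.false_ne_true]
        rw [h4] at h2
        rw [h5] at h3
        rw [h3]
        have h2' : Θ ⟨top (T.tm e₀), trivial⟩ = Θ ⟨top (T.fst (F.head e₀)), trivial⟩ := h2
        rw [h2']

end

end Pool.Agent.ZO
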