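import Pool.Agent.ZO.Howie
import Pool.Agent.ZO.Fail

/-!
# The complexes `K(Γ, v)` 3-deform to a point; complexes that 3-deform to a point are contractible
-/

set_option autoImplicit false

open scoped BigOperators

namespace Pool.Agent.ZO

open Pool.Agent.FoxAsph Pool.Agent.WT Pool.Agent.RelGap Pool.Agent.WT.Trees
  Pool.Agent.GX.FringeAux

section moves

variable {X ι : Type}

theorem ACMove.map {X' ι' : Type} {r r' : ι → FreeGroup X} (h : ACMove r r')
    (a : FreeGroup X →* FreeGroup X') (ε : ι' ≃ ι) :
    ACMove (fun i => a (r (ε i))) (fun i => a (r' (ε i))) := by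
  obtain ⟨i, hk, h1⟩ := h
  refine ⟨ε.symm i, fun k hki => ?_, ?_⟩
  · have : ε k ≠ i := fun h => hki (by rw [← h, Equiv.symm_apply_apply])
    show a _ = a _
    rw [hk _ this]
  · simp only [Equiv.apply_symm_apply]
    rcases h1 with h1 | ⟨j, hj, h1⟩ | ⟨g, h1⟩
    · left
      rw [h1, map_inv]
    · right
      left
      refine ⟨ε.symm j, fun h => hj (ε.symm.injective h), ?_⟩
      rw [h1, map_mul, Equiv.apply_symm_apply]
    · right
      right
      refine ⟨a g, ?_⟩
      rw [h1, map_mul, map_mul, map_inv]

theorem path_map {X' ι' : Type} {r r' : ι → FreeGroup X} (h : Relation.ReflTransGen ACMove r r')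
    (a : FreeGroup X →* FreeGroup X') (ε : ι' ≃ ι) :
    Relation.ReflTransGen ACMove (fun i => a (r (ε i))) (fun i => a (r' (ε i))) := by
  induction h with
  | refl => exact Relation.ReflTransGen.refl
  | tail _ h ih => exact ih.tail (h.map a ε)

variable [DecidableEq ι]

theorem move_inv (r : ι → FreeGroup X) (i : ι) : ACMove r (Function.update r i (r i)⁻¹) :=
  ⟨i, fun _ hk => Function.update_of_ne hk _ _, Or.inl (Function.update_self _ _ _)⟩

theorem move_conj (r : ι → FreeGroup X) (i : ι) (g : FreeGroup X) :
    ACMove r (Function.update r i (g * r i * g⁻¹)) :=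
  ⟨i, fun _ hk => Function.update_of_ne hk _ _, Or.inr (Or.inr ⟨g, Function.update_self _ _ _⟩)⟩

theorem move_mul (r : ι → FreeGroup X) (i j : ι) (h : j ≠ i) :
    ACMove r (Function.update r i (r i * r j)) :=
  ⟨i, fun _ hk => Function.update_of_ne hk _ _, Or.inr (Or.inl ⟨j, h, Function.update_self _ _ _⟩)⟩

/-- multiplication by a conjugate of another element -/
theorem path_mulconj (r : ι → FreeGroup X) (i j : ι) (h : j ≠ i) (g : FreeGroup X) :
    Relation.ReflTransGen ACMove r (Function.update r i (r i * (g * r j * g⁻¹))) := by
  have h1 := move_conj r j g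
  have h2 := move_mul (Function.update r j (g * r j * g⁻¹)) i j h
  have h3 := move_conj (Function.update (Function.update r j (g * r j * g⁻¹)) i
    (Function.update r j (g * r j * g⁻¹) i * Function.update r j (g * r j * g⁻¹) j)) j g⁻¹
  have h4 : Function.update (Function.update (Function.update r j (g * r j * g⁻¹)) i
      (Function.update r j (g * r j * g⁻¹) i * Function.update r j (g * r j * g⁻¹) j)) j
      (g⁻¹ * (Function.update (Function.update r j (g * r j * g⁻¹)) i
      (Function.update r j (g * r j * g⁻¹) i * Function.update r j (g * r j * g⁻¹) j)) j * g⁻¹⁻¹) =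
      Function.update r i (r i * (g * r j * g⁻¹)) := by
    funext k
    by_cases hkj : k = j
    · subst hkj
      rw [Function.update_self, Function.update_of_ne h, Function.update_self,
        Function.update_of_ne h]
      group
    · rw [Function.update_of_ne hkj]
      by_cases hki : k = i
      · subst hki
        rw [Function.update_self, Function.update_self, Function.update_of_ne (Ne.symm h),
          Function.update_self]
      · rw [Function.update_of_ne hki, Function.update_of_ne hkj, Function.update_of_ne hki]
  rw [h4] at h3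
  exact ((Relation.ReflTransGen.single h1).tail h2).tail h3

end moves

theorem acTrivial_of_path {X ι : Type} {rel : ι → Word X} (e₀ : ι ≃ X)
    (h : Relation.ReflTransGen ACMove (fun i => FreeGroup.mk (rel i))
      (fun i => FreeGroup.of (e₀ i))) : ACTrivial rel := by
  refine ⟨0, ((Equiv.sumEmpty ι (Fin 0)).trans e₀).trans (Equiv.sumEmpty X (Fin 0)).symm, ?_⟩
  have h1 := path_map h (FreeGroup.map (Sum.inl : X → X ⊕ Fin 0)) (Equiv.sumEmpty ι (Fin 0))
  have e1 : (fun i : ι ⊕ Fin 0 => FreeGroup.map (Sum.inl : X → X ⊕ Fin 0)
      (FreeGroup.mk (rel (Equiv.sumEmpty ι (Fin 0) i)))) =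
      Sum.elim (fun i => FreeGroup.map Sum.inl (FreeGroup.mk (rel i)))
      (fun k => FreeGroup.of (Sum.inr k)) := by
    funext i
    rcases i with i | k
    · rfl
    · exact k.elim0
  have e2 : (fun i : ι ⊕ Fin 0 => FreeGroup.map (Sum.inl : X → X ⊕ Fin 0)
      (FreeGroup.of (e₀ (Equiv.sumEmpty ι (Fin 0) i)))) =
      fun i => FreeGroup.of ((((Equiv.sumEmpty ι (Fin 0)).trans e₀).trans
        (Equiv.sumEmpty X (Fin 0)).symm) i) := by
    funext i
    rcases i with i | k
    · rw [FreeGroup.map.of]
      rfl
    · exact k.elim0
  rw [← e1, ← e2]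
  exact h1

theorem mk_four {X : Type} (a b c d : X) (α β γ δ : Bool) :
    FreeGroup.mk [(a, α), (b, β), (c, γ), (d, δ)] =
      FreeGroup.mk [(a, α)] * FreeGroup.mk [(b, β)] * FreeGroup.mk [(c, γ)] *
        FreeGroup.mk [(d, δ)] := by
  rw [FreeGroup.mul_mk, FreeGroup.mul_mk, FreeGroup.mul_mk]
  rfl

theorem mk_false {X : Type} (a : X) : FreeGroup.mk [(a, false)] = (FreeGroup.of a)⁻¹ := by
  unfold FreeGroup.of
  rw [FreeGroup.inv_mk]
  rfl

theorem mk_true {X : Type} (a : X) : FreeGroup.mk [(a, true)] = FreeGroup.of a := rfl

variable {V : Type} [Fintype V]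

/-- `K(Γ, v)` 3-deforms to a point. -/
theorem lot_acTrivial (Γ : LOT V) (v : V) : ACTrivial (Γ.relPlus v) := by
  classical
  obtain ⟨p, hp, hG, _⟩ := exists_parent Γ.graph Γ.isTree v
  have hed : ∀ x, x ≠ v → s(x, p x) ∈ Γ.graph.edgeSet := by
    intro x hx
    rw [← hG]
    exact adj_parent hp x hx
  -- the edge of a vertex
  let η : V → Option Γ.graph.edgeSet := fun x =>
    if hx : x = v then none else some ⟨s(x, p x), hed x hx⟩
  have hη : Function.Bijective η := by
    constructor
    · intro x y hxy
      by_cases hx : x = v
      · by_cases hy : y = v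
        · rw [hx, hy]
        · simp only [η, dif_pos hx, dif_neg hy] at hxy
          exact absurd hxy.symm (Option.some_ne_none _)
      · by_cases hy : y = v
        · simp only [η, dif_pos hy, dif_neg hx] at hxy
          exact absurd hxy (Option.some_ne_none _)
        · simp only [η, dif_neg hx, dif_neg hy, Option.some.injEq, Subtype.mk.injEq] at hxy
          exact edge_unique hp hx hxy
    · intro i
      rcases i with _ | e
      · exact ⟨v, dif_pos rfl⟩
      · obtain ⟨x, hx, he⟩ := exists_vertex Γ v p hp hG e
        refine ⟨x, ?_⟩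
        simp only [η, dif_neg hx, Option.some.injEq]
        exact Subtype.ext he.symm
  let η' : V ≃ Option Γ.graph.edgeSet := Equiv.ofBijective η hη
  let t : V → FreeGroup V := fun x => FreeGroup.mk (Γ.relPlus v (η x))
  have hroot : t v = FreeGroup.of v := by
    simp only [t, η, dif_pos]
    rfl
  -- partial transformations
  have key : ∀ k : ℕ, k ≤ Fintype.card V → 1 ≤ k → ∃ B : Finset V, B.card = k ∧ v ∈ B ∧
      (∀ x ∈ B, p x ∈ B) ∧
      Relation.ReflTransGen ACMove t (fun x => if x ∈ B then FreeGroup.of x else t x) := by
    intro k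
    induction k with
    | zero => intro _ h0; omega
    | succ k ih =>
      intro hk _
      rcases Nat.eq_zero_or_pos k with hk0 | hk0
      · subst hk0
        refine ⟨{v}, by simp, by simp, ?_, ?_⟩
        · intro x hx
          rw [Finset.mem_singleton] at hx ⊢
          rw [hx]
          exact hp.1
        · have : (fun x => if x ∈ ({v} : Finset V) then FreeGroup.of x else t x) = t := by
            funext x
            by_cases hx : x = v
            · rw [if_pos (by rw [Finset.mem_singleton]; exact hx), hx, hroot]
            · rw [if_neg (by rw [Finset.mem_singleton]; exact hx)]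
          rw [this]
      · obtain ⟨B, hB, hvB, hcl, hpath⟩ := ih (by omega) hk0
        -- a new vertex with parent in `B`
        obtain ⟨y, hy⟩ : ∃ y, y ∉ B := by
          by_contra hcon
          push Not at hcon
          have h1 : B = Finset.univ := Finset.eq_univ_iff_forall.2 hcon
          rw [h1, Finset.card_univ] at hB
          omega
        obtain ⟨x, hxB, hpx⟩ : ∃ x, x ∉ B ∧ p x ∈ B := by
          obtain ⟨m, hm⟩ := hp.2 y
          induction m generalizing y with
          | zero =>
            have hm' : y = v := hm
            exact absurd (by rw [hm']; exact hvB) hy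
          | succ m ihm =>
            by_cases hpy : p y ∈ B
            · exact ⟨y, hy, hpy⟩
            · exact ihm (p y) hpy (by rw [← Function.iterate_succ_apply]; exact hm)
        have hxv : x ≠ v := fun h => hxB (h ▸ hvB)
        have hne : p x ≠ x := fun h => hxB (h ▸ hpx)
        refine ⟨insert x B, by rw [Finset.card_insert_of_notMem hxB, hB],
          Finset.mem_insert_of_mem hvB, ?_, ?_⟩
        · intro z hz
          rw [Finset.mem_insert] at hz
          rcases hz with rfl | hz
          · exact Finset.mem_insert_of_mem hpx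
          · exact Finset.mem_insert_of_mem (hcl z hz)
        · refine hpath.trans ?_
          set τ : V → FreeGroup V := fun x => if x ∈ B then FreeGroup.of x else t x with hτ
          have hτy : τ (p x) = FreeGroup.of (p x) := if_pos hpx
          have hτx : τ x = t x := if_neg hxB
          have hgoal : (fun z => if z ∈ insert x B then FreeGroup.of z else t z) =
              Function.update τ x (FreeGroup.of x) := by
            funext z
            by_cases hz : z = x
            · subst hz
              rw [Function.update_self, if_pos (Finset.mem_insert_self _ _)]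
            · rw [Function.update_of_ne hz, hτ]
              simp only [Finset.mem_insert, hz, false_or]
          rw [hgoal]
          have hηx : η x = some ⟨s(x, p x), hed x hxv⟩ := dif_neg hxv
          have htx : t x = FreeGroup.of (Γ.tail ⟨s(x, p x), hed x hxv⟩) *
              FreeGroup.of (Γ.label ⟨s(x, p x), hed x hxv⟩) *
              (FreeGroup.of (Γ.head ⟨s(x, p x), hed x hxv⟩))⁻¹ *
              (FreeGroup.of (Γ.label ⟨s(x, p x), hed x hxv⟩))⁻¹ := by
            simp only [t, hηx]
            show FreeGroup.mk (Γ.rel _) = _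
            unfold LOT.rel
            rw [mk_four, mk_false, mk_false, mk_true, mk_true]
          set c := FreeGroup.of (Γ.label ⟨s(x, p x), hed x hxv⟩) with hc
          rcases ends_cases Γ p (x := x) ⟨s(x, p x), hed x hxv⟩ rfl with ⟨h1, h2⟩ | ⟨h1, h2⟩
          · rw [h1, h2] at htx
            have h3 := path_mulconj τ x (p x) hne c
            have h4 : τ x * (c * τ (p x) * c⁻¹) = FreeGroup.of x := by
              rw [hτx, htx, hτy]
              group
            rw [h4] at h3
            exact h3
          · rw [h1, h2] at htx
            have h3 := move_inv τ x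
            have h4 := path_mulconj (Function.update τ x (τ x)⁻¹) x (p x) hne 1
            have h5 := move_conj (Function.update (Function.update τ x (τ x)⁻¹) x
              (Function.update τ x (τ x)⁻¹ x * (1 * Function.update τ x (τ x)⁻¹ (p x) * 1⁻¹)))
              x c⁻¹
            have h6 : Function.update (Function.update (Function.update τ x (τ x)⁻¹) x
              (Function.update τ x (τ x)⁻¹ x * (1 * Function.update τ x (τ x)⁻¹ (p x) * 1⁻¹))) x
              (c⁻¹ * Function.update (Function.update τ x (τ x)⁻¹) x
              (Function.update τ x (τ x)⁻¹ x * (1 * Function.update τ x (τ x)⁻¹ (p x) * 1⁻¹)) x *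
                c⁻¹⁻¹) = Function.update τ x (FreeGroup.of x) := by
              rw [Function.update_idem, Function.update_idem, Function.update_self,
                Function.update_self, Function.update_of_ne hne, hτx, htx, hτy]
              congr 1
              group
            rw [h6] at h5
            exact ((Relation.ReflTransGen.single h3).trans h4).tail h5
  have hcard : 1 ≤ Fintype.card V := Fintype.card_pos_iff.2 ⟨v⟩
  obtain ⟨B, hB, _, _, hpath⟩ := key (Fintype.card V) le_rfl hcard
  have hBu : B = Finset.univ := by
    rw [← Finset.card_eq_iff_eq_univ]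
    exact hB
  have hfin : (fun x => if x ∈ B then FreeGroup.of x else t x) = fun x => FreeGroup.of x := by
    funext x
    rw [if_pos (by rw [hBu]; exact Finset.mem_univ x)]
  rw [hfin] at hpath
  refine acTrivial_of_path η'.symm ?_
  have h1 := path_map hpath (MonoidHom.id _) η'.symm
  have e1 : (fun i => FreeGroup.mk (Γ.relPlus v i)) = fun i => (MonoidHom.id _) (t (η'.symm i)) := by
    funext i
    show _ = FreeGroup.mk (Γ.relPlus v (η (η'.symm i)))
    have : η (η'.symm i) = i := η'.apply_symm_apply i
    rw [this]
  rw [e1]
  exact h1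

/-- Complexes that 3-deform to a point are contractible. -/
theorem ACTrivial.contractible {X ι : Type} [Fintype X] [Fintype ι] {rel : ι → Word X}
    (hAC : ACTrivial rel) : Subsingleton (Grp rel) ∧ Aspherical rel := by
  classical
  obtain ⟨m, e, hpath⟩ := hAC
  set r' : ι ⊕ Fin m → FreeGroup (X ⊕ Fin m) :=
    Sum.elim (fun i => FreeGroup.map Sum.inl (FreeGroup.mk (rel i)))
      (fun k => FreeGroup.of (Sum.inr k)) with hr'
  have hpath' : Relation.ReflTransGen ACStep r' (fun i => FreeGroup.of (e i)) := path_step hpath
  obtain ⟨σ', hσ', hEq, hDep⟩ := ac_path (MonoidHom.id _) (⊥ : Subgroup (FreeGroup (X ⊕ Fin m)))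
    hpath' (fun _ => 1) (fun _ => Subgroup.one_mem _)
  have hσ1 : σ' = fun _ => 1 := by
    funext i
    exact Subgroup.mem_bot.1 (hσ' i)
  subst hσ1
  have hgen : ∀ (Γ : Type) [Group Γ] (θ : FreeGroup (X ⊕ Fin m) →* Γ), (∀ i, θ (r' i) = 1) →
      ∀ x, θ (FreeGroup.of x) = 1 := by
    intro Γ _ θ h x
    have h1 := (hEq Γ θ).1 (fun i => by rw [MonoidHom.id_apply, h i, map_one]) (e.symm x)
    rw [MonoidHom.id_apply, Equiv.apply_symm_apply, map_one] at h1
    exact h1
  have htriv : Subsingleton (Grp rel) := by
    let ψ : X ⊕ Fin m → Grp rel := Sum.elim (fun x => val rel [(x, true)]) (fun _ => 1)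
    have h1 := hgen (Grp rel) (FreeGroup.lift ψ) (by
      intro i
      rcases i with i | k
      · show FreeGroup.lift ψ (FreeGroup.map Sum.inl (FreeGroup.mk (rel i))) = 1
        have h2 : (FreeGroup.lift ψ).comp (FreeGroup.map Sum.inl) =
            FreeGroup.lift (fun x => val rel [(x, true)]) := by
          refine FreeGroup.ext_hom _ _ fun x => ?_
          rw [MonoidHom.comp_apply, FreeGroup.map.of, FreeGroup.lift_apply_of,
            FreeGroup.lift_apply_of]
          rfl
        have h3 : FreeGroup.lift ψ (FreeGroup.map Sum.inl (FreeGroup.mk (rel i))) =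
            FreeGroup.lift (fun x => val rel [(x, true)]) (FreeGroup.mk (rel i)) := by
          rw [← h2]
          rfl
        rw [h3]
        exact (lift_val rel (rel i)).trans (val_rel rel i)
      · show FreeGroup.lift ψ (FreeGroup.of (Sum.inr k)) = 1
        rw [FreeGroup.lift_apply_of]
        rfl)
    have h4 : MonoidHom.id (Grp rel) = 1 := by
      refine PresentedGroup.ext fun x => ?_
      have h5 := h1 (Sum.inl x)
      rw [FreeGroup.lift_apply_of] at h5
      exact h5
    refine ⟨fun a b => ?_⟩
    have ha := DFunLike.congr_fun h4 a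
    have hb := DFunLike.congr_fun h4 b
    simp only [MonoidHom.id_apply, MonoidHom.one_apply] at ha hb
    rw [ha, hb]
  refine ⟨htriv, ?_⟩
  intro z hz
  by_contra hz0
  let rel' : ι ⊕ Fin m → Word (X ⊕ Fin m) := fun i => (r' i).toWord
  have hmk : ∀ i, FreeGroup.mk (rel' i) = r' i := fun i => FreeGroup.mk_toWord
  have hval : ∀ i, valF rel' (r' i) = 1 := by
    intro i
    rw [← hmk]
    exact valF_rel rel' i
  obtain ⟨φ, hφ⟩ := exists_map rel ((valF rel').comp (FreeGroup.map Sum.inl)) (fun i => by
    rw [MonoidHom.comp_apply]
    exact hval (Sum.inl i))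
  have hker := ker_transfer rel rel' φ (fun x => FreeGroup.of (Sum.inl x)) (fun x => by
    rw [← of_val, hφ, MonoidHom.comp_apply, FreeGroup.map.of]) z hz
  set ρ := MonoidAlgebra.mapDomainRingHom ℤ φ with hρ
  have hφi : Function.Injective φ := fun a b _ => Subsingleton.elim a b
  have hρi : Function.Injective ρ := fun a b hab => MonoidAlgebra.mapDomain_injective hφi hab
  obtain ⟨z', hz', hsum⟩ := hDep _ rel' (fun i => by rw [MonoidHom.id_apply, hval, map_one])
    ⟨Sum.elim (fun i => ρ (z i)) (fun _ => 0), by
      intro h0
      apply hz0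
      funext i
      have h1 := congrFun h0 (Sum.inl i)
      exact hρi (h1.trans (map_zero ρ).symm), by
      rw [Fintype.sum_sum_type]
      simp only [Sum.elim_inl, Sum.elim_inr, zero_smul, Finset.sum_const_zero, add_zero,
        MonoidHom.id_apply, D_one, sub_zero]
      rw [← hker]
      refine Finset.sum_congr rfl fun i _ => ?_
      congr 2
      show FreeGroup.map Sum.inl (FreeGroup.mk (rel i)) = _
      have h2 : (FreeGroup.lift fun x => (FreeGroup.of (Sum.inl x) : FreeGroup (X ⊕ Fin m))) =
          FreeGroup.map Sum.inl := by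
        refine FreeGroup.ext_hom _ _ fun x => ?_
        rw [FreeGroup.lift_apply_of, FreeGroup.map.of]
      rw [h2]⟩
  apply hz'
  funext i
  have h1 := congrFun hsum (e i)
  rw [Finset.sum_apply, Finset.sum_eq_single i] at h1
  · simp only [MonoidHom.id_apply, D_one, sub_zero, Pi.smul_apply, smul_eq_mul] at h1
    have h2 : D rel' (FreeGroup.of (e i)) (e i) = 1 := by
      show fox rel' (e i) [(e i, true)] = 1
      simp only [fox, if_true, mul_zero, add_zero]
    rw [h2, mul_one] at h1
    exact h1
  · intro j _ hj
    simp only [MonoidHom.id_apply, D_one, sub_zero, Pi.smul_apply, smul_eq_mul]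
    have h2 : D rel' (FreeGroup.of (e j)) (e i) = 0 := by
      show fox rel' (e i) [(e j, true)] = 0
      have : e j ≠ e i := fun h => hj (e.injective h)
      simp only [fox, if_neg this, mul_zero, add_zero]
    rw [h2, mul_zero]
  · intro h
    exact absurd (Finset.mem_univ _) h

end Pool.Agent.ZO
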