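import Pool.Agent.ZO.Back

/-!
# A non-aspherical subcomplex gives a non-aspherical labelled oriented forest: the kernel
-/

set_option autoImplicit false

open scoped BigOperators

namespace Pool.Agent.ZO

open Pool.Agent.FoxAsph Pool.Agent.WT Pool.Agent.WT.Trees Pool.Agent.GX Pool.Agent.GX.FringeAux

section
variable {V : Type} (Γ : LOT V) (v : V) (p : V → V) (U : Set V)
  (S : Finset (Option Γ.graph.edgeSet)) (h : ∀ i ∈ S, ∀ l ∈ Γ.relPlus v i, l.1 ∈ U)
  [Fintype V] (hp : p ∈ PF v) (hG : pGraph p = Γ.graph)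

theorem lift_val {X ι : Type} (rel : ι → Word X) (w : Word X) :
    FreeGroup.lift (fun x => val rel [(x, true)]) (FreeGroup.mk w) = val rel w := by
  induction w with
  | nil => rw [lift_nil, val_nil]
  | cons l w ih =>
    obtain ⟨x, b⟩ := l
    rw [lift_cons, ih, val_cons rel (x, b) w]
    cases b with
    | true => rw [if_pos rfl]
    | false => rw [if_neg Bool.false_ne_true, val_inv]

omit [Fintype V] in
theorem killed_val {x : V} (hx : Killed Γ v p S x) :
    val (SubPres (Γ.relPlus v) U S h) [(⟨x, killed_mem Γ v p U S h hx⟩, true)] = 1 :=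
  killed_one Γ v p U S h (fun y => val (SubPres (Γ.relPlus v) U S h) [(y, true)])
    (fun i => by rw [lift_val, val_rel]) hx

/-- the subpresentation -/
abbrev RL : S → Word ↥U := SubPres (Γ.relPlus v) U S h

/-- the forest -/
noncomputable abbrev BF : LOF := backLOF Γ v p U S h hp hG

/-- the injective homomorphism to the group of the forest -/
theorem exists_hom : ∃ φ : Grp (SubPres (Γ.relPlus v) U S h) →* Grp (backLOF Γ v p U S h hp hG).rel,
    Function.Injective φ ∧
    (∀ x (hx : Killed Γ v p S x), φ (val _ [(⟨x, killed_mem Γ v p U S h hx⟩, true)]) = 1) ∧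
    ∀ x : (backLOF Γ v p U S h hp hG).V, φ (val _ [(x.1, true)]) = val _ [(x, true)] := by
  classical
  let f : ↥U → Grp (BF Γ v p U S h hp hG).rel := fun x => if hx : Killed Γ v p S x.1 then 1 else
    val (BF Γ v p U S h hp hG).rel [((⟨x, hx⟩ : {x : ↥U // ¬ Killed Γ v p S x.1}), true)]
  have hf0 : ∀ x (hx : Killed Γ v p S x), f ⟨x, killed_mem Γ v p U S h hx⟩ = 1 :=
    fun x hx => dif_pos hx
  have hf1 : ∀ x : (BF Γ v p U S h hp hG).V, f x.1 = val (BF Γ v p U S h hp hG).rel [(x, true)] := fun x => dif_neg x.2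
  have hf : ∀ i : S, FreeGroup.lift f (FreeGroup.mk ((RL Γ v U S h) i)) = 1 := by
    intro i
    by_cases hi : Alive Γ v p S i
    · rw [lift_alive Γ v p U S h hp hG f hf0 ⟨i, hi⟩]
      have : (fun x : (BF Γ v p U S h hp hG).V => f x.1) = fun x => val (BF Γ v p U S h hp hG).rel [(x, true)] := funext hf1
      rw [this]
      exact (lift_val (BF Γ v p U S h hp hG).rel ((BF Γ v p U S h hp hG).rel ⟨i, hi⟩)).trans (val_rel (BF Γ v p U S h hp hG).rel _)
    · exact lift_dead Γ v p U S h hp hG f hf0 i hi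
  let φ : Grp (RL Γ v U S h) →* Grp (BF Γ v p U S h hp hG).rel := PresentedGroup.toGroup (f := f)
    (by rintro _ ⟨i, rfl⟩; exact hf i)
  have hφ : ∀ x, φ (val (RL Γ v U S h) [(x, true)]) = f x := by
    intro x
    have h1 : val (RL Γ v U S h) [(x, true)] = PresentedGroup.of x := rfl
    rw [h1]
    exact PresentedGroup.toGroup.of _
  let g : (BF Γ v p U S h hp hG).V → Grp (RL Γ v U S h) := fun x => val (RL Γ v U S h) [(x.1, true)]
  have hg : ∀ i : (BF Γ v p U S h hp hG).E, FreeGroup.lift g (FreeGroup.mk ((BF Γ v p U S h hp hG).rel i)) = 1 := by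
    intro i
    have h1 := lift_alive Γ v p U S h hp hG (fun x => val (RL Γ v U S h) [(x, true)])
      (fun x hx => killed_val Γ v p U S h hx) i
    rw [lift_val] at h1
    exact h1.symm.trans (val_rel (RL Γ v U S h) _)
  let ψ : Grp (BF Γ v p U S h hp hG).rel →* Grp (RL Γ v U S h) := PresentedGroup.toGroup (f := g)
    (by rintro _ ⟨i, rfl⟩; exact hg i)
  have hψ : ∀ x, ψ (val (BF Γ v p U S h hp hG).rel [(x, true)]) = g x := by
    intro x
    have h1 : val (BF Γ v p U S h hp hG).rel [(x, true)] = PresentedGroup.of x := rfl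
    rw [h1]
    exact PresentedGroup.toGroup.of _
  have hψφ : ∀ a, ψ (φ a) = a := by
    intro a
    have h1 : ψ.comp φ = MonoidHom.id _ := by
      apply PresentedGroup.ext
      intro x
      have h2 : (PresentedGroup.of x : Grp (RL Γ v U S h)) = val (RL Γ v U S h) [(x, true)] := rfl
      rw [h2]
      show ψ (φ _) = _
      rw [hφ]
      by_cases hx : Killed Γ v p S x.1
      · have h3 : f x = 1 := dif_pos hx
        rw [h3, map_one]
        exact (killed_val Γ v p U S h hx).symm
      · have h3 : f x = val (BF Γ v p U S h hp hG).rel [((⟨x, hx⟩ : {x : ↥U // ¬ Killed Γ v p S x.1}), true)] :=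
          dif_neg hx
        rw [h3, hψ]
        rfl
    exact DFunLike.congr_fun h1 a
  refine ⟨φ, fun a b hab => by rw [← hψφ a, hab, hψφ], fun x hx => ?_, fun x => ?_⟩
  · rw [hφ]
    exact hf0 x hx
  · rw [hφ]
    exact hf1 x

/-- coefficients of the relators that are not killed -/
theorem alive_zero (hF : Aspherical (backLOF Γ v p U S h hp hG).rel)
    (z : S → MonoidAlgebra ℤ (Grp (SubPres (Γ.relPlus v) U S h)))
    (hz : ∀ x, ∑ i, z i * fox (SubPres (Γ.relPlus v) U S h) x (SubPres (Γ.relPlus v) U S h i) = 0)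
    (i : S) (hi : Alive Γ v p S i) : z i = 0 := by
  classical
  have : Fintype ↥U := Fintype.ofFinite _
  obtain ⟨φ, hφi, hφ0, hφ1⟩ := exists_hom Γ v p U S h hp hG
  let ρ : MonoidAlgebra ℤ (Grp (RL Γ v U S h)) →+* MonoidAlgebra ℤ (Grp (BF Γ v p U S h hp hG).rel) :=
    MonoidAlgebra.mapDomainRingHom ℤ φ
  have hρi : Function.Injective ρ := fun a b hab => MonoidAlgebra.mapDomain_injective hφi hab
  have hρof : ∀ g, ρ (MonoidAlgebra.of ℤ (Grp (RL Γ v U S h)) g) = MonoidAlgebra.of ℤ (Grp (BF Γ v p U S h hp hG).rel) (φ g) := by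
    intro g
    show MonoidAlgebra.mapDomainRingHom ℤ φ _ = _
    simp [MonoidAlgebra.of_apply]
  let m₀ : (BF Γ v p U S h hp hG).V → ((BF Γ v p U S h hp hG).V → MonoidAlgebra ℤ (Grp (BF Γ v p U S h hp hG).rel)) := fun x => Pi.single x 1
  let m : ↥U → ((BF Γ v p U S h hp hG).V → MonoidAlgebra ℤ (Grp (BF Γ v p U S h hp hG).rel)) := fun x =>
    if hx : Killed Γ v p S x.1 then 0 else m₀ (⟨x, hx⟩ : {x : ↥U // ¬ Killed Γ v p S x.1})
  have hΘ0 : ∀ x (hx : Killed Γ v p S x),
      aff (RL Γ v U S h) ρ m ⟨x, killed_mem Γ v p U S h hx⟩ = 1 := by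
    intro x hx
    ext1 y
    rw [aff_apply, hρof, hφ0 x hx, map_one, one_smul, Equiv.Perm.one_apply]
    have h1 : m ⟨x, killed_mem Γ v p U S h hx⟩ = 0 := dif_pos hx
    rw [h1, add_zero]
  have hΘ1 : (fun x : (BF Γ v p U S h hp hG).V => aff (RL Γ v U S h) ρ m x.1) = aff (BF Γ v p U S h hp hG).rel (RingHom.id _) m₀ := by
    funext x
    ext1 y
    rw [aff_apply, aff_apply, hρof, hφ1 x]
    have h1 : m x.1 = m₀ x := dif_neg x.2
    rw [h1]
    rfl
  have hsum := sum_affW (RL Γ v U S h) ρ m z hz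
  have hterm : ∀ i : S, affW (RL Γ v U S h) ρ m ((RL Γ v U S h) i) 0 = if hi : Alive Γ v p S i then
      (fun x => fox (BF Γ v p U S h hp hG).rel x ((BF Γ v p U S h hp hG).rel ⟨i, hi⟩)) else 0 := by
    intro i
    by_cases hi : Alive Γ v p S i
    · rw [dif_pos hi]
      have h1 : affW (RL Γ v U S h) ρ m ((RL Γ v U S h) i) = affW (BF Γ v p U S h hp hG).rel (RingHom.id _) m₀ ((BF Γ v p U S h hp hG).rel ⟨i, hi⟩) := by
        unfold affW
        rw [← hΘ1]
        exact lift_alive Γ v p U S h hp hG (aff (RL Γ v U S h) ρ m) hΘ0 ⟨i, hi⟩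
      rw [h1, affW_rel, zero_add]
      ext1 y
      rw [Finset.sum_apply, Finset.sum_eq_single y]
      · show fox (BF Γ v p U S h hp hG).rel y ((BF Γ v p U S h hp hG).rel ⟨i, hi⟩) • (Pi.single y 1 : (BF Γ v p U S h hp hG).V → MonoidAlgebra ℤ (Grp (BF Γ v p U S h hp hG).rel)) y = _
        rw [Pi.single_eq_same, smul_eq_mul, mul_one]
      · intro x _ hx
        show fox (BF Γ v p U S h hp hG).rel x ((BF Γ v p U S h hp hG).rel ⟨i, hi⟩) • (Pi.single x 1 : (BF Γ v p U S h hp hG).V → MonoidAlgebra ℤ (Grp (BF Γ v p U S h hp hG).rel)) y = 0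
        rw [Pi.single_eq_of_ne (Ne.symm hx), smul_zero]
      · intro hy
        exact absurd (Finset.mem_univ y) hy
    · rw [dif_neg hi]
      have h1 : affW (RL Γ v U S h) ρ m ((RL Γ v U S h) i) = 1 :=
        lift_dead Γ v p U S h hp hG (aff (RL Γ v U S h) ρ m) hΘ0 i hi
      rw [h1]
      rfl
  have hY := hF (fun j => ρ (z j.1)) (by
    intro x
    have h1 := congrFun hsum x
    rw [Finset.sum_apply] at h1
    have h2 : ∀ i : S, (ρ (z i) • affW (RL Γ v U S h) ρ m ((RL Γ v U S h) i) 0) x =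
        if hi : Alive Γ v p S i then ρ (z i) * fox (BF Γ v p U S h hp hG).rel x ((BF Γ v p U S h hp hG).rel ⟨i, hi⟩) else 0 := by
      intro i
      rw [hterm i]
      by_cases hi : Alive Γ v p S i
      · rw [dif_pos hi, dif_pos hi]
        rfl
      · rw [dif_neg hi, dif_neg hi, smul_zero]
        rfl
    rw [Finset.sum_congr rfl (fun i _ => h2 i)] at h1
    have h3 : ∑ j : (BF Γ v p U S h hp hG).E, ρ (z j.1) * fox (BF Γ v p U S h hp hG).rel x ((BF Γ v p U S h hp hG).rel j) =
        ∑ i : S, if hi : Alive Γ v p S i then ρ (z i) * fox (BF Γ v p U S h hp hG).rel x ((BF Γ v p U S h hp hG).rel ⟨i, hi⟩) else 0 := by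
      refine Finset.sum_bij_ne_zero (fun j _ _ => j.1) (fun _ _ _ => Finset.mem_univ _)
        (fun a _ _ b _ _ hab => Subtype.ext hab) ?_ ?_
      · intro i _ hi0
        by_cases hi : Alive Γ v p S i
        · rw [dif_pos hi] at hi0
          exact ⟨⟨i, hi⟩, Finset.mem_univ _, hi0, rfl⟩
        · rw [dif_neg hi] at hi0
          exact absurd rfl hi0
      · intro j _ _
        rw [dif_pos j.2]
        rfl
    exact h3.trans h1)
  have h4 := congrFun hY (⟨i, hi⟩ : {i : S // Alive Γ v p S i})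
  exact hρi (h4.trans (map_zero ρ).symm)

omit [Fintype V] in
/-- the translation part of a relator with killed ends -/
theorem aff_dead (m : ↥U → MonoidAlgebra ℤ (Grp (SubPres (Γ.relPlus v) U S h)))
    (e : Γ.graph.edgeSet) (he : some e ∈ S) (ht : Killed Γ v p S (Γ.tail e))
    (hh : Killed Γ v p S (Γ.head e)) :
    affW (SubPres (Γ.relPlus v) U S h) (RingHom.id _) m
      (SubPres (Γ.relPlus v) U S h ⟨some e, he⟩) 0 =
      m ⟨_, tail_mem Γ v U S h e he⟩ - MonoidAlgebra.of ℤ _ (val (SubPres (Γ.relPlus v) U S h)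
        [(⟨_, label_mem Γ v U S h e he⟩, true)]) * m ⟨_, head_mem Γ v U S h e he⟩ := by
  have h1 : affW (RL Γ v U S h) (RingHom.id _) m ((RL Γ v U S h) ⟨some e, he⟩) =
      aff (RL Γ v U S h) (RingHom.id _) m ⟨_, tail_mem Γ v U S h e he⟩ *
      aff (RL Γ v U S h) (RingHom.id _) m ⟨_, label_mem Γ v U S h e he⟩ *
      (aff (RL Γ v U S h) (RingHom.id _) m ⟨_, head_mem Γ v U S h e he⟩)⁻¹ *
      (aff (RL Γ v U S h) (RingHom.id _) m ⟨_, label_mem Γ v U S h e he⟩)⁻¹ :=
    lift_some Γ v U S h _ e he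
  rw [h1]
  have h2 : val (RL Γ v U S h) [(⟨Γ.tail e, tail_mem Γ v U S h e he⟩, true)] = 1 :=
    killed_val Γ v p U S h ht
  have h3 : val (RL Γ v U S h) [(⟨Γ.head e, head_mem Γ v U S h e he⟩, false)] = 1 := by
    rw [val_inv]
    have := killed_val Γ v p U S h hh
    rw [this, inv_one]
  simp only [Equiv.Perm.mul_apply, aff_apply, aff_inv_apply, h2, h3, map_one,
    RingHom.id_apply, smul_eq_mul, one_mul]
  rw [zero_sub, mul_sub, mul_neg, mul_neg, ← mul_assoc, ← map_mul, val_mul_inv, map_one, one_mul]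
  abel

include hp hG in
/-- the whole kernel -/
theorem back (hF : Aspherical (backLOF Γ v p U S h hp hG).rel)
    (hdist : ∀ u, u ≠ v → Γ.graph.dist (p u) v < Γ.graph.dist u v) :
    Aspherical (SubPres (Γ.relPlus v) U S h) := by
  classical
  have : Fintype ↥U := Fintype.ofFinite _
  intro z hz
  have hal := alive_zero Γ v p U S h hp hG hF z hz
  -- edges with killed ends
  have hedge : ∀ (e : Γ.graph.edgeSet) (he : some e ∈ S), z ⟨some e, he⟩ = 0 := by
    by_contra hcon
    push Not at hcon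
    obtain ⟨e₁, he₁, hz₁⟩ := hcon
    let B : Finset V := Finset.univ.filter fun x => x ≠ v ∧ ∃ (e : Γ.graph.edgeSet)
      (he : some e ∈ S), (e : Sym2 V) = s(x, p x) ∧ z ⟨some e, he⟩ ≠ 0
    have hB : B.Nonempty := by
      obtain ⟨x, hx, hex⟩ := exists_vertex Γ v p hp hG e₁
      exact ⟨x, by
        rw [Finset.mem_filter]
        exact ⟨Finset.mem_univ _, hx, e₁, he₁, hex, hz₁⟩⟩
    obtain ⟨x, hxB, hmax⟩ := Finset.exists_max_image B (fun x => Γ.graph.dist x v) hB
    rw [Finset.mem_filter] at hxB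
    obtain ⟨_, hxv, e, he, hex, hze⟩ := hxB
    have hkt : Killed Γ v p S (Γ.tail e) := by
      by_contra hcon
      exact hze (hal ⟨some e, he⟩ ⟨e, rfl, hcon⟩)
    have hkh := (killed_ends Γ v p S hxv e hex he).1 hkt
    have hkx : Killed Γ v p S x := by
      rcases ends_cases Γ p e hex with ⟨h1, _⟩ | ⟨_, h1⟩
      · rw [← h1]
        exact hkt
      · rw [← h1]
        exact hkh
    have hxU : x ∈ U := killed_mem Γ v p U S h hkx
    obtain ⟨m, hm⟩ : ∃ m : ↥U → MonoidAlgebra ℤ (Grp (SubPres (Γ.relPlus v) U S h)),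
      ∀ y, m y = if y.1 = x then 1 else 0 := ⟨_, fun _ => rfl⟩
    have hsum := sum_affW (SubPres (Γ.relPlus v) U S h) (RingHom.id _) m z hz
    rw [Finset.sum_eq_single (⟨some e, he⟩ : S)] at hsum
    · rw [aff_dead Γ v p U S h _ e he hkt hkh] at hsum
      have hne : x ≠ p x := ne_parent hp x hxv
      rw [RingHom.id_apply, smul_eq_mul] at hsum
      rcases ends_cases Γ p e hex with ⟨h1, h2⟩ | ⟨h1, h2⟩
      · simp only [hm, h1, h2, if_true, hne.symm, if_false, mul_zero, sub_zero, mul_one] at hsum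
        exact hze hsum
      · simp only [hm, h1, h2, if_true, hne.symm, if_false, zero_sub, mul_one] at hsum
        apply hze
        have h5 := congrArg (fun a => a * MonoidAlgebra.of ℤ (Grp (SubPres (Γ.relPlus v) U S h))
          (val (SubPres (Γ.relPlus v) U S h)
            [(⟨Γ.label e, label_mem Γ v U S h e he⟩, false)])) hsum
        simp only [mul_neg, neg_mul, zero_mul, mul_assoc, ← map_mul, val_mul_inv, map_one,
          mul_one, neg_eq_zero] at h5
        exact h5
    · rintro ⟨i, hi⟩ _ hne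
      rcases i with _ | e'
      · have h1 : affW (SubPres (Γ.relPlus v) U S h) (RingHom.id _) m
            (SubPres (Γ.relPlus v) U S h ⟨none, hi⟩) =
            aff (SubPres (Γ.relPlus v) U S h) (RingHom.id _) m
            ⟨v, root_mem Γ v U S h hi⟩ := lift_none' Γ v U S h _ hi
        rw [h1, aff_apply, smul_zero, zero_add]
        simp only [hm, hxv.symm, if_false, smul_zero]
      · by_cases hz' : z ⟨some e', hi⟩ = 0
        · rw [hz', map_zero, zero_smul]
        · obtain ⟨x', hx', hex'⟩ := exists_vertex Γ v p hp hG e'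
          have hkt' : Killed Γ v p S (Γ.tail e') := by
            by_contra hcon
            exact hz' (hal ⟨some e', hi⟩ ⟨e', rfl, hcon⟩)
          have hkh' := (killed_ends Γ v p S hx' e' hex' hi).1 hkt'
          have hxx : x' ≠ x := by
            rintro rfl
            apply hne
            apply Subtype.ext
            show some e' = some e
            rw [Subtype.ext (hex'.trans hex.symm)]
          have hpx : p x' ≠ x := by
            intro hpx
            have h1 := hmax x' (by
              rw [Finset.mem_filter]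
              exact ⟨Finset.mem_univ _, hx', e', hi, hex', hz'⟩)
            have h2 := hdist x' hx'
            rw [hpx] at h2
            exact absurd h1 (not_le.2 h2)
          rw [aff_dead Γ v p U S h _ e' hi hkt' hkh']
          rcases ends_cases Γ p e' hex' with ⟨h1, h2⟩ | ⟨h1, h2⟩
          · simp only [hm, h1, h2, hxx, hpx, if_false, mul_zero, sub_zero, smul_zero]
          · simp only [hm, h1, h2, hxx, hpx, if_false, mul_zero, sub_zero, smul_zero]
    · intro hcon
      exact absurd (Finset.mem_univ _) hcon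
  funext i
  obtain ⟨i, hi⟩ := i
  rcases i with _ | e
  · obtain ⟨m, hm⟩ : ∃ m : ↥U → MonoidAlgebra ℤ (Grp (SubPres (Γ.relPlus v) U S h)),
      ∀ y, m y = 1 := ⟨_, fun _ => rfl⟩
    have hsum := sum_affW (SubPres (Γ.relPlus v) U S h) (RingHom.id _) m z hz
    rw [Finset.sum_eq_single (⟨none, hi⟩ : S)] at hsum
    · have h1 : affW (SubPres (Γ.relPlus v) U S h) (RingHom.id _) m
          (SubPres (Γ.relPlus v) U S h ⟨none, hi⟩) =
          aff (SubPres (Γ.relPlus v) U S h) (RingHom.id _) m ⟨v, root_mem Γ v U S h hi⟩ :=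
        lift_none' Γ v U S h _ hi
      rw [h1, aff_apply, smul_zero, zero_add, RingHom.id_apply, smul_eq_mul, hm, mul_one] at hsum
      exact hsum
    · rintro ⟨j, hj⟩ _ hne
      rcases j with _ | e'
      · exact absurd rfl hne
      · rw [hedge e' hj, map_zero, zero_smul]
    · intro hcon
      exact absurd (Finset.mem_univ _) hcon
  · exact hedge e hi

end

/-- If all labelled oriented forests are aspherical, so are all subcomplexes of the complexes
`K(Γ, v)`. -/
theorem exists_LOF {V : Type} [Fintype V] (Γ : LOT V) (v : V) (hΓ : ¬ AllAspherical Γ v) :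
    ∃ F : LOF, ¬ Aspherical F.rel := by
  by_contra hcon
  push Not at hcon
  apply hΓ
  intro U S h
  obtain ⟨p, hp, hG, hdist⟩ := exists_parent Γ.graph Γ.isTree v
  exact back Γ v p U S h hp hG (hcon _) hdist

end Pool.Agent.ZO
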