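import Pool.Agent.ZO.Tour

/-!
# Every labelled oriented forest has a tour
-/

set_option autoImplicit false

namespace Pool.Agent.ZO

namespace LOF

/-- two vertices are joined by an edge -/
def Adj (F : LOF) (x y : F.V) : Prop :=
  ∃ e, (x = F.tail e ∧ y = F.head e) ∨ (x = F.head e ∧ y = F.tail e)

/-- two vertices are connected -/
def Conn (F : LOF) : F.V → F.V → Prop := Relation.ReflTransGen F.Adj

theorem conn_refl (F : LOF) (x : F.V) : F.Conn x x := Relation.ReflTransGen.refl

theorem conn_symm {F : LOF} {x y : F.V} (h : F.Conn x y) : F.Conn y x := by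
  induction h with
  | refl => exact Relation.ReflTransGen.refl
  | tail _ hbc ih =>
    refine Relation.ReflTransGen.head ?_ ih
    obtain ⟨e, h | h⟩ := hbc
    · exact ⟨e, Or.inr ⟨h.2, h.1⟩⟩
    · exact ⟨e, Or.inl ⟨h.2, h.1⟩⟩

theorem conn_trans {F : LOF} {x y z : F.V} (h : F.Conn x y) (h' : F.Conn y z) : F.Conn x z :=
  Relation.ReflTransGen.trans h h'

end LOF

/-- a partial tour -/
structure PT (F : LOF) where
  N : ℕ
  w : ℕ → F.V
  st : ℕ → Option (F.E × Bool)
  fwd : ∀ s < N, ∀ e, st (s + 1) = some (e, true) → w s = F.tail e ∧ w (s + 1) = F.head e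
  bwd : ∀ s < N, ∀ e, st (s + 1) = some (e, false) → w s = F.head e ∧ w (s + 1) = F.tail e
  cut : ∀ i j s, i ≤ s → s < j → j ≤ N → st (s + 1) = none → ¬ F.Conn (w i) (w j)

namespace PT

variable {F : LOF}

/-- visited vertices -/
def Vis (T : PT F) (x : F.V) : Prop := ∃ i, i ≤ T.N ∧ T.w i = x

/-- traversed edges -/
def Trv (T : PT F) (e : F.E) : Prop := ∃ s, s < T.N ∧ ∃ b, T.st (s + 1) = some (e, b)

/-- `T'` continues `T` -/
def Le (T T' : PT F) : Prop :=
  T.N ≤ T'.N ∧ (∀ i ≤ T.N, T'.w i = T.w i) ∧ ∀ s < T.N, T'.st (s + 1) = T.st (s + 1)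

/-- `T'` continues `T` in the same component -/
def Grow (T T' : PT F) : Prop :=
  Le T T' ∧ ∀ i, T.N ≤ i → i ≤ T'.N → F.Conn (T.w T.N) (T'.w i)

theorem Le.refl (T : PT F) : Le T T := ⟨le_rfl, fun _ _ => rfl, fun _ _ => rfl⟩

theorem Le.trans {T T' T'' : PT F} (h : Le T T') (h' : Le T' T'') : Le T T'' :=
  ⟨h.1.trans h'.1, fun i hi => (h'.2.1 i (hi.trans h.1)).trans (h.2.1 i hi),
    fun s hs => (h'.2.2 s (hs.trans_le h.1)).trans (h.2.2 s hs)⟩

theorem Le.vis {T T' : PT F} (h : Le T T') {x : F.V} (hx : T.Vis x) : T'.Vis x := by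
  obtain ⟨i, hi, hw⟩ := hx
  exact ⟨i, hi.trans h.1, (h.2.1 i hi).trans hw⟩

theorem Le.trv {T T' : PT F} (h : Le T T') {e : F.E} (he : T.Trv e) : T'.Trv e := by
  obtain ⟨s, hs, b, hst⟩ := he
  exact ⟨s, hs.trans_le h.1, b, (h.2.2 s hs).trans hst⟩

theorem Grow.refl (T : PT F) : Grow T T := by
  refine ⟨Le.refl T, fun i h1 h2 => ?_⟩
  have : i = T.N := le_antisymm h2 h1
  rw [this]
  exact F.conn_refl _

theorem Grow.conn {T T' : PT F} (h : Grow T T') : F.Conn (T.w T.N) (T'.w T'.N) :=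
  h.2 _ h.1.1 le_rfl

theorem Grow.trans {T T' T'' : PT F} (h : Grow T T') (h' : Grow T' T'') : Grow T T'' := by
  refine ⟨h.1.trans h'.1, fun i h1 h2 => ?_⟩
  rcases Nat.lt_or_ge T'.N i with h3 | h3
  · exact LOF.conn_trans h.conn (h'.2 i h3.le h2)
  · rw [h'.1.2.1 i h3]
    exact h.2 i h1 h3

/-- one more step -/
def snoc (T : PT F) (y : F.V) (o : Option (F.E × Bool))
    (h1 : ∀ e, o = some (e, true) → T.w T.N = F.tail e ∧ y = F.head e)
    (h2 : ∀ e, o = some (e, false) → T.w T.N = F.head e ∧ y = F.tail e)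
    (h3 : o = none → ∀ i ≤ T.N, ¬ F.Conn (T.w i) y) : PT F where
  N := T.N + 1
  w := fun i => if i ≤ T.N then T.w i else y
  st := fun i => if i ≤ T.N then T.st i else o
  fwd := by
    intro s hs e he
    rcases Nat.lt_or_ge s T.N with h | h
    · rw [if_pos (by omega)] at he
      rw [if_pos (by omega), if_pos (by omega)]
      exact T.fwd s h e he
    · have hsN : s = T.N := by omega
      rw [if_neg (by omega)] at he
      rw [if_pos (by omega), if_neg (by omega), hsN]
      exact h1 e he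
  bwd := by
    intro s hs e he
    rcases Nat.lt_or_ge s T.N with h | h
    · rw [if_pos (by omega)] at he
      rw [if_pos (by omega), if_pos (by omega)]
      exact T.bwd s h e he
    · have hsN : s = T.N := by omega
      rw [if_neg (by omega)] at he
      rw [if_pos (by omega), if_neg (by omega), hsN]
      exact h2 e he
  cut := by
    intro i j s hi hj hjN hs
    have hconn : F.Conn (T.w T.N) y ∨ o = none := by
      rcases o with _ | ⟨e, b⟩
      · exact Or.inr rfl
      · left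
        cases b with
        | true =>
          obtain ⟨h4, h5⟩ := h1 e rfl
          exact Relation.ReflTransGen.single ⟨e, Or.inl ⟨h4, h5⟩⟩
        | false =>
          obtain ⟨h4, h5⟩ := h2 e rfl
          exact Relation.ReflTransGen.single ⟨e, Or.inr ⟨h4, h5⟩⟩
    rcases Nat.lt_or_ge s T.N with h | h
    · rw [if_pos (by omega)] at hs
      rw [if_pos (by omega)]
      rcases Nat.lt_or_ge T.N j with h' | h'
      · rw [if_neg (by omega)]
        rcases hconn with hc | hc
        · intro h4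
          exact T.cut i T.N s hi h le_rfl hs (LOF.conn_trans h4 (LOF.conn_symm hc))
        · exact h3 hc i (by omega)
      · rw [if_pos h']
        exact T.cut i j s hi hj h' hs
    · rw [if_neg (by omega)] at hs
      rw [if_pos (by omega), if_neg (by omega)]
      exact h3 hs i (by omega)

theorem le_snoc (T : PT F) (y : F.V) (o : Option (F.E × Bool)) (h1) (h2) (h3) :
    Le T (T.snoc y o h1 h2 h3) := by
  refine ⟨Nat.le_succ _, fun i hi => ?_, fun s hs => ?_⟩
  · show (if i ≤ T.N then T.w i else y) = T.w i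
    rw [if_pos hi]
  · show (if s + 1 ≤ T.N then T.st (s + 1) else o) = T.st (s + 1)
    rw [if_pos (by omega)]

theorem snoc_end (T : PT F) (y : F.V) (o : Option (F.E × Bool)) (h1) (h2) (h3) :
    (T.snoc y o h1 h2 h3).w (T.snoc y o h1 h2 h3).N = y := by
  show (if T.N + 1 ≤ T.N then T.w (T.N + 1) else y) = y
  rw [if_neg (by omega)]

theorem snoc_trv (T : PT F) (y : F.V) (e : F.E) (b : Bool) (h1) (h2) (h3) :
    (T.snoc y (some (e, b)) h1 h2 h3).Trv e := by
  refine ⟨T.N, Nat.lt_succ_self _, b, ?_⟩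
  show (if T.N + 1 ≤ T.N then T.st (T.N + 1) else some (e, b)) = some (e, b)
  rw [if_neg (by omega)]

theorem grow_snoc (T : PT F) (y : F.V) (o : Option (F.E × Bool)) (h1) (h2) (h3)
    (hc : F.Conn (T.w T.N) y) : Grow T (T.snoc y o h1 h2 h3) := by
  refine ⟨le_snoc _ _ _ _ _ _, fun i hi hi' => ?_⟩
  rcases Nat.lt_or_ge T.N i with h | h
  · have h4 : (T.snoc y o h1 h2 h3).w i = y := by
      show (if i ≤ T.N then T.w i else y) = y
      rw [if_neg (by omega)]
    rw [h4]
    exact hc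
  · have h4 : i = T.N := by omega
    rw [h4, (le_snoc T y o h1 h2 h3).2.1 _ le_rfl]
    exact F.conn_refl _

/-- along an edge, forwards -/
theorem exists_fwd (T : PT F) (e : F.E) (h : T.w T.N = F.tail e) :
    ∃ T', Grow T T' ∧ T'.w T'.N = F.head e ∧ T'.Trv e := by
  refine ⟨T.snoc (F.head e) (some (e, true)) ?_ ?_ ?_, grow_snoc _ _ _ _ _ _ ?_, snoc_end _ _ _ _ _ _,
    snoc_trv _ _ _ _ _ _ _⟩
  · intro e' he
    have := (Prod.mk.inj (Option.some.inj he)).1
    rw [← this]
    exact ⟨h, rfl⟩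
  · intro e' he
    exact absurd (Prod.mk.inj (Option.some.inj he)).2 (by decide)
  · intro he
    exact absurd he (Option.some_ne_none _)
  · exact Relation.ReflTransGen.single ⟨e, Or.inl ⟨h, rfl⟩⟩

/-- along an edge, backwards -/
theorem exists_bwd (T : PT F) (e : F.E) (h : T.w T.N = F.head e) :
    ∃ T', Grow T T' ∧ T'.w T'.N = F.tail e ∧ T'.Trv e := by
  refine ⟨T.snoc (F.tail e) (some (e, false)) ?_ ?_ ?_, grow_snoc _ _ _ _ _ _ ?_, snoc_end _ _ _ _ _ _,
    snoc_trv _ _ _ _ _ _ _⟩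
  · intro e' he
    exact absurd (Prod.mk.inj (Option.some.inj he)).2 (by decide)
  · intro e' he
    have := (Prod.mk.inj (Option.some.inj he)).1
    rw [← this]
    exact ⟨h, rfl⟩
  · intro he
    exact absurd he (Option.some_ne_none _)
  · exact Relation.ReflTransGen.single ⟨e, Or.inr ⟨h, rfl⟩⟩

theorem walk (T : PT F) (y : F.V) (h : F.Conn (T.w T.N) y) :
    ∃ T', Grow T T' ∧ T'.w T'.N = y := by
  have key : ∀ x y, F.Conn x y → ∀ T : PT F, T.w T.N = x → ∃ T', Grow T T' ∧ T'.w T'.N = y := by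
    intro x y hxy
    induction hxy with
    | refl => exact fun T hT => ⟨T, Grow.refl T, hT⟩
    | tail _ hbc ih =>
      intro T hT
      obtain ⟨T', h1, h2⟩ := ih T hT
      obtain ⟨e, h3 | h3⟩ := hbc
      · obtain ⟨T'', h4, h5, _⟩ := exists_fwd T' e (h2.trans h3.1)
        exact ⟨T'', h1.trans h4, h5.trans h3.2.symm⟩
      · obtain ⟨T'', h4, h5, _⟩ := exists_bwd T' e (h2.trans h3.1)
        exact ⟨T'', h1.trans h4, h5.trans h3.2.symm⟩
  exact key _ _ h T rfl

theorem cover_edges (T : PT F) (A : Finset F.E) (hA : ∀ e ∈ A, F.Conn (T.w T.N) (F.tail e)) :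
    ∃ T', Grow T T' ∧ ∀ e ∈ A, T'.Trv e := by
  classical
  induction A using Finset.induction_on with
  | empty => exact ⟨T, Grow.refl T, by simp⟩
  | insert e A he ih =>
    obtain ⟨T', h1, h2⟩ := ih (fun e' he' => hA e' (Finset.mem_insert_of_mem he'))
    obtain ⟨T'', h3, h4⟩ := walk T' (F.tail e)
      (LOF.conn_trans (LOF.conn_symm h1.conn) (hA e (Finset.mem_insert_self e A)))
    obtain ⟨T3, h5, _, h6⟩ := exists_fwd T'' e h4
    refine ⟨T3, (h1.trans h3).trans h5, fun e' he' => ?_⟩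
    rcases Finset.mem_insert.1 he' with h | h
    · rw [h]
      exact h6
    · exact (h3.trans h5).1.trv (h2 e' h)

theorem cover_verts (T : PT F) (A : Finset F.V) (hA : ∀ x ∈ A, F.Conn (T.w T.N) x) :
    ∃ T', Grow T T' ∧ ∀ x ∈ A, T'.Vis x := by
  classical
  induction A using Finset.induction_on with
  | empty => exact ⟨T, Grow.refl T, by simp⟩
  | insert x A hx ih =>
    obtain ⟨T', h1, h2⟩ := ih (fun x' hx' => hA x' (Finset.mem_insert_of_mem hx'))
    obtain ⟨T'', h3, h4⟩ := walk T' x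
      (LOF.conn_trans (LOF.conn_symm h1.conn) (hA x (Finset.mem_insert_self x A)))
    refine ⟨T'', h1.trans h3, fun x' hx' => ?_⟩
    rcases Finset.mem_insert.1 hx' with h | h
    · rw [h]
      exact ⟨T''.N, le_rfl, h4⟩
    · exact h3.1.vis (h2 x' h)

/-- cover the present component -/
theorem cover (T : PT F) : ∃ T', Grow T T' ∧ (∀ x, F.Conn (T.w T.N) x → T'.Vis x) ∧
    ∀ e, F.Conn (T.w T.N) (F.tail e) → T'.Trv e := by
  classical
  obtain ⟨T', h1, h2⟩ := cover_edges T (Finset.univ.filter fun e => F.Conn (T.w T.N) (F.tail e))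
    (fun e he => (Finset.mem_filter.1 he).2)
  obtain ⟨T'', h3, h4⟩ := cover_verts T' (Finset.univ.filter fun x => F.Conn (T'.w T'.N) x)
    (fun x hx => (Finset.mem_filter.1 hx).2)
  refine ⟨T'', h1.trans h3, fun x hx => h4 x ?_, fun e he => h3.1.trv (h2 e ?_)⟩
  · rw [Finset.mem_filter]
    exact ⟨Finset.mem_univ x, LOF.conn_trans (LOF.conn_symm h1.conn) hx⟩
  · rw [Finset.mem_filter]
    exact ⟨Finset.mem_univ e, he⟩

/-- everything connected to a visited vertex is covered -/
def Done (T : PT F) : Prop := ∀ i ≤ T.N, (∀ x, F.Conn (T.w i) x → T.Vis x) ∧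
  ∀ e, F.Conn (T.w i) (F.tail e) → T.Trv e

theorem all (k : ℕ) : ∀ T : PT F, T.Done → {x | ¬ T.Vis x}.ncard ≤ k →
    ∃ T' : PT F, (∀ x, T'.Vis x) ∧ ∀ e, T'.Trv e := by
  classical
  induction k with
  | zero =>
    intro T hT hk
    have h0 : {x | ¬ T.Vis x} = ∅ := (Set.ncard_eq_zero (Set.toFinite _)).1 (Nat.le_zero.1 hk)
    have hvis : ∀ x, T.Vis x := by
      intro x
      by_contra hx
      have : x ∈ {x | ¬ T.Vis x} := hx
      rw [h0] at this
      exact this
    refine ⟨T, hvis, fun e => ?_⟩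
    obtain ⟨i, hi, hw⟩ := hvis (F.tail e)
    exact (hT i hi).2 e (by rw [hw]; exact F.conn_refl _)
  | succ k ih =>
    intro T hT hk
    by_cases hall : ∀ x, T.Vis x
    · refine ⟨T, hall, fun e => ?_⟩
      obtain ⟨i, hi, hw⟩ := hall (F.tail e)
      exact (hT i hi).2 e (by rw [hw]; exact F.conn_refl _)
    · push Not at hall
      obtain ⟨x, hx⟩ := hall
      have hno : ∀ i ≤ T.N, ¬ F.Conn (T.w i) x := fun i hi hc => hx ((hT i hi).1 x hc)
      let T₁ := T.snoc x none (fun e he => absurd he.symm (Option.some_ne_none _))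
        (fun e he => absurd he.symm (Option.some_ne_none _)) (fun _ => hno)
      have hle : Le T T₁ := le_snoc _ _ _ _ _ _
      have hend : T₁.w T₁.N = x := snoc_end _ _ _ _ _ _
      obtain ⟨T', h1, h2, h3⟩ := cover T₁
      apply ih T'
      · intro i hi
        rcases Nat.lt_or_ge T.N i with h4 | h4
        · have h5 := h1.2 i h4 hi
          exact ⟨fun y hy => h2 y (LOF.conn_trans h5 hy), fun e he => h3 e (LOF.conn_trans h5 he)⟩
        · have h5 : T'.w i = T.w i := (h1.1.2.1 i (h4.trans hle.1)).trans (hle.2.1 i h4)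
          rw [h5]
          exact ⟨fun y hy => (hle.trans h1.1).vis ((hT i h4).1 y hy),
            fun e he => (hle.trans h1.1).trv ((hT i h4).2 e he)⟩
      · have hsub : {y | ¬ T'.Vis y} ⊂ {y | ¬ T.Vis y} := by
          rw [Set.ssubset_iff_of_subset]
          · refine ⟨x, hx, fun h => h ?_⟩
            exact h1.1.vis ⟨T₁.N, le_rfl, hend⟩
          · intro y hy hy'
            exact hy ((hle.trans h1.1).vis hy')
        have := Set.ncard_lt_ncard hsub (Set.toFinite _)
        omega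

end PT

theorem exists_tour (F : LOF) (x₀ : F.V) : Nonempty (Tour F) := by
  classical
  let T₀ : PT F := ⟨0, fun _ => x₀, fun _ => none, fun s hs => absurd hs (Nat.not_lt_zero s),
    fun s hs => absurd hs (Nat.not_lt_zero s), fun i j s _ h2 h3 => by omega⟩
  obtain ⟨T₁, h1, h2, h3⟩ := PT.cover T₀
  have hdone : T₁.Done := by
    intro i hi
    have h5 := h1.2 i (Nat.zero_le i) hi
    exact ⟨fun y hy => h2 y (LOF.conn_trans h5 hy), fun e he => h3 e (LOF.conn_trans h5 he)⟩
  obtain ⟨T, hv, ht⟩ := PT.all _ T₁ hdone le_rfl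
  exact ⟨⟨T.N, T.w, T.st, T.fwd, T.bwd, fun i j s h4 h5 h6 h7 h8 =>
    T.cut i j s h4 h5 h6 h7 (by rw [h8]; exact F.conn_refl _), hv, ht⟩⟩

end Pool.Agent.ZO
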