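import Pool.Agent.ZO.Fail
import Pool.Agent.ZO.Back2
import Pool.Agent.ZO.TourEx
import Pool.Agent.GX.Forest
import Pool.Agent.WT.RandomAll

/-!
# The dichotomy, and the count of labelled oriented trees
-/

set_option autoImplicit false

open scoped BigOperators
open Filter

namespace Pool.Agent.ZO

open Pool.Agent.FoxAsph Pool.Agent.WT Pool.Agent.WT.Trees Pool.Agent.GX

/-- Either all subcomplexes of all complexes `K(Γ, v)` are aspherical, or there is a pattern whose
realisation at two disjoint places gives, for every `v`, a non-aspherical subcomplex of `K(Γ, v)`. -/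
theorem dichotomy : (∀ (n : ℕ) (Γ : LOT (Fin n)) (v : Fin n), AllAspherical Γ v) ∨
    ∃ P : Pattern, ∀ (V : Type) [Fintype V] (Γ : LOT V) (p : V → V) (r : V) (o : V → Bool)
      (l : V → V), Desc Γ p r o l → Twice P p r o l → ∀ v, ¬ AllAspherical Γ v := by
  by_cases hall : ∀ (n : ℕ) (Γ : LOT (Fin n)) (v : Fin n), AllAspherical Γ v
  · exact Or.inl hall
  · right
    push Not at hall
    obtain ⟨n, Γ₀, v₀, h₀⟩ := hall
    obtain ⟨F, hF⟩ := exists_LOF Γ₀ v₀ h₀
    have hV : Nonempty F.V := by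
      by_contra hcon
      rw [not_nonempty_iff] at hcon
      have hE : IsEmpty F.E := ⟨fun e => hcon.false (F.tail e)⟩
      apply hF
      intro z _
      funext e
      exact (hE.false e).elim
    obtain ⟨x₀⟩ := hV
    obtain ⟨T⟩ := exists_tour F x₀
    refine ⟨T.pattern, ?_⟩
    intro V _ Γ p r o l hD ⟨u, u', ⟨H, seg, top, hR⟩, ⟨H', seg', top', hR'⟩, hdis⟩ v
    by_cases hv : v ∈ below p u
    · exact fail T Γ hF hD hR' v (fun hv' => Set.disjoint_left.1 hdis hv hv')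
    · exact fail T Γ hF hD hR v hv

section count

variable {V : Type}

/-- a description determines the labelled oriented tree -/
theorem Desc.unique {Γ Γ' : LOT V} {p : V → V} {r : V} {o : V → Bool} {l : V → V}
    (h : Desc Γ p r o l) (h' : Desc Γ' p r o l) : Γ = Γ' := by
  obtain ⟨G, hT, tl, hd, en, lb⟩ := Γ
  obtain ⟨G', hT', tl', hd', en', lb'⟩ := Γ'
  have hG : G = G' := h.graph.symm.trans h'.graph
  subst hG
  have key : ∀ e : G.edgeSet, tl e = tl' e ∧ hd e = hd' e ∧ lb e = lb' e := by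
    intro e
    obtain ⟨x, hx, hex⟩ := exists_vertex (⟨G, hT, tl, hd, en, lb⟩ : LOT V) r p h.mem h.graph e
    obtain ⟨h1, h2, h3⟩ := h.edge x hx e hex
    obtain ⟨h1', h2', h3'⟩ := h'.edge x hx e hex
    cases ho : o x with
    | true =>
      obtain ⟨h4, h5⟩ := h2 ho
      obtain ⟨h4', h5'⟩ := h2' ho
      exact ⟨h4.trans h4'.symm, h5.trans h5'.symm, h1.trans h1'.symm⟩
    | false =>
      obtain ⟨h4, h5⟩ := h3 ho
      obtain ⟨h4', h5'⟩ := h3' ho
      exact ⟨h4.trans h4'.symm, h5.trans h5'.symm, h1.trans h1'.symm⟩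
  have e1 : tl = tl' := funext fun e => (key e).1
  have e2 : hd = hd' := funext fun e => (key e).2.1
  have e3 : lb = lb' := funext fun e => (key e).2.2
  subst e1 e2 e3
  rfl

open Classical in
/-- every labelled oriented tree has a description, with prescribed values at the root -/
theorem exists_desc (Γ : LOT V) (r : V) (b : Bool) (y : V) :
    ∃ (p : V → V) (o : V → Bool) (l : V → V), Desc Γ p r o l ∧ o r = b ∧ l r = y := by
  obtain ⟨p, hp, hG, _⟩ := exists_parent Γ.graph Γ.isTree r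
  have hed : ∀ x, x ≠ r → s(x, p x) ∈ Γ.graph.edgeSet := by
    intro x hx
    rw [← hG]
    exact adj_parent hp x hx
  refine ⟨p, fun x => if hx : x = r then b else decide (Γ.tail ⟨s(x, p x), hed x hx⟩ = p x),
    fun x => if hx : x = r then y else Γ.label ⟨s(x, p x), hed x hx⟩, ⟨hp, hG, ?_⟩, dif_pos rfl,
    dif_pos rfl⟩
  intro x hx e he
  have hee : e = ⟨s(x, p x), hed x hx⟩ := Subtype.ext he
  have hne : x ≠ p x := ne_parent hp x hx
  rw [dif_neg hx, dif_neg hx, ← hee]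
  refine ⟨rfl, fun h => ?_, fun h => ?_⟩
  · rw [decide_eq_true_eq] at h
    rcases ends_cases Γ p e he with ⟨h1, h2⟩ | ⟨h1, h2⟩
    · exact absurd (h1.symm.trans h) hne
    · exact ⟨h1, h2⟩
  · rw [decide_eq_false_iff_not] at h
    rcases ends_cases Γ p e he with ⟨h1, h2⟩ | ⟨h1, h2⟩
    · exact ⟨h1, h2⟩
    · exact absurd h1 h

end count

/-- the number of trees -/
theorem card_treeOn (n : ℕ) (r : Fin n) : Fintype.card (TreeOn (Fin n)) = n ^ (n - 2) := by
  have h1 := GX.card_PF r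
  rw [Fintype.card_fin] at h1
  rw [← h1, ← Nat.card_coe_set_eq, ← Nat.card_eq_fintype_card]
  symm
  refine Nat.card_congr (Equiv.ofBijective (fun p : PF r => (⟨pGraph p.1, pGraph_isTree p.2⟩ :
    TreeOn (Fin n))) ⟨fun p q hpq => ?_, fun G => ?_⟩)
  · exact Subtype.ext (pGraph_inj p.2 q.2 (congrArg Subtype.val hpq))
  · obtain ⟨p, hp, hG, _⟩ := exists_parent G.1 G.2 r
    exact ⟨⟨p, hp⟩, Subtype.ext hG⟩

/-- the triples in which the pattern is not realised twice -/
def Miss (P : Pattern) (n : ℕ) (r : Fin n) :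
    Set ((Fin n → Fin n) × (Fin n → Bool) × (Fin n → Fin n)) :=
  {x | x.1 ∈ PF r ∧ ¬ Twice P x.1 r x.2.1 x.2.2}

theorem count_le (P : Pattern) (hP : ∀ (V : Type) [Fintype V] (Γ : LOT V) (p : V → V) (r : V)
      (o : V → Bool) (l : V → V), Desc Γ p r o l → Twice P p r o l → ∀ v, ¬ AllAspherical Γ v)
    (n : ℕ) (r : Fin n) :
    {Γ : LOT (Fin n) | ∃ v, AllAspherical Γ v}.ncard * (2 * n) ≤ (Miss P n r).ncard := by
  classical
  have hfin : Finite (LOT (Fin n)) := by
    refine Nat.finite_of_card_ne_zero ?_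
    rw [card_lot, card_treeOn n r]
    have hn : 0 < n := r.pos
    positivity
  choose p o l hD hb hy using fun (x : LOT (Fin n) × Bool × Fin n) =>
    exists_desc x.1 r x.2.1 x.2.2
  have h1 : ({Γ : LOT (Fin n) | ∃ v, AllAspherical Γ v} ×ˢ (Set.univ : Set (Bool × Fin n))).ncard =
      {Γ : LOT (Fin n) | ∃ v, AllAspherical Γ v}.ncard * (2 * n) := by
    rw [Set.ncard_prod, Set.ncard_univ, Nat.card_prod, Nat.card_eq_fintype_card,
      Nat.card_eq_fintype_card, Fintype.card_bool, Fintype.card_fin]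
  rw [← h1]
  refine Set.ncard_le_ncard_of_injOn (fun x => (p x, o x, l x)) ?_ ?_ (Set.toFinite _)
  · rintro ⟨Γ, c⟩ ⟨⟨v, hv⟩, _⟩
    exact ⟨(hD (Γ, c)).mem, fun ht => hP (Fin n) Γ _ r _ _ (hD (Γ, c)) ht v hv⟩
  · rintro x _ x' _ hxx
    have h2 : p x = p x' ∧ o x = o x' ∧ l x = l x' := by
      simp only [Prod.mk.injEq] at hxx
      exact hxx
    obtain ⟨hp', ho', hl'⟩ := h2
    have h3 := hD x
    rw [hp', ho', hl'] at h3
    refine Prod.ext (h3.unique (hD x')) (Prod.ext ?_ ?_)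
    · rw [← hb x, ← hb x', ho']
    · rw [← hy x, ← hy x', hl']

/-- The zero-one law, from the bound for the triples in which the pattern is not realised twice. -/
theorem zero_one (ε : Pattern → ℕ → ℝ)
    (hprob : ∀ (P : Pattern) (n : ℕ) (r : Fin n),
      ((Miss P n r).ncard : ℝ) ≤ ε P n * ((n : ℝ) ^ (n - 2) * 2 ^ n * (n : ℝ) ^ n)) :
    (∀ (n : ℕ) (Γ : LOT (Fin n)) (v : Fin n), AllAspherical Γ v) ∨
      ∃ P : Pattern, ∀ n : ℕ, 0 < n → ({Γ : LOT (Fin n) | ∃ v, AllAspherical Γ v}.ncard : ℝ) ≤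
        ε P n * Nat.card (LOT (Fin n)) := by
  rcases dichotomy with h | ⟨P, hP⟩
  · exact Or.inl h
  · right
    refine ⟨P, fun n hn => ?_⟩
    have h1 := count_le P hP n ⟨0, hn⟩
    have h2 := hprob P n ⟨0, hn⟩
    have h3 : (({Γ : LOT (Fin n) | ∃ v, AllAspherical Γ v}.ncard * (2 * n) : ℕ) : ℝ) ≤
        ε P n * ((n : ℝ) ^ (n - 2) * 2 ^ n * (n : ℝ) ^ n) :=
      le_trans (by exact_mod_cast h1) h2
    rw [card_lot, card_treeOn n ⟨0, hn⟩]
    push_cast at h3 ⊢
    have hn0 : (0 : ℝ) < n := by exact_mod_cast hn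
    have h4 : (n : ℝ) ^ (n - 2) * 2 ^ n * (n : ℝ) ^ n =
        ((n : ℝ) ^ (n - 2) * (2 ^ (n - 1) * (n : ℝ) ^ (n - 1))) * (2 * n) := by
      obtain ⟨m, rfl⟩ : ∃ m, n = m + 1 := ⟨n - 1, by omega⟩
      have h5 : m + 1 - 1 = m := by omega
      rw [h5, pow_succ 2 m, pow_succ ((m + 1 : ℕ) : ℝ) m]
      ring
    rw [h4] at h3
    have h2n : (0 : ℝ) < 2 * n := by positivity
    refine le_of_mul_le_mul_right ?_ h2n
    calc ({Γ : LOT (Fin n) | ∃ v, AllAspherical Γ v}.ncard : ℝ) * (2 * n)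
        ≤ _ := h3
      _ = _ := by ring

end Pool.Agent.ZO
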