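import Pool.Agent.ZO.Wirt

/-!
# From word relations to labelled oriented forests: the theorem
-/

set_option autoImplicit false

open scoped BigOperators

namespace Pool.Agent.ZO

open Pool.Agent.FoxAsph Pool.Agent.WT

namespace Wirt

section
variable {X J : Type} [Fintype X] [Fintype J] (L : X → List (Ent X J)) (j₀ : J)

/-- the generators in the forest -/
noncomputable def gf (y : X ⊕ J) : FreeGroup (VV L j₀) :=
  FreeGroup.lift (fun c => FreeGroup.of (vl L j₀ c)) (ff L j₀ y)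

omit [Fintype J] in
theorem lift_gf {G : Type} [Group G] (Θ : VV L j₀ → G) (y : X ⊕ J) :
    FreeGroup.lift Θ (gf L j₀ y) = FreeGroup.lift (fun c => Θ (vl L j₀ c)) (ff L j₀ y) := by
  unfold gf
  rw [lift_comp]
  congr 2
  funext c
  exact FreeGroup.lift_apply_of

omit [Fintype X] [Fintype J] in
theorem lift_ff_inr {G : Type} [Group G] (Θ' : KK L j₀ ⊕ J → G) (j : J) :
    FreeGroup.lift Θ' (ff L j₀ (Sum.inr j)) = Θ' (Sum.inr j) := FreeGroup.lift_apply_of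

omit [Fintype X] [Fintype J] in
theorem lift_ff_inl {G : Type} [Group G] (Θ' : KK L j₀ ⊕ J → G) (x : X) :
    FreeGroup.lift Θ' (ff L j₀ (Sum.inl x)) = (List.ofFn fun k : Fin (LL L j₀ x).length =>
      sg (ent L j₀ ⟨x, k⟩).2.2 (Θ' (Sum.inl ⟨x, k⟩))).prod := by
  show FreeGroup.lift Θ' (List.ofFn fun k : Fin (LL L j₀ x).length =>
    sg (ent L j₀ ⟨x, k⟩).2.2 (FreeGroup.of (Sum.inl ⟨x, k⟩))).prod = _
  rw [map_list_prod, List.map_ofFn]
  congr 2
  funext k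
  show FreeGroup.lift Θ' (sg _ (FreeGroup.of (Sum.inl ⟨x, k⟩))) = _
  rw [map_sg, FreeGroup.lift_apply_of]

omit [Fintype J] in
/-- the value of the whole padded word, up to powers of `ρ` -/
theorem conj_suf {G : Type} [Group G] (Θ' : KK L j₀ ⊕ J → G) (κ : KK L j₀) :
    suf L j₀ Θ' κ 0 * Θ' (Sum.inr (ent L j₀ κ).2.1) * (suf L j₀ Θ' κ 0)⁻¹ =
      FreeGroup.lift (fun y => FreeGroup.lift Θ' (ff L j₀ y)) ((ent L j₀ κ).1 *
        FreeGroup.of (Sum.inr (ent L j₀ κ).2.1) * (ent L j₀ κ).1⁻¹) := by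
  unfold suf
  rw [List.drop_zero, conj_pad, mk_ww, lift_comp, map_mul, map_mul, map_inv,
    FreeGroup.lift_apply_of, lift_ff_inr]

/-- The relations of all edges but the first one of the word of `x₀` give the relations of all words
but that of `x₀`, and this relation up to the relation of that edge. -/
theorem forward {G : Type} [Group G] (Θ : VV L j₀ → G) (x₀ : X)
    (h : ∀ e : KK L j₀ × Fin (BB L j₀), e ≠ (k0 L j₀ x₀, ⟨0, BB_pos L j₀⟩) →
      FreeGroup.lift Θ (FreeGroup.mk ((F L j₀).rel e)) = 1) :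
    (∀ x, x ≠ x₀ → FreeGroup.lift Θ (gf L j₀ (Sum.inl x)) =
      FreeGroup.lift (fun y => FreeGroup.lift Θ (gf L j₀ y)) ((L x).map cj).prod) ∧
    FreeGroup.lift Θ (gf L j₀ (Sum.inl x₀)) =
      FreeGroup.lift Θ (FreeGroup.mk ((F L j₀).rel (k0 L j₀ x₀, ⟨0, BB_pos L j₀⟩))) *
      FreeGroup.lift (fun y => FreeGroup.lift Θ (gf L j₀ y)) ((L x₀).map cj).prod := by
  set Θ' : KK L j₀ ⊕ J → G := fun c => Θ (vl L j₀ c) with hΘ'
  have hgf : (fun y => FreeGroup.lift Θ (gf L j₀ y)) =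
      fun y => FreeGroup.lift Θ' (ff L j₀ y) := funext fun y => lift_gf L j₀ Θ y
  -- chain relations
  have hrel : ∀ (κ : KK L j₀) (q : Fin (BB L j₀)), (κ, q) ≠ (k0 L j₀ x₀, ⟨0, BB_pos L j₀⟩) →
      Θ (vt L j₀ κ q) = sg (lt L j₀ (κ, q)).2 (Θ' (lt L j₀ (κ, q)).1) *
        Θ (vt L j₀ κ (q + 1)) * (sg (lt L j₀ (κ, q)).2 (Θ' (lt L j₀ (κ, q)).1))⁻¹ := by
    intro κ q hne
    have h1 := h (κ, q) hne
    rw [lift_F] at h1
    exact (edge_iff _ _ _ _).1 h1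
  have hBB : ∀ κ : KK L j₀, Θ (vt L j₀ κ (BB L j₀)) = Θ' (Sum.inr (ent L j₀ κ).2.1) := by
    intro κ
    rw [vt_BB]
    rfl
  -- the factors
  have hfac : ∀ κ : KK L j₀, κ ≠ k0 L j₀ x₀ → Θ' (Sum.inl κ) =
      FreeGroup.lift (fun y => FreeGroup.lift Θ' (ff L j₀ y)) ((ent L j₀ κ).1 *
        FreeGroup.of (Sum.inr (ent L j₀ κ).2.1) * (ent L j₀ κ).1⁻¹) := by
    intro κ hκ
    have h1 := chain L j₀ Θ' κ (fun q => Θ (vt L j₀ κ q)) 0 (Nat.zero_le _)
      (fun q _ => hrel κ q (fun he => hκ (Prod.mk.inj he).1))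
    rw [← conj_suf, ← hBB]
    exact h1
  refine ⟨fun x hx => ?_, ?_⟩
  · rw [hgf, lift_gf, lift_ff_inl, ← prod_factors L j₀]
    congr 2
    funext k
    show sg (ent L j₀ ⟨x, k⟩).2.2 (Θ' (Sum.inl ⟨x, k⟩)) = _
    rw [hfac ⟨x, k⟩ (fun he => hx (congrArg Sigma.fst he))]
  · -- the first factor of `x₀`
    have hpad : pad L j₀ (k0 L j₀ x₀) = List.replicate (BB L j₀) (Sum.inr j₀, true) := by
      unfold pad
      rw [ww_k0]
      rfl
    have hlt : ∀ q : Fin (BB L j₀), lt L j₀ (k0 L j₀ x₀, q) = (Sum.inr j₀, true) := by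
      intro q
      unfold lt
      simp only [hpad, List.get_eq_getElem, List.getElem_replicate]
    have h1 : ∀ q : Fin (BB L j₀), 1 ≤ (q : ℕ) → Θ (vt L j₀ (k0 L j₀ x₀) q) =
        sg (lt L j₀ (k0 L j₀ x₀, q)).2 (Θ' (lt L j₀ (k0 L j₀ x₀, q)).1) *
        Θ (vt L j₀ (k0 L j₀ x₀) (q + 1)) *
        (sg (lt L j₀ (k0 L j₀ x₀, q)).2 (Θ' (lt L j₀ (k0 L j₀ x₀, q)).1))⁻¹ := by
      intro q hq
      refine hrel _ q (fun he => ?_)
      have : (q : ℕ) = 0 := congrArg Fin.val (Prod.mk.inj he).2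
      omega
    have h2 := chain L j₀ Θ' (k0 L j₀ x₀) (fun q => Θ (vt L j₀ (k0 L j₀ x₀) q)) 1
      (BB_pos L j₀) h1
    have h3 : Θ (vt L j₀ (k0 L j₀ x₀) 1) = Θ' (Sum.inr j₀) := by
      have h4 : suf L j₀ Θ' (k0 L j₀ x₀) 1 = Θ' (Sum.inr j₀) ^ (BB L j₀ - 1) := by
        unfold suf
        rw [hpad, List.drop_replicate, lift_replicate]
      have h5 := hBB (k0 L j₀ x₀)
      rw [ent_k0] at h5
      rw [h2, h4, h5, ← pow_succ, pow_succ', mul_inv_cancel_right]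
    have h4 : FreeGroup.lift Θ (FreeGroup.mk ((F L j₀).rel (k0 L j₀ x₀, ⟨0, BB_pos L j₀⟩))) =
        Θ' (Sum.inl (k0 L j₀ x₀)) * (Θ' (Sum.inr j₀))⁻¹ := by
      rw [lift_F, hlt, if_pos rfl]
      show Θ (vt L j₀ (k0 L j₀ x₀) 0) * Θ' (Sum.inr j₀) * (Θ (vt L j₀ (k0 L j₀ x₀) (0 + 1)))⁻¹ *
        (Θ' (Sum.inr j₀))⁻¹ = Θ (vt L j₀ (k0 L j₀ x₀) 0) * (Θ' (Sum.inr j₀))⁻¹
      rw [zero_add, h3, mul_inv_cancel_right]
    rw [hgf, h4, lift_gf, lift_ff_inl, ← prod_factors L j₀]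
    have h5 : (List.ofFn fun k : Fin (LL L j₀ x₀).length =>
        sg (ent L j₀ ⟨x₀, k⟩).2.2 (Θ' (Sum.inl ⟨x₀, k⟩))).prod =
        Θ' (Sum.inl (k0 L j₀ x₀)) * (List.ofFn fun k : Fin ((1, j₀, false) :: L x₀).length =>
          sg (ent L j₀ ⟨x₀, k.succ⟩).2.2 (Θ' (Sum.inl ⟨x₀, k.succ⟩))).prod := by
      rw [← List.prod_cons]
      congr 1
      exact List.ofFn_succ
    have h6 : (List.ofFn fun k : Fin (LL L j₀ x₀).length => sg (ent L j₀ ⟨x₀, k⟩).2.2
        (FreeGroup.lift (fun y => FreeGroup.lift Θ' (ff L j₀ y)) ((ent L j₀ ⟨x₀, k⟩).1 *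
        FreeGroup.of (Sum.inr (ent L j₀ ⟨x₀, k⟩).2.1) * (ent L j₀ ⟨x₀, k⟩).1⁻¹))).prod =
        Θ' (Sum.inr j₀) * (List.ofFn fun k : Fin ((1, j₀, false) :: L x₀).length =>
        sg (ent L j₀ ⟨x₀, k.succ⟩).2.2
        (FreeGroup.lift (fun y => FreeGroup.lift Θ' (ff L j₀ y)) ((ent L j₀ ⟨x₀, k.succ⟩).1 *
        FreeGroup.of (Sum.inr (ent L j₀ ⟨x₀, k.succ⟩).2.1) *
        (ent L j₀ ⟨x₀, k.succ⟩).1⁻¹))).prod := by
      have h7 : sg (ent L j₀ (k0 L j₀ x₀)).2.2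
          (FreeGroup.lift (fun y => FreeGroup.lift Θ' (ff L j₀ y)) ((ent L j₀ (k0 L j₀ x₀)).1 *
          FreeGroup.of (Sum.inr (ent L j₀ (k0 L j₀ x₀)).2.1) * (ent L j₀ (k0 L j₀ x₀)).1⁻¹)) =
          Θ' (Sum.inr j₀) := by
        rw [ent_k0]
        show FreeGroup.lift (fun y => FreeGroup.lift Θ' (ff L j₀ y))
          (1 * FreeGroup.of (Sum.inr j₀) * 1⁻¹) = _
        rw [one_mul, inv_one, mul_one, FreeGroup.lift_apply_of, lift_ff_inr]
      rw [← h7, ← List.prod_cons]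
      congr 1
      exact List.ofFn_succ
    rw [h5, h6, ← mul_assoc, inv_mul_cancel_right]
    congr 3
    funext k
    rw [hfac ⟨x₀, k.succ⟩ (fun he => ?_)]
    have h8 : (k.succ : Fin (LL L j₀ x₀).length) = ⟨0, Nat.succ_pos _⟩ := by
      have := (Sigma.mk.inj_iff.1 he).2
      exact eq_of_heq this
    exact absurd h8 (Fin.succ_ne_zero k)

variable (σ : X → FreeGroup (X ⊕ J)) (hL : ∀ x, ((L x).map cj).prod = σ x)
  (rel₀ : X → Word (X ⊕ J))
  (hrel₀ : ∀ x, FreeGroup.mk (rel₀ x) = FreeGroup.of (Sum.inl x) * (σ x)⁻¹)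

include hL hrel₀ in
/-- the homomorphism back -/
theorem back_hom : ∃ ψ : Grp (F L j₀).rel →* Grp rel₀,
    ∀ y, ψ (valF (F L j₀).rel (gf L j₀ y)) = valF rel₀ (FreeGroup.of y) := by
  classical
  let B : KK L j₀ ⊕ J → Grp rel₀ := Sum.elim (fun κ => valF rel₀ ((ent L j₀ κ).1 *
    FreeGroup.of (Sum.inr (ent L j₀ κ).2.1) * (ent L j₀ κ).1⁻¹))
    (fun j => valF rel₀ (FreeGroup.of (Sum.inr j)))
  have hB : ∀ y, FreeGroup.lift B (ff L j₀ y) = valF rel₀ (FreeGroup.of y) := by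
    rintro (x | j)
    · rw [lift_ff_inl]
      have h1 : valF rel₀ (FreeGroup.of (Sum.inl x)) = valF rel₀ ((L x).map cj).prod := by
        have h2 : valF rel₀ (FreeGroup.mk (rel₀ x)) = 1 := by
          rw [valF_mk]
          exact val_rel rel₀ x
        rw [hrel₀ x, valF_mul, valF_inv, mul_inv_eq_one] at h2
        rw [h2, hL]
      rw [h1, ← lift_valF rel₀ ((L x).map cj).prod, ← prod_factors L j₀]
      congr 2
      funext k
      show sg _ (valF rel₀ _) = _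
      rw [lift_valF]
    · exact lift_ff_inr L j₀ B j
  have hBg : ∀ g, FreeGroup.lift (fun y => FreeGroup.lift B (ff L j₀ y)) g = valF rel₀ g := by
    intro g
    rw [← lift_valF rel₀ g]
    congr 2
    exact funext hB
  let ψ₀ : VV L j₀ → Grp rel₀ := Sum.elim (fun j => B (Sum.inr j))
    (fun κq => suf L j₀ B κq.1 κq.2 * B (Sum.inr (ent L j₀ κq.1).2.1) * (suf L j₀ B κq.1 κq.2)⁻¹)
  have hvt : ∀ (κ : KK L j₀) (q : ℕ), q ≤ BB L j₀ → ψ₀ (vt L j₀ κ q) =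
      suf L j₀ B κ q * B (Sum.inr (ent L j₀ κ).2.1) * (suf L j₀ B κ q)⁻¹ := by
    intro κ q hq
    rcases Nat.lt_or_ge q (BB L j₀) with h | h
    · rw [vt_lt L j₀ κ h]
      rfl
    · have h1 : q = BB L j₀ := by omega
      rw [h1, vt_BB, suf_BB]
      show B (Sum.inr _) = _
      rw [one_mul, inv_one, mul_one]
  have hvl : ∀ c, ψ₀ (vl L j₀ c) = B c := by
    rintro (κ | j)
    · show ψ₀ (vt L j₀ κ 0) = _
      rw [hvt κ 0 (Nat.zero_le _), conj_suf, hBg]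
      rfl
    · rfl
  have hF : ∀ e : (F L j₀).E, FreeGroup.lift ψ₀ (FreeGroup.mk ((F L j₀).rel e)) = 1 := by
    rintro ⟨κ, q⟩
    rw [lift_F L j₀ ψ₀ (κ, q)]
    refine (edge_iff _ _ _ _).2 ?_
    show ψ₀ (vt L j₀ κ q) = _
    rw [hvt κ q q.2.le, hvl, hvt κ (q + 1) q.2]
    have h1 := suf_step L j₀ B (κ, q)
    simp only at h1
    rw [h1]
    group
  refine ⟨PresentedGroup.toGroup (f := ψ₀) (by rintro _ ⟨e, rfl⟩; exact hF e), fun y => ?_⟩
  show FreeGroup.lift ψ₀ (gf L j₀ y) = _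
  rw [lift_gf]
  have h2 : (fun c => ψ₀ (vl L j₀ c)) = B := funext hvl
  rw [h2, hB]

include hL hrel₀ in
theorem aspherical_of (h : Aspherical (F L j₀).rel) : Aspherical rel₀ := by
  refine transferF rel₀ (F L j₀).rel (gf L j₀) (fun x => (k0 L j₀ x, ⟨0, BB_pos L j₀⟩))
    (fun _ => 0) (back_hom L j₀ σ hL rel₀ hrel₀) ?_ h
  intro G _ Θ x₀ hΘ
  obtain ⟨h1, h2⟩ := forward L j₀ Θ x₀ hΘ
  refine ⟨fun x hx _ => ?_, ?_⟩
  · rw [hrel₀, map_mul, map_inv, FreeGroup.lift_apply_of, mul_inv_eq_one, ← hL]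
    exact h1 x hx
  · rw [hrel₀, map_mul, map_inv, FreeGroup.lift_apply_of, ← hL, mul_inv_eq_iff_eq_mul]
    exact h2

end

end Wirt

open Wirt in
/-- A presentation with generators `X ⊕ J` and relations `x = σ x`, with `σ x` in the normal closure
of `J`, that is not aspherical gives a labelled oriented forest that is not aspherical. -/
theorem wirt {X J : Type} [Fintype X] [Fintype J] (σ : X → FreeGroup (X ⊕ J))
    (relQ : X → Word (X ⊕ J))
    (hσ : ∀ x, σ x ∈ Subgroup.normalClosure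
      (Set.range fun j : J => FreeGroup.of (Sum.inr j : X ⊕ J)))
    (hmk : ∀ x, FreeGroup.mk (relQ x) = FreeGroup.of (Sum.inl x) * (σ x)⁻¹)
    (h : ¬ Aspherical relQ) : ∃ F : LOF, ¬ Aspherical F.rel := by
  classical
  by_cases hJ : Nonempty J
  · obtain ⟨j₀⟩ := hJ
    choose L hL using fun x => exists_decomp (σ x) (hσ x)
    refine ⟨F L j₀, fun hF => h ?_⟩
    exact aspherical_of L j₀ σ hL relQ hmk hF
  · exfalso
    apply h
    rw [not_nonempty_iff] at hJ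
    have h1 : ∀ x, FreeGroup.mk (relQ x) = FreeGroup.of (Sum.inl x : X ⊕ J) := by
      intro x
      have h2 := hσ x
      rw [Set.range_eq_empty, Subgroup.normalClosure_empty, Subgroup.mem_bot] at h2
      rw [hmk, h2, inv_one, mul_one]
    intro z hz
    funext x
    have h3 := sum_affW relQ (RingHom.id _)
      (fun y : X ⊕ J => (if y = Sum.inl x then 1 else 0 : MonoidAlgebra ℤ (Grp relQ))) z hz
    have h4 : ∀ y : X, affW relQ (RingHom.id _)
        (fun y : X ⊕ J => (if y = Sum.inl x then 1 else 0 : MonoidAlgebra ℤ (Grp relQ)))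
        (relQ y) 0 = if y = x then 1 else 0 := by
      intro y
      unfold affW
      rw [h1, FreeGroup.lift_apply_of, aff_apply, smul_zero, zero_add]
      by_cases hyx : y = x
      · rw [if_pos hyx, if_pos (by rw [hyx])]
      · rw [if_neg hyx, if_neg (fun he => hyx (Sum.inl_injective he))]
    rw [Finset.sum_congr rfl (fun y _ => by rw [h4 y]), Finset.sum_eq_single x] at h3
    · rw [if_pos rfl, RingHom.id_apply, smul_eq_mul, mul_one] at h3
      exact h3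
    · intro y _ hy
      rw [if_neg hy, smul_zero]
    · intro hx
      exact absurd (Finset.mem_univ x) hx

end Pool.Agent.ZO
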