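import Pool.Agent.ZO.Prob
import Pool.Agent.ZO.Dich
import Pool.Agent.ZO.ACLot
import Pool.Agent.ZO.Wirt2

/-! # The zero-one law for complexes that 3-deform to a point -/

set_option autoImplicit false

open scoped BigOperators

namespace Pool.Agent.ZO

open Pool.Agent.FoxAsph Pool.Agent.WT Pool.Agent.WT.Trees Pool.Agent.GX Pool.Agent.RelGap

/-- a non-aspherical labelled oriented forest gives a pattern -/
theorem exists_pattern (F : LOF) (hF : ¬ Aspherical F.rel) :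
    ∃ P : Pattern, ∀ (V : Type) [Fintype V] (Γ : LOT V) (p : V → V) (r : V) (o : V → Bool)
      (l : V → V), Desc Γ p r o l → Twice P p r o l → ∀ v, ¬ AllAspherical Γ v := by
  have hV : Nonempty F.V := by
    by_contra hcon
    rw [not_nonempty_iff] at hcon
    have hE : IsEmpty F.E := ⟨fun e => hcon.false (F.tail e)⟩
    apply hF
    intro z _
    funext e
    exact (hE.false e).elim
  obtain ⟨x₀⟩ := hV
  obtain ⟨T⟩ := exists_tour F x₀
  refine ⟨T.pattern, ?_⟩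
  intro V _ Γ p r o l hD ⟨u, u', ⟨H, seg, top, hR⟩, ⟨H', seg', top', hR'⟩, hdis⟩ v
  by_cases hv : v ∈ below p u
  · exact fail T Γ hF hD hR' v (fun hv' => Set.disjoint_left.1 hdis hv hv')
  · exact fail T Γ hF hD hR v hv

/-- the proportion of the labelled oriented trees -/
theorem frac_le (P : Pattern) (hP : ∀ (V : Type) [Fintype V] (Γ : LOT V) (p : V → V) (r : V)
      (o : V → Bool) (l : V → V), Desc Γ p r o l → Twice P p r o l → ∀ v, ¬ AllAspherical Γ v) :
    ∃ C : ℝ, ∀ n : ℕ, 0 < n → ({Γ : LOT (Fin n) | ∃ v, AllAspherical Γ v}.ncard : ℝ) ≤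
      C / (n : ℝ) ^ (1 / 3 : ℝ) * Nat.card (LOT (Fin n)) := by
  obtain ⟨C, _, hC⟩ := Pool.Agent.ZO.main P
  refine ⟨C, fun n hn => ?_⟩
  have h1 := count_le P hP n ⟨0, hn⟩
  have h2 := hC (Fin n) ⟨0, hn⟩
  rw [Fintype.card_fin, ← div_eq_mul_inv] at h2
  set ε : ℝ := C / (n : ℝ) ^ (1 / 3 : ℝ) with hε
  have h3 : (({Γ : LOT (Fin n) | ∃ v, AllAspherical Γ v}.ncard * (2 * n) : ℕ) : ℝ) ≤
      ε * ((n : ℝ) ^ (n - 2) * 2 ^ n * (n : ℝ) ^ n) :=
    le_trans (by exact_mod_cast h1) h2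
  rw [card_lot, card_treeOn n ⟨0, hn⟩]
  push_cast at h3 ⊢
  have hn0 : (0 : ℝ) < n := by exact_mod_cast hn
  have h4 : (n : ℝ) ^ (n - 2) * 2 ^ n * (n : ℝ) ^ n =
      ((n : ℝ) ^ (n - 2) * (2 ^ (n - 1) * (n : ℝ) ^ (n - 1))) * (2 * n) := by
    obtain ⟨m, rfl⟩ : ∃ m, n = m + 1 := ⟨n - 1, by omega⟩
    have h5 : m + 1 - 1 = m := by omega
    rw [h5, pow_succ 2 m, pow_succ ((m + 1 : ℕ) : ℝ) m]
    ring
  rw [h4] at h3
  have h2n : (0 : ℝ) < 2 * n := by positivity
  refine le_of_mul_le_mul_right ?_ h2n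
  calc ({Γ : LOT (Fin n) | ∃ v, AllAspherical Γ v}.ncard : ℝ) * (2 * n)
      ≤ _ := h3
    _ = _ := by ring

/-- Howie's reduction: a non-aspherical subcomplex of a complex that 3-deforms to a point gives a
non-aspherical labelled oriented forest. -/
theorem howie {X ι : Type} [Fintype X] [Fintype ι] (rel : ι → Word X) (hAC : ACTrivial rel)
    (U : Set X) (S : Finset ι) (h : ∀ i ∈ S, ∀ l ∈ rel i, l.1 ∈ U)
    (hna : ¬ Aspherical (SubPres rel U S h)) : ∃ F : LOF, ¬ Aspherical F.rel := by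
  obtain ⟨X', J, hX', hJ, σ, relQ, hσ, hmk, hQ⟩ := exists_wirt rel U S h hAC hna
  exact wirt σ relQ hσ hmk hQ

/-- The zero-one law: either all subcomplexes of all complexes that 3-deform to a point are
aspherical, or almost all labelled oriented trees `Γ` are such that every `K(Γ, v)` has a
non-aspherical subcomplex. -/
theorem acLaw : (∀ (X ι : Type) [Fintype X] [Fintype ι] (rel : ι → Word X), ACTrivial rel →
      ∀ (U : Set X) (S : Finset ι) (h : ∀ i ∈ S, ∀ l ∈ rel i, l.1 ∈ U),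
        Aspherical (SubPres rel U S h)) ∨
    ∃ C : ℝ, ∀ n : ℕ, 0 < n → ({Γ : LOT (Fin n) | ∃ v, AllAspherical Γ v}.ncard : ℝ) ≤
      C / (n : ℝ) ^ (1 / 3 : ℝ) * Nat.card (LOT (Fin n)) := by
  by_cases hF : ∃ F : LOF, ¬ Aspherical F.rel
  · right
    obtain ⟨F, hF⟩ := hF
    obtain ⟨P, hP⟩ := exists_pattern F hF
    exact frac_le P hP
  · left
    intro X ι _ _ rel hAC U S h
    by_contra hna
    exact hF (howie rel hAC U S h hna)

end Pool.Agent.ZO
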