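import Pool.Agent.ZO.Count

/-! # Zero-one law: counting marked trees -/

set_option autoImplicit false

open scoped BigOperators

namespace Pool.Agent.ZO

open Pool.Agent.GX

/-- sizes -/
def KK (A w : ℕ) : Finset (ℕ × ℕ × ℕ) :=
  Finset.Ico (12 * A) (13 * A) ×ˢ (Finset.Ico (4 * A) (5 * A) ×ˢ Finset.Ico (w ^ 2) (2 * w ^ 2))

/-- trees for given vertex sets -/
noncomputable def Wc (k k' m w : ℕ) : ℝ :=
  (k : ℝ) ^ (k - 1) * (k' : ℝ) ^ (k' - 1) * ((m.descFactorial w : ℕ) : ℝ) *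
    ((w : ℝ) * (m : ℝ) ^ (m - w) / m)

variable {V : Type} [Fintype V] [DecidableEq V] {P : Pattern} {ℓ A : ℕ}

/-- injective maps to `M` -/
def EmbF (L : ℕ) {N : ℕ} (dl : Fin N → ℕ) (M : Finset V) : Finset (Ix L dl → V) :=
  (Fintype.piFinset fun _ : Ix L dl => M).filter Function.Injective

theorem card_EmbF (L : ℕ) {N : ℕ} (dl : Fin N → ℕ) (M : Finset V) :
    (EmbF L dl M).card = M.card.descFactorial (L + 1 + ∑ j, dl j) := by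
  classical
  rw [← card_Ix L dl, ← Fintype.card_coe M, ← Fintype.card_embedding_eq]
  symm
  refine Finset.card_bij' (s := Finset.univ) (fun (e : Ix L dl ↪ M) _ => fun i => (e i : V))
    (fun φ hφ => ⟨fun i => ⟨φ i, ?_⟩, ?_⟩) ?_ ?_ ?_ ?_
  · exact (Fintype.mem_piFinset.1 (Finset.mem_filter.1 hφ).1) i
  · intro i j hij
    exact (Finset.mem_filter.1 hφ).2 (congrArg Subtype.val hij)
  · intro e _
    rw [EmbF, Finset.mem_filter, Fintype.mem_piFinset]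
    exact ⟨fun i => (e i).2, fun i j hij => e.injective (Subtype.ext hij)⟩
  · intro φ hφ
    exact Finset.mem_univ _
  · intro e _
    rfl
  · intro φ hφ
    rfl

/-- all gluing data -/
noncomputable def GG (ℓ A : ℕ) {N : ℕ} (D : Finset V) (dl : Fin N → ℕ) :
    Finset (Σ _ : (Σ _ : (Σ _ : (ℕ × ℕ × ℕ), Finset V), Finset V),
      (Σ _ : V × V × (Ix (Ls N ℓ) dl → V), (V → V) × (V → V) × (V → V))) :=
  ((((KK A (Ls N ℓ + 1 + ∑ j, dl j)).filter fun q => q.1 + q.2.1 + q.2.2 = D.card).sigma fun q =>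
    D.powersetCard q.1).sigma fun Z => (D \ Z.2).powersetCard Z.1.2.1).sigma fun R =>
      (R.1.2 ×ˢ (R.2 ×ˢ EmbF (Ls N ℓ) dl ((D \ R.1.2) \ R.2))).sigma fun t =>
        WW R.1.2 {t.1} ×ˢ (WW ((D \ R.1.2) \ R.2) (Finset.univ.image t.2.2) ×ˢ WW R.2 {t.2.1})

theorem mem_GG {N : ℕ} {D : Finset V} {dl : Fin N → ℕ} {q : ℕ × ℕ × ℕ} {Z R : Finset V} {z u : V}
    {φ : Ix (Ls N ℓ) dl → V} {f1 f2 f3 : V → V} :
    (⟨⟨⟨q, Z⟩, R⟩, ⟨(z, u, φ), (f1, f2, f3)⟩⟩ : (Σ _ : (Σ _ : (Σ _ : (ℕ × ℕ × ℕ), Finset V),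
      Finset V), (Σ _ : V × V × (Ix (Ls N ℓ) dl → V), (V → V) × (V → V) × (V → V)))) ∈
        GG ℓ A D dl ↔
      (((((q ∈ KK A (Ls N ℓ + 1 + ∑ j, dl j) ∧ q.1 + q.2.1 + q.2.2 = D.card) ∧
        (Z ⊆ D ∧ Z.card = q.1)) ∧ (R ⊆ D \ Z ∧ R.card = q.2.1))) ∧
        (z ∈ Z ∧ u ∈ R ∧ (∀ i, φ i ∈ (D \ Z) \ R) ∧ Function.Injective φ) ∧
        (f1 ∈ WW Z {z} ∧ f2 ∈ WW ((D \ Z) \ R) (Finset.univ.image φ) ∧ f3 ∈ WW R {u})) := by
  unfold GG EmbF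
  simp only [Finset.mem_sigma, Finset.mem_filter, Finset.mem_powersetCard, Finset.mem_product,
    Fintype.mem_piFinset]

theorem gd_of_mem {N : ℕ} {D : Finset V} {dl att : Fin N → ℕ} {q : ℕ × ℕ × ℕ} {Z R : Finset V}
    {z u : V} {φ : Ix (Ls N ℓ) dl → V} {f1 f2 f3 : V → V}
    (h : (⟨⟨⟨q, Z⟩, R⟩, ⟨(z, u, φ), (f1, f2, f3)⟩⟩ : (Σ _ : (Σ _ : (Σ _ : (ℕ × ℕ × ℕ), Finset V),
      Finset V), (Σ _ : V × V × (Ix (Ls N ℓ) dl → V), (V → V) × (V → V) × (V → V)))) ∈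
        GG ℓ A D dl) :
    GD (Ls N ℓ) dl att D Z R ((D \ Z) \ R) z u φ f1 f2 f3 := by
  obtain ⟨⟨⟨⟨_, _⟩, ⟨hZ, _⟩⟩, ⟨hR, _⟩⟩, ⟨hz, hu, hφ, hinj⟩, ⟨h1, h2, h3⟩⟩ := mem_GG.1 h
  refine ⟨?_, ?_, ?_, ?_, hz, hu, hinj, hφ, h1, h2, h3⟩
  · intro x
    have h4 := @hZ x
    have h5 := @hR x
    simp only [Finset.mem_sdiff] at h5 ⊢
    tauto
  · intro x hx hx'
    exact (Finset.mem_sdiff.1 (hR hx')).2 hx
  · intro x hx hx'
    exact (Finset.mem_sdiff.1 (Finset.mem_sdiff.1 hx').1).2 hx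
  · intro x hx hx'
    exact (Finset.mem_sdiff.1 hx').2 hx

theorem card_GG_le {att dl : Fin P.N → ℕ} (hatt : att ∈ AttF P ℓ) (hdl : dl ∈ DlF P ℓ)
    (D : Finset V) (hw : (Ls P.N ℓ + 1 + ∑ j, dl j) ^ 2 ≤ A) :
    (GG ℓ A D dl).card ≤ (MM P ℓ A D att dl).card := by
  classical
  rw [mem_AttF] at hatt
  rw [mem_DlF] at hdl
  refine Finset.card_le_card_of_injOn (fun t => (t.2.1.2.1,
    gl (Ls P.N ℓ) dl att t.1.1.2 t.1.2 t.2.1.1 t.2.1.2.1 t.2.1.2.2 t.2.2.1 t.2.2.2.1 t.2.2.2.2,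
    t.2.1.1, fun j => t.2.1.2.2 (Sum.inr ⟨j, ⟨0, (hdl j).1⟩⟩))) ?_ ?_
  · rintro ⟨⟨⟨q, Z⟩, R⟩, ⟨⟨z, u, φ⟩, ⟨f1, f2, f3⟩⟩⟩ ht
    rw [Finset.mem_coe] at ht ⊢
    have hg : GD (Ls P.N ℓ) dl att D Z R ((D \ Z) \ R) z u φ f1 f2 f3 := gd_of_mem ht
    obtain ⟨⟨⟨⟨hq, hqs⟩, ⟨hZ, hZc⟩⟩, ⟨hR, hRc⟩⟩, _, _⟩ := mem_GG.1 ht
    unfold KK at hq
    simp only [Finset.mem_product, Finset.mem_Ico] at hq
    have hM : ((D \ Z) \ R).card = q.2.2 := by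
      rw [Finset.card_sdiff_of_subset hR, Finset.card_sdiff_of_subset hZ, hZc, hRc]
      omega
    rw [mem_MM]
    refine hg.mg ?_ ?_ ?_ ?_ hatt hdl
    · omega
    · omega
    · omega
    · rw [hM]
      omega
  · rintro ⟨⟨⟨q, Z⟩, R⟩, ⟨⟨z, u, φ⟩, ⟨f1, f2, f3⟩⟩⟩ ht ⟨⟨⟨q', Z'⟩, R'⟩, ⟨⟨z', u', φ'⟩,
      ⟨f1', f2', f3'⟩⟩⟩ ht' he
    rw [Finset.mem_coe] at ht ht'
    have hg : GD (Ls P.N ℓ) dl att D Z R ((D \ Z) \ R) z u φ f1 f2 f3 := gd_of_mem ht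
    have hg' : GD (Ls P.N ℓ) dl att D Z' R' ((D \ Z') \ R') z' u' φ' f1' f2' f3' := gd_of_mem ht'
    obtain ⟨⟨⟨⟨_, hqs⟩, ⟨hZ, hZc⟩⟩, ⟨hR, hRc⟩⟩, _, _⟩ := mem_GG.1 ht
    obtain ⟨⟨⟨⟨_, hqs'⟩, ⟨hZ', hZc'⟩⟩, ⟨hR', hRc'⟩⟩, _, _⟩ := mem_GG.1 ht'
    clear ht ht'
    have e1 : u = u' := congrArg Prod.fst he
    have e2 : gl (Ls P.N ℓ) dl att Z R z u φ f1 f2 f3 =
      gl (Ls P.N ℓ) dl att Z' R' z' u' φ' f1' f2' f3' := congrArg (fun t => t.2.1) he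
    have e3 : z = z' := congrArg (fun t => t.2.2.1) he
    have e4 : (fun j => φ (Sum.inr ⟨j, ⟨0, (hdl j).1⟩⟩)) =
      fun j => φ' (Sum.inr ⟨j, ⟨0, (hdl j).1⟩⟩) := congrArg (fun t => t.2.2.2) he
    clear he
    obtain ⟨a1, a2, a3, a4, a5, a6⟩ := hg.unique hg' (fun j => (hdl j).1) e2 e3 e1 (congrFun e4)
    clear hg hg' e2 e4
    subst e1
    subst e3
    subst a1
    subst a2
    subst a3
    subst a4
    subst a5
    subst a6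
    have hq : q = q' := by
      obtain ⟨q1, q2, q3⟩ := q
      obtain ⟨q1', q2', q3'⟩ := q'
      simp only at hqs hZc hRc hqs' hZc' hRc'
      have b1 : q1 = q1' := hZc.symm.trans hZc'
      have b2 : q2 = q2' := hRc.symm.trans hRc'
      have b3 : q3 = q3' := by omega
      rw [b1, b2, b3]
    subst hq
    rfl

theorem ww_real (B A : Finset V) (hAB : A ⊆ B) (hA : A.Nonempty) :
    ((WW B A).card : ℝ) = (A.card : ℝ) * (B.card : ℝ) ^ (B.card - A.card) / B.card := by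
  have h1 := card_WW B A hAB hA
  have h2 : (0 : ℝ) < B.card := by
    exact_mod_cast Finset.card_pos.2 (hA.mono hAB)
  rw [eq_div_iff h2.ne']
  exact_mod_cast h1

theorem card_GG {N : ℕ} (D : Finset V) (dl : Fin N → ℕ) (hA : 1 ≤ A) :
    ((GG ℓ A D dl).card : ℝ) =
      ∑ q ∈ (KK A (Ls N ℓ + 1 + ∑ j, dl j)).filter (fun q => q.1 + q.2.1 + q.2.2 = D.card),
        (D.card.choose q.1 : ℝ) * ((D.card - q.1).choose q.2.1 : ℝ) *
          Wc q.1 q.2.1 q.2.2 (Ls N ℓ + 1 + ∑ j, dl j) := by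
  classical
  set w := Ls N ℓ + 1 + ∑ j, dl j with hw
  unfold GG
  rw [Finset.card_sigma, Finset.sum_sigma, Finset.sum_sigma]
  push_cast
  apply Finset.sum_congr rfl
  intro q hq
  rw [Finset.mem_filter] at hq
  obtain ⟨hq, hqs⟩ := hq
  unfold KK at hq
  simp only [Finset.mem_product, Finset.mem_Ico] at hq
  have key : ∀ Z ∈ D.powersetCard q.1, ∀ R ∈ (D \ Z).powersetCard q.2.1,
      (((R, Z).2 ×ˢ ((R, Z).1 ×ˢ EmbF (Ls N ℓ) dl ((D \ (R, Z).2) \ (R, Z).1))).sigma fun t =>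
        WW Z {t.1} ×ˢ (WW ((D \ Z) \ R) (Finset.univ.image t.2.2) ×ˢ WW R {t.2.1})).card =
        Wc q.1 q.2.1 q.2.2 w := by
    intro Z hZ R hR
    rw [Finset.mem_powersetCard] at hZ hR
    obtain ⟨hZ, hZc⟩ := hZ
    obtain ⟨hR, hRc⟩ := hR
    have hM : ((D \ Z) \ R).card = q.2.2 := by
      rw [Finset.card_sdiff_of_subset hR, Finset.card_sdiff_of_subset hZ, hZc, hRc]
      omega
    simp only
    rw [Finset.card_sigma]
    push_cast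
    have h1 : ∀ t ∈ Z ×ˢ (R ×ˢ EmbF (Ls N ℓ) dl ((D \ Z) \ R)),
        (((WW Z {t.1} ×ˢ (WW ((D \ Z) \ R) (Finset.univ.image t.2.2) ×ˢ WW R {t.2.1})).card : ℕ) : ℝ) =
        ((q.1 : ℝ) ^ (q.1 - 1) / q.1) * (((w : ℝ) * (q.2.2 : ℝ) ^ (q.2.2 - w) / q.2.2) *
          ((q.2.1 : ℝ) ^ (q.2.1 - 1) / q.2.1)) := by
      rintro ⟨z, u, φ⟩ ht
      rw [Finset.mem_product, Finset.mem_product] at ht
      obtain ⟨hz, hu, hφ⟩ := ht
      simp only at hz hu hφ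
      rw [EmbF, Finset.mem_filter, Fintype.mem_piFinset] at hφ
      have c1 : (Finset.univ.image φ).card = w := by
        rw [Finset.card_image_of_injective _ hφ.2, Finset.card_univ, card_Ix]
      have s1 : Finset.univ.image φ ⊆ (D \ Z) \ R := by
        intro x hx
        obtain ⟨i, _, rfl⟩ := Finset.mem_image.1 hx
        exact hφ.1 i
      have n1 : (Finset.univ.image φ).Nonempty := by
        rw [← Finset.card_pos, c1]
        omega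
      simp only [Finset.card_product]
      push_cast
      rw [ww_real Z {z} (by simpa using hz) (Finset.singleton_nonempty z),
        ww_real _ _ s1 n1, ww_real R {u} (by simpa using hu) (Finset.singleton_nonempty u),
        c1, Finset.card_singleton, Finset.card_singleton, hM, hZc, hRc]
      push_cast
      ring
    rw [Finset.sum_congr rfl h1, Finset.sum_const, Finset.card_product, Finset.card_product,
      card_EmbF, hM, hZc, hRc, nsmul_eq_mul, ← hw]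
    push_cast
    have p1 : (0 : ℝ) < (q.1 : ℝ) := by
      have : 0 < q.1 := by omega
      exact_mod_cast this
    have p2 : (0 : ℝ) < (q.2.1 : ℝ) := by
      have : 0 < q.2.1 := by omega
      exact_mod_cast this
    unfold Wc
    field_simp
  have h2 : ∀ Z ∈ D.powersetCard q.1, ∑ R ∈ (D \ Z).powersetCard q.2.1,
      ((((R, Z).2 ×ˢ ((R, Z).1 ×ˢ EmbF (Ls N ℓ) dl ((D \ (R, Z).2) \ (R, Z).1))).sigma fun t =>
        WW Z {t.1} ×ˢ (WW ((D \ Z) \ R) (Finset.univ.image t.2.2) ×ˢ WW R {t.2.1})).card : ℝ) =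
        ((D.card - q.1).choose q.2.1 : ℝ) * Wc q.1 q.2.1 q.2.2 w := by
    intro Z hZ
    rw [Finset.sum_congr rfl (key Z hZ), Finset.sum_const, Finset.card_powersetCard, nsmul_eq_mul]
    rw [Finset.mem_powersetCard] at hZ
    rw [Finset.card_sdiff_of_subset hZ.1, hZ.2]
  have h3 := Finset.sum_congr rfl h2
  simp only at h3 ⊢
  rw [h3, Finset.sum_const, Finset.card_powersetCard, nsmul_eq_mul, mul_assoc]

theorem count2 {att dl : Fin P.N → ℕ} (hatt : att ∈ AttF P ℓ) (hdl : dl ∈ DlF P ℓ)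
    (D : Finset V) (hA : 1 ≤ A) (hw : (Ls P.N ℓ + 1 + ∑ j, dl j) ^ 2 ≤ A) :
    ∑ q ∈ (KK A (Ls P.N ℓ + 1 + ∑ j, dl j)).filter (fun q => q.1 + q.2.1 + q.2.2 = D.card),
        (D.card.choose q.1 : ℝ) * ((D.card - q.1).choose q.2.1 : ℝ) *
          Wc q.1 q.2.1 q.2.2 (Ls P.N ℓ + 1 + ∑ j, dl j) ≤ ((MM P ℓ A D att dl).card : ℝ) := by
  rw [← card_GG (ℓ := ℓ) D dl hA]
  exact_mod_cast card_GG_le hatt hdl D hw

end Pool.Agent.ZO
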