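import Pool.Agent.ZO.Count

/-! # Zero-one law: successes as a property of branches -/

set_option autoImplicit false

open scoped BigOperators

namespace Pool.Agent.ZO

open Pool.Agent.WT.Trees (PF)
open Pool.Agent.GX

section

variable {V : Type} [Fintype V]

open Classical in
/-- the branch at `u` -/
noncomputable def belowF (g : V → V) (u : V) : Finset V :=
  Finset.univ.filter fun x => x ∈ below g u

theorem mem_belowF {g : V → V} {u x : V} : x ∈ belowF g u ↔ x ∈ below g u := by
  classical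
  unfold belowF
  rw [Finset.mem_filter]
  exact and_iff_right (Finset.mem_univ _)

theorem coe_belowF (g : V → V) (u : V) : ((belowF g u : Finset V) : Set V) = below g u := by
  ext x
  rw [Finset.mem_coe, mem_belowF]

theorem card_belowF (g : V → V) (u : V) : (belowF g u).card = sz g u := by
  unfold sz
  rw [← coe_belowF, Set.ncard_coe_finset]

open Classical in
/-- the parent function cut at `u` -/
noncomputable def cutg (g : V → V) (u : V) (x : V) : V := if x ∈ below g u ∧ x ≠ u then g x else x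

omit [Fintype V] in
theorem cutg_in {g : V → V} {u x : V} (hx : x ∈ below g u) (hxu : x ≠ u) : cutg g u x = g x :=
  if_pos ⟨hx, hxu⟩

omit [Fintype V] in
theorem cutg_top (g : V → V) (u : V) : cutg g u u = u := if_neg fun h => h.2 rfl

omit [Fintype V] in
theorem cutg_out {g : V → V} {u x : V} (hx : x ∉ below g u) : cutg g u x = x :=
  if_neg fun h => hx h.1

omit [Fintype V] in
theorem cutg_mem {g : V → V} {u x : V} (hx : x ∈ below g u) : cutg g u x ∈ below g u := by
  by_cases h : x = u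
  · rw [h, cutg_top]
    exact FringeAux.self_mem_below g u
  · rw [cutg_in hx h]
    exact FringeAux.parent_mem_below hx h

omit [Fintype V] in
theorem cutg_iter {g : V → V} {u : V} (m : ℕ) : ∀ x, (∀ i < m, g^[i] x ∈ below g u ∧ g^[i] x ≠ u) →
    (cutg g u)^[m] x = g^[m] x := by
  induction m with
  | zero => intro x _; rfl
  | succ m ih =>
    intro x h
    rw [Function.iterate_succ_apply', Function.iterate_succ_apply', ih x fun i hi => h i (by omega)]
    exact cutg_in (h m (by omega)).1 (h m (by omega)).2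

omit [Fintype V] in
/-- the first time at which `u` is reached -/
theorem first_hit {g : V → V} {u x : V} (hx : x ∈ below g u) : ∃ m, g^[m] x = u ∧
    ∀ i < m, g^[i] x ∈ below g u ∧ g^[i] x ≠ u := by
  classical
  have hex : ∃ m, g^[m] x = u := hx
  refine ⟨Nat.find hex, Nat.find_spec hex, fun i hi => ⟨⟨Nat.find hex - i, ?_⟩,
    Nat.find_min hex hi⟩⟩
  rw [← Function.iterate_add_apply, Nat.sub_add_cancel hi.le]
  exact Nat.find_spec hex

omit [Fintype V] in
theorem cutg_reach {g : V → V} {u x : V} (hx : x ∈ below g u) : ∃ m, (cutg g u)^[m] x = u := by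
  obtain ⟨m, h1, h2⟩ := first_hit hx
  exact ⟨m, by rw [cutg_iter m x h2, h1]⟩

/-- success of the branch at `u` -/
def Sc (P : Pattern) (ℓ A : ℕ) (g : V → V) (u : V) (d : V → Bool × V) : Prop :=
  ∃ (z : V) (idx att dl : ℕ → ℕ), Succ P ℓ A (belowF g u) u (cutg g u) d z idx att dl

variable {P : Pattern} {ℓ A : ℕ}

omit [Fintype V] in
theorem Succ.congr_d {D : Finset V} {u : V} {g : V → V} {d d' : V → Bool × V} {z : V}
    {idx att dl : ℕ → ℕ} (hg : g u = u) (hin : ∀ x ∈ D, g x ∈ D)
    (h : Succ P ℓ A D u g d z idx att dl) (hd : ∀ x ∈ D, x ≠ u → d' x = d x) :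
    Succ P ℓ A D u g d' z idx att dl := by
  have hit : ∀ x ∈ D, ∀ i, g^[i] x ∈ D := by
    intro x hx i
    induction i with
    | zero => exact hx
    | succ i ih =>
      rw [Function.iterate_succ_apply']
      exact hin _ ih
  have hsD : ∀ i, sv g z (Ls P.N ℓ) i ∈ D := fun i => hit _ h.zD _
  have hsu : ∀ i, sv g z (Ls P.N ℓ) i ≠ u := fun i h' => h.nu (fix_iter hg h' (Nat.sub_le _ _))
  have hs : ∀ i, d' (sv g z (Ls P.N ℓ) i) = d (sv g z (Ls P.N ℓ) i) := fun i =>
    hd _ (hsD i) (hsu i)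
  refine ⟨h.zD, h.nu, h.hu, h.cardlo, h.cardhi, h.szq, h.szz, h.idx_mem, h.att_mem, h.dl_pos,
    ?_, ?_, ?_, ?_, ?_⟩
  · intro j h1 h2
    rw [hs]
    exact h.ori j h1 h2
  · intro j h1 h2
    rw [hs]
    exact h.labD j h1 h2
  · intro j h1 h2
    rw [hs]
    exact h.path j h1 h2
  · intro i hi hij
    rw [hs]
    exact h.stat1 i hi hij
  · intro j h1 h2 i hi
    rw [hs]
    have hlD := h.labD j h1 h2
    have hne : g^[i] (d (sv g z (Ls P.N ℓ) (idx j))).2 ≠ u := by
      intro h'
      have h3 := fix_iter hg h' hi.le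
      rw [h.path j h1 h2] at h3
      exact hsu _ h3
    rw [hd _ (hit _ hlD i) hne]
    exact h.stat2 j h1 h2 i hi

/-- locality -/
theorem Sc.congr {g g' : V → V} {u : V} {d d' : V → Bool × V} (hb : below g u = below g' u)
    (hg : ∀ x ∈ below g u, x ≠ u → g x = g' x ∧ d x = d' x) (h : Sc P ℓ A g u d) :
    Sc P ℓ A g' u d' := by
  obtain ⟨z, idx, att, dl, h⟩ := h
  have hD : belowF g u = belowF g' u := by
    apply Finset.coe_injective
    rw [coe_belowF, coe_belowF, hb]
  have hc : cutg g u = cutg g' u := by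
    funext x
    by_cases hx : x ∈ below g u ∧ x ≠ u
    · rw [cutg_in hx.1 hx.2, cutg_in (hb ▸ hx.1) hx.2, (hg x hx.1 hx.2).1]
    · have hx' : ¬ (x ∈ below g' u ∧ x ≠ u) := fun h => hx ⟨hb ▸ h.1, h.2⟩
      unfold cutg
      rw [if_neg hx, if_neg hx']
  refine ⟨z, idx, att, dl, ?_⟩
  rw [← hD, ← hc]
  refine h.congr_d (cutg_top g u) (fun x hx => ?_) (fun x hx hxu => ?_)
  · rw [mem_belowF] at hx ⊢
    exact cutg_mem hx
  · rw [mem_belowF] at hx
    exact (hg x hx hxu).2.symm

omit [Fintype V] in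
theorem Succ.perm {D D' : Finset V} {u : V} {g : V → V} {d : V → Bool × V} {z : V}
    {idx att dl : ℕ → ℕ} (σ : Equiv.Perm V) (hσ : ∀ x, σ x ∈ D' ↔ x ∈ D) (hc : D'.card = D.card)
    (h : Succ P ℓ A D u g d z idx att dl) :
    Succ P ℓ A D' (σ u) (fun y => σ (g (σ.symm y)))
      (fun y => ((d (σ.symm y)).1, σ (d (σ.symm y)).2)) (σ z) idx att dl := by
  have hit : ∀ m x, (fun y => σ (g (σ.symm y)))^[m] (σ x) = σ (g^[m] x) := fun m x =>
    conj_it σ g m x
  have hsv : ∀ i, sv (fun y => σ (g (σ.symm y))) (σ z) (Ls P.N ℓ) i = σ (sv g z (Ls P.N ℓ) i) :=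
    fun i => hit _ _
  refine ⟨(hσ z).2 h.zD, ?_, ?_, ?_, ?_, ?_, ?_, h.idx_mem, h.att_mem, h.dl_pos, ?_, ?_, ?_, ?_, ?_⟩
  · rw [hit]
    exact fun h' => h.nu (σ.injective h')
  · rw [hit, h.hu]
  · rw [hc]
    exact h.cardlo
  · rw [hc]
    exact h.cardhi
  · rw [hit, conj_sz σ g _]
    exact h.szq
  · rw [conj_sz σ g _]
    exact h.szz
  · intro j h1 h2
    simp only [hsv, Equiv.symm_apply_apply]
    exact h.ori j h1 h2
  · intro j h1 h2
    simp only [hsv, Equiv.symm_apply_apply, hσ]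
    exact h.labD j h1 h2
  · intro j h1 h2
    simp only [hsv, Equiv.symm_apply_apply]
    rw [hit, h.path j h1 h2]
  · intro i hi hij
    simp only [hsv, Equiv.symm_apply_apply, hσ]
    exact h.stat1 i hi hij
  · intro j h1 h2 i hi
    simp only [hsv, Equiv.symm_apply_apply, hit, hσ]
    exact h.stat2 j h1 h2 i hi

theorem Sc.perm_imp (σ : Equiv.Perm V) {g : V → V} {u : V} {d : V → Bool × V}
    (h : Sc P ℓ A g u d) : Sc P ℓ A (fun y => σ (g (σ.symm y))) (σ u)
      (fun y => ((d (σ.symm y)).1, σ (d (σ.symm y)).2)) := by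
  obtain ⟨z, idx, att, dl, h⟩ := h
  have hσ : ∀ x, σ x ∈ belowF (fun y => σ (g (σ.symm y))) (σ u) ↔ x ∈ belowF g u := by
    intro x
    rw [mem_belowF, mem_belowF, conj_below]
    exact σ.injective.mem_set_image
  have hcard : (belowF (fun y => σ (g (σ.symm y))) (σ u)).card = (belowF g u).card := by
    rw [card_belowF, card_belowF]
    exact conj_sz σ g u
  have hcut : cutg (fun y => σ (g (σ.symm y))) (σ u) = fun y => σ (cutg g u (σ.symm y)) := by
    funext y
    obtain ⟨x, rfl⟩ := σ.surjective y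
    rw [Equiv.symm_apply_apply]
    have h1 : σ x ∈ below (fun y => σ (g (σ.symm y))) (σ u) ↔ x ∈ below g u := by
      rw [conj_below]
      exact σ.injective.mem_set_image
    by_cases hx : x ∈ below g u ∧ x ≠ u
    · rw [cutg_in hx.1 hx.2, cutg_in (h1.2 hx.1) (fun h => hx.2 (σ.injective h)),
        Equiv.symm_apply_apply]
    · have hx' : ¬ (σ x ∈ below (fun y => σ (g (σ.symm y))) (σ u) ∧ σ x ≠ σ u) :=
        fun h => hx ⟨h1.1 h.1, fun h' => h.2 (by rw [h'])⟩
      unfold cutg
      rw [if_neg hx, if_neg hx']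
  refine ⟨σ z, idx, att, dl, ?_⟩
  rw [hcut]
  exact h.perm σ hσ hcard

/-- invariance under permutations -/
theorem Sc.perm (σ : Equiv.Perm V) {g : V → V} {u : V} {d : V → Bool × V} :
    Sc P ℓ A (fun y => σ (g (σ.symm y))) (σ u)
      (fun y => ((d (σ.symm y)).1, σ (d (σ.symm y)).2)) ↔ Sc P ℓ A g u d := by
  constructor
  · intro h
    have h1 := h.perm_imp σ.symm
    simp only [Equiv.symm_symm, Equiv.symm_apply_apply] at h1
    exact h1
  · exact fun h => h.perm_imp σ

/-- `g` has no cycles except fixed points -/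
def Acyc (g : V → V) : Prop := ∀ x y, x ∈ below g y → y ∈ below g x → x = y

omit [Fintype V] in
theorem cutg_below {g : V → V} (hg : Acyc g) {u x : V} (hx : x ∈ below g u) (hxu : x ≠ u) :
    below (cutg g u) x = below g x := by
  have hnu : u ∉ below g x := fun h => hxu (hg x u hx h)
  ext y
  constructor
  · rintro ⟨m, hm⟩
    -- the iterates stay away from `u`
    have key : ∀ i ≤ m, (cutg g u)^[i] y ≠ u := by
      intro i hi h
      have h1 := fix_iter (cutg_top g u) h hi
      rw [hm] at h1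
      exact hxu h1
    have hyb : y ∈ below g u := by
      by_contra hy
      have : (cutg g u)^[m] y = y := Function.iterate_fixed (cutg_out hy) m
      rw [this] at hm
      exact hy (hm ▸ hx)
    have key2 : ∀ i ≤ m, (cutg g u)^[i] y = g^[i] y ∧ g^[i] y ∈ below g u := by
      intro i
      induction i with
      | zero => intro _; exact ⟨rfl, hyb⟩
      | succ i ih =>
        intro hi
        obtain ⟨h1, h2⟩ := ih (by omega)
        have h3 : g^[i] y ≠ u := h1 ▸ key i (by omega)
        rw [Function.iterate_succ_apply', Function.iterate_succ_apply', h1, cutg_in h2 h3]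
        exact ⟨rfl, FringeAux.parent_mem_below h2 h3⟩
    exact ⟨m, by rw [← (key2 m le_rfl).1, hm]⟩
  · rintro ⟨m, hm⟩
    refine ⟨m, ?_⟩
    rw [cutg_iter, hm]
    intro i hi
    have h1 : g^[i] y ∈ below g x := ⟨m - i, by
      rw [← Function.iterate_add_apply, Nat.sub_add_cancel hi.le, hm]⟩
    exact ⟨below_trans h1 hx, fun h => hnu (h ▸ h1)⟩

/-- below a success there is no large branch -/
theorem Sc.small {g : V → V} (hg : Acyc g) {u : V} {d : V → Bool × V} (h : Sc P ℓ A g u d) {x : V}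
    (hx : x ∈ below g u) (hxu : x ≠ u) : sz g x < 16 * A := by
  classical
  obtain ⟨z, idx, att, dl, hs⟩ := h
  set L := Ls P.N ℓ with hL
  have hit : ∀ y ∈ below g u, ∀ i, (cutg g u)^[i] y ∈ below g u := by
    intro y hy i
    induction i with
    | zero => exact hy
    | succ i ih =>
      rw [Function.iterate_succ_apply']
      exact cutg_mem ih
  have hzD : z ∈ below g u := mem_belowF.1 hs.zD
  set q := (cutg g u)^[L + 1] z with hq
  have hqD : q ∈ below g u := hit z hzD _
  have hqu : q ≠ u := hs.nu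
  have hzu : z ≠ u := fun h => hs.nu (fix_iter (cutg_top g u) (j := 0) h (Nat.zero_le _))
  have hqp : g q = u := by
    rw [← cutg_in hqD hqu, hq, ← Function.iterate_succ_apply' (cutg g u) (L + 1) z]
    exact hs.hu
  have hszq : sz g q < 16 * A := by
    have h1 := hs.szq
    rw [← hL, ← hq] at h1
    unfold sz at h1 ⊢
    rw [cutg_below hg hqD hqu] at h1
    exact h1
  have hszz : 12 * A ≤ sz g z := by
    have h1 := hs.szz
    unfold sz at h1 ⊢
    rw [cutg_below hg hzD hzu] at h1
    exact h1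
  have hzq : z ∈ below g q := by
    rw [← cutg_below hg hqD hqu]
    exact ⟨L + 1, rfl⟩
  -- the child above `x`
  obtain ⟨m, hmx, hmin⟩ := first_hit hx
  have hmpos : m ≠ 0 := by
    rintro rfl
    exact hxu hmx
  obtain ⟨k, rfl⟩ := Nat.exists_eq_succ_of_ne_zero hmpos
  set c := g^[k] x with hc
  have hcp : g c = u := by
    rw [hc, ← Function.iterate_succ_apply' g k x]
    exact hmx
  have hxc : x ∈ below g c := ⟨k, rfl⟩
  have hcu : c ≠ u := (hmin k (Nat.lt_succ_self k)).2
  refine (sz_mono hxc).trans_lt ?_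
  by_cases hcq : c = q
  · rw [hcq]
    exact hszq
  · have hdis : Disjoint (below g c) (below g q) := by
      rw [Set.disjoint_left]
      intro y hy hy'
      have key : ∀ a b : V, g a = u → g b = u → a ≠ b → b ≠ u → a ∈ below g b → False := by
        rintro a b ha hb hab hbu ⟨m, hm'⟩
        rcases m with _ | m
        · exact hab hm'
        · rw [Function.iterate_succ_apply, ha] at hm'
          exact hbu (hg b u ⟨1, hb⟩ ⟨m, hm'⟩)
      rcases below_chain hy hy' with h | h
      · exact key c q hcp hqp hcq hqu h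
      · exact key q c hqp hcp (Ne.symm hcq) hcu h
    have hsub : insert u (below g c ∪ below g q) ⊆ below g u := by
      intro y hy
      rcases hy with rfl | hy | hy
      · exact FringeAux.self_mem_below _ _
      · exact below_trans hy ⟨1, hcp⟩
      · exact below_trans hy ⟨1, hqp⟩
    have hnu : u ∉ below g c ∪ below g q := by
      rintro (h | h)
      · exact hcu (hg c u ⟨1, hcp⟩ h)
      · exact hqu (hg q u ⟨1, hqp⟩ h)
    have h1 := Set.ncard_le_ncard hsub (Set.toFinite _)
    rw [Set.ncard_insert_of_notMem hnu (Set.toFinite _),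
      Set.ncard_union_eq hdis (Set.toFinite _) (Set.toFinite _)] at h1
    have h2 : 12 * A ≤ sz g q := hszz.trans (sz_mono hzq)
    have h3 := hs.cardhi
    rw [card_belowF] at h3
    unfold sz at h2 h3 ⊢
    omega

theorem Sc.card {g : V → V} {u : V} {d : V → Bool × V} (h : Sc P ℓ A g u d) :
    16 * A ≤ sz g u ∧ sz g u < 20 * A := by
  obtain ⟨z, idx, att, dl, hs⟩ := h
  rw [← card_belowF]
  exact ⟨hs.cardlo, hs.cardhi⟩

/-- successes are disjoint -/
theorem Sc.disj {g : V → V} (hg : Acyc g) {u u' : V} {d : V → Bool × V} (h : Sc P ℓ A g u d)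
    (h' : Sc P ℓ A g u' d) (hne : u ≠ u') : Disjoint (below g u) (below g u') := by
  rw [Set.disjoint_left]
  intro x hx hx'
  rcases below_chain hx hx' with h1 | h1
  · have h2 := h'.small hg h1 hne
    have h3 := h.card
    omega
  · have h2 := h.small hg h1 (Ne.symm hne)
    have h3 := h'.card
    omega

end

section

variable {V : Type} [Fintype V] {P : Pattern} {ℓ A : ℕ} {r : V}

omit [Fintype V] in
theorem acyc_of_PF {p : V → V} (hp : p ∈ PF r) : Acyc p := fun _ _ h h' => below_antisymm hp h h'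

open Classical in
/-- the template of a branch -/
noncomputable def tmOf (r : V) (p : V → V) (u : V) (d : V → Bool × V) : Tm V (Bool × V) :=
  ⟨belowF p u, u, cutg p u, fun x => if x ∈ below p u ∧ x ≠ u then d x else (false, r)⟩

theorem tmOf_mem {p : V → V} {u : V} {d : V → Bool × V} (hr : r ∉ below p u)
    (h : Sc P ℓ A p u d) : tmOf r p u d ∈ TT P ℓ A r := by
  classical
  obtain ⟨z, idx, att, dl, hs⟩ := h
  refine mem_TT.2 ⟨⟨fun h => hr (mem_belowF.1 h), mem_belowF.2 (FringeAux.self_mem_below p u),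
    cutg_top p u, fun x hx => mem_belowF.2 (cutg_mem (mem_belowF.1 hx)),
    fun x hx => cutg_reach (mem_belowF.1 hx), fun x hx => cutg_out (fun h => hx (mem_belowF.2 h)),
    ?_⟩, z, idx, att, dl, ?_⟩
  · intro x hx
    refine if_neg ?_
    rintro ⟨h1, h2⟩
    rcases hx with h3 | h3
    · exact h3 (mem_belowF.2 h1)
    · exact h2 h3
  · refine hs.congr_d (cutg_top p u) (fun x hx => mem_belowF.2 (cutg_mem (mem_belowF.1 hx)))
      (fun x hx hxu => ?_)
    exact if_pos ⟨mem_belowF.1 hx, hxu⟩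

theorem tmOf_mt {p : V → V} (hp : p ∈ PF r) (u : V) (d : V → Bool × V) :
    (tmOf r p u d).Mt r (p, d) := by
  classical
  refine ⟨hp, (coe_belowF p u).symm, fun x hx hxu => ⟨?_, ?_⟩⟩
  · exact (cutg_in (mem_belowF.1 hx) hxu).symm
  · exact (if_pos ⟨mem_belowF.1 hx, hxu⟩).symm

/-- two successes realise the pattern twice -/
theorem Sc.twice {p : V → V} (hp : p ∈ PF r) {u u' : V} {d : V → Bool × V} (hu : u ≠ r)
    (hu' : u' ≠ r) (hne : u ≠ u') (h : Sc P ℓ A p u d) (h' : Sc P ℓ A p u' d) :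
    Twice P p r (fun x => (d x).1) (fun x => (d x).2) := by
  refine ⟨u, u', ?_, ?_, h.disj (acyc_of_PF hp) h' hne⟩
  · exact realAt_of_mt (tmOf_mem (FringeAux.root_notMem_below hp hu) h) (tmOf_mt hp u d)
  · exact realAt_of_mt (tmOf_mem (FringeAux.root_notMem_below hp hu') h') (tmOf_mt hp u' d)

/-- the number of successes with a given branch -/
theorem sum_Sc_ge (D : Finset V) (hr : r ∉ D) :
    Tn P ℓ A r D.card * (Fintype.card (Bool × V)) ^ (Fintype.card V - (D.card - 1)) ≤
      ∑ u ∈ D, {q : (V → V) × (V → Bool × V) | (q.1 u = u ∧ (∀ x ∈ D, q.1 x ∈ D) ∧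
        (∀ x ∈ D, ∃ m, q.1^[m] x = u) ∧ ∀ x, x ∉ D → q.1 x = x) ∧ Sc P ℓ A q.1 u q.2}.ncard := by
  classical
  set c := Fintype.card (Bool × V) with hc
  set N : V → Set ((V → V) × (V → Bool × V)) := fun u => {q | (q.1 u = u ∧ (∀ x ∈ D, q.1 x ∈ D) ∧
        (∀ x ∈ D, ∃ m, q.1^[m] x = u) ∧ ∀ x, x ∉ D → q.1 x = x) ∧ Sc P ℓ A q.1 u q.2} with hN
  -- pairs of a template and an extension of its decoration
  set F := (TT P ℓ A r).filter fun τ => τ.D = D with hF
  have hE : ∀ τ : Tm V (Bool × V), τ ∈ F →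
      ((Finset.univ : Finset (V → Bool × V)).filter fun d' => ∀ x ∈ D.erase τ.u, d' x = τ.d x).card =
        c ^ (Fintype.card V - (D.card - 1)) := by
    intro τ hτ
    rw [hF, Finset.mem_filter] at hτ
    have h1 := card_deco (D.erase τ.u) τ.d
    have hu : τ.u ∈ D := hτ.2 ▸ (mem_TT.1 hτ.1).1.top
    rw [Finset.card_erase_of_mem hu] at h1
    rw [← h1, ← Set.ncard_coe_finset]
    congr 1
    ext d'
    simp
  have h1 : (F.sigma fun τ => (Finset.univ : Finset (V → Bool × V)).filter
      fun d' => ∀ x ∈ D.erase τ.u, d' x = τ.d x).card =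
      Tn P ℓ A r D.card * c ^ (Fintype.card V - (D.card - 1)) := by
    rw [Finset.card_sigma, Finset.sum_congr rfl hE, Finset.sum_const, smul_eq_mul, hF,
      fiber_eq D hr]
  rw [← h1]
  have h2 : ∑ u ∈ D, (N u).ncard = (D.sigma fun u => (N u).toFinset).card := by
    rw [Finset.card_sigma]
    refine Finset.sum_congr rfl fun u _ => ?_
    rw [Set.ncard_eq_toFinset_card']
  show _ ≤ ∑ u ∈ D, (N u).ncard
  rw [h2]
  refine Finset.card_le_card_of_injOn (fun q => ⟨q.1.u, (q.1.g, q.2)⟩) ?_ ?_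
  · rintro ⟨τ, d'⟩ hq
    rw [Finset.mem_coe, Finset.mem_sigma] at hq
    obtain ⟨hτ, hq2⟩ := hq
    have hd' := (Finset.mem_filter.1 hq2).2
    rw [hF, Finset.mem_filter] at hτ
    obtain ⟨hτ, hD⟩ := hτ
    obtain ⟨hw, z, idx, att, dl, hs⟩ := mem_TT.1 hτ
    rw [Finset.mem_coe, Finset.mem_sigma, Set.mem_toFinset]
    subst hD
    refine ⟨hw.top, ⟨hw.gtop, hw.inD, hw.reach, hw.gout⟩, ?_⟩
    simp only at hd' ⊢
    have hb : belowF τ.g τ.u = τ.D := by
      ext x
      rw [mem_belowF]
      constructor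
      · rintro ⟨m, hm⟩
        by_contra hx
        rw [Function.iterate_fixed (hw.gout x hx) m] at hm
        exact hx (hm ▸ hw.top)
      · exact fun hx => hw.reach x hx
    have hcut : cutg τ.g τ.u = τ.g := by
      funext x
      by_cases hx : x ∈ below τ.g τ.u
      · by_cases hxu : x = τ.u
        · rw [hxu, cutg_top, hw.gtop]
        · exact cutg_in hx hxu
      · rw [cutg_out hx]
        exact (hw.gout x (fun h => hx (mem_belowF.1 (hb.symm ▸ h)))).symm
    refine ⟨z, idx, att, dl, ?_⟩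
    rw [hb, hcut]
    exact hs.congr_d hw.gtop hw.inD (fun x hx hxu => hd' x (Finset.mem_erase.2 ⟨hxu, hx⟩))
  · rintro ⟨⟨D₁, u₁, g₁, d₁⟩, d'⟩ hq ⟨⟨D₂, u₂, g₂, d₂⟩, d''⟩ hq' he
    rw [Finset.mem_coe, Finset.mem_sigma] at hq hq'
    obtain ⟨hτ, hq2⟩ := hq
    obtain ⟨hτ', hq2'⟩ := hq'
    have hd' := (Finset.mem_filter.1 hq2).2
    have hd'' := (Finset.mem_filter.1 hq2').2
    rw [hF, Finset.mem_filter] at hτ hτ'
    obtain ⟨hτ, hD⟩ := hτ
    obtain ⟨hτ', hD'⟩ := hτ'
    have hw := (mem_TT.1 hτ).1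
    have hw' := (mem_TT.1 hτ').1
    simp only at hD hD' hd' hd''
    have e0 := Sigma.mk.inj he
    have e1 : u₁ = u₂ := e0.1
    have e2 : (g₁, d') = (g₂, d'') := eq_of_heq e0.2
    have e3 : g₁ = g₂ := congrArg Prod.fst e2
    have e4 : d' = d'' := congrArg Prod.snd e2
    subst e1
    subst e3
    subst e4
    subst hD
    subst hD'
    have hd : d₁ = d₂ := by
      funext x
      by_cases hx : x ∈ D₂ ∧ x ≠ u₁
      · rw [← hd' x (Finset.mem_erase.2 ⟨hx.2, hx.1⟩), ← hd'' x (Finset.mem_erase.2 ⟨hx.2, hx.1⟩)]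
      · have hx' : x ∉ D₂ ∨ x = u₁ := by
          by_contra hcon
          push Not at hcon
          exact hx hcon
        exact (hw.dout x hx').trans (hw'.dout x hx').symm
    subst hd
    rfl

end

end Pool.Agent.ZO
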