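import Pool.Agent.ZO.Low
import Pool.Agent.ZO.Sc

/-! # Zero-one law: the weight of the successful templates -/

set_option autoImplicit false

open scoped BigOperators Nat

namespace Pool.Agent.ZO

open Stirling
open Pool.Agent.WT.Trees (PF)
open Pool.Agent.GX

theorem am_ratio_le {n a : ℕ} (ha : 1 ≤ a) (han : a ≤ n) (hn : n ≤ 2 * a) :
    am a ≤ am n * (2 * Real.exp (-((n - a : ℕ) : ℝ))) := by
  rw [am_eq n (ha.trans han), am_eq a ha]
  have h1 := st_anti ha han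
  have h2 := st_pos n (ha.trans han)
  have h2a := st_pos a ha
  have hn' : (0 : ℝ) < n := by exact_mod_cast (ha.trans han)
  have ha' : (0 : ℝ) < a := by exact_mod_cast ha
  have h3 : (0 : ℝ) < Real.sqrt (2 * n) := Real.sqrt_pos.2 (by positivity)
  have h3a : (0 : ℝ) < Real.sqrt (2 * a) := Real.sqrt_pos.2 (by positivity)
  have h4 : Real.sqrt (2 * n) ≤ 2 * Real.sqrt (2 * a) := by
    rw [Real.sqrt_le_left (by positivity), mul_pow, Real.sq_sqrt (by positivity)]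
    have : (n : ℝ) ≤ 2 * a := by exact_mod_cast hn
    linarith
  have h7 : Real.exp (n : ℝ) * Real.exp (-((n - a : ℕ) : ℝ)) = Real.exp a := by
    rw [← Real.exp_add]
    congr 1
    rw [Nat.cast_sub han]
    ring
  have h8 : stirlingSeq n * Real.sqrt (2 * n) ≤ 2 * (stirlingSeq a * Real.sqrt (2 * a)) := by
    calc stirlingSeq n * Real.sqrt (2 * n) ≤ stirlingSeq a * (2 * Real.sqrt (2 * a)) :=
          mul_le_mul h1 h4 h3.le h2a.le
      _ = _ := by ring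
  calc Real.exp a / (stirlingSeq a * Real.sqrt (2 * a))
      = 2 * Real.exp a / (2 * (stirlingSeq a * Real.sqrt (2 * a))) := by
        field_simp
    _ ≤ 2 * Real.exp a / (stirlingSeq n * Real.sqrt (2 * n)) :=
      div_le_div_of_nonneg_left (by positivity) (by positivity) h8
    _ = Real.exp n / (stirlingSeq n * Real.sqrt (2 * n)) *
          (2 * Real.exp (-((n - a : ℕ) : ℝ))) := by
      rw [← h7]
      ring

theorem term_le (n c s : ℕ) (hs : 1 ≤ s) (hc : 1 ≤ c) (h : 4 * s ≤ n) :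
    ((n - 1).choose s : ℝ) * K1 n c s ≤
      K0 n c * (2 * n * ((c : ℝ) ^ (n - (s - 1)) / ((c : ℝ) ^ n * (s ! : ℝ)) *
        Real.exp (-(s : ℝ)))) := by
  obtain ⟨x, rfl⟩ : ∃ x, n = x + 1 + s := ⟨n - (1 + s), by omega⟩
  set n := x + 1 + s with hn
  have e1 : n - s = x + 1 := by omega
  have e2 : n - 1 = x + s := by omega
  have hn0 : (0 : ℝ) < n := by
    have : 0 < n := by omega
    exact_mod_cast this
  have hx0 : (0 : ℝ) < ((x + 1 : ℕ) : ℝ) := by exact_mod_cast Nat.succ_pos x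
  have hc0 : (0 : ℝ) < c := by exact_mod_cast hc
  have c1 : ((x + s).choose s : ℝ) = ((x + s) ! : ℝ) / ((s ! : ℝ) * (x ! : ℝ)) := by
    rw [Nat.cast_choose ℝ (Nat.le_add_left s x), Nat.add_sub_cancel]
  have f1 : (n ! : ℝ) = n * ((x + s) ! : ℝ) := by
    have : n = (x + s) + 1 := by omega
    rw [this, Nat.factorial_succ]; push_cast; ring
  have f2 : ((x + 1) ! : ℝ) = ((x + 1 : ℕ) : ℝ) * (x ! : ℝ) := by
    rw [Nat.factorial_succ]; push_cast; ring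
  have an := am_pos (m := n) (by omega)
  have r0 := am_ratio_le (n := n) (a := x + 1) (by omega) (by omega) (by omega)
  have hns : n - (x + 1) = s := by omega
  rw [hns] at r0
  have r1 : am (x + 1) / am n ≤ 2 * Real.exp (-(s : ℝ)) := by
    rw [div_le_iff₀ an]
    linarith [mul_comm (am n) (2 * Real.exp (-(s : ℝ)))]
  have q1 : (0 : ℝ) < (x ! : ℝ) := by exact_mod_cast Nat.factorial_pos x
  have q2 : (0 : ℝ) < (s ! : ℝ) := by exact_mod_cast Nat.factorial_pos s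
  have q7 : (0 : ℝ) < ((x + s) ! : ℝ) := by exact_mod_cast Nat.factorial_pos (x + s)
  have q8 : (0 : ℝ) < (n : ℝ) ^ n := by positivity
  have key : ((n - 1).choose s : ℝ) * K1 n c s = K0 n c * (n * (am (x + 1) / am n) *
      ((c : ℝ) ^ (n - (s - 1)) / ((c : ℝ) ^ n * (s ! : ℝ)))) := by
    unfold K1 K0 am
    rw [e1, e2, c1, f1, f2, pow_b _ (by omega), pow_c _ (by omega : 1 ≤ n)]
    generalize (n : ℝ) ^ n = nn at q8 ⊢
    generalize ((x + 1 : ℕ) : ℝ) ^ (x + 1) = xx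
    generalize (c : ℝ) ^ (n - (s - 1)) = cc
    have hcn : (0 : ℝ) < (c : ℝ) ^ n := by positivity
    generalize (c : ℝ) ^ n = cn at hcn ⊢
    generalize ((x + 1 : ℕ) : ℝ) = x1 at hx0 ⊢
    field_simp
  rw [key]
  have hK : 0 ≤ K0 n c := by unfold K0; positivity
  apply mul_le_mul_of_nonneg_left _ hK
  have h9 : 0 ≤ (c : ℝ) ^ (n - (s - 1)) / ((c : ℝ) ^ n * (s ! : ℝ)) := by positivity
  calc n * (am (x + 1) / am n) * ((c : ℝ) ^ (n - (s - 1)) / ((c : ℝ) ^ n * (s ! : ℝ)))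
      ≤ n * (2 * Real.exp (-(s : ℝ))) *
          ((c : ℝ) ^ (n - (s - 1)) / ((c : ℝ) ^ n * (s ! : ℝ))) := by gcongr
    _ = _ := by ring

theorem Tn_size {V : Type} [Fintype V] (P : Pattern) (ℓ A : ℕ) (r : V) (s : ℕ)
    (h : Tn P ℓ A r s ≠ 0) : 16 * A ≤ s ∧ s < 20 * A := by
  classical
  unfold Tn at h
  by_cases hex : ∃ D : Finset V, r ∉ D ∧ D.card = s
  · rw [dif_pos hex] at h
    obtain ⟨τ, hτ⟩ := Finset.card_pos.1 (Nat.pos_of_ne_zero h)
    rw [Finset.mem_filter] at hτ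
    obtain ⟨_, z, idx, att, dl, hs⟩ := mem_TT.1 hτ.1
    have h1 := hs.cardlo
    have h2 := hs.cardhi
    rw [hτ.2, hex.choose_spec.2] at h1 h2
    exact ⟨h1, h2⟩
  · rw [dif_neg hex] at h
    exact absurd rfl h

theorem kap_lower (P : Pattern) : ∃ c₀ : ℝ, 0 < c₀ ∧ ∃ C : ℝ, 0 < C ∧ ∃ n₀ : ℕ,
    ∀ (V : Type) [Fintype V] (r : V), n₀ ≤ Fintype.card V → ∃ ℓ A : ℕ, 1 ≤ A ∧
      80 * A ≤ Fintype.card V ∧ (A : ℝ) ≤ C * (Fintype.card V : ℝ) ^ (2 / 3 : ℝ) ∧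
      c₀ / A ≤ ∑ s ∈ Finset.range (Fintype.card V), (Tn P ℓ A r s : ℝ) *
        ((Fintype.card (Bool × V) : ℝ) ^ (Fintype.card V - (s - 1)) /
          ((Fintype.card (Bool × V) : ℝ) ^ (Fintype.card V) * (s ! : ℝ)) *
            Real.exp (-(s : ℝ))) := by
  set κ := kap P.N with hκ
  have hκ2 := kap_ge P.N
  have hκ0 : (0 : ℝ) < κ := by
    have : 0 < κ := by omega
    exact_mod_cast this
  set K : ℝ := 40 * (κ : ℝ) ^ 3 with hK
  have hK0 : 0 < K := by positivity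
  have e3 := Real.exp_pos 3
  set k3 : ℝ := K ^ (1 / 3 : ℝ) with hk3
  have hk30 : 0 < k3 := Real.rpow_pos_of_pos hK0 _
  have hk3c : k3 ^ 3 = K := by
    rw [hk3, ← Real.rpow_natCast, ← Real.rpow_mul hK0.le]
    norm_num
  refine ⟨1 / (49920 * Real.exp 3 * (16 * K) ^ P.N), by positivity, (κ : ℝ) ^ 2 / k3 ^ 2,
    by positivity, 40 * κ ^ 3, ?_⟩
  intro V _ r hn₀
  classical
  set n := Fintype.card V with hndef
  set c := Fintype.card (Bool × V) with hcdef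
  have hn0 : 0 < n := Fintype.card_pos_iff.2 ⟨r⟩
  have hc0 : 0 < c := Fintype.card_pos_iff.2 ⟨(false, r)⟩
  have hn' : (0 : ℝ) < n := by exact_mod_cast hn0
  have hc' : (0 : ℝ) < c := by exact_mod_cast hc0
  have hKn : K ≤ n := by
    have : ((40 * κ ^ 3 : ℕ) : ℝ) ≤ n := by exact_mod_cast hn₀
    push_cast at this
    exact this
  set y : ℝ := (n : ℝ) ^ (1 / 3 : ℝ) with hy
  have hy0 : 0 < y := Real.rpow_pos_of_pos hn' _
  have hy3 : y ^ 3 = n := by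
    rw [hy, ← Real.rpow_natCast, ← Real.rpow_mul hn'.le]
    norm_num
  set x : ℝ := y / k3 with hx
  have hx0 : 0 < x := by positivity
  have hxn : K * x ^ 3 = n := by
    rw [hx, div_pow, hk3c, hy3]
    field_simp
  have hx1 : 1 ≤ x := by
    by_contra hcon
    rw [not_le] at hcon
    have h1 : x ^ 3 < 1 := pow_lt_one₀ hx0.le hcon (by norm_num)
    nlinarith
  set ℓ := ⌊x⌋₊ with hℓ
  have hℓ1 : 1 ≤ ℓ := Nat.le_floor (by simpa using hx1)
  have hℓx : (ℓ : ℝ) ≤ x := Nat.floor_le hx0.le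
  have hxℓ : x ≤ 2 * ℓ := by
    have h1 := Nat.lt_floor_add_one x
    rw [← hℓ] at h1
    have h2 : (1 : ℝ) ≤ ℓ := by exact_mod_cast hℓ1
    linarith
  have hℓ0 : (0 : ℝ) < ℓ := by exact_mod_cast hℓ1
  have hlow : K * (ℓ : ℝ) ^ 3 ≤ n := by
    rw [← hxn]
    have : (ℓ : ℝ) ^ 3 ≤ x ^ 3 := pow_le_pow_left₀ hℓ0.le hℓx 3
    exact mul_le_mul_of_nonneg_left this hK0.le
  have hhigh : (n : ℝ) ≤ 8 * K * (ℓ : ℝ) ^ 3 := by
    rw [← hxn]
    have : x ^ 3 ≤ (2 * (ℓ : ℝ)) ^ 3 := pow_le_pow_left₀ hx0.le hxℓ 3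
    calc K * x ^ 3 ≤ K * (2 * (ℓ : ℝ)) ^ 3 := mul_le_mul_of_nonneg_left this hK0.le
      _ = 8 * K * (ℓ : ℝ) ^ 3 := by ring
  have hnat : 40 * (kap P.N * ℓ) ^ 3 ≤ Fintype.card V := by
    have h0 : ((40 * (kap P.N * ℓ) ^ 3 : ℕ) : ℝ) = K * (ℓ : ℝ) ^ 3 := by
      rw [hK, hκ]
      push_cast
      ring
    have h1 : ((40 * (kap P.N * ℓ) ^ 3 : ℕ) : ℝ) ≤ (n : ℝ) := h0.trans_le hlow
    exact_mod_cast h1
  set A := (kap P.N * ℓ) ^ 2 with hA
  have hb2 : 2 ≤ kap P.N * ℓ := by nlinarith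
  have hA1 : 1 ≤ A := Nat.one_le_pow _ _ (by omega)
  have h80 : 80 * A ≤ n := by
    have h5 : (kap P.N * ℓ) ^ 3 = A * (kap P.N * ℓ) := by rw [hA]; ring
    nlinarith
  have hA0 : (0 : ℝ) < A := by exact_mod_cast hA1
  refine ⟨ℓ, A, hA1, h80, ?_, ?_⟩
  · have h1 : (A : ℝ) = (κ : ℝ) ^ 2 * (ℓ : ℝ) ^ 2 := by
      rw [hA]
      push_cast
      ring
    have h2 : (n : ℝ) ^ (2 / 3 : ℝ) = y ^ 2 := by
      rw [hy, ← Real.rpow_natCast, ← Real.rpow_mul hn'.le]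
      norm_num
    rw [h1, h2]
    have h3 : (ℓ : ℝ) ^ 2 ≤ x ^ 2 := pow_le_pow_left₀ hℓ0.le hℓx 2
    calc (κ : ℝ) ^ 2 * (ℓ : ℝ) ^ 2 ≤ (κ : ℝ) ^ 2 * x ^ 2 :=
          mul_le_mul_of_nonneg_left h3 (by positivity)
      _ = (κ : ℝ) ^ 2 / k3 ^ 2 * y ^ 2 := by
        rw [hx]
        field_simp
  · have hE := EE_lower P ℓ hℓ1 r hnat
    rw [← hndef, ← hcdef, ← hA] at hE
    have hKpos : 0 < K0 n c := by unfold K0; positivity
    have h1 : EE n c (Tn P ℓ A r) ≤ K0 n c * (2 * n * ∑ s ∈ Finset.range n,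
        (Tn P ℓ A r s : ℝ) * ((c : ℝ) ^ (n - (s - 1)) / ((c : ℝ) ^ n * (s ! : ℝ)) *
          Real.exp (-(s : ℝ)))) := by
      unfold EE
      rw [Finset.mul_sum, Finset.mul_sum]
      apply Finset.sum_le_sum
      intro s _
      by_cases hT : Tn P ℓ A r s = 0
      · rw [hT]
        simp
      · obtain ⟨h2, h3⟩ := Tn_size P ℓ A r s hT
        have h4 := term_le n c s (by omega) hc0 (by omega)
        calc ((n - 1).choose s : ℝ) * (Tn P ℓ A r s * K1 n c s)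
            = Tn P ℓ A r s * (((n - 1).choose s : ℝ) * K1 n c s) := by ring
          _ ≤ Tn P ℓ A r s * (K0 n c * (2 * n * ((c : ℝ) ^ (n - (s - 1)) /
              ((c : ℝ) ^ n * (s ! : ℝ)) * Real.exp (-(s : ℝ))))) :=
            mul_le_mul_of_nonneg_left h4 (Nat.cast_nonneg _)
          _ = _ := by ring
    have h2 := le_of_mul_le_mul_left (hE.trans h1) hKpos
    have hAr : (((kap P.N * ℓ : ℕ) : ℝ)) ^ 2 = (A : ℝ) := by
      rw [hA]
      push_cast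
      ring
    rw [hAr] at h2
    have h3 : (2 * (n : ℝ)) ^ P.N ≤ (16 * K) ^ P.N * (ℓ : ℝ) ^ (3 * P.N) := by
      rw [pow_mul, ← mul_pow]
      apply pow_le_pow_left₀ (by positivity)
      linarith
    have h4 : (1 / (49920 * Real.exp 3 * (16 * K) ^ P.N) / A) * (2 * n) ≤
        (ℓ : ℝ) ^ (3 * P.N) * n / (24960 * Real.exp 3 * (A : ℝ) * (2 * (n : ℝ)) ^ P.N) := by
      have h5 : (1 / (49920 * Real.exp 3 * (16 * K) ^ P.N) / A) * (2 * n) =
          (ℓ : ℝ) ^ (3 * P.N) * n / (24960 * Real.exp 3 * (A : ℝ) *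
            ((16 * K) ^ P.N * (ℓ : ℝ) ^ (3 * P.N))) := by
        field_simp
        ring
      rw [h5]
      apply div_le_div_of_nonneg_left (by positivity) (by positivity)
      exact mul_le_mul_of_nonneg_left h3 (by positivity)
    have h6 := h4.trans h2
    have h7 : (0 : ℝ) < 2 * n := by positivity
    rw [mul_comm] at h6
    exact le_of_mul_le_mul_left h6 h7

end Pool.Agent.ZO
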