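import Pool.Agent.ZO.Law2
import Pool.Agent.WT.RandomAll

/-! # The number of reduced labelled oriented trees -/

set_option autoImplicit false

open scoped BigOperators Nat

namespace Pool.Agent.ZO

open Pool.Agent.FoxAsph Pool.Agent.WT

theorem eight_le_factorial (m : ℕ) (hm : 5 ≤ m) : 8 * (m + 1) ≤ m ! := by
  induction m, hm using Nat.le_induction with
  | base => decide
  | succ m hm ih =>
    rw [Nat.factorial_succ]
    nlinarith

/-- comparison of the numbers of all and of the reduced labelled oriented trees -/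
theorem card_lot_le (n D : ℕ) (hD : 4 * D ≤ n) (hn : 1 ≤ D) (hfac : 2 * n ≤ D !) :
    (Nat.card (LOT (Fin n)) : ℝ) ≤
      2 * Real.exp (4 * D) * {Γ : LOT (Fin n) | Γ.Reduced}.ncard := by
  classical
  set good := Finset.univ.filter fun G : TreeOn (Fin n) => ∀ v, (G.1.neighborSet v).ncard ≤ D
    with hgood
  set bad := Finset.univ.filter fun G : TreeOn (Fin n) => ¬ ∀ v, (G.1.neighborSet v).ncard ≤ D
    with hbad
  have hcard : Fintype.card (TreeOn (Fin n)) = good.card + bad.card := by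
    rw [← Finset.card_univ]
    exact (Finset.card_filter_add_card_filter_not _).symm
  have h4 := card_bad_trees n D
  rw [← hbad, hcard] at h4
  have h5 : bad.card ≤ good.card := by
    have h6 : 2 * n * bad.card ≤ n * (good.card + bad.card) :=
      (Nat.mul_le_mul_right _ hfac).trans h4
    have h7 : 2 * bad.card ≤ good.card + bad.card := by
      refine Nat.le_of_mul_le_mul_left ?_ (show 0 < n by omega)
      calc n * (2 * bad.card) = 2 * n * bad.card := by ring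
        _ ≤ _ := h6
    omega
  have h8 : (Fintype.card (TreeOn (Fin n)) : ℝ) ≤ 2 * good.card := by
    have : Fintype.card (TreeOn (Fin n)) ≤ 2 * good.card := by omega
    exact_mod_cast this
  have hexp := pow_le_exp n D hD (n - 1) (by omega)
  set r : TreeOn (Fin n) → ℝ := fun G => ∑ o : Orient G.1,
    ({label : G.1.edgeSet → Fin n | (mkLOT G o label).Reduced}.ncard : ℝ) with hr
  have hr0 : ∀ G, 0 ≤ r G := fun G => Finset.sum_nonneg (fun o _ => Nat.cast_nonneg _)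
  have h3 : ∀ G ∈ good, (2 : ℝ) ^ (n - 1) * ((n - 2 * D : ℕ) : ℝ) ^ (n - 1) ≤ r G := by
    intro G hG
    rw [hgood, Finset.mem_filter] at hG
    rw [hr]
    simp only
    refine le_trans (le_of_eq ?_) (Finset.card_nsmul_le_sum _ _ (((n - 2 * D : ℕ) : ℝ) ^ (n - 1)) ?_)
    · rw [Finset.card_univ, card_orient', nsmul_eq_mul]
      push_cast
      ring
    · intro o _
      exact_mod_cast ncard_reduced_ge G o hG.2 (by omega)
  have hgoodsum : (good.card : ℝ) * (2 ^ (n - 1) * ((n - 2 * D : ℕ) : ℝ) ^ (n - 1)) ≤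
      ∑ G ∈ good, r G := by
    have := Finset.card_nsmul_le_sum good r _ h3
    rwa [nsmul_eq_mul] at this
  have hrle : ∑ G ∈ good, r G ≤ ∑ G, r G := Finset.sum_le_univ_sum_of_nonneg hr0
  have hred : (({Γ : LOT (Fin n) | Γ.Reduced}.ncard : ℕ) : ℝ) = ∑ G, r G := by
    rw [ncard_lot]
    push_cast
    rfl
  rw [card_lot, hred]
  push_cast
  calc (Fintype.card (TreeOn (Fin n)) : ℝ) * (2 ^ (n - 1) * (n : ℝ) ^ (n - 1))
      ≤ (2 * good.card) * (2 ^ (n - 1) *
          (Real.exp (4 * D) * ((n - 2 * D : ℕ) : ℝ) ^ (n - 1))) := by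
        refine mul_le_mul h8 ?_ (by positivity) (by positivity)
        exact mul_le_mul_of_nonneg_left hexp (by positivity)
    _ = 2 * Real.exp (4 * D) *
          (good.card * (2 ^ (n - 1) * ((n - 2 * D : ℕ) : ℝ) ^ (n - 1))) := by ring
    _ ≤ 2 * Real.exp (4 * D) * ∑ G, r G :=
        mul_le_mul_of_nonneg_left (hgoodsum.trans hrle) (by positivity)

theorem card_lot_le' : ∃ K : ℝ, 0 < K ∧ ∀ n : ℕ, 20 ≤ n → (Nat.card (LOT (Fin n)) : ℝ) ≤
    K * (n : ℝ) ^ (1 / 12 : ℝ) * {Γ : LOT (Fin n) | Γ.Reduced}.ncard := by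
  have hlim := FloorSemiring.tendsto_pow_div_factorial_atTop (Real.exp 48)
  obtain ⟨B, hB⟩ := hlim.bddAbove_range
  have hB' : ∀ m : ℕ, Real.exp 48 ^ m / (m ! : ℝ) ≤ B := fun m => hB ⟨m, rfl⟩
  have hB0 : 0 < B := lt_of_lt_of_le (by norm_num) (hB' 0)
  refine ⟨2 * (Real.exp 4 * (2 * B) ^ (1 / 12 : ℝ)), by positivity, ?_⟩
  intro n hn
  have hex : ∃ D, 2 * n ≤ D ! := ⟨2 * n, Nat.self_le_factorial _⟩
  classical
  set D := Nat.find hex with hD
  have hDs : 2 * n ≤ D ! := Nat.find_spec hex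
  have hD1 : 2 ≤ D := by
    by_contra hcon
    have : D = 0 ∨ D = 1 := by omega
    rcases this with h | h
    · rw [h] at hDs
      simp at hDs
      omega
    · rw [h] at hDs
      simp at hDs
      omega
  have hDm : (D - 1) ! < 2 * n := by
    have := Nat.find_min hex (m := D - 1) (by omega)
    omega
  have h4D : 4 * D ≤ n := by
    by_contra hcon
    have h6 : 6 ≤ D := by omega
    have := eight_le_factorial (D - 1) (by omega)
    omega
  have h1 := card_lot_le n D h4D (by omega) hDs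
  refine h1.trans ?_
  have hn0 : (0 : ℝ) < n := by
    have : 0 < n := by omega
    exact_mod_cast this
  have h2 : Real.exp (4 * D) ≤ Real.exp 4 * (2 * B) ^ (1 / 12 : ℝ) * (n : ℝ) ^ (1 / 12 : ℝ) := by
    have h3 : Real.exp 48 ^ (D - 1) ≤ 2 * B * n := by
      have h4 := hB' (D - 1)
      rw [div_le_iff₀ (by exact_mod_cast Nat.factorial_pos _)] at h4
      refine h4.trans ?_
      have h5 : (((D - 1) ! : ℕ) : ℝ) ≤ 2 * n := by exact_mod_cast hDm.le
      nlinarith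
    have h6 : Real.exp (4 * ((D - 1 : ℕ) : ℝ)) = (Real.exp 48 ^ (D - 1)) ^ (1 / 12 : ℝ) := by
      rw [← Real.exp_nat_mul, ← Real.exp_mul]
      congr 1
      ring
    have h7 : Real.exp (4 * (D : ℝ)) = Real.exp 4 * Real.exp (4 * ((D - 1 : ℕ) : ℝ)) := by
      rw [← Real.exp_add]
      congr 1
      rw [Nat.cast_sub (by omega)]
      push_cast
      ring
    rw [h7, h6, mul_assoc]
    apply mul_le_mul_of_nonneg_left _ (Real.exp_pos _).le
    rw [← Real.mul_rpow (by positivity) hn0.le]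
    exact Real.rpow_le_rpow (by positivity) h3 (by norm_num)
  have h8 : (0 : ℝ) ≤ {Γ : LOT (Fin n) | Γ.Reduced}.ncard := Nat.cast_nonneg _
  calc 2 * Real.exp (4 * D) * {Γ : LOT (Fin n) | Γ.Reduced}.ncard
      ≤ 2 * (Real.exp 4 * (2 * B) ^ (1 / 12 : ℝ) * (n : ℝ) ^ (1 / 12 : ℝ)) *
        {Γ : LOT (Fin n) | Γ.Reduced}.ncard := by gcongr
    _ = _ := by ring

/-- the reduced labelled oriented trees -/
theorem reduced_of_all (C : ℝ) (hC : ∀ n : ℕ, 0 < n →
      ({Γ : LOT (Fin n) | ∃ v, AllAspherical Γ v}.ncard : ℝ) ≤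
        C / (n : ℝ) ^ (1 / 3 : ℝ) * Nat.card (LOT (Fin n))) :
    ∃ C' : ℝ, ∀ n : ℕ, 0 < n →
      ({Γ : LOT (Fin n) | Γ.Reduced ∧ ∃ v, AllAspherical Γ v}.ncard : ℝ) ≤
        C' / (n : ℝ) ^ (1 / 4 : ℝ) * {Γ : LOT (Fin n) | Γ.Reduced}.ncard := by
  obtain ⟨K, hK, hKn⟩ := card_lot_le'
  refine ⟨|C| * K + 20, fun n hn => ?_⟩
  have hn0 : (0 : ℝ) < n := by exact_mod_cast hn
  have hn1 : (1 : ℝ) ≤ n := by exact_mod_cast hn
  have hfin : Finite (LOT (Fin n)) := by
    refine Nat.finite_of_card_ne_zero ?_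
    rw [card_lot, card_treeOn n ⟨0, hn⟩]
    positivity
  have hR : (0 : ℝ) ≤ {Γ : LOT (Fin n) | Γ.Reduced}.ncard := Nat.cast_nonneg _
  rcases Nat.lt_or_ge n 20 with hsm | hbig
  · have h1 : ({Γ : LOT (Fin n) | Γ.Reduced ∧ ∃ v, AllAspherical Γ v}.ncard : ℝ) ≤
        {Γ : LOT (Fin n) | Γ.Reduced}.ncard := by
      have hsub : {Γ : LOT (Fin n) | Γ.Reduced ∧ ∃ v, AllAspherical Γ v} ⊆
          {Γ : LOT (Fin n) | Γ.Reduced} := fun Γ h => h.1
      exact_mod_cast Set.ncard_le_ncard hsub (Set.toFinite _)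
    refine h1.trans ?_
    have h2 : 1 ≤ (|C| * K + 20) / (n : ℝ) ^ (1 / 4 : ℝ) := by
      rw [le_div_iff₀ (Real.rpow_pos_of_pos hn0 _), one_mul]
      have h3 : (n : ℝ) ^ (1 / 4 : ℝ) ≤ (n : ℝ) ^ (1 : ℝ) :=
        Real.rpow_le_rpow_of_exponent_le hn1 (by norm_num)
      rw [Real.rpow_one] at h3
      have h4 : (n : ℝ) ≤ 20 := by exact_mod_cast hsm.le
      have h5 : 0 ≤ |C| * K := by positivity
      linarith
    nlinarith
  · have h1 : ({Γ : LOT (Fin n) | Γ.Reduced ∧ ∃ v, AllAspherical Γ v}.ncard : ℝ) ≤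
        {Γ : LOT (Fin n) | ∃ v, AllAspherical Γ v}.ncard := by
      have hsub : {Γ : LOT (Fin n) | Γ.Reduced ∧ ∃ v, AllAspherical Γ v} ⊆
          {Γ : LOT (Fin n) | ∃ v, AllAspherical Γ v} := fun Γ h => h.2
      exact_mod_cast Set.ncard_le_ncard hsub (Set.toFinite _)
    refine h1.trans ((hC n hn).trans ?_)
    have h2 := hKn n hbig
    have h3 : (n : ℝ) ^ (1 / 12 : ℝ) / (n : ℝ) ^ (1 / 3 : ℝ) = 1 / (n : ℝ) ^ (1 / 4 : ℝ) := by
      rw [← Real.rpow_sub hn0, one_div ((n : ℝ) ^ (1 / 4 : ℝ)), ← Real.rpow_neg hn0.le]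
      norm_num
    have hp : 0 < (n : ℝ) ^ (1 / 3 : ℝ) := Real.rpow_pos_of_pos hn0 _
    have hq : 0 < (n : ℝ) ^ (1 / 4 : ℝ) := Real.rpow_pos_of_pos hn0 _
    calc C / (n : ℝ) ^ (1 / 3 : ℝ) * Nat.card (LOT (Fin n))
        ≤ |C| / (n : ℝ) ^ (1 / 3 : ℝ) * Nat.card (LOT (Fin n)) := by
          apply mul_le_mul_of_nonneg_right _ (Nat.cast_nonneg _)
          exact div_le_div_of_nonneg_right (le_abs_self C) hp.le
      _ ≤ |C| / (n : ℝ) ^ (1 / 3 : ℝ) * (K * (n : ℝ) ^ (1 / 12 : ℝ) *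
            {Γ : LOT (Fin n) | Γ.Reduced}.ncard) :=
          mul_le_mul_of_nonneg_left h2 (by positivity)
      _ = |C| * K * ((n : ℝ) ^ (1 / 12 : ℝ) / (n : ℝ) ^ (1 / 3 : ℝ)) *
            {Γ : LOT (Fin n) | Γ.Reduced}.ncard := by ring
      _ = (|C| * K) / (n : ℝ) ^ (1 / 4 : ℝ) * {Γ : LOT (Fin n) | Γ.Reduced}.ncard := by
          rw [h3]
          ring
      _ ≤ (|C| * K + 20) / (n : ℝ) ^ (1 / 4 : ℝ) * {Γ : LOT (Fin n) | Γ.Reduced}.ncard := by
          apply mul_le_mul_of_nonneg_right _ hR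
          exact div_le_div_of_nonneg_right (by linarith) hq.le

end Pool.Agent.ZO
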