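import Pool.Agent.ZO.ExFew
import Pool.Agent.ZO.Red

/-! # Exponential bound: the proportion of the labelled oriented trees -/

set_option autoImplicit false

open scoped BigOperators Nat

namespace Pool.Agent.ZO

open Pool.Agent.FoxAsph Pool.Agent.WT Pool.Agent.WT.Trees Pool.Agent.GX Pool.Agent.RelGap

/-- the proportion of the labelled oriented trees -/
theorem frac_exp (P : Pattern) (hW : WUse P)
    (hP : ∀ (V : Type) [Fintype V] (Γ : LOT V) (p : V → V) (r : V)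
      (o : V → Bool) (l : V → V), Desc Γ p r o l → Twice P p r o l → ∀ v, ¬ AllAspherical Γ v) :
    ∃ C : ℝ, 0 < C ∧ ∀ n : ℕ, 0 < n → ({Γ : LOT (Fin n) | ∃ v, AllAspherical Γ v}.ncard : ℝ) ≤
      C * Real.exp (-((n : ℝ) ^ (1 / 3 : ℝ) / C)) * Nat.card (LOT (Fin n)) := by
  obtain ⟨C, hC0, hC⟩ := main_exp P hW
  refine ⟨C, hC0, fun n hn => ?_⟩
  have h1 := count_le P hP n ⟨0, hn⟩
  have h2 := hC (Fin n) ⟨0, hn⟩
  rw [Fintype.card_fin] at h2
  set ε : ℝ := C * Real.exp (-((n : ℝ) ^ (1 / 3 : ℝ) / C)) with hε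
  have h3 : (({Γ : LOT (Fin n) | ∃ v, AllAspherical Γ v}.ncard * (2 * n) : ℕ) : ℝ) ≤
      ε * ((n : ℝ) ^ (n - 2) * 2 ^ n * (n : ℝ) ^ n) :=
    le_trans (by exact_mod_cast h1) h2
  rw [card_lot, card_treeOn n ⟨0, hn⟩]
  push_cast at h3 ⊢
  have hn0 : (0 : ℝ) < n := by exact_mod_cast hn
  have h4 : (n : ℝ) ^ (n - 2) * 2 ^ n * (n : ℝ) ^ n =
      ((n : ℝ) ^ (n - 2) * (2 ^ (n - 1) * (n : ℝ) ^ (n - 1))) * (2 * n) := by
    obtain ⟨m, rfl⟩ : ∃ m, n = m + 1 := ⟨n - 1, by omega⟩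
    have h5 : m + 1 - 1 = m := by omega
    rw [h5, pow_succ 2 m, pow_succ ((m + 1 : ℕ) : ℝ) m]
    ring
  rw [h4] at h3
  have h2n : (0 : ℝ) < 2 * n := by positivity
  refine le_of_mul_le_mul_right ?_ h2n
  calc ({Γ : LOT (Fin n) | ∃ v, AllAspherical Γ v}.ncard : ℝ) * (2 * n)
      ≤ _ := h3
    _ = _ := by ring

/-- the reduced labelled oriented trees -/
theorem reduced_exp (C : ℝ) (hC0 : 0 < C) (hC : ∀ n : ℕ, 0 < n →
      ({Γ : LOT (Fin n) | ∃ v, AllAspherical Γ v}.ncard : ℝ) ≤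
        C * Real.exp (-((n : ℝ) ^ (1 / 3 : ℝ) / C)) * Nat.card (LOT (Fin n))) :
    ∃ C' : ℝ, 0 < C' ∧ C ≤ C' ∧ ∀ n : ℕ, 0 < n →
      ({Γ : LOT (Fin n) | Γ.Reduced ∧ ∃ v, AllAspherical Γ v}.ncard : ℝ) ≤
        C' * Real.exp (-((n : ℝ) ^ (1 / 3 : ℝ) / C')) * {Γ : LOT (Fin n) | Γ.Reduced}.ncard := by
  obtain ⟨K, hK, hKn⟩ := card_lot_le'
  set C' : ℝ := C * K * (6 * (2 * C) ^ 3) + 2 * C + 60 with hC'
  have hC'0 : 0 < C' := by positivity
  refine ⟨C', hC'0, ?_, fun n hn => ?_⟩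
  · have : 0 < C * K * (6 * (2 * C) ^ 3) := by positivity
    linarith
  have hn0 : (0 : ℝ) < n := by exact_mod_cast hn
  have hn1 : (1 : ℝ) ≤ n := by exact_mod_cast hn
  have hfin : Finite (LOT (Fin n)) := by
    refine Nat.finite_of_card_ne_zero ?_
    rw [card_lot, card_treeOn n ⟨0, hn⟩]
    positivity
  have hR : (0 : ℝ) ≤ {Γ : LOT (Fin n) | Γ.Reduced}.ncard := Nat.cast_nonneg _
  rcases Nat.lt_or_ge n 20 with hsm | hbig
  · have h1 : ({Γ : LOT (Fin n) | Γ.Reduced ∧ ∃ v, AllAspherical Γ v}.ncard : ℝ) ≤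
        {Γ : LOT (Fin n) | Γ.Reduced}.ncard := by
      have hsub : {Γ : LOT (Fin n) | Γ.Reduced ∧ ∃ v, AllAspherical Γ v} ⊆
          {Γ : LOT (Fin n) | Γ.Reduced} := fun Γ h => h.1
      exact_mod_cast Set.ncard_le_ncard hsub (Set.toFinite _)
    refine h1.trans ?_
    have h2 : 1 ≤ C' * Real.exp (-((n : ℝ) ^ (1 / 3 : ℝ) / C')) := by
      apply small_le C' n hn
      have h4 : (n : ℝ) ≤ 20 := by exact_mod_cast hsm.le
      have h5 : 0 < C * K * (6 * (2 * C) ^ 3) := by positivity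
      rw [hC']
      linarith
    nlinarith
  · have h1 : ({Γ : LOT (Fin n) | Γ.Reduced ∧ ∃ v, AllAspherical Γ v}.ncard : ℝ) ≤
        {Γ : LOT (Fin n) | ∃ v, AllAspherical Γ v}.ncard := by
      have hsub : {Γ : LOT (Fin n) | Γ.Reduced ∧ ∃ v, AllAspherical Γ v} ⊆
          {Γ : LOT (Fin n) | ∃ v, AllAspherical Γ v} := fun Γ h => h.2
      exact_mod_cast Set.ncard_le_ncard hsub (Set.toFinite _)
    refine h1.trans ((hC n hn).trans ?_)
    have h2 := hKn n hbig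
    set y : ℝ := (n : ℝ) ^ (1 / 3 : ℝ) with hy
    have hy0 : 0 < y := Real.rpow_pos_of_pos hn0 _
    have hy3 : y ^ 3 = n := by
      rw [hy, ← Real.rpow_natCast, ← Real.rpow_mul hn0.le]
      norm_num
    have h12 : (n : ℝ) ^ (1 / 12 : ℝ) ≤ y ^ 3 := by
      rw [hy3]
      conv_rhs => rw [← Real.rpow_one (n : ℝ)]
      exact Real.rpow_le_rpow_of_exponent_le hn1 (by norm_num)
    have h3 := Real.pow_div_factorial_le_exp (y / (2 * C)) (by positivity) 3
    have h4 : ((3 ! : ℕ) : ℝ) = 6 := by norm_num [Nat.factorial]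
    rw [h4, div_le_iff₀ (by norm_num)] at h3
    have h5 : y ^ 3 = (2 * C) ^ 3 * (y / (2 * C)) ^ 3 := by
      field_simp
    have h6 : Real.exp (-(y / C)) = Real.exp (-(y / (2 * C))) * Real.exp (-(y / (2 * C))) := by
      rw [← Real.exp_add]
      congr 1
      field_simp
      ring
    have h7 : Real.exp (y / (2 * C)) * Real.exp (-(y / (2 * C))) = 1 := by
      rw [← Real.exp_add]
      simp
    have h8 : y ^ 3 * Real.exp (-(y / C)) ≤ 6 * (2 * C) ^ 3 * Real.exp (-(y / (2 * C))) := by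
      rw [h5, h6]
      calc (2 * C) ^ 3 * (y / (2 * C)) ^ 3 *
            (Real.exp (-(y / (2 * C))) * Real.exp (-(y / (2 * C))))
          ≤ (2 * C) ^ 3 * (Real.exp (y / (2 * C)) * 6) *
            (Real.exp (-(y / (2 * C))) * Real.exp (-(y / (2 * C)))) := by gcongr
        _ = 6 * (2 * C) ^ 3 * (Real.exp (y / (2 * C)) * Real.exp (-(y / (2 * C)))) *
            Real.exp (-(y / (2 * C))) := by ring
        _ = _ := by rw [h7]; ring
    have h9 : Real.exp (-(y / (2 * C))) ≤ Real.exp (-(y / C')) := by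
      apply Real.exp_le_exp.2
      have h10 : 2 * C ≤ C' := by
        have : 0 < C * K * (6 * (2 * C) ^ 3) := by positivity
        linarith
      have h11 : y / C' ≤ y / (2 * C) := div_le_div_of_nonneg_left hy0.le (by positivity) h10
      linarith
    have h10 : C * K * (6 * (2 * C) ^ 3) ≤ C' := by
      rw [hC']
      linarith
    calc C * Real.exp (-(y / C)) * Nat.card (LOT (Fin n))
        ≤ C * Real.exp (-(y / C)) * (K * (n : ℝ) ^ (1 / 12 : ℝ) *
            {Γ : LOT (Fin n) | Γ.Reduced}.ncard) :=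
          mul_le_mul_of_nonneg_left h2 (by positivity)
      _ ≤ C * Real.exp (-(y / C)) * (K * y ^ 3 * {Γ : LOT (Fin n) | Γ.Reduced}.ncard) := by
          gcongr
      _ = C * K * (y ^ 3 * Real.exp (-(y / C))) * {Γ : LOT (Fin n) | Γ.Reduced}.ncard := by ring
      _ ≤ C * K * (6 * (2 * C) ^ 3 * Real.exp (-(y / (2 * C)))) *
            {Γ : LOT (Fin n) | Γ.Reduced}.ncard := by gcongr
      _ = C * K * (6 * (2 * C) ^ 3) * Real.exp (-(y / (2 * C))) *
            {Γ : LOT (Fin n) | Γ.Reduced}.ncard := by ring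
      _ ≤ C' * Real.exp (-(y / C')) * {Γ : LOT (Fin n) | Γ.Reduced}.ncard := by gcongr

/-- a larger constant -/
theorem exp_mono {C C' : ℝ} (hC : 0 < C) (hCC : C ≤ C') {y : ℝ} (hy : 0 ≤ y) :
    C * Real.exp (-(y / C)) ≤ C' * Real.exp (-(y / C')) := by
  have h1 : Real.exp (-(y / C)) ≤ Real.exp (-(y / C')) := by
    apply Real.exp_le_exp.2
    have := div_le_div_of_nonneg_left hy hC hCC
    linarith
  exact mul_le_mul hCC h1 (Real.exp_pos _).le (hC.le.trans hCC)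

/-- The zero-one law: either all subcomplexes of all complexes that 3-deform to a point are
aspherical, or almost all labelled oriented trees `Γ` are such that every `K(Γ, v)` has a
non-aspherical subcomplex. -/
theorem expLaw (hW : ∀ P : Pattern, WUse P) :
    (∀ (X ι : Type) [Fintype X] [Fintype ι] (rel : ι → Word X), ACTrivial rel →
      ∀ (U : Set X) (S : Finset ι) (h : ∀ i ∈ S, ∀ l ∈ rel i, l.1 ∈ U),
        Aspherical (SubPres rel U S h)) ∨
    ∃ C : ℝ, 0 < C ∧ ∀ n : ℕ, 0 < n →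
      ({Γ : LOT (Fin n) | ∃ v, AllAspherical Γ v}.ncard : ℝ) ≤
        C * Real.exp (-((n : ℝ) ^ (1 / 3 : ℝ) / C)) * Nat.card (LOT (Fin n)) ∧
      ({Γ : LOT (Fin n) | Γ.Reduced ∧ ∃ v, AllAspherical Γ v}.ncard : ℝ) ≤
        C * Real.exp (-((n : ℝ) ^ (1 / 3 : ℝ) / C)) * {Γ : LOT (Fin n) | Γ.Reduced}.ncard := by
  by_cases hF : ∃ F : LOF, ¬ Aspherical F.rel
  · right
    obtain ⟨F, hF⟩ := hF
    obtain ⟨P, hP⟩ := exists_pattern F hF
    obtain ⟨C, hC0, hC⟩ := frac_exp P (hW P) hP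
    obtain ⟨C', hC'0, hCC, hC'⟩ := reduced_exp C hC0 hC
    refine ⟨C', hC'0, fun n hn => ⟨(hC n hn).trans ?_, hC' n hn⟩⟩
    exact mul_le_mul_of_nonneg_right
      (exp_mono hC0 hCC (Real.rpow_nonneg (Nat.cast_nonneg n) _)) (Nat.cast_nonneg _)
  · left
    intro X ι _ _ rel hAC U S h
    by_contra hna
    exact hF (howie rel hAC U S h hna)

end Pool.Agent.ZO
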