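import Pool.Agent.ZO.Succ

/-! # Zero-one law: a successful template realises the pattern -/

set_option autoImplicit false

open scoped BigOperators

namespace Pool.Agent.ZO

open Pool.Agent.WT.Trees (PF)
open Pool.Agent.GX

theorem bs_lt {N i j : ℕ} (hi : 1 ≤ i) (hij : i < j) : bs N i + 1 ≤ bs N j := by
  unfold bs
  obtain ⟨a, rfl⟩ : ∃ a, i = a + 1 := ⟨i - 1, by omega⟩
  obtain ⟨b, rfl⟩ : ∃ b, j = a + 1 + 1 + b := ⟨j - (a + 1 + 1), by omega⟩
  have h1 : a + 1 - 1 = a := rfl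
  have h2 : a + 1 + 1 + b - 1 = a + 1 + b := by omega
  rw [h1, h2]
  nlinarith

theorem bs_le {N j : ℕ} (hj : 1 ≤ j) (hjN : j ≤ N) : bs N j + 1 ≤ N * (N + 2) := by
  unfold bs
  obtain ⟨a, rfl⟩ : ∃ a, j = a + 1 := ⟨j - 1, by omega⟩
  have h1 : a + 1 - 1 = a := rfl
  rw [h1]
  nlinarith

theorem ba_le {N c j : ℕ} (hc : c ≤ N) (hj : 1 ≤ j) (hjN : j ≤ N) :
    ba N c j + 1 ≤ N * (N + 2) := by
  unfold ba
  have : j - 1 + 1 = j := by omega
  nlinarith

theorem bs_ba {N c j i : ℕ} (hi : 1 ≤ i) (hic : i ≤ c) : bs N i + 1 ≤ ba N c j := by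
  unfold bs ba
  obtain ⟨a, rfl⟩ : ∃ a, i = a + 1 := ⟨i - 1, by omega⟩
  have h1 : a + 1 - 1 = a := rfl
  rw [h1]
  nlinarith [Nat.zero_le (j - 1), Nat.mul_le_mul_right (N + 1) hic]

theorem ba_bs {N c j i : ℕ} (hj : 1 ≤ j) (hjN : j ≤ N) (hci : c < i) : ba N c j + 1 ≤ bs N i := by
  unfold bs ba
  obtain ⟨a, rfl⟩ : ∃ a, i = c + 1 + a := ⟨i - (c + 1), by omega⟩
  have h1 : c + 1 + a - 1 = c + a := by omega
  rw [h1]
  have h2 : j - 1 + 1 = j := by omega
  nlinarith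

theorem blk_lt {ℓ a b i j : ℕ} (hi : i ∈ blk ℓ a) (hj : j ∈ blk ℓ b) (hab : a + 1 ≤ b) : i < j := by
  unfold blk at hi hj
  rw [Finset.mem_Ioc] at hi hj
  have : (a + 1) * ℓ ≤ b * ℓ := Nat.mul_le_mul_right ℓ hab
  omega

theorem blk_le {ℓ a K i : ℕ} (hi : i ∈ blk ℓ a) (h : a + 1 ≤ K) : i ≤ K * ℓ := by
  unfold blk at hi
  rw [Finset.mem_Ioc] at hi
  exact hi.2.trans (Nat.mul_le_mul_right ℓ h)

theorem blk_pos {ℓ a i : ℕ} (hi : i ∈ blk ℓ a) : 1 ≤ i := by
  unfold blk at hi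
  rw [Finset.mem_Ioc] at hi
  omega

theorem card_Icc_filter {N s : ℕ} (hs : s ≤ N) (p : ℕ → Prop) [DecidablePred p]
    (h : ∀ j, 1 ≤ j → j ≤ N → (p j ↔ j ≤ s)) : ((Finset.Icc 1 N).filter p).card = s := by
  have : (Finset.Icc 1 N).filter p = Finset.Icc 1 s := by
    ext j
    rw [Finset.mem_filter, Finset.mem_Icc, Finset.mem_Icc]
    constructor
    · rintro ⟨⟨h1, h2⟩, h3⟩
      exact ⟨h1, (h j h1 h2).1 h3⟩
    · rintro ⟨h1, h2⟩
      exact ⟨⟨h1, h2.trans hs⟩, (h j h1 (h2.trans hs)).2 h2⟩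
  rw [this, Nat.card_Icc]
  omega

variable {V : Type} [Fintype V] {P : Pattern} {ℓ A : ℕ} {r : V}

theorem realAt_of_mt {τ : Tm V (Bool × V)} (hτ : τ ∈ TT P ℓ A r)
    {ω : (V → V) × (V → Bool × V)} (hm : τ.Mt r ω) :
    RealAt P ω.1 r τ.u (fun x => (ω.2 x).1) (fun x => (ω.2 x).2) := by
  classical
  obtain ⟨hw, z, idx, att, dl, hs⟩ := mem_TT.1 hτ
  set L := Ls P.N ℓ with hL
  have hp := hm.1
  set p := ω.1 with hpdef
  have hmp : ∀ x ∈ τ.D, x ≠ τ.u → p x = τ.g x := fun x h h' => (hm.2.2 x h h').1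
  set v : ℕ → V := fun i => sv τ.g z L i with hv
  have hvD : ∀ i, v i ∈ τ.D := fun i => wf_iter hw hs.zD _
  have hvu : ∀ i, v i ≠ τ.u := fun i h => hs.nu (fix_iter hw.gtop h (Nat.sub_le _ _))
  have hpv : ∀ i, 1 ≤ i → i ≤ L + 1 → p (v i) = v (i - 1) := by
    intro i h1 h2
    rw [hmp _ (hvD i) (hvu i)]
    simp only [hv, sv]
    rw [← Function.iterate_succ_apply' τ.g (L + 1 - i) z]
    congr 2
    omega
  have hpv0 : p (v 0) = τ.u := by
    rw [hmp _ (hvD 0) (hvu 0)]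
    simp only [hv, sv]
    rw [← Function.iterate_succ_apply' τ.g (L + 1 - 0) z]
    exact hs.hu
  have hvb : ∀ i' i, i' ≤ i → i ≤ L + 1 → v i ∈ below p (v i') := by
    intro i' i h1 h2
    obtain ⟨k, rfl⟩ := Nat.exists_eq_add_of_le h1
    clear h1
    induction k with
    | zero => exact FringeAux.self_mem_below _ _
    | succ k ih =>
      apply FringeAux.mem_below_of_parent
      rw [hpv _ (by omega) h2]
      exact ih (by omega)
  have hvinj : ∀ i i', i ≤ L + 1 → i' ≤ L + 1 → v i = v i' → i = i' := by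
    have key : ∀ i i', i < i' → i' ≤ L + 1 → v i ≠ v i' := by
      intro i i' h1 h2 h3
      have h4 : p (v i') ∈ below p (v i) := by
        rw [hpv i' (by omega) h2]
        exact hvb i (i' - 1) (by omega) (by omega)
      have h5 : v i' ≠ r := fun h => hw.root (h ▸ hvD i')
      rw [h3] at h4
      exact FringeAux.top_notMem_below hp h5 h4
    intro i i' h1 h2 h3
    rcases lt_trichotomy i i' with h | h | h
    · exact absurd h3 (key i i' h h2)
    · exact h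
    · exact absurd h3.symm (key i' i h h1)
  have hvb' : ∀ i' i, i' ≤ L + 1 → i ≤ L + 1 → (v i ∈ below p (v i') ↔ i' ≤ i) := by
    intro i' i h1 h2
    constructor
    · intro h
      by_contra hlt
      have h3 := hvb i i' (by omega) h1
      have h4 := hvinj i i' h2 h1 (below_antisymm hp h h3)
      omega
    · intro h
      exact hvb i' i h h2
  have hub : ∀ i, τ.u ∉ below p (v i) := by
    intro i h
    exact hvu i (below_antisymm hp ((mem_D hm).2 (hvD i)) h)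
  -- positions
  have hidx1 : ∀ j, 1 ≤ j → j ≤ P.N → 1 ≤ idx j ∧ idx j ≤ L := fun j h1 h2 =>
    ⟨blk_pos (hs.idx_mem j h1 h2), blk_le (hs.idx_mem j h1 h2) (bs_le h1 h2)⟩
  have hatt1 : ∀ j, 1 ≤ j → j ≤ P.N → 1 ≤ att j ∧ att j ≤ L := fun j h1 h2 =>
    ⟨blk_pos (hs.att_mem j h1 h2), blk_le (hs.att_mem j h1 h2) (ba_le (P.le j) h1 h2)⟩
  have hidxlt : ∀ i j, 1 ≤ i → i < j → j ≤ P.N → idx i < idx j := fun i j h1 h2 h3 =>
    blk_lt (hs.idx_mem i h1 (by omega)) (hs.idx_mem j (by omega) h3) (bs_lt h1 h2)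
  have hidxle : ∀ i j, 1 ≤ i → i ≤ P.N → 1 ≤ j → j ≤ P.N → (idx i ≤ idx j ↔ i ≤ j) := by
    intro i j h1 h2 h3 h4
    rcases lt_trichotomy i j with h | h | h
    · have := hidxlt i j h1 h h4
      omega
    · subst h
      omega
    · have := hidxlt j i h3 h h2
      omega
  have hidxatt : ∀ i j, 1 ≤ i → i ≤ P.N → 1 ≤ j → j ≤ P.N → (idx i ≤ att j ↔ i ≤ P.lam j) := by
    intro i j h1 h2 h3 h4
    constructor
    · intro h
      by_contra hlt
      have := blk_lt (hs.att_mem j h3 h4) (hs.idx_mem i h1 h2) (ba_bs h3 h4 (by omega))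
      omega
    · intro h
      exact (blk_lt (hs.idx_mem i h1 h2) (hs.att_mem j h3 h4) (bs_ba h1 h)).le
  -- segments
  set seg : V → ℕ := fun x => ((Finset.Icc 1 P.N).filter fun j => x ∈ below p (v (idx j))).card
    with hseg
  have hsegv : ∀ i s, i ≤ L + 1 → s ≤ P.N → (∀ j, 1 ≤ j → j ≤ P.N → (idx j ≤ i ↔ j ≤ s)) →
      seg (v i) = s := by
    intro i s hi hsN h
    rw [hseg]
    apply card_Icc_filter hsN
    intro j h1 h2
    rw [hvb' (idx j) i ((hidx1 j h1 h2).2.trans (Nat.le_succ _)) hi]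
    exact h j h1 h2
  have hsegpar : ∀ x, (∀ j, 1 ≤ j → j ≤ P.N → x ≠ v (idx j)) → seg (p x) = seg x := by
    intro x hx
    simp only [hseg]
    congr 1
    apply Finset.filter_congr
    intro j hj
    rw [Finset.mem_Icc] at hj
    constructor
    · exact FringeAux.mem_below_of_parent
    · intro h
      exact FringeAux.parent_mem_below h (hx j hj.1 hj.2)
  have hsegu : seg τ.u = 0 := by
    rw [hseg]
    simp only [Finset.card_eq_zero, Finset.filter_eq_empty_iff]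
    intro j _
    exact hub _
  have hlab : ∀ i, (ω.2 (v i)) = τ.d (v i) := fun i => (hm.2.2 _ (hvD i) (hvu i)).2
  set y : ℕ → V := fun j => (τ.d (v (idx j))).2 with hy
  have hyD : ∀ j, 1 ≤ j → j ≤ P.N → ∀ i, τ.g^[i] (y j) ∈ τ.D := fun j h1 h2 i =>
    wf_iter hw (hs.labD j h1 h2) i
  have hyu : ∀ j, 1 ≤ j → j ≤ P.N → ∀ i ≤ dl j, τ.g^[i] (y j) ≠ τ.u := by
    intro j h1 h2 i hi h
    have h3 := fix_iter hw.gtop h hi
    rw [hs.path j h1 h2] at h3
    exact hvu _ h3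
  have hypar : ∀ j, 1 ≤ j → j ≤ P.N → ∀ i ≤ dl j, p (τ.g^[i] (y j)) = τ.g^[i + 1] (y j) := by
    intro j h1 h2 i hi
    rw [hmp _ (hyD j h1 h2 i) (hyu j h1 h2 i hi), Function.iterate_succ_apply']
  have hylab : ∀ j, 1 ≤ j → j ≤ P.N → ∀ i < dl j, (ω.2 (τ.g^[i] (y j))).2 ∉ τ.D := by
    intro j h1 h2 i hi
    rw [(hm.2.2 _ (hyD j h1 h2 i) (hyu j h1 h2 i hi.le)).2]
    exact hs.stat2 j h1 h2 i hi
  have hyns : ∀ j, 1 ≤ j → j ≤ P.N → ∀ i < dl j, ∀ j', 1 ≤ j' → j' ≤ P.N →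
      τ.g^[i] (y j) ≠ v (idx j') := by
    intro j h1 h2 i hi j' h1' h2' h
    have h3 := hylab j h1 h2 i hi
    rw [h, hlab] at h3
    exact h3 (hs.labD j' h1' h2')
  have hyseg : ∀ j, 1 ≤ j → j ≤ P.N → ∀ i, i ≤ dl j → seg (τ.g^[dl j - i] (y j)) = P.lam j := by
    intro j h1 h2 i
    induction i with
    | zero =>
      intro _
      rw [Nat.sub_zero]
      have h3 : τ.g^[dl j] (y j) = v (att j) := hs.path j h1 h2
      rw [h3]
      exact hsegv _ _ ((hatt1 j h1 h2).2.trans (Nat.le_succ _)) (P.le j)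
        fun i hi1 hi2 => hidxatt i j hi1 hi2 h1 h2
    | succ i ih =>
      intro hi
      have h4 := hsegpar (τ.g^[dl j - (i + 1)] (y j)) (hyns j h1 h2 _ (by omega))
      rw [hypar j h1 h2 _ (by omega)] at h4
      have h5 : dl j - (i + 1) + 1 = dl j - i := by omega
      rw [h5] at h4
      rw [← h4]
      exact ih (by omega)
  set H : Set V := {x | x = τ.u ∨ (∃ i ≤ L, x = v i) ∨
    ∃ j, 1 ≤ j ∧ j ≤ P.N ∧ ∃ i < dl j, x = τ.g^[i] (y j)} with hH
  set top : ℕ → V := fun s => if s = 0 then τ.u else v (idx s) with htop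
  have htop1 : ∀ s, 1 ≤ s → top s = v (idx s) := fun s h => if_neg (by omega)
  have hmemD : ∀ x, x ∉ τ.D ↔ x ∉ below p τ.u := fun x => not_congr (mem_D hm).symm
  have hsegtop : ∀ s, 1 ≤ s → s ≤ P.N → seg (v (idx s)) = s := by
    intro s h1 h2
    exact hsegv _ _ ((hidx1 s h1 h2).2.trans (Nat.le_succ _)) h2
      fun j hj1 hj2 => hidxle j s hj1 hj2 h1 h2
  refine ⟨H, seg, top, ?_⟩
  refine ⟨top_ne_root' hw, ?_, if_pos rfl, ?_, ?_, ?_, ?_, ?_, ?_, ?_⟩
  · rintro x (rfl | ⟨i, _, rfl⟩ | ⟨j, h1, h2, i, _, rfl⟩)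
    · exact FringeAux.self_mem_below _ _
    · exact (mem_D hm).2 (hvD i)
    · exact (mem_D hm).2 (hyD j h1 h2 i)
  · intro s hsN
    rcases Nat.eq_zero_or_pos s with rfl | h1
    · left
      rfl
    · right
      left
      exact ⟨idx s, (hidx1 s h1 hsN).2, htop1 s h1⟩
  · intro s hsN
    rcases Nat.eq_zero_or_pos s with rfl | h1
    · exact hsegu
    · rw [htop1 s h1]
      exact hsegtop s h1 hsN
  · intro x _
    rw [hseg]
    calc _ ≤ (Finset.Icc 1 P.N).card := Finset.card_filter_le _ _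
      _ = P.N := by rw [Nat.card_Icc]; omega
  · rintro x (rfl | ⟨i, hi, rfl⟩ | ⟨j, h1, h2, i, hi, rfl⟩) hxu
    · exact absurd rfl hxu
    · rcases Nat.eq_zero_or_pos i with rfl | h1
      · rw [hpv0]
        exact Or.inl rfl
      · rw [hpv i h1 (by omega)]
        exact Or.inr (Or.inl ⟨i - 1, by omega, rfl⟩)
    · rw [hypar j h1 h2 i hi.le]
      by_cases h3 : i + 1 < dl j
      · exact Or.inr (Or.inr ⟨j, h1, h2, i + 1, h3, rfl⟩)
      · have h4 : i + 1 = dl j := by omega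
        rw [h4]
        have h5 : τ.g^[dl j] (y j) = v (att j) := hs.path j h1 h2
        rw [h5]
        exact Or.inr (Or.inl ⟨att j, (hatt1 j h1 h2).2, rfl⟩)
  · rintro x (rfl | ⟨i, hi, rfl⟩ | ⟨j, h1, h2, i, hi, rfl⟩) hxt
    · rw [hsegu] at hxt
      exact absurd rfl hxt
    · have hne : ∀ j, 1 ≤ j → j ≤ P.N → i ≠ idx j := by
        intro j h1 h2 h
        apply hxt
        rw [h, hsegtop j h1 h2, htop1 j h1]
      refine ⟨hsegpar _ fun j h1 h2 h => hne j h1 h2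
        (hvinj i (idx j) (by omega) (by have := (hidx1 j h1 h2).2; omega) h), ?_⟩
      rw [← hmemD]
      change (ω.2 (v i)).2 ∉ τ.D
      rw [hlab]
      exact hs.stat1 i hi hne
    · refine ⟨hsegpar _ (hyns j h1 h2 i hi), ?_⟩
      rw [← hmemD]
      exact hylab j h1 h2 i hi
  · intro s hsN
    rw [htop1 (s + 1) (by omega), hpv _ (hidx1 (s + 1) (by omega) hsN).1
      (by have := (hidx1 (s + 1) (by omega) hsN).2; omega)]
    apply hsegv _ _ (by have := (hidx1 (s + 1) (by omega) hsN).2; omega) hsN.le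
    intro j h1 h2
    have h3 := hidxle j (s + 1) h1 h2 (by omega) hsN
    have h4 := hidxle (s + 1) j (by omega) hsN h1 h2
    have h5 := (hidx1 (s + 1) (by omega) hsN).1
    constructor
    · intro h
      by_contra hlt
      have := h4.2 (by omega)
      omega
    · intro h
      have h6 := hidxlt j (s + 1) h1 (by omega) hsN
      omega
  · intro s hsN
    rw [htop1 (s + 1) (by omega)]
    have h1 : 1 ≤ s + 1 := by omega
    have h2 : s + 1 ≤ P.N := hsN
    have hlab' : (ω.2 (v (idx (s + 1)))).2 = y (s + 1) := by rw [hlab]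
    have hdl := hs.dl_pos (s + 1) h1 h2
    refine ⟨?_, ?_, ?_⟩
    · change (ω.2 (v (idx (s + 1)))).2 ∈ H
      rw [hlab']
      exact Or.inr (Or.inr ⟨s + 1, h1, h2, 0, hdl, rfl⟩)
    · change seg (ω.2 (v (idx (s + 1)))).2 = _
      rw [hlab']
      have := hyseg (s + 1) h1 h2 (dl (s + 1)) le_rfl
      rw [Nat.sub_self] at this
      exact this
    · change (ω.2 (v (idx (s + 1)))).1 = _
      rw [hlab]
      exact hs.ori (s + 1) h1 h2

end Pool.Agent.ZO
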