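import Pool.Agent.ZO.ExAna

/-!
# Exponential bound: the supersolution
-/

set_option autoImplicit false

open scoped BigOperators

namespace Pool.Agent.ZO

/-- the recursion of the numbers of rooted trees (half of Abel's identity) -/
def CayRec : Prop := ∀ m : ℕ, ((m : ℝ) + 1) * tau (m + 1) ≤
  ∑ j ∈ Finset.range (m + 1), ((j : ℝ) + 1) * tau j * tau (m - j)

theorem tau_zero : tau 0 = 1 := by
  unfold tau
  simp

theorem sum_tw_le (hC : CayRec) (N : ℕ) : ∑ j ∈ Finset.range N, tw j ≤ 1 := by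
  induction N with
  | zero => simp
  | succ N ih =>
    have h1 := ana1 tau tau tau_nonneg tau_nonneg tau_zero.le hC N (x := Real.exp (-1))
      (Real.exp_pos _).le
    have h2 : ∑ j ∈ Finset.range N, tau j * Real.exp (-1) ^ (j + 1) ≤ 1 := ih
    calc ∑ j ∈ Finset.range (N + 1), tw j
        = Real.exp (-1) * ∑ j ∈ Finset.range (N + 1), tau j * Real.exp (-1) ^ j := by
          rw [Finset.mul_sum]
          refine Finset.sum_congr rfl fun j _ => ?_
          unfold tw
          ring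
      _ ≤ Real.exp (-1) * Real.exp 1 := by
          refine mul_le_mul_of_nonneg_left (h1.trans ?_) (Real.exp_pos _).le
          exact Real.exp_le_exp.2 h2
      _ = 1 := by rw [← Real.exp_add]; simp

theorem sum_tw_tail (hC : CayRec) (N : ℕ) (hN : 1 ≤ N) :
    ∑ j ∈ Finset.range N, tw j ≤ 1 - 1 / (2 * Real.exp 1 * Real.sqrt (2 * N)) := by
  have h1 := sum_tw_le hC (2 * N)
  have hN0 : (0 : ℝ) < N := by exact_mod_cast hN
  have h2 : ∑ j ∈ Finset.range (2 * N), tw j =
      ∑ j ∈ Finset.range N, tw j + ∑ j ∈ Finset.Ico N (2 * N), tw j := by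
    rw [Finset.sum_range_add_sum_Ico _ (by omega)]
  have h3 : ∀ j ∈ Finset.Ico N (2 * N),
      1 / (Real.exp 1 * ((2 * N : ℝ) * Real.sqrt (2 * N))) ≤ tw j := by
    intro j hj
    rw [Finset.mem_Ico] at hj
    refine le_trans ?_ (tw_lower j)
    have hj1 : ((j : ℝ) + 1) ≤ 2 * N := by exact_mod_cast hj.2
    have hj0 : (0 : ℝ) < (j : ℝ) + 1 := by positivity
    apply one_div_le_one_div_of_le
    · have := Real.exp_pos 1
      have := Real.sqrt_pos.2 hj0
      positivity
    · have h4 := Real.sqrt_le_sqrt hj1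
      have h5 := Real.exp_pos 1
      have h6 := Real.sqrt_nonneg ((j : ℝ) + 1)
      have h7 : ((j : ℝ) + 1) * Real.sqrt ((j : ℝ) + 1) ≤ 2 * N * Real.sqrt (2 * N) := by
        apply mul_le_mul hj1 h4 h6 (by positivity)
      exact mul_le_mul_of_nonneg_left h7 h5.le
  have h4 := Finset.card_nsmul_le_sum _ _ _ h3
  rw [Nat.card_Ico, nsmul_eq_mul] at h4
  have h5 : ((2 * N - N : ℕ) : ℝ) = N := by
    have : 2 * N - N = N := by omega
    rw [this]
  rw [h5] at h4
  have hs : 0 < Real.sqrt (2 * N) := Real.sqrt_pos.2 (by positivity)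
  have he := Real.exp_pos 1
  have h6 : (N : ℝ) * (1 / (Real.exp 1 * ((2 * N : ℝ) * Real.sqrt (2 * N)))) =
      1 / (2 * Real.exp 1 * Real.sqrt (2 * N)) := by
    field_simp
  rw [h6] at h4
  linarith

theorem sum_moment (N : ℕ) : ∑ j ∈ Finset.range N, ((j : ℝ) + 1) * tw j ≤ 2 * Real.sqrt N := by
  induction N with
  | zero => simp
  | succ N ih =>
    rw [Finset.sum_range_succ]
    have h1 := tw_upper N
    have hk : (0 : ℝ) < (N : ℝ) + 1 := by positivity
    have hs : 0 < Real.sqrt ((N : ℝ) + 1) := Real.sqrt_pos.2 hk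
    have h2 : ((N : ℝ) + 1) * tw N ≤ 1 / Real.sqrt ((N : ℝ) + 1) := by
      calc ((N : ℝ) + 1) * tw N ≤ ((N : ℝ) + 1) * (1 / (((N : ℝ) + 1) * Real.sqrt ((N : ℝ) + 1))) :=
            mul_le_mul_of_nonneg_left h1 hk.le
        _ = _ := by field_simp
    have h3 : Real.sqrt N + 1 / (2 * Real.sqrt ((N : ℝ) + 1)) ≤ Real.sqrt ((N : ℝ) + 1) := by
      have hN0 : (0 : ℝ) ≤ N := Nat.cast_nonneg N
      have h4 := Real.sq_sqrt hN0
      have h5 := Real.sq_sqrt hk.le
      have h6 : Real.sqrt N ≤ Real.sqrt ((N : ℝ) + 1) := Real.sqrt_le_sqrt (by linarith)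
      have h7 : 1 / (2 * Real.sqrt ((N : ℝ) + 1)) * (2 * Real.sqrt ((N : ℝ) + 1)) = 1 := by
        field_simp
      have h8 := Real.sqrt_nonneg (N : ℝ)
      by_contra hcon
      rw [not_le] at hcon
      have h9 : (Real.sqrt ((N : ℝ) + 1) - Real.sqrt N) * (2 * Real.sqrt ((N : ℝ) + 1)) <
          1 / (2 * Real.sqrt ((N : ℝ) + 1)) * (2 * Real.sqrt ((N : ℝ) + 1)) :=
        mul_lt_mul_of_pos_right (by linarith) (by positivity)
      rw [h7] at h9
      nlinarith
    have h4 : 1 / Real.sqrt ((N : ℝ) + 1) = 2 * (1 / (2 * Real.sqrt ((N : ℝ) + 1))) := by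
      field_simp
    push_cast
    linarith

/-- below the size of the marked trees -/
theorem small_part (hC : CayRec) {N N₁ : ℕ} (hN : N ≤ N₁) {θ : ℝ} (h0 : 0 ≤ θ)
    (hθ : 42 * θ * N₁ ≤ 1) :
    ∑ j ∈ Finset.range N, tau j * ((1 + θ) * Real.exp (-1)) ^ (j + 1) ≤ 1 := by
  rcases Nat.eq_zero_or_pos N with rfl | hN0
  · simp
  have hNr : (0 : ℝ) < N := by exact_mod_cast hN0
  have hNN : (N : ℝ) ≤ N₁ := by exact_mod_cast hN
  have he := Real.exp_pos 1
  have he2 : Real.exp 1 < 2.7182818286 := Real.exp_one_lt_d9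
  have h42 : 42 * θ * N ≤ 1 := by
    refine le_trans ?_ hθ
    have : 0 ≤ 42 * θ := by positivity
    exact mul_le_mul_of_nonneg_left hNN this
  have h1 : ∀ j ∈ Finset.range N, tau j * ((1 + θ) * Real.exp (-1)) ^ (j + 1) ≤
      tw j + Real.exp 1 * θ * (((j : ℝ) + 1) * tw j) := by
    intro j hj
    rw [Finset.mem_range] at hj
    have hj1 : ((j : ℝ) + 1) ≤ N := by exact_mod_cast hj
    have h2 : tau j * ((1 + θ) * Real.exp (-1)) ^ (j + 1) = (1 + θ) ^ (j + 1) * tw j := by
      unfold tw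
      rw [mul_pow]
      ring
    have hy0 : 0 ≤ θ * ((j : ℝ) + 1) := by positivity
    have hy1 : θ * ((j : ℝ) + 1) ≤ 1 := by nlinarith
    have h3 : (1 + θ) ^ (j + 1) ≤ Real.exp (θ * ((j : ℝ) + 1)) := by
      have h4 : 1 + θ ≤ Real.exp θ := by
        have := Real.add_one_le_exp θ
        linarith
      calc (1 + θ) ^ (j + 1) ≤ (Real.exp θ) ^ (j + 1) := pow_le_pow_left₀ (by linarith) h4 _
        _ = Real.exp (θ * ((j : ℝ) + 1)) := by
          rw [← Real.exp_nat_mul]
          congr 1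
          push_cast
          ring
    have h4 : Real.exp (θ * ((j : ℝ) + 1)) ≤ 1 + Real.exp 1 * (θ * ((j : ℝ) + 1)) := by
      set y := θ * ((j : ℝ) + 1) with hy
      have h5 : 1 - y ≤ Real.exp (-y) := by
        have := Real.add_one_le_exp (-y)
        linarith
      have h6 : Real.exp y ≤ Real.exp 1 := Real.exp_le_exp.2 hy1
      have h7 : (1 - y) * Real.exp y ≤ 1 := by
        calc (1 - y) * Real.exp y ≤ Real.exp (-y) * Real.exp y :=
              mul_le_mul_of_nonneg_right h5 (Real.exp_pos _).le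
          _ = 1 := by rw [← Real.exp_add]; simp
      have h8 : y * Real.exp y ≤ y * Real.exp 1 := mul_le_mul_of_nonneg_left h6 hy0
      nlinarith
    rw [h2]
    have h5 := tw_nonneg j
    calc (1 + θ) ^ (j + 1) * tw j ≤ (1 + Real.exp 1 * (θ * ((j : ℝ) + 1))) * tw j :=
          mul_le_mul_of_nonneg_right (h3.trans h4) h5
      _ = _ := by ring
  refine (Finset.sum_le_sum h1).trans ?_
  rw [Finset.sum_add_distrib, ← Finset.mul_sum]
  have h2 := sum_tw_tail hC N hN0
  have h3 := sum_moment N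
  have hs : 0 < Real.sqrt N := Real.sqrt_pos.2 hNr
  have h4 : Real.sqrt (2 * N) = Real.sqrt 2 * Real.sqrt N := Real.sqrt_mul (by norm_num) _
  have h5 : Real.exp 1 * θ * ∑ j ∈ Finset.range N, ((j : ℝ) + 1) * tw j ≤
      Real.exp 1 * θ * (2 * Real.sqrt N) := mul_le_mul_of_nonneg_left h3 (by positivity)
  have h6 : Real.exp 1 * θ * (2 * Real.sqrt N) ≤ 1 / (2 * Real.exp 1 * Real.sqrt (2 * N)) := by
    rw [h4, le_div_iff₀ (by positivity)]
    have h7 : Real.exp 1 * θ * (2 * Real.sqrt N) * (2 * Real.exp 1 * (Real.sqrt 2 * Real.sqrt N)) =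
        4 * Real.exp 1 ^ 2 * Real.sqrt 2 * θ * (Real.sqrt N * Real.sqrt N) := by ring
    rw [h7, Real.mul_self_sqrt hNr.le]
    have h8 : 4 * Real.exp 1 ^ 2 * Real.sqrt 2 ≤ 42 := by
      have h9 : Real.sqrt 2 ≤ 1.4143 := by
        rw [Real.sqrt_le_left (by norm_num)]
        norm_num
      have h10 : Real.exp 1 ^ 2 ≤ 2.7182818286 ^ 2 := pow_le_pow_left₀ he.le he2.le 2
      have h11 := Real.sqrt_nonneg 2
      nlinarith
    have h9 : 0 ≤ θ * N := by positivity
    nlinarith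
  linarith

/-- the supersolution: an exponential bound for the coefficients -/
theorem ana2 (hC : CayRec) (h f κ : ℕ → ℝ) (hh : ∀ j, 0 ≤ h j) (hf : ∀ j, 0 ≤ f j)
    (hκ : ∀ j, 0 ≤ κ j) (h0 : h 0 ≤ 1)
    (hrec : ∀ m : ℕ, ((m : ℝ) + 1) * h (m + 1) ≤
      ∑ j ∈ Finset.range (m + 1), ((j : ℝ) + 1) * f j * h (m - j))
    (hfh : ∀ j, f j ≤ h j - κ j) (hfτ : ∀ j, f j ≤ tau j) (N₁ : ℕ) {θ : ℝ} (hθ0 : 0 ≤ θ)
    (hθ : 42 * θ * N₁ ≤ 1)
    (hθκ : θ ≤ ∑ j ∈ Finset.range N₁, κ j * Real.exp (-1) ^ (j + 1)) (m : ℕ) :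
    h m * ((1 + θ) * Real.exp (-1)) ^ m ≤ Real.exp 1 := by
  set ρ : ℝ := (1 + θ) * Real.exp (-1) with hρ
  have he := Real.exp_pos (-1)
  have hρ0 : 0 < ρ := by positivity
  have hρe : Real.exp (-1) ≤ ρ := by
    rw [hρ]
    nlinarith
  have key : ∀ N : ℕ, ∑ j ∈ Finset.range N, f j * ρ ^ (j + 1) ≤ 1 := by
    intro N
    induction N with
    | zero => simp
    | succ N ih =>
      by_cases hN : N + 1 ≤ N₁
      · refine le_trans (Finset.sum_le_sum fun j _ => ?_) (small_part hC hN hθ0 hθ)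
        exact mul_le_mul_of_nonneg_right (hfτ j) (by positivity)
      · have h1 := ana1 h f hh hf h0 hrec N hρ0.le
        have h2 : ∑ j ∈ Finset.range (N + 1), f j * ρ ^ (j + 1) ≤
            ρ * ∑ j ∈ Finset.range (N + 1), h j * ρ ^ j -
              ∑ j ∈ Finset.range (N + 1), κ j * ρ ^ (j + 1) := by
          rw [Finset.mul_sum, ← Finset.sum_sub_distrib]
          refine Finset.sum_le_sum fun j _ => ?_
          have h3 := mul_le_mul_of_nonneg_right (hfh j) (by positivity : 0 ≤ ρ ^ (j + 1))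
          refine h3.trans (le_of_eq ?_)
          ring
        have h3 : ∑ j ∈ Finset.range N₁, κ j * Real.exp (-1) ^ (j + 1) ≤
            ∑ j ∈ Finset.range (N + 1), κ j * ρ ^ (j + 1) := by
          calc ∑ j ∈ Finset.range N₁, κ j * Real.exp (-1) ^ (j + 1)
              ≤ ∑ j ∈ Finset.range N₁, κ j * ρ ^ (j + 1) := by
                refine Finset.sum_le_sum fun j _ => mul_le_mul_of_nonneg_left ?_ (hκ j)
                exact pow_le_pow_left₀ he.le hρe _
            _ ≤ _ := by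
                refine Finset.sum_le_sum_of_subset_of_nonneg ?_ fun j _ _ =>
                  mul_nonneg (hκ j) (by positivity)
                intro j hj
                rw [Finset.mem_range] at hj ⊢
                omega
        have h4 : ρ * ∑ j ∈ Finset.range (N + 1), h j * ρ ^ j ≤ 1 + θ := by
          calc ρ * ∑ j ∈ Finset.range (N + 1), h j * ρ ^ j ≤ ρ * Real.exp 1 := by
                refine mul_le_mul_of_nonneg_left (h1.trans (Real.exp_le_exp.2 ih)) hρ0.le
            _ = 1 + θ := by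
                rw [hρ, mul_assoc, ← Real.exp_add]
                simp
        linarith
  have h1 := ana1 h f hh hf h0 hrec m hρ0.le
  have h2 : h m * ρ ^ m ≤ ∑ j ∈ Finset.range (m + 1), h j * ρ ^ j :=
    Finset.single_le_sum (f := fun j => h j * ρ ^ j)
      (fun j _ => mul_nonneg (hh j) (by positivity)) (Finset.self_mem_range_succ m)
  exact h2.trans (h1.trans (Real.exp_le_exp.2 (key m)))

end Pool.Agent.ZO
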