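import Pool.Agent.ZO.ExSym
import Pool.Agent.ZO.ExAna2
import Pool.Agent.GX.Forest

/-!
# Exponential bound: the numbers of rooted trees and the final bound
-/

set_option autoImplicit false

open scoped BigOperators

namespace Pool.Agent.ZO

open Pool.Agent.GX
open Pool.Agent.WT.Trees (PF)

variable {V C : Type} [Fintype V] [Fintype C] [DecidableEq V]

theorem card_TBs {B : Finset V} {a : V} (ha : a ∈ B) :
    (TBs B a).card = B.card ^ (B.card - 2) := by
  classical
  have h1 := card_PF (V := {x // x ∈ B}) ⟨a, ha⟩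
  rw [Fintype.card_coe] at h1
  rw [← h1, ← Set.ncard_coe_finset]
  refine Set.ncard_congr (fun g hg => fun x => ⟨g x.1, (mem_TBs.1 (Finset.mem_coe.1 hg)).mem _ x.2⟩)
    ?_ ?_ ?_
  · intro g hg
    have h := mem_TBs.1 (Finset.mem_coe.1 hg)
    refine ⟨Subtype.ext h.root, fun x => ?_⟩
    obtain ⟨m, hm⟩ := h.reach x.1 x.2
    refine ⟨m, Subtype.ext ?_⟩
    have key : ∀ m, (((fun x : {x // x ∈ B} =>
        (⟨g x.1, h.mem _ x.2⟩ : {x // x ∈ B}))^[m] x).1) = g^[m] x.1 := by
      intro m
      induction m with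
      | zero => rfl
      | succ m ih =>
        rw [Function.iterate_succ_apply', Function.iterate_succ_apply', ← ih]
    rw [key, hm]
  · intro g g' hg hg' he
    have h := mem_TBs.1 (Finset.mem_coe.1 hg)
    have h' := mem_TBs.1 (Finset.mem_coe.1 hg')
    funext x
    by_cases hx : x ∈ B
    · have := congrFun he ⟨x, hx⟩
      exact congrArg Subtype.val this
    · rw [h.out x hx, h'.out x hx]
  · intro p hp
    have key : ∀ (m : ℕ) (x : {x // x ∈ B}),
        (fun y : V => if h : y ∈ B then (p ⟨y, h⟩).1 else y)^[m] x.1 = (p^[m] x).1 := by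
      intro m x
      induction m with
      | zero => rfl
      | succ m ih =>
        rw [Function.iterate_succ_apply', Function.iterate_succ_apply', ih]
        simp only [dif_pos (p^[m] x).2]
    refine ⟨fun y => if h : y ∈ B then (p ⟨y, h⟩).1 else y, ?_, ?_⟩
    · rw [Finset.mem_coe, mem_TBs]
      refine ⟨ha, ?_, ?_, ?_, ?_⟩
      · simp only [dif_pos ha]
        exact congrArg Subtype.val hp.1
      · intro x hx
        simp only [dif_pos hx]
        exact (p ⟨x, hx⟩).2
      · intro x hx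
        obtain ⟨m, hm⟩ := hp.2 ⟨x, hx⟩
        refine ⟨m, ?_⟩
        rw [key m ⟨x, hx⟩, hm]
      · intro x hx
        exact dif_neg hx
    · funext x
      apply Subtype.ext
      simp only [dif_pos x.2]

/-- half of Abel's identity -/
theorem cayRec : CayRec := by
  intro m
  classical
  let V := Fin (m + 2)
  let S : (V → V) → V → (V → Unit) → Prop := fun _ _ _ => False
  let act : Equiv.Perm V → ((V → Unit) ≃ (V → Unit)) := fun _ => Equiv.refl _
  have hS : Loc S := fun _ _ _ _ _ _ _ _ _ _ _ _ _ _ _ h => h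
  have hE : Eqv S act := fun _ _ _ _ => Iff.rfl
  have hW : ∀ k, 1 ≤ k → k ≤ m + 2 → num (Wb S 1) k = ((k ^ (k - 2) : ℕ) : ℝ) ∧
      num (WR S 1) k = ((k ^ (k - 2) : ℕ) : ℝ) := by
    intro k hk1 hk
    obtain ⟨B, _, hB⟩ := Finset.exists_subset_card_eq (s := (Finset.univ : Finset V)) (n := k)
      (by rw [Finset.card_univ, Fintype.card_fin]; exact hk)
    obtain ⟨a, ha⟩ : B.Nonempty := Finset.card_pos.1 (by omega)
    have hWt : ∀ (U : Finset V) (g : V → V), Wt S 1 U g = 1 := by
      intro U g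
      unfold Wt
      simp
    rw [← hB, ← num_eq (fun B a σ => Wb_cj hE 1 B a σ) ha,
      ← num_eq (fun B a σ => WR_cj hE 1 B a σ) ha]
    unfold Wb WR
    rw [Finset.sum_congr rfl fun g _ => hWt _ g, Finset.sum_congr rfl fun g _ => hWt _ g,
      Finset.sum_const, nsmul_eq_mul, mul_one, card_TBs ha]
    exact ⟨rfl, rfl⟩
  have h1 := rec_num hS hE (t := 1) zero_le_one m
  have hc : (Fintype.card (V → Unit) : ℝ) = 1 := by simp
  rw [hc, one_mul, (hW (m + 2) (by omega) le_rfl).1] at h1
  have h2 : ∀ j ∈ Finset.range (m + 1), (m.choose j : ℝ) *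
      (((j + 1 : ℕ) : ℝ) * num (WR S 1) (j + 1) * num (Wb S 1) (m + 1 - j)) =
        (Nat.factorial m : ℝ) * (((j : ℝ) + 1) * tau j * tau (m - j)) := by
    intro j hj
    rw [Finset.mem_range] at hj
    rw [(hW (j + 1) (by omega) (by omega)).2, (hW (m + 1 - j) (by omega) (by omega)).1]
    obtain ⟨i, rfl⟩ : ∃ i, m = j + i := ⟨m - j, by omega⟩
    have e1 : j + i + 1 - j = i + 1 := by omega
    have e2 : j + i - j = i := by omega
    rw [e1, e2]
    have h3 : (((j + i).choose j : ℕ) : ℝ) * (Nat.factorial j : ℝ) * (Nat.factorial i : ℝ) =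
        (Nat.factorial (j + i) : ℝ) := by
      have := Nat.choose_mul_factorial_mul_factorial (Nat.le_add_right j i)
      rw [Nat.add_sub_cancel_left] at this
      exact_mod_cast this
    have h4 : ∀ k : ℕ, (((k + 1) ^ (k + 1 - 2) : ℕ) : ℝ) * ((k : ℝ) + 1) =
        ((k : ℝ) + 1) ^ k := by
      intro k
      cases k with
      | zero => simp
      | succ k =>
        have e3 : k + 1 + 1 - 2 = k := by omega
        rw [e3]
        push_cast
        ring
    have h5 : ∀ k : ℕ, tau k * (Nat.factorial k : ℝ) = (((k + 1) ^ (k + 1 - 2) : ℕ) : ℝ) := by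
      intro k
      unfold tau
      rw [← h4 k, Nat.factorial_succ]
      have hk : (Nat.factorial k : ℝ) ≠ 0 := by exact_mod_cast Nat.factorial_ne_zero k
      have hk1 : ((k : ℝ) + 1) ≠ 0 := by positivity
      push_cast
      field_simp
    rw [← h5 j, ← h5 i, ← h3]
    push_cast
    ring
  rw [Finset.sum_congr rfl h2, ← Finset.mul_sum] at h1
  have h6 : (((m + 2) ^ (m + 2 - 2) : ℕ) : ℝ) = (Nat.factorial m : ℝ) *
      (((m : ℝ) + 1) * tau (m + 1)) := by
    unfold tau
    have e1 : m + 2 - 2 = m := by omega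
    rw [e1, Nat.factorial_succ (m + 1), Nat.factorial_succ m]
    have hm : (Nat.factorial m : ℝ) ≠ 0 := by exact_mod_cast Nat.factorial_ne_zero m
    push_cast
    field_simp
    ring
  rw [h6] at h1
  have hm : (0 : ℝ) < (Nat.factorial m : ℝ) := by exact_mod_cast Nat.factorial_pos m
  exact le_of_mul_le_mul_left h1 hm

/-- the exponential bound for the weighted number of trees -/
theorem W_bound {S : (V → V) → V → (V → C) → Prop} {act : Equiv.Perm V → ((V → C) ≃ (V → C))}
    (hS : Loc S) (hE : Eqv S act)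
    (hD : ∀ (B : Finset V) (a : V) (g : V → V) (u u' : V) (d : V → C), TB B a g → u ∈ B → u' ∈ B →
      u ≠ u' → S g u d → S g u' d → Disjoint (below g u) (below g u'))
    [Nonempty C] {t : ℝ} (ht0 : 0 ≤ t) (ht1 : t ≤ 1) (N₁ : ℕ) {θ : ℝ} (hθ0 : 0 ≤ θ)
    (hθ : 42 * θ * N₁ ≤ 1)
    (hθκ : θ ≤ ∑ j ∈ Finset.range N₁, ((1 - t) * num (NS S) (j + 1) /
      ((Fintype.card (V → C) : ℝ) * (Nat.factorial j : ℝ))) * Real.exp (-1) ^ (j + 1)) (r : V) :
    ∑ g ∈ TBs Finset.univ r, ∑ d : V → C, t ^ cnt (Finset.univ.erase r) (fun u => S g u d) ≤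
      Real.exp 1 * ((Fintype.card (V → C) : ℝ) * (Nat.factorial (Fintype.card V - 1) : ℝ)) /
        ((1 + θ) * Real.exp (-1)) ^ (Fintype.card V - 1) := by
  classical
  set M : ℝ := (Fintype.card (V → C) : ℝ) with hM
  have hM0 : 0 < M := by
    rw [hM]
    exact_mod_cast Fintype.card_pos
  have hfac : ∀ j : ℕ, (0 : ℝ) < (Nat.factorial j : ℝ) := fun j => by
    exact_mod_cast Nat.factorial_pos j
  let h : ℕ → ℝ := fun j => num (Wb S t) (j + 1) / (M * (Nat.factorial j : ℝ))
  let f : ℕ → ℝ := fun j => num (WR S t) (j + 1) / (M * (Nat.factorial j : ℝ))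
  let κ : ℕ → ℝ := fun j => (1 - t) * num (NS S) (j + 1) / (M * (Nat.factorial j : ℝ))
  have hW0 : ∀ k, 0 ≤ num (Wb S t) k := num_nonneg fun B a => Wb_nonneg S ht0 B a
  have hR0 : ∀ k, 0 ≤ num (WR S t) k := num_nonneg fun B a => WR_nonneg S ht0 B a
  have hN0 : ∀ k, 0 ≤ num (NS S) k := num_nonneg fun B a =>
    Finset.sum_nonneg fun _ _ => Nat.cast_nonneg _
  have hh : ∀ j, 0 ≤ h j := fun j => div_nonneg (hW0 _) (mul_pos hM0 (hfac j)).le
  have hf : ∀ j, 0 ≤ f j := fun j => div_nonneg (hR0 _) (mul_pos hM0 (hfac j)).le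
  have hκ : ∀ j, 0 ≤ κ j := fun j => div_nonneg (mul_nonneg (by linarith) (hN0 _))
    (mul_pos hM0 (hfac j)).le
  -- comparison of the three numbers
  have hcmp : ∀ k, num (WR S t) k ≤ num (Wb S t) k - (1 - t) * num (NS S) k := by
    intro k
    by_cases hk : ∃ q : Finset V × V, q.2 ∈ q.1 ∧ q.1.card = k
    · obtain ⟨⟨B, a⟩, ha, rfl⟩ := hk
      simp only at ha ⊢
      rw [← num_eq (fun B a σ => Wb_cj hE t B a σ) ha, ← num_eq (fun B a σ => WR_cj hE t B a σ) ha,
        ← num_eq (fun B a σ => NS_cj hE B a σ) ha]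
      exact WR_le hD B a
    · unfold num
      rw [dif_neg hk, dif_neg hk, dif_neg hk]
      simp
  have hup : ∀ j, num (Wb S t) (j + 1) ≤ M * (Nat.factorial j : ℝ) * tau j := by
    intro j
    have htau : (Nat.factorial j : ℝ) * tau j = (((j + 1) ^ (j + 1 - 2) : ℕ) : ℝ) := by
      unfold tau
      rw [Nat.factorial_succ]
      have hj := (hfac j).ne'
      cases j with
      | zero => simp
      | succ j =>
        have e3 : j + 1 + 1 - 2 = j := by omega
        rw [e3]
        push_cast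
        field_simp
        ring
    by_cases hk : ∃ q : Finset V × V, q.2 ∈ q.1 ∧ q.1.card = j + 1
    · obtain ⟨⟨B, a⟩, ha, hB⟩ := hk
      simp only at ha hB
      have h1 := Wb_le (S := S) ht0 ht1 B a
      rw [card_TBs ha, num_eq (fun B a σ => Wb_cj hE t B a σ) ha, hB, ← hM] at h1
      rw [mul_assoc, htau, mul_comm]
      exact h1
    · have h1 : num (Wb S t) (j + 1) = 0 := by
        unfold num
        rw [dif_neg hk]
      rw [h1]
      exact mul_nonneg (mul_pos hM0 (hfac j)).le (tau_nonneg j)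
  have hfh : ∀ j, f j ≤ h j - κ j := by
    intro j
    simp only [f, h, κ]
    rw [← sub_div]
    exact div_le_div_of_nonneg_right (hcmp (j + 1)) (mul_pos hM0 (hfac j)).le
  have hfτ : ∀ j, f j ≤ tau j := by
    intro j
    refine (hfh j).trans ((sub_le_self _ (hκ j)).trans ?_)
    simp only [h]
    rw [div_le_iff₀ (mul_pos hM0 (hfac j)), mul_comm]
    exact hup j
  have h0 : h 0 ≤ 1 := by
    simp only [h]
    rw [div_le_iff₀ (mul_pos hM0 (hfac 0)), one_mul]
    refine (hup 0).trans (le_of_eq ?_)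
    rw [tau_zero, mul_one]
  have hrec : ∀ m : ℕ, ((m : ℝ) + 1) * h (m + 1) ≤
      ∑ j ∈ Finset.range (m + 1), ((j : ℝ) + 1) * f j * h (m - j) := by
    intro m
    have h1 := rec_num hS hE ht0 m
    rw [← hM] at h1
    have h2 : ∀ j ∈ Finset.range (m + 1), (m.choose j : ℝ) *
        (((j + 1 : ℕ) : ℝ) * num (WR S t) (j + 1) * num (Wb S t) (m + 1 - j)) =
          (M ^ 2 * (Nat.factorial m : ℝ)) * (((j : ℝ) + 1) * f j * h (m - j)) := by
      intro j hj
      rw [Finset.mem_range] at hj
      obtain ⟨i, rfl⟩ : ∃ i, m = j + i := ⟨m - j, by omega⟩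
      have e1 : j + i + 1 - j = i + 1 := by omega
      have e2 : j + i - j = i := by omega
      rw [e1, e2]
      have h3 : (((j + i).choose j : ℕ) : ℝ) * (Nat.factorial j : ℝ) * (Nat.factorial i : ℝ) =
          (Nat.factorial (j + i) : ℝ) := by
        have := Nat.choose_mul_factorial_mul_factorial (Nat.le_add_right j i)
        rw [Nat.add_sub_cancel_left] at this
        exact_mod_cast this
      simp only [f, h]
      rw [← h3]
      have hj' := (hfac j).ne'
      have hi' := (hfac i).ne'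
      push_cast
      field_simp
    rw [Finset.sum_congr rfl h2, ← Finset.mul_sum] at h1
    have h4 : M * num (Wb S t) (m + 2) = (M ^ 2 * (Nat.factorial m : ℝ)) *
        (((m : ℝ) + 1) * h (m + 1)) := by
      simp only [h]
      rw [Nat.factorial_succ]
      have hm' := (hfac m).ne'
      push_cast
      field_simp
    rw [h4] at h1
    exact le_of_mul_le_mul_left h1 (mul_pos (pow_pos hM0 2) (hfac m))
  have hfin := ana2 cayRec h f κ hh hf hκ h0 hrec hfh hfτ N₁ hθ0 hθ hθκ (Fintype.card V - 1)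
  have hn : 1 ≤ Fintype.card V := Fintype.card_pos_iff.2 ⟨r⟩
  have hlast : h (Fintype.card V - 1) = (∑ g ∈ TBs Finset.univ r, ∑ d : V → C,
      t ^ cnt (Finset.univ.erase r) (fun u => S g u d)) /
        (M * (Nat.factorial (Fintype.card V - 1) : ℝ)) := by
    simp only [h]
    rw [Nat.sub_add_cancel hn]
    congr 1
    have h5 := num_eq (fun B a σ => Wb_cj hE t B a σ) (Finset.mem_univ r)
    rw [Finset.card_univ] at h5
    rw [← h5]
    rfl
  rw [hlast] at hfin
  have hρ : (0 : ℝ) < ((1 + θ) * Real.exp (-1)) ^ (Fintype.card V - 1) := by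
    have := Real.exp_pos (-1)
    positivity
  rw [le_div_iff₀ hρ]
  have hMf := mul_pos hM0 (hfac (Fintype.card V - 1))
  rw [div_mul_eq_mul_div, div_le_iff₀ hMf] at hfin
  exact hfin

end Pool.Agent.ZO
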