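import Pool.Agent.ZO.ExLaw
import Pool.Agent.ZO.ExCay
import Pool.Agent.ZO.Sc

/-! # Exponential bound: the recursion applied to the realisations of a pattern -/

set_option autoImplicit false

open scoped BigOperators Nat

namespace Pool.Agent.ZO

open Pool.Agent.WT.Trees (PF)
open Pool.Agent.GX
open Pool.Agent.WT

theorem TB.acyc {V : Type} {B : Finset V} {a : V} {g : V → V} (h : TB B a g) : Acyc g := by
  intro x y hx hy
  obtain ⟨i, hi⟩ := hx
  obtain ⟨j, hj⟩ := hy
  by_cases hxB : x ∈ B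
  · exact h.antisymm hxB hi hj
  · rw [fix_iterate (h.out x hxB)] at hi
    exact hi

/-- the action of the permutations on the decorations -/
def actD {V : Type} (σ : Equiv.Perm V) : (V → Bool × V) ≃ (V → Bool × V) where
  toFun d := fun y => ((d (σ.symm y)).1, σ (d (σ.symm y)).2)
  invFun d := fun y => ((d (σ y)).1, σ.symm (d (σ y)).2)
  left_inv d := by funext y; simp
  right_inv d := by funext y; simp

section

variable {V : Type} [Fintype V] (P : Pattern) (ℓ A : ℕ)

theorem sc_loc : Loc (fun (g : V → V) (u : V) (d : V → Bool × V) => Sc P ℓ A g u d) :=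
  fun _ _ _ _ _ _ _ _ _ _ _ _ _ hb hg hs => Sc.congr hb hg hs

theorem sc_eqv : Eqv (fun (g : V → V) (u : V) (d : V → Bool × V) => Sc P ℓ A g u d) actD :=
  fun σ _ _ _ => Sc.perm σ

theorem sc_disj (B : Finset V) (a : V) (g : V → V) (u u' : V) (d : V → Bool × V)
    (h : TB B a g) (_ : u ∈ B) (_ : u' ∈ B) (hne : u ≠ u') (hs : Sc P ℓ A g u d)
    (hs' : Sc P ℓ A g u' d) : Disjoint (below g u) (below g u') := hs.disj h.acyc hs' hne

/-- fibrewise cardinality -/
theorem ncard_pairs {α β : Type} [Fintype α] [Fintype β] (T : Finset α) (R : α → β → Prop) :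
    {q : α × β | q.1 ∈ T ∧ R q.1 q.2}.ncard = ∑ g ∈ T, {d | R g d}.ncard := by
  classical
  have h1 : {q : α × β | q.1 ∈ T ∧ R q.1 q.2} =
      (((T ×ˢ (Finset.univ : Finset β)).filter fun q => R q.1 q.2 : Finset (α × β)) :
        Set (α × β)) := by
    ext q
    simp
  rw [h1, Set.ncard_coe_finset, Finset.card_filter, Finset.sum_product]
  refine Finset.sum_congr rfl fun g _ => ?_
  rw [← Finset.card_filter]
  have h2 : {d | R g d} = (((Finset.univ : Finset β).filter fun d => R g d : Finset β) : Set β) := by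
    ext d
    simp
  rw [h2, Set.ncard_coe_finset]

theorem Tn_le_num [DecidableEq V] {r : V} (D : Finset V) (hr : r ∉ D) :
    (Tn P ℓ A r D.card : ℝ) * (Fintype.card (Bool × V) : ℝ) ^ (Fintype.card V - (D.card - 1)) ≤
      D.card * num (NS (fun (g : V → V) (u : V) (d : V → Bool × V) => Sc P ℓ A g u d)) D.card := by
  have h1 := sum_Sc_ge (P := P) (ℓ := ℓ) (A := A) D hr
  have h2 : ∀ u ∈ D, (({q : (V → V) × (V → Bool × V) | (q.1 u = u ∧ (∀ x ∈ D, q.1 x ∈ D) ∧
        (∀ x ∈ D, ∃ m, q.1^[m] x = u) ∧ ∀ x, x ∉ D → q.1 x = x) ∧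
          Sc P ℓ A q.1 u q.2}.ncard : ℕ) : ℝ) =
      num (NS (fun (g : V → V) (u : V) (d : V → Bool × V) => Sc P ℓ A g u d)) D.card := by
    intro u hu
    rw [← num_eq (fun B a σ => NS_cj (sc_eqv P ℓ A) B a σ) hu]
    unfold NS
    rw [← Nat.cast_sum, ← ncard_pairs]
    congr 2
    ext q
    simp only [Set.mem_setOf_eq, mem_TBs]
    constructor
    · rintro ⟨⟨a1, a2, a3, a4⟩, a5⟩
      exact ⟨⟨hu, a1, a2, a3, a4⟩, a5⟩
    · rintro ⟨h, a5⟩
      exact ⟨⟨h.root, h.mem, h.reach, h.out⟩, a5⟩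
  have h3 := Finset.sum_congr rfl h2
  rw [Finset.sum_const, nsmul_eq_mul, ← Nat.cast_sum] at h3
  rw [← h3]
  exact_mod_cast h1

theorem mem_PF_iff [DecidableEq V] {r : V} {p : V → V} : p ∈ PF r ↔ p ∈ TBs Finset.univ r := by
  rw [mem_TBs]
  constructor
  · rintro ⟨h1, h2⟩
    exact ⟨Finset.mem_univ _, h1, fun _ _ => Finset.mem_univ _, fun x _ => h2 x,
      fun x hx => absurd (Finset.mem_univ x) hx⟩
  · intro h
    exact ⟨h.root, fun x => h.reach x (Finset.mem_univ x)⟩

/-- the weighted sum bounds the number of the exceptions -/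
theorem few_le_sum [DecidableEq V] (r : V) :
    ({ω : (V → V) × (V → Bool × V) | ω.1 ∈ PF r ∧
        ¬ Twice P ω.1 r (fun x => (ω.2 x).1) (fun x => (ω.2 x).2)}.ncard : ℝ) ≤
    2 * ∑ g ∈ TBs (Finset.univ : Finset V) r, ∑ d : V → Bool × V,
      (1 / 2 : ℝ) ^ cnt (Finset.univ.erase r) (fun u => Sc P ℓ A g u d) := by
  set R : (V → V) → (V → Bool × V) → Prop := fun g d =>
    ¬ Twice P g r (fun x => (d x).1) (fun x => (d x).2) with hR
  have h1 : {ω : (V → V) × (V → Bool × V) | ω.1 ∈ PF r ∧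
        ¬ Twice P ω.1 r (fun x => (ω.2 x).1) (fun x => (ω.2 x).2)} =
      {ω : (V → V) × (V → Bool × V) | ω.1 ∈ TBs (Finset.univ : Finset V) r ∧ R ω.1 ω.2} := by
    ext ω
    simp only [Set.mem_setOf_eq, mem_PF_iff, hR]
  rw [h1, ncard_pairs, Nat.cast_sum, Finset.mul_sum]
  refine Finset.sum_le_sum fun g hg => ?_
  have hp : g ∈ PF r := mem_PF_iff.2 hg
  haveI : DecidablePred fun d => R g d := Classical.decPred _
  have h2 : {d | R g d} = (((Finset.univ : Finset (V → Bool × V)).filter fun d => R g d :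
      Finset (V → Bool × V)) : Set (V → Bool × V)) := by
    ext d
    simp
  rw [h2, Set.ncard_coe_finset, Finset.mul_sum, Finset.card_filter, Nat.cast_sum]
  refine Finset.sum_le_sum fun d _ => ?_
  by_cases hd : R g d
  · rw [if_pos hd]
    have h3 : cnt (Finset.univ.erase r) (fun u => Sc P ℓ A g u d) ≤ 1 := by
      by_contra hcon
      rw [not_le] at hcon
      haveI : DecidablePred fun u => Sc P ℓ A g u d := Classical.decPred _
      have hcc : cnt (Finset.univ.erase r) (fun u => Sc P ℓ A g u d) =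
          ((Finset.univ.erase r).filter fun u => Sc P ℓ A g u d).card := by
        unfold cnt
        congr 1
        ext x
        simp
      rw [hcc] at hcon
      obtain ⟨u, hu, u', hu', hne⟩ := Finset.one_lt_card.1 hcon
      rw [Finset.mem_filter, Finset.mem_erase] at hu hu'
      exact hd (Sc.twice hp hu.1.1 hu'.1.1 hne hu.2 hu'.2)
    have h4 : (1 / 2 : ℝ) ^ 1 ≤ (1 / 2 : ℝ) ^ cnt (Finset.univ.erase r)
        (fun u => Sc P ℓ A g u d) := pow_le_pow_of_le_one (by norm_num) (by norm_num) h3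
    push_cast
    linarith
  · rw [if_neg hd]
    push_cast
    positivity

end

theorem wUse (P : Pattern) : WUse P := by
  intro V _ ℓ A r θ hA hAn hθ0 hθ hsum
  classical
  refine (few_le_sum P ℓ A r).trans ?_
  apply mul_le_mul_of_nonneg_left _ (by norm_num : (0 : ℝ) ≤ 2)
  set n := Fintype.card V with hn
  set c := Fintype.card (Bool × V) with hc
  have hc0 : 0 < c := Fintype.card_pos_iff.2 ⟨(false, r)⟩
  have hc' : (0 : ℝ) < c := by exact_mod_cast hc0
  have hM : (Fintype.card (V → Bool × V) : ℝ) = (c : ℝ) ^ n := by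
    rw [Fintype.card_fun]
    push_cast
    rfl
  have hne : Nonempty (Bool × V) := ⟨(false, r)⟩
  have hkey : θ ≤ ∑ j ∈ Finset.range (20 * A), ((1 - 1 / 2 : ℝ) *
      num (NS (fun (g : V → V) (u : V) (d : V → Bool × V) => Sc P ℓ A g u d)) (j + 1) /
      ((Fintype.card (V → Bool × V) : ℝ) * (Nat.factorial j : ℝ))) *
        Real.exp (-1) ^ (j + 1) := by
    refine hsum.trans ?_
    set X : ℕ → ℝ := fun s => (Tn P ℓ A r s : ℝ) * ((c : ℝ) ^ (n - (s - 1)) /
      ((c : ℝ) ^ n * (s ! : ℝ)) * Real.exp (-(s : ℝ))) with hX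
    have hX0 : ∀ s, ¬ (16 * A ≤ s ∧ s < 20 * A) → X s = 0 := by
      intro s hs
      have : Tn P ℓ A r s = 0 := by
        by_contra h
        exact hs (Tn_size P ℓ A r s h)
      rw [hX]
      simp only
      rw [this]
      simp
    have e1 : ∑ s ∈ Finset.range n, X s = ∑ s ∈ Finset.range (20 * A), X s := by
      symm
      refine Finset.sum_subset (fun s hs => ?_) fun s _ hs => ?_
      · rw [Finset.mem_range] at hs ⊢
        omega
      · rw [Finset.mem_range] at hs
        exact hX0 s (by omega)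
    have e2 : ∑ s ∈ Finset.range (20 * A), X s = ∑ j ∈ Finset.range (20 * A), X (j + 1) := by
      have h1 := Finset.sum_range_succ X (20 * A)
      have h2 := Finset.sum_range_succ' X (20 * A)
      have h3 : X (20 * A) = 0 := hX0 _ (by omega)
      have h4 : X 0 = 0 := hX0 _ (by omega)
      linarith
    rw [e1, e2, Finset.mul_sum]
    refine Finset.sum_le_sum fun j hj => ?_
    rw [Finset.mem_range] at hj
    have hnum := num_nonneg (F := NS (fun (g : V → V) (u : V) (d : V → Bool × V) =>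
      Sc P ℓ A g u d)) (fun B a => by
        unfold NS
        exact Finset.sum_nonneg fun _ _ => Nat.cast_nonneg _) (j + 1)
    set ν := num (NS (fun (g : V → V) (u : V) (d : V → Bool × V) => Sc P ℓ A g u d)) (j + 1)
      with hν
    have hexp : Real.exp (-1) ^ (j + 1) = Real.exp (-(((j + 1 : ℕ) : ℕ) : ℝ)) := by
      rw [← Real.exp_nat_mul]
      congr 1
      ring
    rw [hexp, hM]
    by_cases hT : 16 * A ≤ j + 1 ∧ j + 1 < 20 * A
    · have hcard : j + 1 ≤ ((Finset.univ : Finset V).erase r).card := by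
        rw [Finset.card_erase_of_mem (Finset.mem_univ r), Finset.card_univ]
        omega
      obtain ⟨D, hD, hDc⟩ := Finset.exists_subset_card_eq hcard
      have hr : r ∉ D := fun h => (Finset.mem_erase.1 (hD h)).1 rfl
      have h1 := Tn_le_num P ℓ A D hr
      rw [hDc, ← hν, ← hc, ← hn] at h1
      rw [hX]
      simp only
      have hf : ((j + 1)! : ℝ) = ((j + 1 : ℕ) : ℝ) * (j ! : ℝ) := by
        rw [Nat.factorial_succ]
        push_cast
        ring
      have hj0 : (0 : ℝ) < ((j + 1 : ℕ) : ℝ) := by positivity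
      have hjf : (0 : ℝ) < (j ! : ℝ) := by exact_mod_cast Nat.factorial_pos _
      have hE := Real.exp_pos (-(((j + 1 : ℕ) : ℕ) : ℝ))
      rw [hf]
      calc 1 / 2 * ((Tn P ℓ A r (j + 1) : ℝ) * ((c : ℝ) ^ (n - (j + 1 - 1)) /
            ((c : ℝ) ^ n * (((j + 1 : ℕ) : ℝ) * (j ! : ℝ))) *
              Real.exp (-(((j + 1 : ℕ) : ℕ) : ℝ))))
          = ((Tn P ℓ A r (j + 1) : ℝ) * (c : ℝ) ^ (n - (j + 1 - 1))) *
              (1 / 2 / ((c : ℝ) ^ n * (((j + 1 : ℕ) : ℝ) * (j ! : ℝ))) *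
              Real.exp (-(((j + 1 : ℕ) : ℕ) : ℝ))) := by ring
        _ ≤ (((j + 1 : ℕ) : ℝ) * ν) * (1 / 2 / ((c : ℝ) ^ n * (((j + 1 : ℕ) : ℝ) * (j ! : ℝ))) *
              Real.exp (-(((j + 1 : ℕ) : ℕ) : ℝ))) :=
            mul_le_mul_of_nonneg_right h1 (by positivity)
        _ = _ := by
            field_simp
            ring
    · rw [hX0 _ hT, mul_zero]
      positivity
  have h := W_bound (sc_loc P ℓ A) (sc_eqv P ℓ A) (sc_disj P ℓ A) (t := 1 / 2)
    (by norm_num) (by norm_num) (20 * A) hθ0 hθ hkey r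
  rw [hM, ← hn] at h
  refine h.trans (le_of_eq ?_)
  rw [Real.exp_neg, ← div_eq_mul_inv]
  rw [div_eq_mul_inv (Real.exp 1 * ((c : ℝ) ^ n * ((n - 1)! : ℝ)))]
  ring

/-- The zero-one law with an exponential bound. -/
theorem expLaw' :
    (∀ (X ι : Type) [Fintype X] [Fintype ι] (rel : ι → FoxAsph.Word X), ACTrivial rel →
      ∀ (U : Set X) (S : Finset ι) (h : ∀ i ∈ S, ∀ l ∈ rel i, l.1 ∈ U),
        FoxAsph.Aspherical (SubPres rel U S h)) ∨
    ∃ C : ℝ, 0 < C ∧ ∀ n : ℕ, 0 < n →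
      ({Γ : LOT (Fin n) | ∃ v, AllAspherical Γ v}.ncard : ℝ) ≤
        C * Real.exp (-((n : ℝ) ^ (1 / 3 : ℝ) / C)) * Nat.card (LOT (Fin n)) ∧
      ({Γ : LOT (Fin n) | Γ.Reduced ∧ ∃ v, AllAspherical Γ v}.ncard : ℝ) ≤
        C * Real.exp (-((n : ℝ) ^ (1 / 3 : ℝ) / C)) * {Γ : LOT (Fin n) | Γ.Reduced}.ncard :=
  expLaw wUse

end Pool.Agent.ZO
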