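import Pool.Agent.ZO.Trans

/-!
# Tours of labelled oriented forests
-/

set_option autoImplicit false

open scoped BigOperators

namespace Pool.Agent.ZO

open Pool.Agent.FoxAsph Pool.Agent.WT

/-- A finite labelled oriented forest: for every edge `e` there is a function on the vertices with
difference 1 along `e` and 0 along all other edges. -/
structure LOF where
  V : Type
  E : Type
  [fV : Fintype V]
  [fE : Fintype E]
  tail : E → V
  head : E → V
  label : E → V
  forest : ∀ e, ∃ χ : V → ℤ, (χ (head e) - χ (tail e) = 1) ∧
    ∀ e', e' ≠ e → χ (head e') = χ (tail e')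

attribute [instance] LOF.fV LOF.fE

/-- the relators of a labelled oriented forest -/
def LOF.rel (F : LOF) (e : F.E) : Word F.V :=
  [(F.tail e, true), (F.label e, true), (F.head e, false), (F.label e, false)]

/-- A tour of a labelled oriented forest: step `s + 1` (for `s < N`) goes along an edge, or is a cut
to a vertex from which no earlier vertex is visited again. -/
structure Tour (F : LOF) where
  N : ℕ
  w : ℕ → F.V
  st : ℕ → Option (F.E × Bool)
  fwd : ∀ s < N, ∀ e, st (s + 1) = some (e, true) → w s = F.tail e ∧ w (s + 1) = F.head e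
  bwd : ∀ s < N, ∀ e, st (s + 1) = some (e, false) → w s = F.head e ∧ w (s + 1) = F.tail e
  cut : ∀ i j s, i ≤ s → s < j → j ≤ N → st (s + 1) = none → w i ≠ w j
  vis : ∀ x, ∃ i, i ≤ N ∧ w i = x
  trav : ∀ e, ∃ s, s < N ∧ ∃ b, st (s + 1) = some (e, b)

namespace Tour

variable {F : LOF} (T : Tour F)

open Classical in
/-- the time of the first visit of a vertex -/
noncomputable def fst (x : F.V) : ℕ := Nat.find (T.vis x)

open Classical in
/-- the time of the first traversal of an edge -/
noncomputable def tm (e : F.E) : ℕ := Nat.find (T.trav e)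

theorem fst_le (x : F.V) : T.fst x ≤ T.N := by
  classical
  exact (Nat.find_spec (T.vis x)).1

theorem w_fst (x : F.V) : T.w (T.fst x) = x := by
  classical
  exact (Nat.find_spec (T.vis x)).2

theorem fst_w_le {s : ℕ} (hs : s ≤ T.N) : T.fst (T.w s) ≤ s := by
  classical
  exact Nat.find_min' (T.vis (T.w s)) ⟨hs, rfl⟩

theorem tm_lt (e : F.E) : T.tm e < T.N := by
  classical
  exact (Nat.find_spec (T.trav e)).1

theorem tm_spec (e : F.E) : ∃ b, T.st (T.tm e + 1) = some (e, b) := by
  classical
  exact (Nat.find_spec (T.trav e)).2

theorem tm_le {e : F.E} {s : ℕ} (hs : s < T.N) {b : Bool} (h : T.st (s + 1) = some (e, b)) :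
    T.tm e ≤ s := by
  classical
  exact Nat.find_min' (T.trav e) ⟨hs, b, h⟩

theorem tm_inj : Function.Injective T.tm := by
  intro e e' h
  obtain ⟨b, hb⟩ := T.tm_spec e
  obtain ⟨b', hb'⟩ := T.tm_spec e'
  rw [h, hb'] at hb
  have := Option.some.inj hb
  exact ((Prod.mk.inj this).1).symm

/-- a step that returns to a visited vertex goes along an edge that has been traversed since the
visit -/
theorem again {i s : ℕ} (his : i ≤ s) (hs : s < T.N) (hw : T.w i = T.w (s + 1)) {e : F.E} {b : Bool}
    (h : T.st (s + 1) = some (e, b)) : ∃ t, i ≤ t ∧ t < s ∧ ∃ b', T.st (t + 1) = some (e, b') := by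
  by_contra hcon
  push Not at hcon
  obtain ⟨χ, h1, h2⟩ := F.forest e
  have h3 : ∀ k, i + k ≤ s → χ (T.w (i + k)) = χ (T.w i) := by
    intro k
    induction k with
    | zero => intro _; rfl
    | succ k ih =>
      intro hk
      rw [← ih (by omega)]
      have h4 : i + (k + 1) = (i + k) + 1 := by omega
      rw [h4]
      rcases hst : T.st (i + k + 1) with _ | ⟨e', b'⟩
      · exact absurd hw (T.cut i (s + 1) (i + k) (by omega) (by omega) (by omega) hst)
      · have hne : e' ≠ e := by
          intro hee
          rw [hee] at hst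
          exact hcon (i + k) (by omega) (by omega) b' hst
        cases b' with
        | true =>
          obtain ⟨h5, h6⟩ := T.fwd (i + k) (by omega) e' hst
          rw [h5, h6, h2 e' hne]
        | false =>
          obtain ⟨h5, h6⟩ := T.bwd (i + k) (by omega) e' hst
          rw [h5, h6, h2 e' hne]
  have h4 := h3 (s - i) (by omega)
  have h5 : i + (s - i) = s := by omega
  rw [h5, hw] at h4
  cases b with
  | true =>
    obtain ⟨h6, h7⟩ := T.fwd s hs e h
    rw [h6, h7] at h4
    omega
  | false =>
    obtain ⟨h6, h7⟩ := T.bwd s hs e h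
    rw [h6, h7] at h4
    omega

/-- the first traversal of an edge ends at a new vertex -/
theorem fst_w_tm (e : F.E) : T.fst (T.w (T.tm e + 1)) = T.tm e + 1 := by
  obtain ⟨b, hb⟩ := T.tm_spec e
  have hlt := T.tm_lt e
  have hle := T.fst_w_le (s := T.tm e + 1) (by omega)
  rcases Nat.lt_or_ge (T.fst (T.w (T.tm e + 1))) (T.tm e + 1) with h | h
  · exfalso
    obtain ⟨t, h1, h2, b', h3⟩ := T.again (i := T.fst (T.w (T.tm e + 1))) (s := T.tm e) (by omega)
      hlt (T.w_fst _) hb
    have := T.tm_le (by omega) h3
    omega
  · omega

/-- the relation of step `s + 1` -/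
def StepRel {G : Type} [Group G] (Ψ : ℕ → G) (s : ℕ) (e : F.E) (b : Bool) : Prop :=
  if b then Ψ s * Ψ (T.fst (F.label e)) = Ψ (T.fst (F.label e)) * Ψ (s + 1)
  else Ψ (s + 1) * Ψ (T.fst (F.label e)) = Ψ (T.fst (F.label e)) * Ψ s

/-- The relations of the first steps of a tour identify the copies of a vertex and give the relations
of the edges traversed. -/
theorem relations {G : Type} [Group G] (Ψ : ℕ → G) (S : ℕ) (hS : S ≤ T.N)
    (h : ∀ s < S, ∀ e b, T.st (s + 1) = some (e, b) → T.StepRel Ψ s e b) :
    (∀ s ≤ S, Ψ s = Ψ (T.fst (T.w s))) ∧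
      ∀ s < S, ∀ e b, T.st (s + 1) = some (e, b) →
        Ψ (T.fst (F.tail e)) * Ψ (T.fst (F.label e)) = Ψ (T.fst (F.label e)) * Ψ (T.fst (F.head e)) := by
  induction S with
  | zero =>
    refine ⟨fun s hs => ?_, fun s hs => absurd hs (Nat.not_lt_zero s)⟩
    have hs0 : s = 0 := by omega
    subst hs0
    have := T.fst_w_le (s := 0) (by omega)
    have h0 : T.fst (T.w 0) = 0 := by omega
    rw [h0]
  | succ S ih =>
    obtain ⟨ih1, ih2⟩ := ih (by omega) (fun s hs => h s (by omega))
    have hS1 : Ψ S = Ψ (T.fst (T.w S)) := ih1 S le_rfl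
    have hle := T.fst_w_le (s := S + 1) hS
    rcases Nat.lt_or_ge (T.fst (T.w (S + 1))) (S + 1) with hlt | hge
    · -- the vertex is old
      rcases hst : T.st (S + 1) with _ | ⟨e, b⟩
      · exact absurd (T.w_fst (T.w (S + 1))) (T.cut _ (S + 1) S (by omega) (by omega) hS hst)
      · obtain ⟨t, h1, h2, b', h3⟩ := T.again (i := T.fst (T.w (S + 1))) (s := S) (by omega)
          (by omega) (T.w_fst _) hst
        have hrel := ih2 t h2 e b' h3
        have hstep := h S (by omega) e b hst
        have hnew : Ψ (S + 1) = Ψ (T.fst (T.w (S + 1))) := by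
          unfold StepRel at hstep
          cases b with
          | true =>
            rw [if_pos rfl] at hstep
            obtain ⟨h4, h5⟩ := T.fwd S (by omega) e hst
            rw [hS1, h4, hrel] at hstep
            rw [h5]
            exact (mul_left_cancel hstep).symm
          | false =>
            rw [if_neg Bool.false_ne_true] at hstep
            obtain ⟨h4, h5⟩ := T.bwd S (by omega) e hst
            rw [hS1, h4, ← hrel] at hstep
            rw [h5]
            exact mul_right_cancel hstep
        refine ⟨fun s hs => ?_, fun s hs e' b'' hst' => ?_⟩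
        · rcases Nat.lt_or_ge s (S + 1) with h6 | h6
          · exact ih1 s (by omega)
          · have h7 : s = S + 1 := by omega
            rw [h7, ← hnew]
        · rcases Nat.lt_or_ge s S with h6 | h6
          · exact ih2 s h6 e' b'' hst'
          · have h7 : s = S := by omega
            rw [h7, hst] at hst'
            have h8 := (Prod.mk.inj (Option.some.inj hst')).1
            rw [← h8]
            exact hrel
    · -- the vertex is new
      have heq : T.fst (T.w (S + 1)) = S + 1 := by omega
      refine ⟨fun s hs => ?_, fun s hs e b hst => ?_⟩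
      · rcases Nat.lt_or_ge s (S + 1) with h6 | h6
        · exact ih1 s (by omega)
        · have h7 : s = S + 1 := by omega
          rw [h7, heq]
      · rcases Nat.lt_or_ge s S with h6 | h6
        · exact ih2 s h6 e b hst
        · have h7 : s = S := by omega
          subst h7
          have hstep := h s (by omega) e b hst
          unfold StepRel at hstep
          cases b with
          | true =>
            rw [if_pos rfl] at hstep
            obtain ⟨h4, h5⟩ := T.fwd s (by omega) e hst
            rw [← h4, ← h5, heq, ← hS1]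
            exact hstep
          | false =>
            rw [if_neg Bool.false_ne_true] at hstep
            obtain ⟨h4, h5⟩ := T.bwd s (by omega) e hst
            rw [← h4, ← h5, heq, ← hS1]
            exact hstep

end Tour

end Pool.Agent.ZO
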