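import Pool.Agent.ZO.Func
import Pool.Agent.ZO.Defs

/-!
# Andrews–Curtis moves
-/

set_option autoImplicit false

open scoped BigOperators

namespace Pool.Agent.ZO

open Pool.Agent.FoxAsph Pool.Agent.WT Pool.Agent.RelGap

/-- Andrews–Curtis moves of a tuple of elements of a free group: replace an element by its inverse,
by its product with another element of the tuple, or by a conjugate. -/
inductive ACStep {X ι : Type} [DecidableEq ι] : (ι → FreeGroup X) → (ι → FreeGroup X) → Prop
  | inv (r : ι → FreeGroup X) (i : ι) : ACStep r (Function.update r i (r i)⁻¹)
  | mul (r : ι → FreeGroup X) (i j : ι) (h : i ≠ j) : ACStep r (Function.update r i (r i * r j))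
  | conj (r : ι → FreeGroup X) (i : ι) (g : FreeGroup X) :
      ACStep r (Function.update r i (g * r i * g⁻¹))

section

variable {Y ι κ : Type} [Fintype ι] [DecidableEq ι]

/-- a linear dependence between the rows of `s i` and of `σ i` -/
def Dep (rel : κ → Word Y) (s σ : ι → FreeGroup Y) : Prop :=
  ∃ z : ι → MonoidAlgebra ℤ (Grp rel), z ≠ 0 ∧ ∑ i, z i • (D rel (s i) - D rel (σ i)) = 0

/-- multiplication of one row by a unit -/
theorem Dep.scale {rel : κ → Word Y} {s σ s' σ' : ι → FreeGroup Y} (h : Dep rel s σ) (i : ι)
    (u v : MonoidAlgebra ℤ (Grp rel)) (huv : v * u = 1)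
    (hi : D rel (s' i) - D rel (σ' i) = u • (D rel (s i) - D rel (σ i)))
    (hk : ∀ k, k ≠ i → D rel (s' k) - D rel (σ' k) = D rel (s k) - D rel (σ k)) :
    Dep rel s' σ' := by
  obtain ⟨z, hz, hsum⟩ := h
  refine ⟨Function.update z i (z i * v), ?_, ?_⟩
  · intro h0
    apply hz
    funext k
    by_cases hki : k = i
    · subst hki
      have h1 := congrFun h0 k
      rw [Function.update_self, Pi.zero_apply] at h1
      calc z k = z k * v * u := by rw [mul_assoc, huv, mul_one]
        _ = 0 := by rw [h1, zero_mul]
    · have h1 := congrFun h0 k
      rw [Function.update_of_ne hki] at h1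
      exact h1
  · rw [← hsum]
    refine Finset.sum_congr rfl fun k _ => ?_
    by_cases hki : k = i
    · subst hki
      rw [Function.update_self, hi, smul_smul, mul_assoc, huv, mul_one]
    · rw [Function.update_of_ne hki, hk k hki]

/-- addition of a multiple of another row -/
theorem Dep.add {rel : κ → Word Y} {s σ s' σ' : ι → FreeGroup Y} (h : Dep rel s σ) (i j : ι)
    (hij : i ≠ j) (u : MonoidAlgebra ℤ (Grp rel))
    (hi : D rel (s' i) - D rel (σ' i) = (D rel (s i) - D rel (σ i)) +
      u • (D rel (s j) - D rel (σ j)))
    (hk : ∀ k, k ≠ i → D rel (s' k) - D rel (σ' k) = D rel (s k) - D rel (σ k)) :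
    Dep rel s' σ' := by
  obtain ⟨z, hz, hsum⟩ := h
  refine ⟨Function.update z j (z j - z i * u), ?_, ?_⟩
  · intro h0
    apply hz
    have h1 : z i = 0 := by
      have h1 := congrFun h0 i
      rw [Function.update_of_ne hij] at h1
      exact h1
    funext k
    by_cases hkj : k = j
    · subst hkj
      have h2 := congrFun h0 k
      rw [Function.update_self, h1, zero_mul, sub_zero] at h2
      exact h2
    · have h2 := congrFun h0 k
      rw [Function.update_of_ne hkj] at h2
      exact h2
  · have h3 : ∀ k, Function.update z j (z j - z i * u) k • (D rel (s' k) - D rel (σ' k)) =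
        z k • (D rel (s k) - D rel (σ k)) +
          ((if k = i then (z i * u) • (D rel (s j) - D rel (σ j)) else 0) -
            (if k = j then (z i * u) • (D rel (s j) - D rel (σ j)) else 0)) := by
      intro k
      by_cases hki : k = i
      · subst hki
        rw [if_pos rfl, if_neg hij, sub_zero, Function.update_of_ne hij, hi, smul_add, smul_smul]
      · rw [if_neg hki, hk k hki, zero_sub]
        by_cases hkj : k = j
        · subst hkj
          rw [if_pos rfl, Function.update_self, sub_smul, sub_eq_add_neg]
        · rw [if_neg hkj, Function.update_of_ne hkj, neg_zero, add_zero]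
    rw [Finset.sum_congr rfl fun k _ => h3 k, Finset.sum_add_distrib, hsum, zero_add,
      Finset.sum_sub_distrib, Finset.sum_ite_eq', Finset.sum_ite_eq', if_pos (Finset.mem_univ _),
      if_pos (Finset.mem_univ _), sub_self]

variable {X : Type}

/-- A path of Andrews–Curtis moves can be followed by a second tuple. -/
theorem ac_path (a : FreeGroup X →* FreeGroup Y) (N : Subgroup (FreeGroup Y)) [hN : N.Normal]
    {s s' : ι → FreeGroup X} (h : Relation.ReflTransGen ACStep s s') (σ : ι → FreeGroup Y)
    (hσ : ∀ i, σ i ∈ N) :
    ∃ σ' : ι → FreeGroup Y, (∀ i, σ' i ∈ N) ∧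
      (∀ (Γ : Type) [Group Γ] (θ : FreeGroup Y →* Γ),
        (∀ i, θ (a (s i)) = θ (σ i)) ↔ ∀ i, θ (a (s' i)) = θ (σ' i)) ∧
      ∀ (κ : Type) (rel : κ → Word Y), (∀ i, valF rel (a (s i)) = valF rel (σ i)) →
        Dep rel (fun i => a (s i)) σ → Dep rel (fun i => a (s' i)) σ' := by
  induction h with
  | refl => exact ⟨σ, hσ, fun Γ _ θ => Iff.rfl, fun κ rel _ hd => hd⟩
  | @tail t t' hst hstep ih =>
    obtain ⟨τ, hτ, h1, h2⟩ := ih
    obtain ⟨τ', hτ', h3, h4⟩ : ∃ τ' : ι → FreeGroup Y, (∀ i, τ' i ∈ N) ∧
        (∀ (Γ : Type) [Group Γ] (θ : FreeGroup Y →* Γ),
          (∀ i, θ (a (t i)) = θ (τ i)) ↔ ∀ i, θ (a (t' i)) = θ (τ' i)) ∧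
        ∀ (κ : Type) (rel : κ → Word Y), (∀ i, valF rel (a (t i)) = valF rel (τ i)) →
          Dep rel (fun i => a (t i)) τ → Dep rel (fun i => a (t' i)) τ' := by
      cases hstep with
      | inv i =>
        refine ⟨Function.update τ i (τ i)⁻¹, ?_, ?_, ?_⟩
        · intro k
          by_cases hk : k = i
          · subst hk
            rw [Function.update_self]
            exact N.inv_mem (hτ k)
          · rw [Function.update_of_ne hk]
            exact hτ k
        · intro Γ _ θ
          refine forall_congr' fun k => ?_
          by_cases hk : k = i
          · subst hk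
            rw [Function.update_self, Function.update_self, map_inv, map_inv, map_inv, inv_inj]
          · rw [Function.update_of_ne hk, Function.update_of_ne hk]
        · intro κ rel he hd
          refine hd.scale i (-MonoidAlgebra.of ℤ (Grp rel) (valF rel (a (t i)))⁻¹)
            (-MonoidAlgebra.of ℤ (Grp rel) (valF rel (a (t i)))) ?_ ?_ ?_
          · rw [neg_mul_neg, ← map_mul, mul_inv_cancel, map_one]
          · simp only [Function.update_self]
            rw [map_inv, D_inv, D_inv, ← he i, smul_sub, neg_smul, neg_smul]
          · intro k hk
            simp only [Function.update_of_ne hk]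
      | mul i j hij =>
        refine ⟨Function.update τ i (τ i * τ j), ?_, ?_, ?_⟩
        · intro k
          by_cases hk : k = i
          · subst hk
            rw [Function.update_self]
            exact N.mul_mem (hτ k) (hτ j)
          · rw [Function.update_of_ne hk]
            exact hτ k
        · intro Γ _ θ
          constructor
          · intro he k
            by_cases hk : k = i
            · subst hk
              rw [Function.update_self, Function.update_self, map_mul, map_mul, map_mul, he k, he j]
            · rw [Function.update_of_ne hk, Function.update_of_ne hk]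
              exact he k
          · intro he k
            have hj := he j
            rw [Function.update_of_ne hij.symm, Function.update_of_ne hij.symm] at hj
            by_cases hk : k = i
            · subst hk
              have h5 := he k
              rw [Function.update_self, Function.update_self, map_mul, map_mul, map_mul, hj] at h5
              exact mul_right_cancel h5
            · have h5 := he k
              rw [Function.update_of_ne hk, Function.update_of_ne hk] at h5
              exact h5
        · intro κ rel he hd
          refine hd.add i j hij (MonoidAlgebra.of ℤ (Grp rel) (valF rel (a (t i)))) ?_ ?_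
          · simp only [Function.update_self]
            rw [map_mul, D_mul, D_mul, ← he i, smul_sub]
            abel
          · intro k hk
            simp only [Function.update_of_ne hk]
      | conj i g =>
        refine ⟨Function.update τ i (a g * τ i * (a g)⁻¹), ?_, ?_, ?_⟩
        · intro k
          by_cases hk : k = i
          · subst hk
            rw [Function.update_self]
            exact hN.conj_mem _ (hτ k) _
          · rw [Function.update_of_ne hk]
            exact hτ k
        · intro Γ _ θ
          refine forall_congr' fun k => ?_
          by_cases hk : k = i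
          · subst hk
            rw [Function.update_self, Function.update_self, map_mul, map_mul, map_inv, map_mul,
              map_mul, map_mul, map_mul]
            constructor
            · intro h5
              rw [h5]
            · intro h5
              exact mul_left_cancel (mul_right_cancel h5)
          · rw [Function.update_of_ne hk, Function.update_of_ne hk]
        · intro κ rel he hd
          refine hd.scale i (MonoidAlgebra.of ℤ (Grp rel) (valF rel (a g)))
            (MonoidAlgebra.of ℤ (Grp rel) (valF rel (a g))⁻¹) ?_ ?_ ?_
          · rw [← map_mul, inv_mul_cancel, map_one]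
          · simp only [Function.update_self]
            rw [map_mul, map_mul, map_inv, D_mul, D_mul, D_mul (rel := rel) (a g * τ i),
              D_mul (rel := rel) (a g) (τ i)]
            simp only [map_mul, he i, smul_sub]
            abel
          · intro k hk
            simp only [Function.update_of_ne hk]
    refine ⟨τ', hτ', fun Γ _ θ => (h1 Γ θ).trans (h3 Γ θ), fun κ rel he hd => ?_⟩
    exact h4 κ rel ((h1 _ (valF rel)).1 he) (h2 κ rel he hd)

end

end Pool.Agent.ZO
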