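import Pool.Agent.ZO.Defs

/-!
# Andrews–Curtis trivial presentations
-/

set_option autoImplicit false

namespace Pool.Agent.ZO

open Pool.Agent.FoxAsph

/-- An Andrews–Curtis move of a tuple of elements of a free group: one element `r i` is replaced by
its inverse, by its product `r i * r j` with another element of the tuple, or by a conjugate. -/
def ACMove {X ι : Type} (r r' : ι → FreeGroup X) : Prop :=
  ∃ i, (∀ k, k ≠ i → r' k = r k) ∧
    (r' i = (r i)⁻¹ ∨ (∃ j, j ≠ i ∧ r' i = r i * r j) ∨ ∃ g, r' i = g * r i * g⁻¹)

/-- The presentation with generators `X` and relators `rel i` is (stably) Andrews–Curtis trivial: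
after adding some new generators, and the same elements as relators, a sequence of Andrews–Curtis
moves carries the relators to the generators. These are the presentations whose complexes 3-deform to
a point. -/
def ACTrivial {X ι : Type} (rel : ι → Word X) : Prop :=
  ∃ (m : ℕ) (e : ι ⊕ Fin m ≃ X ⊕ Fin m), Relation.ReflTransGen ACMove
    (Sum.elim (fun i => FreeGroup.map Sum.inl (FreeGroup.mk (rel i)))
      (fun k => FreeGroup.of (Sum.inr k)))
    (fun i => FreeGroup.of (e i))

end Pool.Agent.ZO
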