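import Pool.Agent.FoxAsph.Kernel
import Pool.Agent.WT.Contract

/-!
# Words as affine maps

A word acts on a left module over the group ring by affine maps, with the Fox derivatives as
translation parts.
-/

set_option autoImplicit false

open scoped BigOperators

namespace Pool.Agent.ZO

open Pool.Agent.FoxAsph Pool.Agent.WT

variable {X ι : Type} (rel : ι → Word X) {R' M : Type} [Ring R'] [AddCommGroup M] [Module R' M]
  (ρ : MonoidAlgebra ℤ (Grp rel) →+* R') (m : X → M)

theorem val_mul_inv (x : X) : val rel [(x, true)] * val rel [(x, false)] = 1 := by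
  rw [val_inv, mul_inv_cancel]

theorem val_inv_mul (x : X) : val rel [(x, false)] * val rel [(x, true)] = 1 := by
  rw [val_inv, inv_mul_cancel]

/-- the affine map of a generator -/
noncomputable def aff (x : X) : Equiv.Perm M where
  toFun y := ρ (MonoidAlgebra.of ℤ (Grp rel) (val rel [(x, true)])) • y + m x
  invFun y := ρ (MonoidAlgebra.of ℤ (Grp rel) (val rel [(x, false)])) • (y - m x)
  left_inv y := by
    show ρ _ • (ρ _ • y + m x - m x) = y
    rw [add_sub_cancel_right, smul_smul, ← map_mul, ← map_mul, val_inv_mul, map_one, map_one,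
      one_smul]
  right_inv y := by
    show ρ _ • (ρ _ • (y - m x)) + m x = y
    rw [smul_smul, ← map_mul, ← map_mul, val_mul_inv, map_one, map_one, one_smul, sub_add_cancel]

theorem aff_apply (x : X) (y : M) : aff rel ρ m x y =
    ρ (MonoidAlgebra.of ℤ (Grp rel) (val rel [(x, true)])) • y + m x := rfl

theorem aff_inv_apply (x : X) (y : M) : (aff rel ρ m x)⁻¹ y =
    ρ (MonoidAlgebra.of ℤ (Grp rel) (val rel [(x, false)])) • (y - m x) := rfl

/-- the action of a word -/
noncomputable def affW (w : Word X) : Equiv.Perm M := FreeGroup.lift (aff rel ρ m) (FreeGroup.mk w)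

theorem lift_nil {G : Type} [Group G] (f : X → G) : FreeGroup.lift f (FreeGroup.mk []) = 1 := by
  rw [← FreeGroup.one_eq_mk, map_one]

theorem lift_cons {G : Type} [Group G] (f : X → G) (x : X) (b : Bool) (w : Word X) :
    FreeGroup.lift f (FreeGroup.mk ((x, b) :: w)) =
      (if b then f x else (f x)⁻¹) * FreeGroup.lift f (FreeGroup.mk w) := by
  cases b <;> simp [FreeGroup.lift_mk]

theorem affW_apply [Fintype X] (w : Word X) (y : M) : affW rel ρ m w y =
    ρ (MonoidAlgebra.of ℤ (Grp rel) (val rel w)) • y + ∑ x, ρ (fox rel x w) • m x := by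
  classical
  induction w with
  | nil =>
    unfold affW
    rw [lift_nil, val_nil, map_one, map_one, one_smul]
    have : ∀ x : X, ρ (fox rel x []) • m x = 0 := by
      intro x
      show ρ 0 • m x = 0
      rw [map_zero, zero_smul]
    rw [Finset.sum_congr rfl (fun x _ => this x), Finset.sum_const_zero, add_zero]
    rfl
  | cons l w ih =>
    obtain ⟨x, b⟩ := l
    have h0 : affW rel ρ m ((x, b) :: w) y =
        (if b then aff rel ρ m x else (aff rel ρ m x)⁻¹) (affW rel ρ m w y) := by
      unfold affW
      rw [lift_cons]
      rfl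
    rw [h0, ih, val_cons, map_mul, map_mul, mul_smul]
    cases b with
    | true =>
      rw [if_pos rfl, aff_apply, smul_add, add_assoc]
      congr 1
      have h1 : ∀ z : X, ρ (fox rel z ((x, true) :: w)) • m z =
          ρ (MonoidAlgebra.of ℤ (Grp rel) (val rel [(x, true)])) • (ρ (fox rel z w) • m z) +
            (if x = z then m z else 0) := by
        intro z
        show ρ ((if x = z then 1 else 0) +
          MonoidAlgebra.of ℤ (Grp rel) (val rel [(x, true)]) * fox rel z w) • m z = _
        rw [map_add, map_mul, add_smul, mul_smul, add_comm]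
        congr 1
        by_cases h : x = z
        · rw [if_pos h, if_pos h, map_one, one_smul]
        · rw [if_neg h, if_neg h, map_zero, zero_smul]
      rw [Finset.sum_congr rfl (fun z _ => h1 z), Finset.sum_add_distrib, ← Finset.smul_sum,
        Finset.sum_ite_eq, if_pos (Finset.mem_univ _)]
    | false =>
      rw [if_neg Bool.false_ne_true, aff_inv_apply, smul_sub, smul_add, add_sub_assoc]
      congr 1
      have h1 : ∀ z : X, ρ (fox rel z ((x, false) :: w)) • m z =
          ρ (MonoidAlgebra.of ℤ (Grp rel) (val rel [(x, false)])) • (ρ (fox rel z w) • m z) +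
            (if x = z then -(ρ (MonoidAlgebra.of ℤ (Grp rel) (val rel [(x, false)])) • m z)
              else 0) := by
        intro z
        show ρ (-(if x = z then MonoidAlgebra.of ℤ (Grp rel) (val rel [(x, false)]) else 0) +
          MonoidAlgebra.of ℤ (Grp rel) (val rel [(x, false)]) * fox rel z w) • m z = _
        rw [map_add, map_mul, add_smul, mul_smul, add_comm]
        congr 1
        by_cases h : x = z
        · rw [if_pos h, if_pos h, map_neg, neg_smul]
        · rw [if_neg h, if_neg h, neg_zero, map_zero, zero_smul]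
      rw [Finset.sum_congr rfl (fun z _ => h1 z), Finset.sum_add_distrib, ← Finset.smul_sum,
        Finset.sum_ite_eq, if_pos (Finset.mem_univ _), sub_eq_add_neg]

/-- A relator acts as a translation by its row of Fox derivatives. -/
theorem affW_rel [Fintype X] (i : ι) (y : M) : affW rel ρ m (rel i) y =
    y + ∑ x, ρ (fox rel x (rel i)) • m x := by
  rw [affW_apply, val_rel, map_one, map_one, one_smul]

/-- A combination of relators in the kernel of the Fox Jacobian acts trivially. -/
theorem sum_affW [Fintype X] [Fintype ι] (z : ι → MonoidAlgebra ℤ (Grp rel))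
    (hz : ∀ x : X, ∑ i, z i * fox rel x (rel i) = 0) :
    ∑ i, ρ (z i) • affW rel ρ m (rel i) 0 = 0 := by
  have h1 : ∀ i, ρ (z i) • affW rel ρ m (rel i) 0 =
      ∑ x, ρ (z i * fox rel x (rel i)) • m x := by
    intro i
    rw [affW_rel, zero_add, Finset.smul_sum]
    refine Finset.sum_congr rfl (fun x _ => ?_)
    rw [smul_smul, map_mul]
  rw [Finset.sum_congr rfl (fun i _ => h1 i), Finset.sum_comm]
  refine Finset.sum_eq_zero (fun x _ => ?_)
  rw [← Finset.sum_smul, ← map_sum, hz x, map_zero, zero_smul]

end Pool.Agent.ZO
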