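import Pool.Agent.ZO.Tour
import Pool.Agent.ZO.Defs
import Pool.Agent.GX.Fringe

/-!
# A non-aspherical subcomplex gives a non-aspherical labelled oriented forest
-/

set_option autoImplicit false

open scoped BigOperators

namespace Pool.Agent.ZO

open Pool.Agent.FoxAsph Pool.Agent.WT Pool.Agent.WT.Trees Pool.Agent.GX Pool.Agent.GX.FringeAux

/-- vertices connected to `v` by kept edges, if the relator `v` is kept -/
inductive Killed {V : Type} (Γ : LOT V) (v : V) (p : V → V) (S : Finset (Option Γ.graph.edgeSet)) :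
    V → Prop
  | base : none ∈ S → Killed Γ v p S v
  | up (x : V) (e : Γ.graph.edgeSet) : x ≠ v → (e : Sym2 V) = s(x, p x) → some e ∈ S →
      Killed Γ v p S (p x) → Killed Γ v p S x

section
variable {V : Type} (Γ : LOT V) (v : V) (p : V → V) (S : Finset (Option Γ.graph.edgeSet))

theorem killed_iff {x : V} (hx : x ≠ v) (e : Γ.graph.edgeSet) (he : (e : Sym2 V) = s(x, p x))
    (hS : some e ∈ S) : Killed Γ v p S x ↔ Killed Γ v p S (p x) := by
  constructor
  · intro h
    cases h with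
    | base _ => exact absurd rfl hx
    | up _ e' _ _ _ h' => exact h'
  · exact fun h => Killed.up x e hx he hS h

/-- the ends of the edge of `x` -/
theorem ends_cases {x : V} (e : Γ.graph.edgeSet) (he : (e : Sym2 V) = s(x, p x)) :
    (Γ.tail e = x ∧ Γ.head e = p x) ∨ (Γ.tail e = p x ∧ Γ.head e = x) := by
  have h := Γ.ends e
  rw [he, Sym2.eq_iff] at h
  rcases h with ⟨h1, h2⟩ | ⟨h1, h2⟩
  · exact Or.inl ⟨h1.symm, h2.symm⟩
  · exact Or.inr ⟨h2.symm, h1.symm⟩

theorem killed_ends {x : V} (hx : x ≠ v) (e : Γ.graph.edgeSet) (he : (e : Sym2 V) = s(x, p x))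
    (hS : some e ∈ S) : Killed Γ v p S (Γ.tail e) ↔ Killed Γ v p S (Γ.head e) := by
  have h := killed_iff Γ v p S hx e he hS
  rcases ends_cases Γ p e he with ⟨h1, h2⟩ | ⟨h1, h2⟩
  · rw [h1, h2]
    exact h
  · rw [h1, h2]
    exact h.symm

/-- every edge is the edge of a vertex -/
theorem exists_vertex (hp : p ∈ PF v) (hG : pGraph p = Γ.graph) (e : Γ.graph.edgeSet) :
    ∃ x, x ≠ v ∧ (e : Sym2 V) = s(x, p x) := by
  obtain ⟨e, he⟩ := e
  rw [← hG] at he
  induction e using Sym2.ind with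
  | _ a b =>
    rw [SimpleGraph.mem_edgeSet, pGraph_adj] at he
    rcases he with ⟨hab, h | h⟩
    · refine ⟨a, ?_, ?_⟩
      · rintro rfl
        exact hab (hp.1.symm.trans h)
      · show s(a, b) = s(a, p a)
        rw [h]
    · refine ⟨b, ?_, ?_⟩
      · rintro rfl
        exact hab (h.symm.trans hp.1)
      · show s(a, b) = s(b, p b)
        rw [h]
        exact Sym2.eq_swap

end

section
variable {V : Type} (Γ : LOT V) (v : V) (p : V → V) (U : Set V)
  (S : Finset (Option Γ.graph.edgeSet)) (h : ∀ i ∈ S, ∀ l ∈ Γ.relPlus v i, l.1 ∈ U)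

include h in
theorem tail_mem (e : Γ.graph.edgeSet) (he : some e ∈ S) : Γ.tail e ∈ U :=
  h (some e) he (Γ.tail e, true) (by simp [LOT.relPlus, LOT.rel])

include h in
theorem head_mem (e : Γ.graph.edgeSet) (he : some e ∈ S) : Γ.head e ∈ U :=
  h (some e) he (Γ.head e, false) (by simp [LOT.relPlus, LOT.rel])

include h in
theorem label_mem (e : Γ.graph.edgeSet) (he : some e ∈ S) : Γ.label e ∈ U :=
  h (some e) he (Γ.label e, true) (by simp [LOT.relPlus, LOT.rel])

include h in
theorem root_mem (he : none ∈ S) : v ∈ U :=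
  h none he (v, true) (by simp [LOT.relPlus])

theorem lift_some {G : Type} [Group G] (Θ : ↥U → G) (e : Γ.graph.edgeSet) (he : some e ∈ S) :
    FreeGroup.lift Θ (FreeGroup.mk (SubPres (Γ.relPlus v) U S h ⟨some e, he⟩)) =
      Θ ⟨Γ.tail e, tail_mem Γ v U S h e he⟩ * Θ ⟨Γ.label e, label_mem Γ v U S h e he⟩ *
        (Θ ⟨Γ.head e, head_mem Γ v U S h e he⟩)⁻¹ *
        (Θ ⟨Γ.label e, label_mem Γ v U S h e he⟩)⁻¹ := by
  have h0 : SubPres (Γ.relPlus v) U S h ⟨some e, he⟩ =
      [((⟨Γ.tail e, tail_mem Γ v U S h e he⟩ : ↥U), true),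
        (⟨Γ.label e, label_mem Γ v U S h e he⟩, true),
        (⟨Γ.head e, head_mem Γ v U S h e he⟩, false),
        (⟨Γ.label e, label_mem Γ v U S h e he⟩, false)] := rfl
  rw [h0, lift_cons, lift_cons, lift_cons, lift_cons, lift_nil]
  simp [mul_assoc]

theorem lift_none' {G : Type} [Group G] (Θ : ↥U → G) (he : none ∈ S) :
    FreeGroup.lift Θ (FreeGroup.mk (SubPres (Γ.relPlus v) U S h ⟨none, he⟩)) =
      Θ ⟨v, root_mem Γ v U S h he⟩ := by
  have h0 : SubPres (Γ.relPlus v) U S h ⟨none, he⟩ =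
      [((⟨v, root_mem Γ v U S h he⟩ : ↥U), true)] := rfl
  rw [h0, lift_cons, lift_nil]
  simp

include h in
theorem killed_mem {x : V} (hx : Killed Γ v p S x) : x ∈ U := by
  induction hx with
  | base h0 => exact root_mem Γ v U S h h0
  | up x e _ he hS _ _ =>
    rcases ends_cases Γ p e he with ⟨h1, _⟩ | ⟨_, h1⟩
    · rw [← h1]
      exact tail_mem Γ v U S h e hS
    · rw [← h1]
      exact head_mem Γ v U S h e hS

/-- killed generators are trivial -/
theorem killed_one {G : Type} [Group G] (Θ : ↥U → G)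
    (hΘ : ∀ i : S, FreeGroup.lift Θ (FreeGroup.mk (SubPres (Γ.relPlus v) U S h i)) = 1)
    {x : V} (hx : Killed Γ v p S x) : Θ ⟨x, killed_mem Γ v p U S h hx⟩ = 1 := by
  induction hx with
  | base h0 =>
    rw [← lift_none' Γ v U S h Θ h0]
    exact hΘ _
  | up x e hxv he hS hpx ih =>
    have h1 := hΘ ⟨some e, hS⟩
    rw [lift_some, mul_inv_eq_one, mul_inv_eq_iff_eq_mul] at h1
    have hpm : p x ∈ U := killed_mem Γ v p U S h hpx
    have hxm : x ∈ U := killed_mem Γ v p U S h (Killed.up x e hxv he hS hpx)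
    rcases ends_cases Γ p e he with ⟨h2, h3⟩ | ⟨h2, h3⟩
    · have h4 : (⟨Γ.tail e, tail_mem Γ v U S h e hS⟩ : ↥U) = ⟨x, hxm⟩ := Subtype.ext h2
      have h5 : (⟨Γ.head e, head_mem Γ v U S h e hS⟩ : ↥U) = ⟨p x, hpm⟩ := Subtype.ext h3
      rw [h4, h5, ih, mul_one] at h1
      exact mul_eq_right.1 h1
    · have h4 : (⟨Γ.tail e, tail_mem Γ v U S h e hS⟩ : ↥U) = ⟨p x, hpm⟩ := Subtype.ext h2
      have h5 : (⟨Γ.head e, head_mem Γ v U S h e hS⟩ : ↥U) = ⟨x, hxm⟩ := Subtype.ext h3
      rw [h4, h5, ih, one_mul] at h1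
      exact mul_eq_left.1 h1.symm

/-- the relator is the relator of an edge whose ends are not killed -/
def Alive (i : S) : Prop := ∃ e : Γ.graph.edgeSet, i.1 = some e ∧ ¬ Killed Γ v p S (Γ.tail e)

/-- the edge -/
noncomputable def aed (i : {i : S // Alive Γ v p S i}) : Γ.graph.edgeSet := Classical.choose i.2

theorem aed_spec (i : {i : S // Alive Γ v p S i}) : i.1.1 = some (aed Γ v p S i) :=
  (Classical.choose_spec i.2).1

theorem aed_mem (i : {i : S // Alive Γ v p S i}) : some (aed Γ v p S i) ∈ S := by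
  rw [← aed_spec]
  exact i.1.2

theorem aed_tail (i : {i : S // Alive Γ v p S i}) :
    ¬ Killed Γ v p S (Γ.tail (aed Γ v p S i)) := (Classical.choose_spec i.2).2

theorem aed_inj {i j : {i : S // Alive Γ v p S i}} (hij : aed Γ v p S i = aed Γ v p S j) :
    i = j := by
  apply Subtype.ext
  apply Subtype.ext
  rw [aed_spec, aed_spec, hij]

variable [Fintype V] (hp : p ∈ PF v) (hG : pGraph p = Γ.graph)

include hp hG in
omit [Fintype V] in
theorem aed_head (i : {i : S // Alive Γ v p S i}) :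
    ¬ Killed Γ v p S (Γ.head (aed Γ v p S i)) := by
  obtain ⟨x, hx, he⟩ := exists_vertex Γ v p hp hG (aed Γ v p S i)
  rw [← killed_ends Γ v p S hx _ he (aed_mem Γ v p S i)]
  exact aed_tail Γ v p S i

open Classical in
/-- the labelled oriented forest of the edges that are not killed -/
noncomputable def backLOF : LOF where
  V := {x : ↥U // ¬ Killed Γ v p S x.1}
  E := {i : S // Alive Γ v p S i}
  fV := Fintype.ofFinite _
  fE := Fintype.ofFinite _
  tail := fun i => ⟨⟨_, tail_mem Γ v U S h _ (aed_mem Γ v p S i)⟩, aed_tail Γ v p S i⟩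
  head := fun i => ⟨⟨_, head_mem Γ v U S h _ (aed_mem Γ v p S i)⟩, aed_head Γ v p S hp hG i⟩
  label := fun i => if hl : Killed Γ v p S (Γ.label (aed Γ v p S i)) then
      ⟨⟨_, head_mem Γ v U S h _ (aed_mem Γ v p S i)⟩, aed_head Γ v p S hp hG i⟩
    else ⟨⟨_, label_mem Γ v U S h _ (aed_mem Γ v p S i)⟩, hl⟩
  forest := by
    intro i
    obtain ⟨x, hx, he⟩ := exists_vertex Γ v p hp hG (aed Γ v p S i)
    have hin : x ∈ below p x := self_mem_below p x
    have hout : p x ∉ below p x := top_notMem_below hp hx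
    have hother : ∀ j, j ≠ i → (Γ.head (aed Γ v p S j) ∈ below p x ↔
        Γ.tail (aed Γ v p S j) ∈ below p x) := by
      intro j hj
      obtain ⟨y, hy, hye⟩ := exists_vertex Γ v p hp hG (aed Γ v p S j)
      have hyx : y ≠ x := by
        rintro rfl
        exact hj (aed_inj Γ v p S (Subtype.ext (hye.trans he.symm)))
      have h1 : y ∈ below p x ↔ p y ∈ below p x :=
        ⟨fun h1 => parent_mem_below h1 hyx, fun h1 => mem_below_of_parent h1⟩
      rcases ends_cases Γ p _ hye with ⟨h2, h3⟩ | ⟨h2, h3⟩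
      · rw [h2, h3]
        exact h1.symm
      · rw [h2, h3]
        exact h1
    rcases ends_cases Γ p _ he with ⟨h2, h3⟩ | ⟨h2, h3⟩
    · refine ⟨fun y => if y.1.1 ∈ below p x then -1 else 0, ?_, fun j hj => ?_⟩
      · show (if Γ.head (aed Γ v p S i) ∈ below p x then (-1 : ℤ) else 0) -
          (if Γ.tail (aed Γ v p S i) ∈ below p x then (-1 : ℤ) else 0) = 1
        rw [h2, h3, if_neg hout, if_pos hin]
        norm_num
      · show (if Γ.head (aed Γ v p S j) ∈ below p x then (-1 : ℤ) else 0) =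
          (if Γ.tail (aed Γ v p S j) ∈ below p x then (-1 : ℤ) else 0)
        simp only [hother j hj]
    · refine ⟨fun y => if y.1.1 ∈ below p x then 1 else 0, ?_, fun j hj => ?_⟩
      · show (if Γ.head (aed Γ v p S i) ∈ below p x then (1 : ℤ) else 0) -
          (if Γ.tail (aed Γ v p S i) ∈ below p x then (1 : ℤ) else 0) = 1
        rw [h2, h3, if_neg hout, if_pos hin]
        norm_num
      · show (if Γ.head (aed Γ v p S j) ∈ below p x then (1 : ℤ) else 0) =
          (if Γ.tail (aed Γ v p S j) ∈ below p x then (1 : ℤ) else 0)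
        simp only [hother j hj]

theorem backLOF_label_killed (i : {i : S // Alive Γ v p S i})
    (hl : Killed Γ v p S (Γ.label (aed Γ v p S i))) :
    (backLOF Γ v p U S h hp hG).label i =
      ⟨⟨_, head_mem Γ v U S h _ (aed_mem Γ v p S i)⟩, aed_head Γ v p S hp hG i⟩ := dif_pos hl

theorem backLOF_label_alive (i : {i : S // Alive Γ v p S i})
    (hl : ¬ Killed Γ v p S (Γ.label (aed Γ v p S i))) :
    (backLOF Γ v p U S h hp hG).label i =
      ⟨⟨_, label_mem Γ v U S h _ (aed_mem Γ v p S i)⟩, hl⟩ := dif_neg hl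

/-- the relators in a group in which the killed generators are trivial -/
theorem lift_alive {G : Type} [Group G] (Θ : ↥U → G)
    (hΘ : ∀ x (hx : Killed Γ v p S x), Θ ⟨x, killed_mem Γ v p U S h hx⟩ = 1)
    (i : {i : S // Alive Γ v p S i}) :
    FreeGroup.lift Θ (FreeGroup.mk (SubPres (Γ.relPlus v) U S h i.1)) =
      FreeGroup.lift (fun x : (backLOF Γ v p U S h hp hG).V => Θ x.1)
        (FreeGroup.mk ((backLOF Γ v p U S h hp hG).rel i)) := by
  have hi : i.1 = ⟨some (aed Γ v p S i), aed_mem Γ v p S i⟩ := Subtype.ext (aed_spec Γ v p S i)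
  rw [hi, lift_some]
  unfold LOF.rel
  rw [lift_cons, lift_cons, lift_cons, lift_cons, lift_nil]
  simp only [if_true, Bool.false_eq_true, if_false, mul_one]
  by_cases hl : Killed Γ v p S (Γ.label (aed Γ v p S i))
  · rw [backLOF_label_killed Γ v p U S h hp hG i hl, hΘ _ hl]
    show _ = Θ ⟨_, tail_mem Γ v U S h _ (aed_mem Γ v p S i)⟩ *
      (Θ ⟨_, head_mem Γ v U S h _ (aed_mem Γ v p S i)⟩ *
      ((Θ ⟨_, head_mem Γ v U S h _ (aed_mem Γ v p S i)⟩)⁻¹ *
      (Θ ⟨_, head_mem Γ v U S h _ (aed_mem Γ v p S i)⟩)⁻¹))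
    group
  · rw [backLOF_label_alive Γ v p U S h hp hG i hl]
    simp only [mul_assoc]
    rfl

include hp hG in
omit [Fintype V] in
/-- the other relators -/
theorem lift_dead {G : Type} [Group G] (Θ : ↥U → G)
    (hΘ : ∀ x (hx : Killed Γ v p S x), Θ ⟨x, killed_mem Γ v p U S h hx⟩ = 1)
    (i : S) (hi : ¬ Alive Γ v p S i) :
    FreeGroup.lift Θ (FreeGroup.mk (SubPres (Γ.relPlus v) U S h i)) = 1 := by
  obtain ⟨i, hiS⟩ := i
  rcases i with _ | e
  · rw [lift_none']
    exact hΘ v (Killed.base hiS)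
  · have ht : Killed Γ v p S (Γ.tail e) := by
      by_contra hcon
      exact hi ⟨e, rfl, hcon⟩
    obtain ⟨x, hx, he⟩ := exists_vertex Γ v p hp hG e
    have hh := (killed_ends Γ v p S hx e he hiS).1 ht
    rw [lift_some, hΘ _ ht, hΘ _ hh]
    simp

end

end Pool.Agent.ZO
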