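import Pool.Agent.GX.Forest

/-! # Zero-one law: the number of forests on a subset -/

set_option autoImplicit false

open scoped BigOperators

namespace Pool.Agent.ZO

open Pool.Agent.GX

variable {V : Type} [Fintype V] [DecidableEq V]

open Classical in
/-- the forests on `B` with root set `A`, extended by the identity -/
noncomputable def WW (B A : Finset V) : Finset (V → V) :=
  Finset.univ.filter fun f => (∀ x, (x ∉ B ∨ x ∈ A) → f x = x) ∧ (∀ x ∈ B, f x ∈ B) ∧
    ∀ x ∈ B, ∃ m, f^[m] x ∈ A

theorem mem_WW {B A : Finset V} {f : V → V} : f ∈ WW B A ↔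
    (∀ x, (x ∉ B ∨ x ∈ A) → f x = x) ∧ (∀ x ∈ B, f x ∈ B) ∧ ∀ x ∈ B, ∃ m, f^[m] x ∈ A := by
  classical
  unfold WW
  rw [Finset.mem_filter]
  exact and_iff_right (Finset.mem_univ _)

theorem card_WW (B A : Finset V) (hAB : A ⊆ B) (hA : A.Nonempty) :
    (WW B A).card * B.card = A.card * B.card ^ (B.card - A.card) := by
  classical
  set A' : Finset B := A.attach.image fun x => ⟨x.1, hAB x.2⟩ with hA'
  have hmA' : ∀ x : B, x ∈ A' ↔ x.1 ∈ A := by
    intro x
    rw [hA', Finset.mem_image]
    constructor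
    · rintro ⟨y, _, rfl⟩
      exact y.2
    · intro h
      exact ⟨⟨x.1, h⟩, Finset.mem_attach _ _, rfl⟩
  have hcA' : A'.card = A.card := by
    rw [hA', Finset.card_image_of_injective, Finset.card_attach]
    intro x y h
    exact Subtype.ext (Subtype.mk.inj h)
  have hA'n : A'.Nonempty := by
    obtain ⟨a, ha⟩ := hA
    exact ⟨⟨a, hAB ha⟩, (hmA' _).2 ha⟩
  have h1 := card_FF A' hA'n
  rw [hcA', Fintype.card_coe] at h1
  rw [← h1]
  congr 1
  -- the bijection
  have h2 : (FF (A' : Set B)).ncard = ((Finset.univ : Finset (B → B)).filter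
      fun q => q ∈ FF (A' : Set B)).card := by
    rw [← Set.ncard_coe_finset]
    congr 1
    ext q
    simp
  rw [h2]
  refine Finset.card_bij' (fun f hf => fun x : B => ⟨f x.1, (mem_WW.1 hf).2.1 x.1 x.2⟩)
    (fun q _ => fun x => if h : x ∈ B then (q ⟨x, h⟩).1 else x) ?_ ?_ ?_ ?_
  · intro f hf
    have hf' := mem_WW.1 hf
    rw [Finset.mem_filter]
    refine ⟨Finset.mem_univ _, ?_, ?_⟩
    · intro x hx
      apply Subtype.ext
      exact hf'.1 x.1 (Or.inr ((hmA' x).1 hx))
    · intro x
      obtain ⟨m, hm⟩ := hf'.2.2 x.1 x.2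
      refine ⟨m, ?_⟩
      have key : ∀ m : ℕ, (((fun x : B => (⟨f x.1, (mem_WW.1 hf).2.1 x.1 x.2⟩ : B))^[m]) x : V) =
          f^[m] x.1 := by
        intro m
        induction m with
        | zero => rfl
        | succ m ih =>
          rw [Function.iterate_succ_apply', Function.iterate_succ_apply']
          simp only
          rw [ih]
      rw [Finset.mem_coe, hmA', key]
      exact hm
  · intro q hq
    rw [Finset.mem_filter] at hq
    obtain ⟨_, hq1, hq2⟩ := hq
    rw [mem_WW]
    refine ⟨?_, ?_, ?_⟩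
    · intro x hx
      by_cases hxB : x ∈ B
      · rw [dif_pos hxB]
        rcases hx with h | h
        · exact absurd hxB h
        · rw [hq1 ⟨x, hxB⟩ ((hmA' _).2 h)]
      · rw [dif_neg hxB]
    · intro x hx
      rw [dif_pos hx]
      exact (q ⟨x, hx⟩).2
    · intro x hx
      obtain ⟨m, hm⟩ := hq2 ⟨x, hx⟩
      refine ⟨m, ?_⟩
      have key : ∀ m : ℕ, ((fun x => if h : x ∈ B then (q ⟨x, h⟩).1 else x)^[m]) x =
          ((q^[m]) ⟨x, hx⟩).1 := by
        intro m
        induction m with
        | zero => rfl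
        | succ m ih =>
          rw [Function.iterate_succ_apply', Function.iterate_succ_apply', ih,
            dif_pos (q^[m] ⟨x, hx⟩).2]
      rw [key]
      exact (hmA' _).1 hm
  · intro f hf
    have hf' := mem_WW.1 hf
    funext x
    by_cases hx : x ∈ B
    · simp only [hx, dif_pos]
    · simp only [hx]
      rw [hf'.1 x (Or.inl hx)]
      rfl
  · intro q hq
    funext x
    apply Subtype.ext
    simp

end Pool.Agent.ZO
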