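import Pool.Agent.ZO.Marked
import Pool.Agent.ZO.WW

/-! # Zero-one law: gluing marked trees -/

set_option autoImplicit false

open scoped BigOperators

namespace Pool.Agent.ZO

open Pool.Agent.WT.Trees (PF)
open Pool.Agent.GX

/-- index type of the spine and of the paths -/
abbrev Ix (L : ℕ) {N : ℕ} (dl : Fin N → ℕ) : Type := Fin (L + 1) ⊕ (Σ j : Fin N, Fin (dl j))

theorem card_Ix (L : ℕ) {N : ℕ} (dl : Fin N → ℕ) :
    Fintype.card (Ix L dl) = L + 1 + ∑ j, dl j := by
  simp [Fintype.card_sum, Fintype.card_sigma]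

/-- parents in the structure -/
def parI (L : ℕ) {N : ℕ} (dl att : Fin N → ℕ) : Ix L dl → Option (Ix L dl)
  | Sum.inl i => if i.1 = 0 then none else some (Sum.inl ⟨i.1 - 1, by have := i.2; omega⟩)
  | Sum.inr ⟨j, i⟩ => if h : i.1 + 1 < dl j then some (Sum.inr ⟨j, ⟨i.1 + 1, h⟩⟩)
      else some (Sum.inl ⟨min (att j) L, by omega⟩)

/-- data of a gluing -/
structure GD {V : Type} [Fintype V] [DecidableEq V] (L : ℕ) {N : ℕ} (dl att : Fin N → ℕ)
    (D Z R M : Finset V) (z u : V) (φ : Ix L dl → V) (f1 f2 f3 : V → V) : Prop where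
  hD : ∀ x, x ∈ D ↔ (x ∈ Z ∨ x ∈ R ∨ x ∈ M)
  ZR : ∀ x ∈ Z, x ∉ R
  ZM : ∀ x ∈ Z, x ∉ M
  RM : ∀ x ∈ R, x ∉ M
  zZ : z ∈ Z
  uR : u ∈ R
  inj : Function.Injective φ
  rng : ∀ i, φ i ∈ M
  w1 : f1 ∈ WW Z {z}
  w2 : f2 ∈ WW M (Finset.univ.image φ)
  w3 : f3 ∈ WW R {u}

open Classical in
/-- the glued parent function -/
noncomputable def gl {V : Type} (L : ℕ) {N : ℕ} (dl att : Fin N → ℕ) (Z R : Finset V) (z u : V)
    (φ : Ix L dl → V) (f1 f2 f3 : V → V) (x : V) : V :=
  if x = z then φ (Sum.inl (Fin.last L)) else if x ∈ Z then f1 x else if x ∈ R then f3 x else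
    Function.extend φ (fun i => (parI L dl att i).elim u φ) f2 x

variable {V : Type} [Fintype V] [DecidableEq V] {L N : ℕ} {dl att : Fin N → ℕ}
  {D Z R M : Finset V} {z u : V} {φ : Ix L dl → V} {f1 f2 f3 : V → V}

section

variable (h : GD L dl att D Z R M z u φ f1 f2 f3)
include h

theorem GD.gl_z : gl L dl att Z R z u φ f1 f2 f3 z = φ (Sum.inl (Fin.last L)) := by
  unfold gl
  exact if_pos rfl

theorem GD.gl_Z {x : V} (hx : x ∈ Z) (hz : x ≠ z) : gl L dl att Z R z u φ f1 f2 f3 x = f1 x := by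
  unfold gl
  rw [if_neg hz, if_pos hx]

theorem GD.gl_R {x : V} (hx : x ∈ R) : gl L dl att Z R z u φ f1 f2 f3 x = f3 x := by
  have h1 : x ∉ Z := fun h' => h.ZR x h' hx
  have h2 : x ≠ z := fun h' => h1 (h' ▸ h.zZ)
  unfold gl
  rw [if_neg h2, if_neg h1, if_pos hx]

theorem GD.phi_ne (i : Ix L dl) : φ i ∉ Z ∧ φ i ∉ R :=
  ⟨fun h' => h.ZM _ h' (h.rng i), fun h' => h.RM _ h' (h.rng i)⟩

theorem GD.gl_phi (i : Ix L dl) :
    gl L dl att Z R z u φ f1 f2 f3 (φ i) = (parI L dl att i).elim u φ := by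
  have h1 := h.phi_ne i
  have h2 : φ i ≠ z := fun h' => h1.1 (h' ▸ h.zZ)
  unfold gl
  rw [if_neg h2, if_neg h1.1, if_neg h1.2, h.inj.extend_apply]

theorem GD.gl_M {x : V} (hx : x ∈ M) (hne : ∀ i, φ i ≠ x) :
    gl L dl att Z R z u φ f1 f2 f3 x = f2 x := by
  have h1 : x ∉ Z := fun h' => h.ZM x h' hx
  have h1' : x ∉ R := fun h' => h.RM x h' hx
  have h2 : x ≠ z := fun h' => h1 (h' ▸ h.zZ)
  unfold gl
  rw [if_neg h2, if_neg h1, if_neg h1', Function.extend_apply' _ _ _ (by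
    rintro ⟨i, hi⟩
    exact hne i hi)]

theorem GD.gl_out {x : V} (hx : x ∉ D) : gl L dl att Z R z u φ f1 f2 f3 x = x := by
  have h0 : ¬ (x ∈ Z ∨ x ∈ R ∨ x ∈ M) := fun h' => hx ((h.hD x).2 h')
  push Not at h0
  have h2 : x ≠ z := fun h' => h0.1 (h' ▸ h.zZ)
  unfold gl
  rw [if_neg h2, if_neg h0.1, if_neg h0.2.1, Function.extend_apply' _ _ _ (by
    rintro ⟨i, hi⟩
    exact h0.2.2 (hi ▸ h.rng i))]
  exact (mem_WW.1 h.w2).1 x (Or.inl h0.2.2)

theorem GD.gl_u : gl L dl att Z R z u φ f1 f2 f3 u = u := by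
  rw [h.gl_R h.uR]
  exact (mem_WW.1 h.w3).1 u (Or.inr (Finset.mem_singleton_self u))

theorem GD.gl_spine (i : Fin (L + 1)) (hi : i.1 ≠ 0) :
    gl L dl att Z R z u φ f1 f2 f3 (φ (Sum.inl i)) =
      φ (Sum.inl ⟨i.1 - 1, by have := i.2; omega⟩) := by
  rw [h.gl_phi, parI, if_neg hi]
  rfl

theorem GD.gl_spine0 : gl L dl att Z R z u φ f1 f2 f3 (φ (Sum.inl 0)) = u := by
  rw [h.gl_phi, parI, if_pos (by rfl)]
  rfl

theorem GD.gl_path (j : Fin N) (i : Fin (dl j)) (hi : i.1 + 1 < dl j) :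
    gl L dl att Z R z u φ f1 f2 f3 (φ (Sum.inr ⟨j, i⟩)) = φ (Sum.inr ⟨j, ⟨i.1 + 1, hi⟩⟩) := by
  rw [h.gl_phi, parI, dif_pos hi]
  rfl

theorem GD.gl_path_end (j : Fin N) (i : Fin (dl j)) (hi : ¬ i.1 + 1 < dl j) :
    gl L dl att Z R z u φ f1 f2 f3 (φ (Sum.inr ⟨j, i⟩)) =
      φ (Sum.inl ⟨min (att j) L, by omega⟩) := by
  rw [h.gl_phi, parI, dif_neg hi]
  rfl

/-- where the parents are -/
theorem GD.gl_cases (x : V) : (x ∈ Z → x ≠ z → gl L dl att Z R z u φ f1 f2 f3 x ∈ Z) ∧
    (x ∈ R → gl L dl att Z R z u φ f1 f2 f3 x ∈ R) ∧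
    (x ∈ M → (gl L dl att Z R z u φ f1 f2 f3 x ∈ M ∨
      (x = φ (Sum.inl 0) ∧ gl L dl att Z R z u φ f1 f2 f3 x = u))) ∧
    (x ∉ D → gl L dl att Z R z u φ f1 f2 f3 x = x) := by
  refine ⟨?_, ?_, ?_, fun hx => h.gl_out hx⟩
  · intro hx hz
    rw [h.gl_Z hx hz]
    exact (mem_WW.1 h.w1).2.1 x hx
  · intro hx
    rw [h.gl_R hx]
    exact (mem_WW.1 h.w3).2.1 x hx
  · intro hx
    by_cases hex : ∃ i, φ i = x
    · obtain ⟨i, rfl⟩ := hex
      rcases i with i | ⟨j, i⟩
      · by_cases hi : i.1 = 0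
        · have hi0 : i = 0 := Fin.ext hi
          subst hi0
          right
          exact ⟨rfl, h.gl_spine0⟩
        · left
          rw [h.gl_spine i hi]
          exact h.rng _
      · left
        by_cases hi : i.1 + 1 < dl j
        · rw [h.gl_path j i hi]
          exact h.rng _
        · rw [h.gl_path_end j i hi]
          exact h.rng _
    · push Not at hex
      left
      rw [h.gl_M hx hex]
      exact (mem_WW.1 h.w2).2.1 x hx

theorem GD.R_below {x : V} (hx : x ∈ R) : x ∈ below (gl L dl att Z R z u φ f1 f2 f3) u := by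
  obtain ⟨m, hm⟩ := (mem_WW.1 h.w3).2.2 x hx
  rw [Finset.mem_singleton] at hm
  have key : ∀ m, (gl L dl att Z R z u φ f1 f2 f3)^[m] x = f3^[m] x ∧ f3^[m] x ∈ R := by
    intro m
    induction m with
    | zero => exact ⟨rfl, hx⟩
    | succ m ih =>
      rw [Function.iterate_succ_apply', Function.iterate_succ_apply', ih.1, h.gl_R ih.2]
      exact ⟨rfl, (mem_WW.1 h.w3).2.1 _ ih.2⟩
  exact ⟨m, by rw [(key m).1, hm]⟩

theorem GD.spine_below (i : ℕ) (hi : i < L + 1) :
    φ (Sum.inl ⟨i, hi⟩) ∈ below (gl L dl att Z R z u φ f1 f2 f3) (φ (Sum.inl 0)) := by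
  induction i with
  | zero => exact FringeAux.self_mem_below _ _
  | succ i ih =>
    apply FringeAux.mem_below_of_parent
    rw [h.gl_spine ⟨i + 1, hi⟩ (by simp)]
    exact ih (by omega)

theorem GD.path_below (j : Fin N) (k : ℕ) : ∀ i : Fin (dl j), dl j = i.1 + 1 + k →
    φ (Sum.inr ⟨j, i⟩) ∈ below (gl L dl att Z R z u φ f1 f2 f3) (φ (Sum.inl 0)) := by
  induction k with
  | zero =>
    intro i hi
    apply FringeAux.mem_below_of_parent
    rw [h.gl_path_end j i (by omega)]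
    exact h.spine_below _ _
  | succ k ih =>
    intro i hi
    apply FringeAux.mem_below_of_parent
    rw [h.gl_path j i (by omega)]
    exact ih _ (by simp only; omega)

theorem GD.phi_below (i : Ix L dl) :
    φ i ∈ below (gl L dl att Z R z u φ f1 f2 f3) (φ (Sum.inl 0)) := by
  rcases i with i | ⟨j, i⟩
  · exact h.spine_below i.1 i.2
  · exact h.path_below j (dl j - (i.1 + 1)) i (by have := i.2; omega)

theorem GD.M_below {x : V} (hx : x ∈ M) :
    x ∈ below (gl L dl att Z R z u φ f1 f2 f3) (φ (Sum.inl 0)) := by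
  classical
  have hex := (mem_WW.1 h.w2).2.2 x hx
  have hspec := Nat.find_spec hex
  have hmin : ∀ i < Nat.find hex, f2^[i] x ∉ Finset.univ.image φ := fun i hi => Nat.find_min hex hi
  set m := Nat.find hex with hm
  clear_value m
  rw [Finset.mem_image] at hspec
  obtain ⟨i, _, hi⟩ := hspec
  have hMit : ∀ k, f2^[k] x ∈ M := by
    intro k
    induction k with
    | zero => exact hx
    | succ k ih =>
      rw [Function.iterate_succ_apply']
      exact (mem_WW.1 h.w2).2.1 _ ih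
  have key : ∀ k ≤ m, (gl L dl att Z R z u φ f1 f2 f3)^[k] x = f2^[k] x := by
    intro k
    induction k with
    | zero => intro _; rfl
    | succ k ih =>
      intro hk
      rw [Function.iterate_succ_apply', Function.iterate_succ_apply', ih (by omega)]
      apply h.gl_M (hMit k)
      intro i' hi'
      exact hmin k (by omega) (Finset.mem_image.2 ⟨i', Finset.mem_univ _, hi'⟩)
  have h1 : x ∈ below (gl L dl att Z R z u φ f1 f2 f3) (φ i) := ⟨m, by rw [key m le_rfl, hi]⟩
  exact below_trans h1 (h.phi_below i)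

theorem GD.Z_below {x : V} (hx : x ∈ Z) :
    x ∈ below (gl L dl att Z R z u φ f1 f2 f3) z := by
  classical
  have hex := (mem_WW.1 h.w1).2.2 x hx
  have hspec := Nat.find_spec hex
  have hmin : ∀ i < Nat.find hex, f1^[i] x ∉ ({z} : Finset V) := fun i hi => Nat.find_min hex hi
  set m := Nat.find hex with hm
  clear_value m
  rw [Finset.mem_singleton] at hspec
  have hZit : ∀ k, f1^[k] x ∈ Z := by
    intro k
    induction k with
    | zero => exact hx
    | succ k ih =>
      rw [Function.iterate_succ_apply']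
      exact (mem_WW.1 h.w1).2.1 _ ih
  have key : ∀ k ≤ m, (gl L dl att Z R z u φ f1 f2 f3)^[k] x = f1^[k] x := by
    intro k
    induction k with
    | zero => intro _; rfl
    | succ k ih =>
      intro hk
      rw [Function.iterate_succ_apply', Function.iterate_succ_apply', ih (by omega)]
      apply h.gl_Z (hZit k)
      intro he
      exact hmin k (by omega) (by rw [he]; exact Finset.mem_singleton_self z)
  exact ⟨m, by rw [key m le_rfl, hspec]⟩

theorem GD.z_below : z ∈ below (gl L dl att Z R z u φ f1 f2 f3) (φ (Sum.inl 0)) := by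
  apply FringeAux.mem_below_of_parent
  rw [h.gl_z]
  exact h.spine_below L (Nat.lt_succ_self L)

theorem GD.below_z : below (gl L dl att Z R z u φ f1 f2 f3) z = (Z : Set V) := by
  ext x
  constructor
  · rintro ⟨m, hm⟩
    by_contra hx
    have key : ∀ m, (gl L dl att Z R z u φ f1 f2 f3)^[m] x ∉ Z := by
      intro m
      induction m with
      | zero => exact hx
      | succ m ih =>
        rw [Function.iterate_succ_apply']
        set w := (gl L dl att Z R z u φ f1 f2 f3)^[m] x with hw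
        obtain ⟨_, c2, c3, c4⟩ := h.gl_cases w
        by_cases hD : w ∈ D
        · rcases (h.hD w).1 hD with h1 | h1 | h1
          · exact absurd h1 ih
          · intro h2
            exact h.ZR _ h2 (c2 h1)
          · rcases c3 h1 with h2 | ⟨_, h2⟩
            · intro h3
              exact h.ZM _ h3 h2
            · rw [h2]
              intro h3
              exact h.ZR _ h3 h.uR
        · rw [c4 hD]
          exact ih
    have h5 := key m
    rw [hm] at h5
    exact h5 h.zZ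
  · intro hx
    exact h.Z_below hx

theorem GD.below_0 : below (gl L dl att Z R z u φ f1 f2 f3) (φ (Sum.inl 0)) =
    ((Z ∪ M : Finset V) : Set V) := by
  ext x
  constructor
  · rintro ⟨m, hm⟩
    by_contra hx
    rw [Finset.mem_coe, Finset.mem_union, not_or] at hx
    have key : ∀ m, (gl L dl att Z R z u φ f1 f2 f3)^[m] x ∉ Z ∧
        (gl L dl att Z R z u φ f1 f2 f3)^[m] x ∉ M := by
      intro m
      induction m with
      | zero => exact hx
      | succ m ih =>
        rw [Function.iterate_succ_apply']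
        set w := (gl L dl att Z R z u φ f1 f2 f3)^[m] x with hw
        obtain ⟨_, c2, c3, c4⟩ := h.gl_cases w
        by_cases hD : w ∈ D
        · rcases (h.hD w).1 hD with h1 | h1 | h1
          · exact absurd h1 ih.1
          · exact ⟨fun h2 => h.ZR _ h2 (c2 h1), fun h2 => h.RM _ (c2 h1) h2⟩
          · exact absurd h1 ih.2
        · rw [c4 hD]
          exact ih
    have h5 := (key m).2
    rw [hm] at h5
    exact h5 (h.rng _)
  · intro hx
    rw [Finset.mem_coe, Finset.mem_union] at hx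
    rcases hx with hx | hx
    · exact below_trans (h.Z_below hx) h.z_below
    · exact h.M_below hx

theorem GD.z_iter (i : ℕ) (hi : i ≤ L) :
    (gl L dl att Z R z u φ f1 f2 f3)^[i + 1] z = φ (Sum.inl ⟨L - i, by omega⟩) := by
  induction i with
  | zero =>
    rw [Function.iterate_one, h.gl_z]
    rfl
  | succ i ih =>
    rw [Function.iterate_succ_apply', ih (by omega), h.gl_spine _ (by simp only; omega)]
    congr 2

theorem GD.sv_eq (i : ℕ) (hi : i < L + 1) :
    sv (gl L dl att Z R z u φ f1 f2 f3) z L i = φ (Sum.inl ⟨i, hi⟩) := by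
  unfold sv
  have h1 : L + 1 - i = (L - i) + 1 := by omega
  rw [h1, h.z_iter (L - i) (by omega)]
  congr 3
  omega

theorem GD.sv_last : sv (gl L dl att Z R z u φ f1 f2 f3) z L (L + 1) = z := by
  unfold sv
  rw [Nat.sub_self]
  rfl

theorem GD.path_iter (j : Fin N) (i : ℕ) (hi : i < dl j) :
    (gl L dl att Z R z u φ f1 f2 f3)^[i] (φ (Sum.inr ⟨j, ⟨0, by omega⟩⟩)) =
      φ (Sum.inr ⟨j, ⟨i, hi⟩⟩) := by
  induction i with
  | zero => rfl
  | succ i ih =>
    rw [Function.iterate_succ_apply', ih (by omega), h.gl_path j ⟨i, by omega⟩ hi]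

theorem GD.path_last (j : Fin N) (hj : 1 ≤ dl j) (ha : att j ≤ L) :
    (gl L dl att Z R z u φ f1 f2 f3)^[dl j] (φ (Sum.inr ⟨j, ⟨0, hj⟩⟩)) =
      φ (Sum.inl ⟨att j, by omega⟩) := by
  have h1 : dl j = (dl j - 1) + 1 := by omega
  have h2 : (gl L dl att Z R z u φ f1 f2 f3)^[dl j - 1 + 1] (φ (Sum.inr ⟨j, ⟨0, hj⟩⟩)) =
      φ (Sum.inl ⟨att j, by omega⟩) := by
    rw [Function.iterate_succ_apply', h.path_iter j (dl j - 1) (by omega),
      h.gl_path_end j _ (by simp only; omega)]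
    congr 3
    omega
  rw [← h1] at h2
  exact h2

end

/-- the glued tree is a marked tree -/
theorem GD.mg {P : Pattern} {ℓ A : ℕ} {dl att : Fin P.N → ℕ} {φ : Ix (Ls P.N ℓ) dl → V}
    (h : GD (Ls P.N ℓ) dl att D Z R M z u φ f1 f2 f3)
    (hlo : 16 * A ≤ D.card) (hhi : D.card < 20 * A) (hZ : 12 * A ≤ Z.card)
    (hZM : Z.card + M.card < 16 * A)
    (hatt : ∀ j : Fin P.N, att j ∈ blk ℓ (ba P.N (P.lam (j.1 + 1)) (j.1 + 1)))
    (hdl : ∀ j, 1 ≤ dl j ∧ dl j ≤ ℓ) :
    MG P ℓ A D u (gl (Ls P.N ℓ) dl att Z R z u φ f1 f2 f3) z att dl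
      (fun j => φ (Sum.inr ⟨j, ⟨0, (hdl j).1⟩⟩)) := by
  have hattL : ∀ j, att j ≤ Ls P.N ℓ := fun j =>
    blk_le (hatt j) (ba_le (P.le _) (by omega) (by have := j.2; omega))
  have hZD : ∀ x ∈ Z, x ∈ D := fun x hx => (h.hD x).2 (Or.inl hx)
  have hRD : ∀ x ∈ R, x ∈ D := fun x hx => (h.hD x).2 (Or.inr (Or.inl hx))
  have hMD : ∀ x ∈ M, x ∈ D := fun x hx => (h.hD x).2 (Or.inr (Or.inr hx))
  have h0 := h.gl_spine0
  have h0u : φ (Sum.inl 0) ≠ u := fun he => (h.phi_ne (Sum.inl 0)).2 (he ▸ h.uR)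
  have h0b : φ (Sum.inl 0) ∈ below (gl (Ls P.N ℓ) dl att Z R z u φ f1 f2 f3) u := ⟨1, h0⟩
  have hit : (gl (Ls P.N ℓ) dl att Z R z u φ f1 f2 f3)^[Ls P.N ℓ + 1] z = φ (Sum.inl 0) := by
    have h1 := h.z_iter (Ls P.N ℓ) le_rfl
    rw [h1]
    congr 2
    apply Fin.ext
    simp
  refine ⟨hRD u h.uR, h.gl_u, ?_, ?_, fun x hx => h.gl_out hx, hZD z h.zZ, ?_, ?_, hlo, hhi, ?_, ?_,
    hatt, hdl, ?_, ?_, ?_⟩
  · intro x hx
    obtain ⟨c1, c2, c3, _⟩ := h.gl_cases x
    rcases (h.hD x).1 hx with h1 | h1 | h1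
    · by_cases hz : x = z
      · rw [hz, h.gl_z]
        exact hMD _ (h.rng _)
      · exact hZD _ (c1 h1 hz)
    · exact hRD _ (c2 h1)
    · rcases c3 h1 with h2 | ⟨_, h2⟩
      · exact hMD _ h2
      · rw [h2]
        exact hRD _ h.uR
  · intro x hx
    rcases (h.hD x).1 hx with h1 | h1 | h1
    · exact below_trans (below_trans (h.Z_below h1) h.z_below) h0b
    · exact h.R_below h1
    · exact below_trans (h.M_below h1) h0b
  · rw [hit]
    exact h0u
  · rw [Function.iterate_succ_apply' _ (Ls P.N ℓ + 1) z, hit, h0]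
  · rw [hit]
    unfold sz
    rw [h.below_0, Set.ncard_coe_finset, Finset.card_union_of_disjoint]
    · exact hZM
    · rw [Finset.disjoint_left]
      exact h.ZM
  · unfold sz
    rw [h.below_z, Set.ncard_coe_finset]
    exact hZ
  · intro j
    exact hMD _ (h.rng _)
  · intro j
    rw [h.path_last j (hdl j).1 (hattL j), h.sv_eq (att j) (by have := hattL j; omega)]
  · intro j i hi k hk
    rw [h.path_iter j i hi]
    by_cases hk' : k < Ls P.N ℓ + 1
    · rw [h.sv_eq k hk']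
      intro he
      have := h.inj he
      simp at this
    · have : k = Ls P.N ℓ + 1 := by omega
      rw [this, h.sv_last]
      intro he
      exact (h.phi_ne (Sum.inr ⟨j, ⟨i, hi⟩⟩)).1 (he ▸ h.zZ)

/-- the data of a gluing are determined by the glued marked tree -/
theorem GD.unique {Z' R' M' : Finset V} {z' u' : V} {φ' : Ix L dl → V} {f1' f2' f3' : V → V}
    (h : GD L dl att D Z R M z u φ f1 f2 f3) (h' : GD L dl att D Z' R' M' z' u' φ' f1' f2' f3')
    (hdl : ∀ j, 1 ≤ dl j)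
    (hg : gl L dl att Z R z u φ f1 f2 f3 = gl L dl att Z' R' z' u' φ' f1' f2' f3')
    (hz : z = z') (hu : u = u')
    (hy : ∀ j, φ (Sum.inr ⟨j, ⟨0, hdl j⟩⟩) = φ' (Sum.inr ⟨j, ⟨0, hdl j⟩⟩)) :
    Z = Z' ∧ R = R' ∧ φ = φ' ∧ f1 = f1' ∧ f2 = f2' ∧ f3 = f3' := by
  subst hz
  subst hu
  have hφ : φ = φ' := by
    funext i
    rcases i with i | ⟨j, i⟩
    · have h1 := h.sv_eq i.1 i.2
      have h2 := h'.sv_eq i.1 i.2
      rw [← hg, h1] at h2
      exact h2
    · have h1 := h.path_iter j i.1 i.2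
      have h2 := h'.path_iter j i.1 i.2
      rw [← hg, ← hy j, h1] at h2
      exact h2
  subst hφ
  have hZ : Z = Z' := by
    apply Finset.coe_injective
    rw [← h.below_z, ← h'.below_z, hg]
  subst hZ
  have hZM : Z ∪ M = Z ∪ M' := by
    apply Finset.coe_injective
    rw [← h.below_0, ← h'.below_0, hg]
  have hM : M = M' := by
    ext x
    constructor
    · intro hx
      have h1 : x ∈ Z ∪ M' := hZM ▸ Finset.mem_union_right _ hx
      rcases Finset.mem_union.1 h1 with h2 | h2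
      · exact absurd hx (h.ZM x h2)
      · exact h2
    · intro hx
      have h1 : x ∈ Z ∪ M := hZM ▸ Finset.mem_union_right _ hx
      rcases Finset.mem_union.1 h1 with h2 | h2
      · exact absurd hx (h'.ZM x h2)
      · exact h2
  subst hM
  have hR : R = R' := by
    ext x
    constructor
    · intro hx
      have h1 := (h'.hD x).1 ((h.hD x).2 (Or.inr (Or.inl hx)))
      rcases h1 with h2 | h2 | h2
      · exact absurd hx (h.ZR x h2)
      · exact h2
      · exact absurd h2 (h.RM x hx)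
    · intro hx
      have h1 := (h.hD x).1 ((h'.hD x).2 (Or.inr (Or.inl hx)))
      rcases h1 with h2 | h2 | h2
      · exact absurd hx (h'.ZR x h2)
      · exact h2
      · exact absurd h2 (h'.RM x hx)
  subst hR
  refine ⟨rfl, rfl, rfl, ?_, ?_, ?_⟩
  · funext x
    by_cases hx : x ∈ Z ∧ x ≠ z
    · have h1 := h.gl_Z hx.1 hx.2
      have h2 := h'.gl_Z hx.1 hx.2
      rw [← hg, h1] at h2
      exact h2
    · have hx' : x ∉ Z ∨ x ∈ ({z} : Finset V) := by
        rw [Finset.mem_singleton]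
        by_contra hcon
        push Not at hcon
        exact hx hcon
      exact ((mem_WW.1 h.w1).1 x hx').trans ((mem_WW.1 h'.w1).1 x hx').symm
  · funext x
    by_cases hx : x ∈ M ∧ x ∉ Finset.univ.image φ
    · have hne : ∀ i, φ i ≠ x := fun i hi =>
        hx.2 (Finset.mem_image.2 ⟨i, Finset.mem_univ i, hi⟩)
      have h1 := h.gl_M hx.1 hne
      have h2 := h'.gl_M hx.1 hne
      rw [← hg, h1] at h2
      exact h2
    · have hx' : x ∉ M ∨ x ∈ Finset.univ.image φ := by
        by_contra hcon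
        push Not at hcon
        exact hx hcon
      exact ((mem_WW.1 h.w2).1 x hx').trans ((mem_WW.1 h'.w2).1 x hx').symm
  · funext x
    by_cases hx : x ∈ R
    · have h1 := h.gl_R hx
      have h2 := h'.gl_R hx
      rw [← hg, h1] at h2
      exact h2
    · exact ((mem_WW.1 h.w3).1 x (Or.inl hx)).trans ((mem_WW.1 h'.w3).1 x (Or.inl hx)).symm

end Pool.Agent.ZO
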