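import Pool.Agent.ZO.Dec
import Pool.Agent.ZO.Glue

/-! # Zero-one law: counting successful templates -/

set_option autoImplicit false

open scoped BigOperators

namespace Pool.Agent.ZO

open Pool.Agent.WT.Trees (PF)
open Pool.Agent.GX

theorem card_blk (ℓ b : ℕ) : (blk ℓ b).card = ℓ := by
  unfold blk
  rw [Nat.card_Ioc, Nat.succ_mul, Nat.add_sub_cancel_left]

/-- positions of the paths -/
def AttF (P : Pattern) (ℓ : ℕ) : Finset (Fin P.N → ℕ) :=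
  Fintype.piFinset fun j : Fin P.N => blk ℓ (ba P.N (P.lam (j.1 + 1)) (j.1 + 1))

/-- positions of the steps -/
def IdxF (P : Pattern) (ℓ : ℕ) : Finset (Fin P.N → ℕ) :=
  Fintype.piFinset fun j : Fin P.N => blk ℓ (bs P.N (j.1 + 1))

/-- lengths of the paths -/
def DlF (P : Pattern) (ℓ : ℕ) : Finset (Fin P.N → ℕ) :=
  Fintype.piFinset fun _ : Fin P.N => Finset.Icc 1 ℓ

theorem card_AttF (P : Pattern) (ℓ : ℕ) : (AttF P ℓ).card = ℓ ^ P.N := by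
  unfold AttF
  rw [Fintype.card_piFinset]
  simp [card_blk]

theorem card_IdxF (P : Pattern) (ℓ : ℕ) : (IdxF P ℓ).card = ℓ ^ P.N := by
  unfold IdxF
  rw [Fintype.card_piFinset]
  simp [card_blk]

theorem card_DlF (P : Pattern) (ℓ : ℕ) : (DlF P ℓ).card = ℓ ^ P.N := by
  unfold DlF
  rw [Fintype.card_piFinset]
  simp

theorem mem_AttF {P : Pattern} {ℓ : ℕ} {att : Fin P.N → ℕ} :
    att ∈ AttF P ℓ ↔ ∀ j : Fin P.N, att j ∈ blk ℓ (ba P.N (P.lam (j.1 + 1)) (j.1 + 1)) := by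
  unfold AttF
  rw [Fintype.mem_piFinset]

theorem mem_IdxF {P : Pattern} {ℓ : ℕ} {idx : Fin P.N → ℕ} :
    idx ∈ IdxF P ℓ ↔ ∀ j : Fin P.N, idx j ∈ blk ℓ (bs P.N (j.1 + 1)) := by
  unfold IdxF
  rw [Fintype.mem_piFinset]

theorem mem_DlF {P : Pattern} {ℓ : ℕ} {dl : Fin P.N → ℕ} :
    dl ∈ DlF P ℓ ↔ ∀ j : Fin P.N, 1 ≤ dl j ∧ dl j ≤ ℓ := by
  unfold DlF
  rw [Fintype.mem_piFinset]
  simp only [Finset.mem_Icc]

variable {V : Type} [Fintype V] [DecidableEq V] {P : Pattern} {ℓ A : ℕ} {r : V}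

open Classical in
/-- the marked trees on `D` with given positions and lengths -/
noncomputable def MM (P : Pattern) (ℓ A : ℕ) (D : Finset V) (att dl : Fin P.N → ℕ) :
    Finset (V × (V → V) × V × (Fin P.N → V)) :=
  Finset.univ.filter fun t => MG P ℓ A D t.1 t.2.1 t.2.2.1 att dl t.2.2.2

theorem mem_MM {D : Finset V} {att dl : Fin P.N → ℕ} {t : V × (V → V) × V × (Fin P.N → V)} :
    t ∈ MM P ℓ A D att dl ↔ MG P ℓ A D t.1 t.2.1 t.2.2.1 att dl t.2.2.2 := by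
  classical
  unfold MM
  rw [Finset.mem_filter]
  exact and_iff_right (Finset.mem_univ _)

/-- all data of a successful template -/
noncomputable def SS (P : Pattern) (ℓ A : ℕ) (r : V) (D : Finset V) :
    Finset (Σ _ : (Σ _ : (Fin P.N → ℕ) × (Fin P.N → ℕ), (V × (V → V) × V × (Fin P.N → V)) ×
      (Fin P.N → ℕ)), (V → Bool × V)) :=
  ((AttF P ℓ ×ˢ DlF P ℓ).sigma fun ad => MM P ℓ A D ad.1 ad.2 ×ˢ IdxF P ℓ).sigma fun q =>
    Dec r P ℓ D q.2.1.1 q.2.1.2.1 q.2.1.2.2.1 q.1.2 q.2.1.2.2.2 q.2.2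

theorem card_SS_le (D : Finset V) (hr : r ∉ D) :
    (SS P ℓ A r D).card ≤ ((TT P ℓ A r).filter fun τ => τ.D = D).card := by
  classical
  refine Finset.card_le_card_of_injOn (fun q => (⟨D, q.1.2.1.1, q.1.2.1.2.1, q.2⟩ :
    Tm V (Bool × V))) ?_ ?_
  · rintro ⟨⟨⟨att, dl⟩, ⟨⟨u, g, z, y⟩, idx⟩⟩, d⟩ hq
    unfold SS at hq
    rw [Finset.mem_coe, Finset.mem_sigma, Finset.mem_sigma, Finset.mem_product,
      Finset.mem_product] at hq
    obtain ⟨⟨⟨_, _⟩, ⟨h3, h4⟩⟩, h5⟩ := hq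
    rw [Finset.mem_coe, Finset.mem_filter]
    exact ⟨dec_mem (mem_MM.1 h3) hr (mem_IdxF.1 h4) h5, rfl⟩
  · rintro ⟨⟨⟨att, dl⟩, ⟨⟨u, g, z, y⟩, idx⟩⟩, d⟩ hq ⟨⟨⟨att', dl'⟩, ⟨⟨u', g', z', y'⟩, idx'⟩⟩, d'⟩
      hq' he
    unfold SS at hq hq'
    rw [Finset.mem_coe, Finset.mem_sigma, Finset.mem_sigma, Finset.mem_product,
      Finset.mem_product] at hq hq'
    obtain ⟨⟨⟨_, _⟩, ⟨h3, h4⟩⟩, h5⟩ := hq
    obtain ⟨⟨⟨_, _⟩, ⟨h3', h4'⟩⟩, h5'⟩ := hq'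
    have m3 : MG P ℓ A D u g z att dl y := mem_MM.1 h3
    have m3' : MG P ℓ A D u' g' z' att' dl' y' := mem_MM.1 h3'
    have m4 := mem_IdxF.1 h4
    have m4' := mem_IdxF.1 h4'
    have m5 : d ∈ Dec r P ℓ D u g z dl y idx := h5
    have m5' : d' ∈ Dec r P ℓ D u' g' z' dl' y' idx' := h5'
    clear h3 h3' h4 h4' h5 h5'
    have e1 : u = u' := congrArg Tm.u he
    have e2 : g = g' := congrArg Tm.g he
    have e3 : d = d' := congrArg Tm.d he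
    clear he
    subst e1
    subst e2
    subst e3
    obtain ⟨e4, e5, e6, e7, e8⟩ := dec_inj m3 m3' m4 m4' m5 m5'
    subst e4
    subst e5
    subst e6
    subst e7
    subst e8
    rfl

theorem count1 (D : Finset V) (hr : r ∉ D)
    (hsm : 2 * (D.card * (Ls P.N ℓ + 1 + P.N * ℓ)) ≤ Fintype.card V) :
    (∑ att ∈ AttF P ℓ, ∑ dl ∈ DlF P ℓ, ((MM P ℓ A D att dl).card : ℝ)) * (ℓ : ℝ) ^ P.N *
        (2 * (Fintype.card V : ℝ)) ^ (D.card - 1) ≤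
      (Tn P ℓ A r D.card : ℝ) * (2 * (2 * (Fintype.card V : ℝ)) ^ P.N) := by
  classical
  have h1 : ((SS P ℓ A r D).card : ℝ) ≤ (Tn P ℓ A r D.card : ℝ) := by
    rw [← fiber_eq D hr]
    exact_mod_cast card_SS_le D hr
  have h2 : (2 * (2 * (Fintype.card V : ℝ)) ^ P.N) * ((SS P ℓ A r D).card : ℝ) =
      ∑ q ∈ ((AttF P ℓ ×ˢ DlF P ℓ).sigma fun ad => MM P ℓ A D ad.1 ad.2 ×ˢ IdxF P ℓ),
        ((Dec r P ℓ D q.2.1.1 q.2.1.2.1 q.2.1.2.2.1 q.1.2 q.2.1.2.2.2 q.2.2).card : ℝ) *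
          (2 * (2 * (Fintype.card V : ℝ)) ^ P.N) := by
    unfold SS
    rw [Finset.card_sigma, Nat.cast_sum, Finset.mul_sum]
    exact Finset.sum_congr rfl fun q _ => mul_comm _ _
  have h3 : ∑ q ∈ ((AttF P ℓ ×ˢ DlF P ℓ).sigma fun ad => MM P ℓ A D ad.1 ad.2 ×ˢ IdxF P ℓ),
      (2 * (Fintype.card V : ℝ)) ^ (D.card - 1) ≤
      (2 * (2 * (Fintype.card V : ℝ)) ^ P.N) * ((SS P ℓ A r D).card : ℝ) := by
    rw [h2]
    apply Finset.sum_le_sum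
    rintro ⟨⟨att, dl⟩, ⟨⟨u, g, z, y⟩, idx⟩⟩ hq
    rw [Finset.mem_sigma, Finset.mem_product, Finset.mem_product] at hq
    exact dec_card (mem_MM.1 hq.2.1) r idx (mem_IdxF.1 hq.2.2) hsm
  rw [Finset.sum_const, Finset.card_sigma, Finset.sum_product, nsmul_eq_mul] at h3
  simp only [Finset.card_product, card_IdxF] at h3
  push_cast at h3
  simp only [← Finset.sum_mul] at h3
  calc _ ≤ (2 * (2 * (Fintype.card V : ℝ)) ^ P.N) * ((SS P ℓ A r D).card : ℝ) := h3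
    _ ≤ (2 * (2 * (Fintype.card V : ℝ)) ^ P.N) * (Tn P ℓ A r D.card : ℝ) :=
      mul_le_mul_of_nonneg_left h1 (by positivity)
    _ = _ := mul_comm _ _

end Pool.Agent.ZO
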