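import Pool.Agent.GX.Attach
import Pool.Agent.GX.Fringe

/-! # Zero-one law: templates in decorated trees and the numbers of decorated trees that match one or
two of them -/

set_option autoImplicit false

open scoped BigOperators

namespace Pool.Agent.ZO

open Pool.Agent.WT.Trees (PF)
open Pool.Agent.GX

/-- a template: a set `D` of vertices with a top `u`, parents `g` and decorations `d` of the vertices
of `D` other than `u` -/
structure Tm (V C : Type) where
  D : Finset V
  u : V
  g : V → V
  d : V → C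

/-- well formed templates -/
structure Tm.Wf {V C : Type} (r : V) (c₀ : C) (τ : Tm V C) : Prop where
  root : r ∉ τ.D
  top : τ.u ∈ τ.D
  gtop : τ.g τ.u = τ.u
  inD : ∀ x ∈ τ.D, τ.g x ∈ τ.D
  reach : ∀ x ∈ τ.D, ∃ m, τ.g^[m] x = τ.u
  gout : ∀ x, x ∉ τ.D → τ.g x = x
  dout : ∀ x, (x ∉ τ.D ∨ x = τ.u) → τ.d x = c₀

/-- the decorated tree `ω = (p, d)` with root `r` matches the template `τ` -/
def Tm.Mt {V C : Type} (r : V) (τ : Tm V C) (ω : (V → V) × (V → C)) : Prop :=
  ω.1 ∈ PF r ∧ below ω.1 τ.u = (τ.D : Set V) ∧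
    ∀ x ∈ τ.D, x ≠ τ.u → ω.1 x = τ.g x ∧ ω.2 x = τ.d x

variable {V C : Type}

theorem below_iff' {r : V} {p : V → V} (hp : p ∈ PF r) {D : Finset V} {u : V} {g : V → V}
    (hr : r ∉ D) (hu : u ∈ D) (hin : ∀ x ∈ D, g x ∈ D) (hreach : ∀ x ∈ D, ∃ m, g^[m] x = u)
    (hg : ∀ x ∈ D, x ≠ u → p x = g x) :
    below p u = (D : Set V) ↔ (p u ∉ D ∧ ∀ x, x ∉ D → p x ∉ D) := by
  classical
  have hur : u ≠ r := fun h => hr (h ▸ hu)
  constructor
  · intro hb
    constructor
    · intro h
      have h' : p u ∈ below p u := by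
        rw [hb]
        exact h
      exact FringeAux.top_notMem_below hp hur h'
    · intro x hx h
      apply hx
      have h' : p x ∈ below p u := by
        rw [hb]
        exact h
      have h2 := FringeAux.mem_below_of_parent h'
      rw [hb] at h2
      exact h2
  · rintro ⟨_, hc⟩
    ext x
    constructor
    · rintro ⟨m, hm⟩
      by_contra hx
      have key : ∀ m, p^[m] x ∉ D := by
        intro m
        induction m with
        | zero => exact hx
        | succ m ih =>
          rw [Function.iterate_succ_apply']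
          exact hc _ ih
      exact key m (hm ▸ hu)
    · intro hx
      have hx' : x ∈ D := hx
      refine ⟨Nat.find (hreach x hx'), ?_⟩
      have hm := Nat.find_spec (hreach x hx')
      have hin' : ∀ j, g^[j] x ∈ D := by
        intro j
        induction j with
        | zero => exact hx'
        | succ j ih =>
          rw [Function.iterate_succ_apply']
          exact hin _ ih
      have h3 := AttachAux.iter_in (S := D) (tops := {u}) (p := p) (q := g)
        (fun y hy hy' => hg y hy (fun h => hy' (by rw [h]; exact Finset.mem_singleton_self u))) x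
        (Nat.find (hreach x hx'))
        (fun j hj => ⟨hin' j, by
          rw [Finset.mem_singleton]
          exact Nat.find_min (hreach x hx') hj⟩)
      rw [h3, hm]

/-- decorations prescribed on a set -/
theorem card_deco [Fintype V] [Fintype C] (A : Finset V) (d : V → C) :
    {d' : V → C | ∀ x ∈ A, d' x = d x}.ncard =
      Fintype.card C ^ (Fintype.card V - A.card) := by
  classical
  have h : {d' : V → C | ∀ x ∈ A, d' x = d x} =
      ((Fintype.piFinset fun x => if x ∈ A then {d x} else Finset.univ : Finset (V → C)) :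
        Set (V → C)) := by
    ext d'
    simp only [Set.mem_setOf_eq, Finset.mem_coe, Fintype.mem_piFinset]
    refine forall_congr' fun x => ?_
    by_cases hx : x ∈ A
    · simp [hx]
    · simp [hx]
  rw [h, Set.ncard_coe_finset, Fintype.card_piFinset]
  have h2 : ∀ x ∈ (Finset.univ : Finset V), (if x ∈ A then ({d x} : Finset C) else Finset.univ).card =
      if x ∈ A then 1 else Fintype.card C := by
    intro x _
    by_cases hx : x ∈ A
    · simp [hx]
    · simp [hx]
  rw [Finset.prod_congr rfl h2, Finset.prod_ite, Finset.prod_const_one, one_mul, Finset.prod_const]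
  congr 1
  have h3 : (Finset.univ.filter fun x => x ∉ A) = Aᶜ := by
    ext x
    simp
  rw [h3, Finset.card_compl]

/-- the number of decorated trees that match a template -/
theorem card_one [Fintype V] [Fintype C] {r : V} {c₀ : C} {τ : Tm V C} (hτ : τ.Wf r c₀) :
    {ω : (V → V) × (V → C) | τ.Mt r ω}.ncard =
      (Fintype.card V - τ.D.card) ^ (Fintype.card V - τ.D.card - 2) *
        (Fintype.card V - τ.D.card) * Fintype.card C ^ (Fintype.card V - (τ.D.card - 1)) := by
  classical
  have h : {ω : (V → V) × (V → C) | τ.Mt r ω} =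
      {p : V → V | p ∈ PF r ∧ (∀ x ∈ τ.D, x ∉ ({τ.u} : Finset V) → p x = τ.g x) ∧
        (∀ x ∈ ({τ.u} : Finset V), p x ∉ τ.D) ∧ (∀ x, x ∉ τ.D → p x ∉ τ.D)} ×ˢ
      {d' : V → C | ∀ x ∈ τ.D.erase τ.u, d' x = τ.d x} := by
    ext ω
    constructor
    · rintro ⟨hp, hb, hx⟩
      have h1 := (below_iff' hp hτ.root hτ.top hτ.inD hτ.reach fun x hD hu => (hx x hD hu).1).1 hb
      refine ⟨⟨hp, fun x hD hu => (hx x hD fun h => hu (by simp [h])).1, ?_, h1.2⟩, ?_⟩
      · intro x hx'
        rw [Finset.mem_singleton] at hx'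
        rw [hx']
        exact h1.1
      · intro x hx'
        rw [Finset.mem_erase] at hx'
        exact (hx x hx'.2 hx'.1).2
    · rintro ⟨⟨hp, hg, ht, hc⟩, hd⟩
      have hg' : ∀ x ∈ τ.D, x ≠ τ.u → ω.1 x = τ.g x := fun x hD hu => hg x hD (by simpa using hu)
      refine ⟨hp, (below_iff' hp hτ.root hτ.top hτ.inD hτ.reach hg').2
        ⟨ht _ (Finset.mem_singleton_self _), hc⟩, fun x hD hu => ⟨hg' x hD hu, ?_⟩⟩
      exact hd x (Finset.mem_erase.2 ⟨hu, hD⟩)
  rw [h, Set.ncard_prod, card_deco, Finset.card_erase_of_mem hτ.top,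
    card_attach r τ.D {τ.u} hτ.root (Finset.singleton_subset_iff.2 hτ.top) τ.g
      (fun x hx _ => hτ.inD x hx) ?_, Finset.card_singleton, pow_one]
  intro x hx
  refine ⟨Nat.find (hτ.reach x hx), ?_, fun j hj => ⟨?_, ?_⟩⟩
  · rw [Nat.find_spec (hτ.reach x hx)]
    exact Finset.mem_singleton_self _
  · clear hj
    induction j with
    | zero => exact hx
    | succ j ih =>
      rw [Function.iterate_succ_apply']
      exact hτ.inD _ ih
  · rw [Finset.mem_singleton]
    exact Nat.find_min (hτ.reach x hx) hj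

/-- the number of decorated trees that match two templates with disjoint sets of vertices -/
theorem card_two [Fintype V] [Fintype C] {r : V} {c₀ : C} {τ τ' : Tm V C} (hτ : τ.Wf r c₀)
    (hτ' : τ'.Wf r c₀) (hd : Disjoint τ.D τ'.D) :
    {ω : (V → V) × (V → C) | τ.Mt r ω ∧ τ'.Mt r ω}.ncard =
      (Fintype.card V - (τ.D.card + τ'.D.card)) ^ (Fintype.card V - (τ.D.card + τ'.D.card) - 2) *
        (Fintype.card V - (τ.D.card + τ'.D.card)) ^ 2 *
          Fintype.card C ^ (Fintype.card V - (τ.D.card + τ'.D.card - 2)) := by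
  classical
  have hnot : ∀ x ∈ τ'.D, x ∉ τ.D := fun x hx h => Finset.disjoint_left.1 hd h hx
  have hnot' : ∀ x ∈ τ.D, x ∉ τ'.D := fun x hx h => Finset.disjoint_left.1 hd hx h
  have hne : τ.u ≠ τ'.u := fun h => hnot' _ hτ.top (h ▸ hτ'.top)
  set S : Finset V := τ.D ∪ τ'.D with hS
  set T : Finset V := {τ.u, τ'.u} with hT
  set q : V → V := fun x => if x ∈ τ.D then τ.g x else τ'.g x with hq
  set dd : V → C := fun x => if x ∈ τ.D then τ.d x else τ'.d x with hdd
  have hq1 : ∀ x ∈ τ.D, q x = τ.g x := fun x hx => by rw [hq]; exact if_pos hx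
  have hq2 : ∀ x ∈ τ'.D, q x = τ'.g x := fun x hx => by rw [hq]; exact if_neg (hnot x hx)
  have hcS : S.card = τ.D.card + τ'.D.card := Finset.card_union_of_disjoint hd
  have hcT : T.card = 2 := Finset.card_pair hne
  have hTS : T ⊆ S := by
    intro x hx
    rw [hT, Finset.mem_insert, Finset.mem_singleton] at hx
    rw [hS, Finset.mem_union]
    rcases hx with rfl | rfl
    · exact Or.inl hτ.top
    · exact Or.inr hτ'.top
  have hrS : r ∉ S := by
    rw [hS, Finset.mem_union]
    exact fun h => h.elim hτ.root hτ'.root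
  have h : {ω : (V → V) × (V → C) | τ.Mt r ω ∧ τ'.Mt r ω} =
      {p : V → V | p ∈ PF r ∧ (∀ x ∈ S, x ∉ T → p x = q x) ∧
        (∀ x ∈ T, p x ∉ S) ∧ (∀ x, x ∉ S → p x ∉ S)} ×ˢ
      {d' : V → C | ∀ x ∈ S \ T, d' x = dd x} := by
    ext ω
    constructor
    · rintro ⟨⟨hp, hb, hx⟩, _, hb', hx'⟩
      have h1 := (below_iff' hp hτ.root hτ.top hτ.inD hτ.reach fun x hD hu => (hx x hD hu).1).1 hb
      have h2 := (below_iff' hp hτ'.root hτ'.top hτ'.inD hτ'.reach
        fun x hD hu => (hx' x hD hu).1).1 hb'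
      refine ⟨⟨hp, ?_, ?_, ?_⟩, ?_⟩
      · intro x hxS hxT
        rw [hT, Finset.mem_insert, Finset.mem_singleton, not_or] at hxT
        rw [hS, Finset.mem_union] at hxS
        rcases hxS with hxS | hxS
        · rw [hq1 x hxS]
          exact (hx x hxS hxT.1).1
        · rw [hq2 x hxS]
          exact (hx' x hxS hxT.2).1
      · intro x hxT
        rw [hT, Finset.mem_insert, Finset.mem_singleton] at hxT
        rw [hS, Finset.mem_union, not_or]
        rcases hxT with rfl | rfl
        · exact ⟨h1.1, h2.2 _ (hnot' _ hτ.top)⟩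
        · exact ⟨h1.2 _ (hnot _ hτ'.top), h2.1⟩
      · intro x hxS
        rw [hS, Finset.mem_union, not_or] at hxS
        rw [hS, Finset.mem_union, not_or]
        exact ⟨h1.2 x hxS.1, h2.2 x hxS.2⟩
      · intro x hxS
        rw [Finset.mem_sdiff, hT, Finset.mem_insert, Finset.mem_singleton, not_or, hS,
          Finset.mem_union] at hxS
        rcases hxS.1 with hD | hD
        · rw [hdd]
          simp only [if_pos hD]
          exact (hx x hD hxS.2.1).2
        · rw [hdd]
          simp only [if_neg (hnot x hD)]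
          exact (hx' x hD hxS.2.2).2
    · rintro ⟨⟨hp, hg, ht, hc⟩, hd'⟩
      have hTu : τ.u ∈ T := by rw [hT]; exact Finset.mem_insert_self _ _
      have hTu' : τ'.u ∈ T := by
        rw [hT]
        exact Finset.mem_insert_of_mem (Finset.mem_singleton_self _)
      have hSD : ∀ x ∈ τ.D, x ∈ S := fun x hx => Finset.mem_union_left _ hx
      have hSD' : ∀ x ∈ τ'.D, x ∈ S := fun x hx => Finset.mem_union_right _ hx
      have hT1 : ∀ x ∈ τ.D, x ≠ τ.u → x ∉ T := by
        intro x hx hxu
        rw [hT, Finset.mem_insert, Finset.mem_singleton, not_or]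
        exact ⟨hxu, fun h => hnot' x hx (h ▸ hτ'.top)⟩
      have hT2 : ∀ x ∈ τ'.D, x ≠ τ'.u → x ∉ T := by
        intro x hx hxu
        rw [hT, Finset.mem_insert, Finset.mem_singleton, not_or]
        exact ⟨fun h => hnot x hx (h ▸ hτ.top), hxu⟩
      have hg1 : ∀ x ∈ τ.D, x ≠ τ.u → ω.1 x = τ.g x := fun x hD hu => by
        rw [hg x (hSD x hD) (hT1 x hD hu), hq1 x hD]
      have hg2 : ∀ x ∈ τ'.D, x ≠ τ'.u → ω.1 x = τ'.g x := fun x hD hu => by
        rw [hg x (hSD' x hD) (hT2 x hD hu), hq2 x hD]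
      have c1 : ω.1 τ.u ∉ τ.D := fun h => ht _ hTu (hSD _ h)
      have c2 : ω.1 τ'.u ∉ τ'.D := fun h => ht _ hTu' (hSD' _ h)
      have c3 : ∀ x, x ∉ τ.D → ω.1 x ∉ τ.D := by
        intro x hx h
        by_cases hx' : x ∈ τ'.D
        · by_cases hxu : x = τ'.u
          · exact ht _ hTu' (hxu ▸ hSD _ h)
          · rw [hg2 x hx' hxu] at h
            exact hnot' _ h (hτ'.inD x hx')
        · exact hc x (fun hS' => (Finset.mem_union.1 hS').elim hx hx') (hSD _ h)
      have c4 : ∀ x, x ∉ τ'.D → ω.1 x ∉ τ'.D := by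
        intro x hx h
        by_cases hx' : x ∈ τ.D
        · by_cases hxu : x = τ.u
          · exact ht _ hTu (hxu ▸ hSD' _ h)
          · rw [hg1 x hx' hxu] at h
            exact hnot _ h (hτ.inD x hx')
        · exact hc x (fun hS' => (Finset.mem_union.1 hS').elim hx' hx) (hSD' _ h)
      refine ⟨⟨hp, (below_iff' hp hτ.root hτ.top hτ.inD hτ.reach hg1).2 ⟨c1, c3⟩,
        fun x hD hu => ⟨hg1 x hD hu, ?_⟩⟩, ⟨hp, (below_iff' hp hτ'.root hτ'.top hτ'.inD hτ'.reach
        hg2).2 ⟨c2, c4⟩, fun x hD hu => ⟨hg2 x hD hu, ?_⟩⟩⟩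
      · rw [hd' x (Finset.mem_sdiff.2 ⟨hSD x hD, hT1 x hD hu⟩), hdd]
        exact if_pos hD
      · rw [hd' x (Finset.mem_sdiff.2 ⟨hSD' x hD, hT2 x hD hu⟩), hdd]
        exact if_neg (hnot x hD)
  have hcST : (S \ T).card = τ.D.card + τ'.D.card - 2 := by
    rw [Finset.card_sdiff_of_subset hTS, hcS, hcT]
  rw [h, Set.ncard_prod, card_deco, hcST, card_attach r S T hrS hTS q ?_ ?_, hcT, hcS]
  · intro x hx _
    rw [hS, Finset.mem_union] at hx
    rw [hS, Finset.mem_union]
    rcases hx with hx | hx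
    · rw [hq1 x hx]
      exact Or.inl (hτ.inD x hx)
    · rw [hq2 x hx]
      exact Or.inr (hτ'.inD x hx)
  · intro x hx
    rw [hS, Finset.mem_union] at hx
    rcases hx with hx | hx
    · have hit : ∀ j, q^[j] x = τ.g^[j] x ∧ τ.g^[j] x ∈ τ.D := by
        intro j
        induction j with
        | zero => exact ⟨rfl, hx⟩
        | succ j ih =>
          rw [Function.iterate_succ_apply', Function.iterate_succ_apply', ih.1, hq1 _ ih.2]
          exact ⟨rfl, hτ.inD _ ih.2⟩
      refine ⟨Nat.find (hτ.reach x hx), ?_, fun j hj => ⟨?_, ?_⟩⟩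
      · rw [(hit _).1, Nat.find_spec (hτ.reach x hx), hT]
        exact Finset.mem_insert_self _ _
      · rw [(hit j).1]
        exact Finset.mem_union_left _ (hit j).2
      · rw [(hit j).1, hT, Finset.mem_insert, Finset.mem_singleton, not_or]
        exact ⟨Nat.find_min (hτ.reach x hx) hj, fun h => hnot' _ (hit j).2 (h ▸ hτ'.top)⟩
    · have hit : ∀ j, q^[j] x = τ'.g^[j] x ∧ τ'.g^[j] x ∈ τ'.D := by
        intro j
        induction j with
        | zero => exact ⟨rfl, hx⟩
        | succ j ih =>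
          rw [Function.iterate_succ_apply', Function.iterate_succ_apply', ih.1, hq2 _ ih.2]
          exact ⟨rfl, hτ'.inD _ ih.2⟩
      refine ⟨Nat.find (hτ'.reach x hx), ?_, fun j hj => ⟨?_, ?_⟩⟩
      · rw [(hit _).1, Nat.find_spec (hτ'.reach x hx), hT]
        exact Finset.mem_insert_of_mem (Finset.mem_singleton_self _)
      · rw [(hit j).1]
        exact Finset.mem_union_right _ (hit j).2
      · rw [(hit j).1, hT, Finset.mem_insert, Finset.mem_singleton, not_or]
        exact ⟨fun h => hnot _ (hit j).2 (h ▸ hτ.top), Nat.find_min (hτ'.reach x hx) hj⟩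

end Pool.Agent.ZO
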