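import Pool.Agent.ZO.Marked

/-! # Zero-one law: the number of successful decorations of a marked tree -/

set_option autoImplicit false

open scoped BigOperators

namespace Pool.Agent.ZO

open Pool.Agent.WT.Trees (PF)
open Pool.Agent.GX

variable {V : Type} [Fintype V] [DecidableEq V] {P : Pattern} {ℓ A : ℕ} {D : Finset V} {u : V}
  {g : V → V} {z : V} {att dl : Fin P.N → ℕ} {y : Fin P.N → V}

/-- the successful decorations -/
def Dec (r : V) (P : Pattern) (ℓ : ℕ) (D : Finset V) (u : V) (g : V → V) (z : V)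
    (dl : Fin P.N → ℕ) (y : Fin P.N → V) (idx : Fin P.N → ℕ) : Finset (V → Bool × V) :=
  Fintype.piFinset (allow r P D u g z (Ls P.N ℓ) dl y idx)

/-- functions on `{1, …, N}` -/
def nat1 {N : ℕ} (f : Fin N → ℕ) (j : ℕ) : ℕ := if h : j - 1 < N then f ⟨j - 1, h⟩ else 0

theorem nat1_eq {N : ℕ} (f : Fin N → ℕ) {j : ℕ} (h1 : 1 ≤ j) (h2 : j ≤ N) :
    ∃ i : Fin N, i.1 + 1 = j ∧ nat1 f j = f i := by
  have h : j - 1 < N := by omega
  exact ⟨⟨j - 1, h⟩, by simp only; omega, by unfold nat1; rw [dif_pos h]⟩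

theorem nat1_fin {N : ℕ} (f : Fin N → ℕ) (i : Fin N) : nat1 f (i.1 + 1) = f i := by
  unfold nat1
  have h : i.1 + 1 - 1 < N := by have := i.2; omega
  rw [dif_pos h]
  rfl

section

variable {r : V} {idx : Fin P.N → ℕ} {d : V → Bool × V}

theorem dec_special (h : MG P ℓ A D u g z att dl y) (hd : d ∈ Dec r P ℓ D u g z dl y idx)
    (j : Fin P.N) : d (sv g z (Ls P.N ℓ) (idx j)) = (P.eps (j.1 + 1), y j) := by
  have h1 := (Fintype.mem_piFinset.1 hd) (sv g z (Ls P.N ℓ) (idx j))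
  unfold allow at h1
  rw [if_neg, Finset.mem_filter] at h1
  · exact h1.2.1 j rfl
  · rintro (h2 | h2)
    · exact h2 (h.svD _)
    · exact h.svu _ h2

theorem dec_static (hd : d ∈ Dec r P ℓ D u g z dl y idx) {x : V} (hx : x ∈ D) (hxu : x ≠ u)
    (hH : x ∈ Hs g z (Ls P.N ℓ) dl y) (hs : ∀ j, x ≠ sv g z (Ls P.N ℓ) (idx j)) :
    (d x).2 ∉ D := by
  have h1 := (Fintype.mem_piFinset.1 hd) x
  unfold allow at h1
  rw [if_neg, Finset.mem_filter] at h1
  · exact h1.2.2 hH hs
  · rintro (h2 | h2)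
    · exact h2 hx
    · exact hxu h2

theorem dec_out (hd : d ∈ Dec r P ℓ D u g z dl y idx) {x : V} (hx : x ∉ D ∨ x = u) :
    d x = (false, r) := by
  have h1 := (Fintype.mem_piFinset.1 hd) x
  unfold allow at h1
  rw [if_pos hx, Finset.mem_singleton] at h1
  exact h1

theorem mem_Hs_sv {N : ℕ} (g : V → V) (z : V) (L : ℕ) (dl : Fin N → ℕ) (y : Fin N → V) {i : ℕ}
    (hi : i ≤ L) : sv g z L i ∈ Hs g z L dl y := by
  unfold Hs
  exact Finset.mem_union_left _ (Finset.mem_image.2 ⟨i, Finset.mem_range.2 (by omega), rfl⟩)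

theorem mem_Hs_path {N : ℕ} (g : V → V) (z : V) (L : ℕ) (dl : Fin N → ℕ) (y : Fin N → V)
    (j : Fin N) {i : ℕ} (hi : i < dl j) : g^[i] (y j) ∈ Hs g z L dl y := by
  unfold Hs
  exact Finset.mem_union_right _ (Finset.mem_biUnion.2 ⟨j, Finset.mem_univ j,
    Finset.mem_image.2 ⟨i, Finset.mem_range.2 hi, rfl⟩⟩)

theorem dec_mem (h : MG P ℓ A D u g z att dl y) (hr : r ∉ D)
    (hidx : ∀ j : Fin P.N, idx j ∈ blk ℓ (bs P.N (j.1 + 1)))
    (hd : d ∈ Dec r P ℓ D u g z dl y idx) : (⟨D, u, g, d⟩ : Tm V (Bool × V)) ∈ TT P ℓ A r := by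
  set L := Ls P.N ℓ with hL
  have hidxL : ∀ j : Fin P.N, idx j ≤ L := fun j =>
    blk_le (hidx j) (bs_le (by omega) (by have := j.2; omega))
  refine mem_TT.2 ⟨⟨hr, h.uD, h.gtop, h.inD, h.reach, h.gout, fun x hx => dec_out hd hx⟩, z,
    nat1 idx, nat1 att, nat1 dl, ?_⟩
  refine ⟨h.zD, h.nu, h.hu, h.cardlo, h.cardhi, h.szq, h.szz, ?_, ?_, ?_, ?_, ?_, ?_, ?_, ?_⟩
  · intro j h1 h2
    obtain ⟨i, rfl, hi⟩ := nat1_eq idx h1 h2
    rw [hi]
    exact hidx i
  · intro j h1 h2
    obtain ⟨i, rfl, hi⟩ := nat1_eq att h1 h2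
    rw [hi]
    exact h.att_mem i
  · intro j h1 h2
    obtain ⟨i, rfl, hi⟩ := nat1_eq dl h1 h2
    rw [hi]
    exact (h.dl_mem i).1
  · intro j h1 h2
    obtain ⟨i, rfl, hi⟩ := nat1_eq idx h1 h2
    rw [hi]
    simp only
    rw [dec_special h hd i]
  · intro j h1 h2
    obtain ⟨i, rfl, hi⟩ := nat1_eq idx h1 h2
    rw [hi]
    simp only
    rw [dec_special h hd i]
    exact h.yD i
  · intro j h1 h2
    obtain ⟨i, rfl, hi⟩ := nat1_eq idx h1 h2
    rw [hi, nat1_fin, nat1_fin]
    simp only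
    rw [dec_special h hd i]
    exact h.path i
  · intro i hi hne
    apply dec_static hd (h.svD i) (h.svu i) (mem_Hs_sv g z L dl y hi)
    intro j he
    have h3 := h.sv_inj (by omega) ((hidxL j).trans (Nat.le_succ _)) he
    apply hne (j.1 + 1) (by omega) (by have := j.2; omega)
    rw [nat1_fin]
    exact h3
  · intro j h1 h2 i hi
    obtain ⟨j', rfl, hj'⟩ := nat1_eq idx h1 h2
    rw [hj']
    rw [nat1_fin] at hi
    simp only
    rw [dec_special h hd j']
    apply dec_static hd (h.it (h.yD j') i) _ (mem_Hs_path g z L dl y j' hi)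
    · intro k he
      exact h.off j' i hi (idx k) ((hidxL k).trans (Nat.le_succ _)) he
    · intro he
      have h3 := fix_iter h.gtop he hi.le
      rw [h.path j'] at h3
      exact h.svu _ h3

theorem dec_inj {z' : V} {att' dl' : Fin P.N → ℕ} {y' : Fin P.N → V} {idx' : Fin P.N → ℕ}
    (h : MG P ℓ A D u g z att dl y) (h' : MG P ℓ A D u g z' att' dl' y')
    (hidx : ∀ j : Fin P.N, idx j ∈ blk ℓ (bs P.N (j.1 + 1)))
    (hidx' : ∀ j : Fin P.N, idx' j ∈ blk ℓ (bs P.N (j.1 + 1)))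
    (hd : d ∈ Dec r P ℓ D u g z dl y idx) (hd' : d ∈ Dec r P ℓ D u g z' dl' y' idx') :
    z = z' ∧ att = att' ∧ dl = dl' ∧ y = y' ∧ idx = idx' := by
  have hz := h.z_unique h'
  subst hz
  set L := Ls P.N ℓ with hL
  have hidxL : ∀ j : Fin P.N, idx j ≤ L := fun j =>
    blk_le (hidx j) (bs_le (by omega) (by have := j.2; omega))
  have hidxL' : ∀ j : Fin P.N, idx' j ≤ L := fun j =>
    blk_le (hidx' j) (bs_le (by omega) (by have := j.2; omega))
  have hi : idx = idx' := by
    funext j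
    by_contra hne
    have h1 : (d (sv g z L (idx j))).2 ∉ D := by
      apply dec_static hd' (h.svD _) (h.svu _) (mem_Hs_sv g z L dl' y' (hidxL j))
      intro k he
      have h3 := h.sv_inj ((hidxL j).trans (Nat.le_succ _)) ((hidxL' k).trans (Nat.le_succ _)) he
      rcases lt_trichotomy j.1 k.1 with h4 | h4 | h4
      · have := blk_lt (hidx j) (hidx' k) (bs_lt (by omega) (by omega))
        omega
      · have h5 : j = k := Fin.ext h4
        exact hne (h5 ▸ h3)
      · have := blk_lt (hidx' k) (hidx j) (bs_lt (by omega) (by omega))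
        omega
    rw [dec_special h hd j] at h1
    exact h1 (h.yD j)
  subst hi
  have hy : y = y' := by
    funext j
    have h1 := dec_special h hd j
    have h2 := dec_special h' hd' j
    rw [h1] at h2
    exact (Prod.mk.inj h2).2
  subst hy
  obtain ⟨h3, h4⟩ := h.att_unique h'
  exact ⟨rfl, h3, h4, rfl, rfl⟩

end

theorem allow_card (r : V) (idx : Fin P.N → ℕ) (x : V) (hx : x ∈ D) (hxu : x ≠ u)
    (hL : ∀ j j', sv g z (Ls P.N ℓ) (idx j) = sv g z (Ls P.N ℓ) (idx j') → j = j') :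
    2 * (Fintype.card V : ℝ) *
      (if x ∈ Finset.univ.image (fun j => sv g z (Ls P.N ℓ) (idx j)) then
        1 / (2 * (Fintype.card V : ℝ)) else 1) *
      (if x ∈ Hs g z (Ls P.N ℓ) dl y then 1 - (D.card : ℝ) / Fintype.card V else 1) ≤
      ((allow r P D u g z (Ls P.N ℓ) dl y idx x).card : ℝ) := by
  classical
  have hn : (0 : ℝ) < Fintype.card V := by exact_mod_cast Fintype.card_pos_iff.2 ⟨x⟩
  have hs : (D.card : ℝ) ≤ Fintype.card V := by exact_mod_cast Finset.card_le_univ D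
  have hq0 : 0 ≤ (D.card : ℝ) / Fintype.card V := by positivity
  have hq1 : (D.card : ℝ) / Fintype.card V ≤ 1 := by rw [div_le_one hn]; exact hs
  have hal : allow r P D u g z (Ls P.N ℓ) dl y idx x = Finset.univ.filter fun c : Bool × V =>
        (∀ j, x = sv g z (Ls P.N ℓ) (idx j) → c = (P.eps (j.1 + 1), y j)) ∧
        (x ∈ Hs g z (Ls P.N ℓ) dl y → (∀ j, x ≠ sv g z (Ls P.N ℓ) (idx j)) → c.2 ∉ D) := by
    unfold allow
    refine if_neg ?_
    rintro (h2 | h2)
    · exact h2 hx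
    · exact hxu h2
  rw [hal]
  by_cases h1 : x ∈ Finset.univ.image (fun j => sv g z (Ls P.N ℓ) (idx j))
  · obtain ⟨j, _, hj⟩ := Finset.mem_image.1 h1
    rw [if_pos h1]
    have h2 : (1 : ℝ) ≤ ((Finset.univ.filter fun c : Bool × V =>
        (∀ j, x = sv g z (Ls P.N ℓ) (idx j) → c = (P.eps (j.1 + 1), y j)) ∧
        (x ∈ Hs g z (Ls P.N ℓ) dl y → (∀ j, x ≠ sv g z (Ls P.N ℓ) (idx j)) → c.2 ∉ D)).card : ℝ) := by
      have : 0 < (Finset.univ.filter fun c : Bool × V =>
        (∀ j, x = sv g z (Ls P.N ℓ) (idx j) → c = (P.eps (j.1 + 1), y j)) ∧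
        (x ∈ Hs g z (Ls P.N ℓ) dl y → (∀ j, x ≠ sv g z (Ls P.N ℓ) (idx j)) → c.2 ∉ D)).card := by
        refine Finset.card_pos.2 ⟨(P.eps (j.1 + 1), y j), ?_⟩
        rw [Finset.mem_filter]
        refine ⟨Finset.mem_univ _, ?_, ?_⟩
        · intro j' hj'
          have h3 := hL j j' (hj.trans hj')
          rw [h3]
        · intro _ h3
          exact absurd hj.symm (h3 j)
      exact_mod_cast this
    refine le_trans ?_ h2
    have h3 : 2 * (Fintype.card V : ℝ) * (1 / (2 * (Fintype.card V : ℝ))) = 1 := by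
      field_simp
    rw [h3, one_mul]
    split_ifs
    · linarith
    · exact le_rfl
  · rw [if_neg h1, mul_one]
    have h1' : ∀ j, x ≠ sv g z (Ls P.N ℓ) (idx j) := fun j hj =>
      h1 (Finset.mem_image.2 ⟨j, Finset.mem_univ j, hj.symm⟩)
    by_cases h2 : x ∈ Hs g z (Ls P.N ℓ) dl y
    · rw [if_pos h2]
      have h3 : (Finset.univ.filter fun c : Bool × V =>
          (∀ j, x = sv g z (Ls P.N ℓ) (idx j) → c = (P.eps (j.1 + 1), y j)) ∧
          (x ∈ Hs g z (Ls P.N ℓ) dl y → (∀ j, x ≠ sv g z (Ls P.N ℓ) (idx j)) → c.2 ∉ D)) =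
          (Finset.univ : Finset Bool) ×ˢ Dᶜ := by
        ext c
        rw [Finset.mem_filter, Finset.mem_product, Finset.mem_compl]
        constructor
        · rintro ⟨_, _, h⟩
          exact ⟨Finset.mem_univ _, h h2 h1'⟩
        · rintro ⟨_, h⟩
          exact ⟨Finset.mem_univ _, fun j hj => absurd hj (h1' j), fun _ _ => h⟩
      rw [h3, Finset.card_product, Finset.card_compl, Finset.card_univ, Fintype.card_bool]
      push_cast [Nat.cast_sub (Finset.card_le_univ D)]
      apply le_of_eq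
      field_simp
    · rw [if_neg h2, mul_one]
      have h3 : (Finset.univ.filter fun c : Bool × V =>
          (∀ j, x = sv g z (Ls P.N ℓ) (idx j) → c = (P.eps (j.1 + 1), y j)) ∧
          (x ∈ Hs g z (Ls P.N ℓ) dl y → (∀ j, x ≠ sv g z (Ls P.N ℓ) (idx j)) → c.2 ∉ D)) =
          Finset.univ := by
        rw [Finset.filter_eq_self]
        rintro c _
        exact ⟨fun j hj => absurd hj (h1' j), fun h => absurd h h2⟩
      rw [h3, Finset.card_univ, Fintype.card_prod, Fintype.card_bool]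
      push_cast
      exact le_rfl

theorem dec_card (h : MG P ℓ A D u g z att dl y) (r : V) (idx : Fin P.N → ℕ)
    (hidx : ∀ j : Fin P.N, idx j ∈ blk ℓ (bs P.N (j.1 + 1)))
    (hsm : 2 * (D.card * (Ls P.N ℓ + 1 + P.N * ℓ)) ≤ Fintype.card V) :
    (2 * (Fintype.card V : ℝ)) ^ (D.card - 1) ≤
      ((Dec r P ℓ D u g z dl y idx).card : ℝ) * (2 * (2 * (Fintype.card V : ℝ)) ^ P.N) := by
  classical
  set L := Ls P.N ℓ with hL
  set n := Fintype.card V with hn
  have hidxL : ∀ j : Fin P.N, idx j ≤ L := fun j =>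
    blk_le (hidx j) (bs_le (by omega) (by have := j.2; omega))
  have hinj : ∀ j j', sv g z L (idx j) = sv g z L (idx j') → j = j' := by
    intro j j' he
    have h3 := h.sv_inj ((hidxL j).trans (Nat.le_succ _)) ((hidxL j').trans (Nat.le_succ _)) he
    rcases lt_trichotomy j.1 j'.1 with h4 | h4 | h4
    · have := blk_lt (hidx j) (hidx j') (bs_lt (by omega) (by omega))
      omega
    · exact Fin.ext h4
    · have := blk_lt (hidx j') (hidx j) (bs_lt (by omega) (by omega))
      omega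
  have hnpos : 0 < n := Fintype.card_pos_iff.2 ⟨u⟩
  have hn' : (0 : ℝ) < n := by exact_mod_cast hnpos
  have hsD : D.card ≤ n := Finset.card_le_univ D
  have hDpos : 0 < D.card := Finset.card_pos.2 ⟨u, h.uD⟩
  set q : ℝ := (D.card : ℝ) / n with hq
  have hq0 : 0 ≤ q := by positivity
  have hq1 : q ≤ 1 := by
    rw [hq, div_le_one hn']
    exact_mod_cast hsD
  set Sp : Finset V := Finset.univ.image (fun j => sv g z L (idx j)) with hSp
  have hSpc : Sp.card ≤ P.N := by
    refine Finset.card_image_le.trans ?_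
    rw [Finset.card_univ, Fintype.card_fin]
  set H := Hs g z L dl y with hH
  have hHc : H.card ≤ L + 1 + P.N * ℓ := Hs_card g z L ℓ dl y fun j => (h.dl_mem j).2
  have hDec : ((Dec r P ℓ D u g z dl y idx).card : ℝ) =
      ∏ x : V, ((allow r P D u g z L dl y idx x).card : ℝ) := by
    unfold Dec
    rw [Fintype.card_piFinset]
    push_cast
    rfl
  have hsplit : ∏ x ∈ D.erase u, ((allow r P D u g z L dl y idx x).card : ℝ) =
      ∏ x : V, ((allow r P D u g z L dl y idx x).card : ℝ) := by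
    apply Finset.prod_subset (Finset.subset_univ _)
    intro x _ hx
    have h1 : x ∉ D ∨ x = u := by
      by_contra hcon
      push Not at hcon
      exact hx (Finset.mem_erase.2 ⟨hcon.2, hcon.1⟩)
    unfold allow
    rw [if_pos h1]
    simp
  have hlow : ∏ x ∈ D.erase u, (2 * (n : ℝ) * (if x ∈ Sp then 1 / (2 * (n : ℝ)) else 1) *
      (if x ∈ H then 1 - q else 1)) ≤
      ∏ x ∈ D.erase u, ((allow r P D u g z L dl y idx x).card : ℝ) := by
    apply Finset.prod_le_prod
    · intro x _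
      apply mul_nonneg (mul_nonneg (by positivity) (by split_ifs <;> positivity))
      split_ifs
      · linarith
      · exact zero_le_one
    · intro x hx
      rw [Finset.mem_erase] at hx
      exact allow_card r idx x hx.2 hx.1 hinj
  rw [Finset.prod_mul_distrib, Finset.prod_mul_distrib, Finset.prod_const,
    Finset.card_erase_of_mem h.uD] at hlow
  have hA : (1 / (2 * (n : ℝ))) ^ P.N ≤ ∏ x ∈ D.erase u, (if x ∈ Sp then 1 / (2 * (n : ℝ)) else 1) := by
    rw [Finset.prod_ite, Finset.prod_const_one, mul_one, Finset.prod_const]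
    have h1n : (1 : ℝ) ≤ n := by exact_mod_cast hnpos
    apply pow_le_pow_of_le_one (by positivity)
    · rw [div_le_one (by positivity)]
      linarith
    · refine (Finset.card_le_card ?_).trans hSpc
      intro x hx
      exact (Finset.mem_filter.1 hx).2
  have hB : (1 : ℝ) / 2 ≤ ∏ x ∈ D.erase u, (if x ∈ H then 1 - q else 1) := by
    rw [Finset.prod_ite, Finset.prod_const_one, mul_one, Finset.prod_const]
    have h1 : ((D.erase u).filter fun x => x ∈ H).card ≤ L + 1 + P.N * ℓ := by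
      refine (Finset.card_le_card ?_).trans hHc
      intro x hx
      exact (Finset.mem_filter.1 hx).2
    have h2 : (1 - q) ^ (L + 1 + P.N * ℓ) ≤
        (1 - q) ^ ((D.erase u).filter fun x => x ∈ H).card :=
      pow_le_pow_of_le_one (by linarith) (by linarith) h1
    refine le_trans ?_ h2
    have h3 := one_add_mul_le_pow (a := -q) (by linarith) (L + 1 + P.N * ℓ)
    have h4 : (1 : ℝ) + -q = 1 - q := by ring
    rw [h4] at h3
    refine le_trans ?_ h3
    have h5 : ((L + 1 + P.N * ℓ : ℕ) : ℝ) * q ≤ 1 / 2 := by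
      rw [hq, ← mul_div_assoc, div_le_div_iff₀ hn' (by norm_num)]
      have h6 : ((2 * (D.card * (L + 1 + P.N * ℓ)) : ℕ) : ℝ) ≤ (n : ℝ) := by exact_mod_cast hsm
      push_cast at h6 ⊢
      linarith
    linarith
  rw [hDec, ← hsplit]
  set Q1 := ∏ x ∈ D.erase u, (if x ∈ Sp then 1 / (2 * (n : ℝ)) else 1) with hQ1
  set Q2 := ∏ x ∈ D.erase u, (if x ∈ H then 1 - q else (1 : ℝ)) with hQ2
  have h2n : (0 : ℝ) < 2 * n := by positivity
  have hfin : (2 * (n : ℝ)) ^ (D.card - 1) * ((1 / (2 * (n : ℝ))) ^ P.N * (1 / 2)) ≤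
      (2 * (n : ℝ)) ^ (D.card - 1) * (Q1 * Q2) := by
    apply mul_le_mul_of_nonneg_left _ (by positivity)
    exact mul_le_mul hA hB (by norm_num) (le_trans (by positivity) hA)
  have hfin2 : (2 * (n : ℝ)) ^ (D.card - 1) * ((1 / (2 * (n : ℝ))) ^ P.N * (1 / 2)) ≤
      ∏ x ∈ D.erase u, ((allow r P D u g z L dl y idx x).card : ℝ) := by
    refine hfin.trans (le_trans (le_of_eq ?_) hlow)
    ring
  have hfin3 := mul_le_mul_of_nonneg_right hfin2
    (by positivity : (0 : ℝ) ≤ 2 * (2 * (n : ℝ)) ^ P.N)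
  refine le_trans (le_of_eq ?_) hfin3
  rw [one_div, inv_pow]
  field_simp

end Pool.Agent.ZO
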