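import Mathlib

/-!
# Exponential bound: the analysis of the recursion
-/

set_option autoImplicit false

open scoped BigOperators Nat

namespace Pool.Agent.ZO

/-- partial sums of the solution of a convolution inequality -/
theorem ana1 (h f : ℕ → ℝ) (hh : ∀ j, 0 ≤ h j) (hf : ∀ j, 0 ≤ f j) (h0 : h 0 ≤ 1)
    (hrec : ∀ m : ℕ, ((m : ℝ) + 1) * h (m + 1) ≤
      ∑ j ∈ Finset.range (m + 1), ((j : ℝ) + 1) * f j * h (m - j)) (N : ℕ) {x : ℝ} (hx : 0 ≤ x) :
    ∑ j ∈ Finset.range (N + 1), h j * x ^ j ≤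
      Real.exp (∑ j ∈ Finset.range N, f j * x ^ (j + 1)) := by
  set G : ℝ → ℝ := fun x => ∑ j ∈ Finset.range (N + 1), h j * x ^ j with hG
  set F : ℝ → ℝ := fun x => ∑ j ∈ Finset.range N, f j * x ^ (j + 1) with hF
  have hG' : ∀ x, HasDerivAt G (∑ m ∈ Finset.range N, ((m : ℝ) + 1) * h (m + 1) * x ^ m) x := by
    intro x
    have h1 : HasDerivAt G (∑ j ∈ Finset.range (N + 1), h j * ((j : ℝ) * x ^ (j - 1))) x := by
      apply HasDerivAt.fun_sum
      intro j _
      exact (hasDerivAt_pow j x).const_mul _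
    refine h1.congr_deriv ?_
    rw [Finset.sum_range_succ']
    simp only [Nat.cast_zero, zero_mul, mul_zero, add_zero, Nat.add_sub_cancel]
    refine Finset.sum_congr rfl fun m _ => ?_
    push_cast
    ring
  have hF' : ∀ x, HasDerivAt F (∑ j ∈ Finset.range N, ((j : ℝ) + 1) * f j * x ^ j) x := by
    intro x
    have h1 : HasDerivAt F (∑ j ∈ Finset.range N, f j * (((j + 1 : ℕ) : ℝ) * x ^ (j + 1 - 1))) x := by
      apply HasDerivAt.fun_sum
      intro j _
      exact (hasDerivAt_pow (j + 1) x).const_mul _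
    refine h1.congr_deriv ?_
    refine Finset.sum_congr rfl fun m _ => ?_
    rw [Nat.add_sub_cancel]
    push_cast
    ring
  have hkey : ∀ x, 0 ≤ x → ∑ m ∈ Finset.range N, ((m : ℝ) + 1) * h (m + 1) * x ^ m ≤
      (∑ j ∈ Finset.range N, ((j : ℝ) + 1) * f j * x ^ j) * G x := by
    intro x hx
    let A : ℕ → ℝ := fun a => ((a : ℝ) + 1) * f a * x ^ a
    let Bb : ℕ → ℝ := fun b => h b * x ^ b
    have hA : ∀ a, 0 ≤ A a := fun a => by
      have := hf a
      simp only [A]
      positivity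
    have hBb : ∀ b, 0 ≤ Bb b := fun b => mul_nonneg (hh b) (pow_nonneg hx _)
    have s1 : ∑ m ∈ Finset.range N, ((m : ℝ) + 1) * h (m + 1) * x ^ m ≤
        ∑ m ∈ Finset.range N, ∑ j ∈ Finset.range (m + 1), A j * Bb (m - j) := by
      refine Finset.sum_le_sum fun m _ => ?_
      refine (mul_le_mul_of_nonneg_right (hrec m) (pow_nonneg hx m)).trans (le_of_eq ?_)
      rw [Finset.sum_mul]
      refine Finset.sum_congr rfl fun j hj => ?_
      rw [Finset.mem_range] at hj
      have h1 : x ^ m = x ^ j * x ^ (m - j) := by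
        rw [← pow_add]
        congr 1
        omega
      simp only [A, Bb]
      rw [h1]
      ring
    have s2 : ∑ m ∈ Finset.range N, ∑ j ∈ Finset.range (m + 1), A j * Bb (m - j) =
        ∑ j ∈ Finset.range N, ∑ i ∈ Finset.range (N - j), A j * Bb i :=
      Finset.sum_range_diag_flip N fun a b => A a * Bb b
    have s3 : ∑ j ∈ Finset.range N, ∑ i ∈ Finset.range (N - j), A j * Bb i ≤
        ∑ j ∈ Finset.range N, A j * G x := by
      refine Finset.sum_le_sum fun j _ => ?_
      rw [← Finset.mul_sum]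
      refine mul_le_mul_of_nonneg_left ?_ (hA j)
      refine Finset.sum_le_sum_of_subset_of_nonneg ?_ fun i _ _ => hBb i
      intro i hi
      rw [Finset.mem_range] at hi ⊢
      omega
    rw [Finset.sum_mul]
    exact s1.trans (s2.trans_le s3)
  set ph : ℝ → ℝ := fun x => G x * Real.exp (-F x) with hph
  have hph' : ∀ x, HasDerivAt ph ((∑ m ∈ Finset.range N, ((m : ℝ) + 1) * h (m + 1) * x ^ m) *
      Real.exp (-F x) + G x * (Real.exp (-F x) *
        -(∑ j ∈ Finset.range N, ((j : ℝ) + 1) * f j * x ^ j))) x := by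
    intro x
    exact (hG' x).mul ((hF' x).neg.exp)
  have hanti : AntitoneOn ph (Set.Ici 0) := by
    apply antitoneOn_of_deriv_nonpos (convex_Ici 0)
    · exact fun x _ => (hph' x).continuousAt.continuousWithinAt
    · exact fun x _ => (hph' x).differentiableAt.differentiableWithinAt
    · intro x hx
      rw [interior_Ici] at hx
      rw [(hph' x).deriv]
      have h1 := hkey x (le_of_lt hx)
      have h2 := Real.exp_pos (-F x)
      nlinarith
  have h1 := hanti (Set.mem_Ici.2 le_rfl) (Set.mem_Ici.2 hx) hx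
  have hph0 : ph 0 = h 0 := by
    have hG0 : G 0 = h 0 := by
      simp only [hG]
      rw [Finset.sum_range_succ']
      simp
    have hF0 : F 0 = 0 := by
      simp only [hF]
      apply Finset.sum_eq_zero
      intro j _
      simp
    simp only [hph, hG0, hF0]
    simp
  rw [hph0] at h1
  have h2 : G x * Real.exp (-F x) ≤ 1 := h1.trans h0
  have h3 := Real.exp_pos (F x)
  calc G x = G x * Real.exp (-F x) * Real.exp (F x) := by
        rw [mul_assoc, ← Real.exp_add, neg_add_cancel, Real.exp_zero, mul_one]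
    _ ≤ 1 * Real.exp (F x) := mul_le_mul_of_nonneg_right h2 h3.le
    _ = _ := one_mul _

/-- the numbers of rooted trees -/
noncomputable def tau (j : ℕ) : ℝ := ((j : ℝ) + 1) ^ j / ((j + 1)! : ℝ)

theorem tau_nonneg (j : ℕ) : 0 ≤ tau j := by
  unfold tau
  positivity

/-- the weight of the rooted trees at the critical point -/
noncomputable def tw (j : ℕ) : ℝ := tau j * (Real.exp (-1)) ^ (j + 1)

theorem tw_nonneg (j : ℕ) : 0 ≤ tw j := mul_nonneg (tau_nonneg j) (by positivity)

theorem tw_eq (j : ℕ) : tw j = ((j : ℝ) + 1) ^ j * Real.exp (-((j : ℝ) + 1)) / ((j + 1)! : ℝ) := by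
  unfold tw tau
  have : (Real.exp (-1)) ^ (j + 1) = Real.exp (-((j : ℝ) + 1)) := by
    rw [← Real.exp_nat_mul]
    congr 1
    push_cast
    ring
  rw [this]
  ring

theorem tw_upper (j : ℕ) : tw j ≤ 1 / (((j : ℝ) + 1) * Real.sqrt ((j : ℝ) + 1)) := by
  have h1 := Stirling.le_factorial_stirling (j + 1)
  have hk : (0 : ℝ) < (j : ℝ) + 1 := by positivity
  have hs : 0 < Real.sqrt ((j : ℝ) + 1) := Real.sqrt_pos.2 hk
  have hfac : (0 : ℝ) < ((j + 1)! : ℝ) := by exact_mod_cast Nat.factorial_pos _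
  rw [tw_eq, div_le_div_iff₀ hfac (by positivity), one_mul]
  refine le_trans ?_ h1
  push_cast
  have h2 : Real.sqrt ((j : ℝ) + 1) ≤ Real.sqrt (2 * Real.pi * ((j : ℝ) + 1)) := by
    apply Real.sqrt_le_sqrt
    nlinarith [Real.pi_gt_three]
  have h3 : (((j : ℝ) + 1) / Real.exp 1) ^ (j + 1) =
      ((j : ℝ) + 1) ^ j * Real.exp (-((j : ℝ) + 1)) * ((j : ℝ) + 1) := by
    rw [div_pow, ← Real.exp_nat_mul, div_eq_mul_inv, ← Real.exp_neg, pow_succ]
    push_cast
    ring_nf
  rw [h3]
  have h4 : 0 ≤ ((j : ℝ) + 1) ^ j * Real.exp (-((j : ℝ) + 1)) * ((j : ℝ) + 1) := by positivity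
  nlinarith

theorem fac_upper (k : ℕ) (hk : 1 ≤ k) :
    (k ! : ℝ) ≤ Real.exp 1 * Real.sqrt k * ((k : ℝ) / Real.exp 1) ^ k := by
  induction k, hk using Nat.le_induction with
  | base =>
    simp
  | succ k hk ih =>
    have hk0 : (0 : ℝ) < k := by exact_mod_cast hk
    rw [Nat.factorial_succ]
    push_cast
    -- `(1 + 1/k) ^ k * sqrt (1 + 1/k) ≥ e`
    have h1 : Real.exp 1 * Real.sqrt k * (k : ℝ) ^ k ≤
        Real.sqrt (k + 1) * ((k : ℝ) + 1) ^ k := by
      have h2 : 1 ≤ (k + 1 / 2 : ℝ) * Real.log (1 + 1 / k) := by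
        have h3 := Real.one_sub_inv_le_log_of_pos (x := 1 + 1 / (k : ℝ)) (by positivity)
        have h4 := Real.hasSum_log_one_add_inv hk0
        have h5 : 2 * (1 / (2 * (0 : ℕ) + 1 : ℝ)) * (1 / (2 * (k : ℝ) + 1)) ^ (2 * 0 + 1) ≤
            Real.log (1 + (k : ℝ)⁻¹) := by
          have h6 := h4.summable.sum_le_tsum {0} (fun i _ => by positivity)
          rw [h4.tsum_eq] at h6
          simpa using h6
        have h7 : 2 / (2 * (k : ℝ) + 1) ≤ Real.log (1 + 1 / k) := by
          rw [one_div]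
          refine le_trans (le_of_eq ?_) h5
          simp
          ring
        have h8 : (k + 1 / 2 : ℝ) * (2 / (2 * (k : ℝ) + 1)) = 1 := by
          field_simp
          try ring
        nlinarith
      have h9 : Real.exp 1 ≤ Real.exp ((k + 1 / 2 : ℝ) * Real.log (1 + 1 / k)) :=
        Real.exp_le_exp.2 h2
      have h10 : Real.exp ((k + 1 / 2 : ℝ) * Real.log (1 + 1 / k)) =
          (1 + 1 / (k : ℝ)) ^ k * Real.sqrt (1 + 1 / k) := by
        rw [add_mul, Real.exp_add, Real.exp_nat_mul, Real.exp_log (by positivity),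
          Real.sqrt_eq_rpow, Real.rpow_def_of_pos (by positivity)]
        congr 2
        ring
      have h11 : (1 + 1 / (k : ℝ)) ^ k * (k : ℝ) ^ k = ((k : ℝ) + 1) ^ k := by
        rw [← mul_pow]
        congr 1
        field_simp
      have h12 : Real.sqrt (1 + 1 / k) * Real.sqrt k = Real.sqrt (k + 1) := by
        rw [← Real.sqrt_mul (by positivity)]
        congr 1
        field_simp
      rw [h10] at h9
      calc Real.exp 1 * Real.sqrt k * (k : ℝ) ^ k
          ≤ ((1 + 1 / (k : ℝ)) ^ k * Real.sqrt (1 + 1 / k)) * Real.sqrt k * (k : ℝ) ^ k := by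
            gcongr
        _ = (Real.sqrt (1 + 1 / k) * Real.sqrt k) * ((1 + 1 / (k : ℝ)) ^ k * (k : ℝ) ^ k) := by ring
        _ = _ := by rw [h11, h12]
    have he : (0 : ℝ) < Real.exp 1 := Real.exp_pos 1
    calc ((k : ℝ) + 1) * (k ! : ℝ) ≤
        ((k : ℝ) + 1) * (Real.exp 1 * Real.sqrt k * ((k : ℝ) / Real.exp 1) ^ k) := by gcongr
      _ = ((k : ℝ) + 1) * ((Real.exp 1 * Real.sqrt k * (k : ℝ) ^ k) / Real.exp 1 ^ k) := by
          rw [div_pow]
          ring
      _ ≤ ((k : ℝ) + 1) * ((Real.sqrt (k + 1) * ((k : ℝ) + 1) ^ k) / Real.exp 1 ^ k) := by gcongr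
      _ = _ := by
          rw [div_pow, pow_succ, pow_succ]
          field_simp

theorem tw_lower (j : ℕ) :
    1 / (Real.exp 1 * (((j : ℝ) + 1) * Real.sqrt ((j : ℝ) + 1))) ≤ tw j := by
  have h1 := fac_upper (j + 1) (by omega)
  have hk : (0 : ℝ) < (j : ℝ) + 1 := by positivity
  have hs : 0 < Real.sqrt ((j : ℝ) + 1) := Real.sqrt_pos.2 hk
  have hfac : (0 : ℝ) < ((j + 1)! : ℝ) := by exact_mod_cast Nat.factorial_pos _
  rw [tw_eq, div_le_div_iff₀ (by positivity) hfac, one_mul]
  refine h1.trans (le_of_eq ?_)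
  push_cast
  have h3 : (((j : ℝ) + 1) / Real.exp 1) ^ (j + 1) =
      ((j : ℝ) + 1) ^ j * Real.exp (-((j : ℝ) + 1)) * ((j : ℝ) + 1) := by
    rw [div_pow, ← Real.exp_nat_mul, div_eq_mul_inv, ← Real.exp_neg, pow_succ]
    push_cast
    ring_nf
  rw [h3]
  ring

end Pool.Agent.ZO
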