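import Pool.Agent.ZO.Low

/-! # Zero-one law: almost every decorated tree realises a pattern twice -/

set_option autoImplicit false

open scoped BigOperators Nat

namespace Pool.Agent.ZO

open Pool.Agent.WT.Trees (PF)
open Pool.Agent.GX

section

variable {V : Type} [Fintype V]

theorem twice_of_two {P : Pattern} {ℓ A : ℕ} {r : V} {ω : (V → V) × (V → Bool × V)}
    (h : 1 < (Xm r (TT P ℓ A r) ω).card) :
    Twice P ω.1 r (fun x => (ω.2 x).1) (fun x => (ω.2 x).2) := by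
  classical
  obtain ⟨τ, hτ, τ', hτ', hne⟩ := Finset.one_lt_card.1 h
  unfold Xm at hτ hτ'
  rw [Finset.mem_filter] at hτ hτ'
  refine ⟨τ.u, τ'.u, realAt_of_mt hτ.1 hτ.2, realAt_of_mt hτ'.1 hτ'.2, ?_⟩
  have h1 := TT_disjoint hτ.1 hτ'.1 hτ.2 hτ'.2 hne
  rw [hτ.2.2.1, hτ'.2.2.1]
  exact Finset.disjoint_coe.2 h1

theorem few_ge (P : Pattern) (ℓ : ℕ) (hℓ : 1 ≤ ℓ) (r : V)
    (hn : 40 * (kap P.N * ℓ) ^ 3 ≤ Fintype.card V) (μ₀ : ℝ) (h0 : 2 ≤ μ₀)
    (hμ : μ₀ ≤ (ℓ : ℝ) ^ (3 * P.N) * Fintype.card V / (24960 * Real.exp 3 *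
      ((kap P.N * ℓ : ℕ) : ℝ) ^ 2 * (2 * (Fintype.card V : ℝ)) ^ P.N)) :
    ({ω : (V → V) × (V → Bool × V) | ω.1 ∈ PF r ∧
        ¬ Twice P ω.1 r (fun x => (ω.2 x).1) (fun x => (ω.2 x).2)}.ncard : ℝ) ≤
      4 * (1 / μ₀ + 1 / Fintype.card V) * K0 (Fintype.card V) (Fintype.card (Bool × V)) := by
  classical
  set n := Fintype.card V with hndef
  set c := Fintype.card (Bool × V) with hcdef
  set A := (kap P.N * ℓ) ^ 2 with hA
  have hn0 : 0 < n := Fintype.card_pos_iff.2 ⟨r⟩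
  have hc0 : 0 < c := Fintype.card_pos_iff.2 ⟨(false, r)⟩
  have hn' : (0 : ℝ) < n := by exact_mod_cast hn0
  have hc' : (0 : ℝ) < c := by exact_mod_cast hc0
  have hK : 0 < K0 n c := by unfold K0; positivity
  have h1 := EE_lower P ℓ hℓ r hn
  set EEv := EE n c (Tn P ℓ A r) with hEE
  have hEE' : K0 n c * μ₀ ≤ EEv := (mul_le_mul_of_nonneg_left hμ hK.le).trans h1
  have hμ2 : μ₀ ≤ EEv / K0 n c := by
    rw [le_div_iff₀ hK, mul_comm]
    exact hEE'
  have h2 := second_moment r (false, r) (TT P ℓ A r) (fun τ hτ => (mem_TT.1 hτ).1) (Tn P ℓ A r)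
    (fun D hD => fiber_eq D hD) (fun τ hτ τ' hτ' ω hm hm' hne => TT_disjoint hτ hτ' hm hm' hne)
    (fun τ hτ => by
      obtain ⟨_, z, idx, att, dl, hs⟩ := mem_TT.1 hτ
      have h3 := hs.cardhi
      have h4 : 2 ≤ kap P.N * ℓ := by nlinarith [kap_ge P.N]
      have h5 : (kap P.N * ℓ) ^ 3 = A * (kap P.N * ℓ) := by rw [hA]; ring
      have h6 : 80 * A ≤ n := by nlinarith
      omega)
    (EEv / K0 n c) (h0.trans hμ2) (div_mul_cancel₀ _ hK.ne').symm
  have h3 : {ω : (V → V) × (V → Bool × V) | ω.1 ∈ PF r ∧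
        ¬ Twice P ω.1 r (fun x => (ω.2 x).1) (fun x => (ω.2 x).2)} ⊆
      {ω : (V → V) × (V → Bool × V) | ω.1 ∈ PF r ∧ (Xm r (TT P ℓ A r) ω).card ≤ 1} := by
    rintro ω ⟨h4, h5⟩
    refine ⟨h4, ?_⟩
    by_contra h6
    exact h5 (twice_of_two (P := P) (ℓ := ℓ) (A := A) (by omega))
  have h4 := Set.ncard_le_ncard h3 (Set.toFinite _)
  refine (Nat.cast_le.2 h4).trans (h2.trans ?_)
  apply mul_le_mul_of_nonneg_right _ hK.le
  have h5 : 1 / (EEv / K0 n c) ≤ 1 / μ₀ := one_div_le_one_div_of_le (by linarith) hμ2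
  linarith

end

/-- the number of decorated trees in which a pattern is not realised twice -/
theorem few (P : Pattern) : ∃ C : ℝ, 0 < C ∧ ∀ (V : Type) [Fintype V] (r : V),
    ({ω : (V → V) × (V → Bool × V) | ω.1 ∈ PF r ∧
        ¬ Twice P ω.1 r (fun x => (ω.2 x).1) (fun x => (ω.2 x).2)}.ncard : ℝ) ≤
      C * ((Fintype.card V : ℝ) ^ (1 / 3 : ℝ))⁻¹ *
        K0 (Fintype.card V) (Fintype.card (Bool × V)) := by
  set κ := kap P.N with hκ
  have hκ2 := kap_ge P.N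
  have hκ0 : (0 : ℝ) < κ := by
    have : 0 < κ := by omega
    exact_mod_cast this
  set K : ℝ := 40 * (κ : ℝ) ^ 3 with hK
  have hK0 : 0 < K := by positivity
  have e3 := Real.exp_pos 3
  set ν : ℝ := K / (24960 * Real.exp 3 * (κ : ℝ) ^ 2 * (16 * K) ^ P.N) with hν
  have hν0 : 0 < ν := by positivity
  set X0 : ℝ := 1 + 4 / ν with hX0
  have hX1 : 1 ≤ X0 := by
    have : 0 < 4 / ν := by positivity
    linarith
  set k3 : ℝ := K ^ (1 / 3 : ℝ) with hk3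
  have hk30 : 0 < k3 := Real.rpow_pos_of_pos hK0 _
  have hk3c : k3 ^ 3 = K := by
    rw [hk3, ← Real.rpow_natCast, ← Real.rpow_mul hK0.le]
    norm_num
  refine ⟨k3 * X0 + (8 * k3 / ν + 4), by positivity, ?_⟩
  intro V _ r
  classical
  set n := Fintype.card V with hndef
  set c := Fintype.card (Bool × V) with hcdef
  have hn0 : 0 < n := Fintype.card_pos_iff.2 ⟨r⟩
  have hc0 : 0 < c := Fintype.card_pos_iff.2 ⟨(false, r)⟩
  have hn' : (0 : ℝ) < n := by exact_mod_cast hn0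
  have hn1 : (1 : ℝ) ≤ n := by exact_mod_cast hn0
  have hc' : (0 : ℝ) < c := by exact_mod_cast hc0
  have hKK : 0 < K0 n c := by unfold K0; positivity
  set y : ℝ := (n : ℝ) ^ (1 / 3 : ℝ) with hy
  have hy0 : 0 < y := Real.rpow_pos_of_pos hn' _
  have hy3 : y ^ 3 = n := by
    rw [hy, ← Real.rpow_natCast, ← Real.rpow_mul hn'.le]
    norm_num
  have hy1 : 1 ≤ y := by
    rw [hy]
    exact Real.one_le_rpow hn1 (by norm_num)
  by_cases hbig : y < k3 * X0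
  · -- few vertices
    have h1 : ({ω : (V → V) × (V → Bool × V) | ω.1 ∈ PF r ∧
        ¬ Twice P ω.1 r (fun x => (ω.2 x).1) (fun x => (ω.2 x).2)}.ncard : ℝ) ≤ K0 n c := by
      rw [hndef, hcdef, ← card_Om (C := Bool × V) r]
      rw [← Set.ncard_coe_finset]
      have hsub : {ω : (V → V) × (V → Bool × V) | ω.1 ∈ PF r ∧
        ¬ Twice P ω.1 r (fun x => (ω.2 x).1) (fun x => (ω.2 x).2)} ⊆
          (Om (Bool × V) r : Set ((V → V) × (V → Bool × V))) :=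
        fun ω hω => Finset.mem_coe.2 (mem_Om.2 hω.1)
      exact_mod_cast Set.ncard_le_ncard hsub (Set.toFinite _)
    refine h1.trans ?_
    have h2 : 1 ≤ (k3 * X0 + (8 * k3 / ν + 4)) * y⁻¹ := by
      rw [← div_eq_mul_inv, le_div_iff₀ hy0]
      have : 0 < 8 * k3 / ν := by positivity
      linarith
    nlinarith
  · rw [not_lt] at hbig
    set x : ℝ := y / k3 with hx
    have hxX : X0 ≤ x := by
      rw [hx, le_div_iff₀ hk30, mul_comm]
      exact hbig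
    have hx1 : 1 ≤ x := hX1.trans hxX
    have hx0 : 0 < x := by linarith
    have hxn : K * x ^ 3 = n := by
      rw [hx, div_pow, hk3c, hy3]
      field_simp
    set ℓ := ⌊x⌋₊ with hℓ
    have hℓ1 : 1 ≤ ℓ := Nat.le_floor (by simpa using hx1)
    have hℓx : (ℓ : ℝ) ≤ x := Nat.floor_le hx0.le
    have hxℓ : x ≤ 2 * ℓ := by
      have h1 := Nat.lt_floor_add_one x
      rw [← hℓ] at h1
      have h2 : (1 : ℝ) ≤ ℓ := by exact_mod_cast hℓ1
      linarith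
    have hℓ0 : (0 : ℝ) < ℓ := by exact_mod_cast hℓ1
    have hlow : K * (ℓ : ℝ) ^ 3 ≤ n := by
      rw [← hxn]
      have : (ℓ : ℝ) ^ 3 ≤ x ^ 3 := pow_le_pow_left₀ hℓ0.le hℓx 3
      exact mul_le_mul_of_nonneg_left this hK0.le
    have hhigh : (n : ℝ) ≤ 8 * K * (ℓ : ℝ) ^ 3 := by
      rw [← hxn]
      have : x ^ 3 ≤ (2 * (ℓ : ℝ)) ^ 3 := pow_le_pow_left₀ hx0.le hxℓ 3
      calc K * x ^ 3 ≤ K * (2 * (ℓ : ℝ)) ^ 3 := mul_le_mul_of_nonneg_left this hK0.le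
        _ = 8 * K * (ℓ : ℝ) ^ 3 := by ring
    have hnat : 40 * (kap P.N * ℓ) ^ 3 ≤ Fintype.card V := by
      have h0 : ((40 * (kap P.N * ℓ) ^ 3 : ℕ) : ℝ) = K * (ℓ : ℝ) ^ 3 := by
        rw [hK, hκ]
        push_cast
        ring
      have h1 : ((40 * (kap P.N * ℓ) ^ 3 : ℕ) : ℝ) ≤ (n : ℝ) := h0.trans_le hlow
      exact_mod_cast h1
    have hν2 : 2 ≤ ν * ℓ := by
      have h1 : 4 / ν ≤ 2 * ℓ := by linarith
      rw [div_le_iff₀ hν0] at h1
      linarith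
    have hμ : ν * ℓ ≤ (ℓ : ℝ) ^ (3 * P.N) * Fintype.card V / (24960 * Real.exp 3 *
      ((kap P.N * ℓ : ℕ) : ℝ) ^ 2 * (2 * (Fintype.card V : ℝ)) ^ P.N) := by
      rw [← hndef, ← hκ]
      have h2 : (2 * (n : ℝ)) ^ P.N ≤ (16 * K) ^ P.N * (ℓ : ℝ) ^ (3 * P.N) := by
        rw [pow_mul, ← mul_pow]
        apply pow_le_pow_left₀ (by positivity)
        linarith
      rw [le_div_iff₀ (by positivity)]
      push_cast
      have h3 : ν * ℓ * (24960 * Real.exp 3 * ((κ : ℝ) * ℓ) ^ 2 * (2 * (n : ℝ)) ^ P.N) ≤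
        ν * ℓ * (24960 * Real.exp 3 * ((κ : ℝ) * ℓ) ^ 2 *
          ((16 * K) ^ P.N * (ℓ : ℝ) ^ (3 * P.N))) := by gcongr
      refine h3.trans ?_
      have h4 : ν * ℓ * (24960 * Real.exp 3 * ((κ : ℝ) * ℓ) ^ 2 *
          ((16 * K) ^ P.N * (ℓ : ℝ) ^ (3 * P.N))) =
        (ℓ : ℝ) ^ (3 * P.N) * (K * (ℓ : ℝ) ^ 3) := by
        rw [hν]
        field_simp
      rw [h4]
      exact mul_le_mul_of_nonneg_left hlow (by positivity)
    have h5 := few_ge P ℓ hℓ1 r hnat (ν * ℓ) hν2 hμ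
    rw [← hndef, ← hcdef] at h5
    refine h5.trans ?_
    apply mul_le_mul_of_nonneg_right _ hKK.le
    have h6 : 1 / (ν * ℓ) ≤ 2 * k3 / ν * y⁻¹ := by
      have h7 : 2 * k3 / ν * y⁻¹ = 1 / (ν * (x / 2)) := by
        rw [hx]
        field_simp
      rw [h7]
      apply one_div_le_one_div_of_le (by positivity)
      apply mul_le_mul_of_nonneg_left _ hν0.le
      linarith
    have h8 : 1 / (n : ℝ) ≤ y⁻¹ := by
      rw [one_div]
      apply inv_anti₀ hy0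
      rw [← hy3]
      nlinarith [mul_pos hy0 hy0]
    have h9 : 0 < k3 * X0 * y⁻¹ := by positivity
    calc 4 * (1 / (ν * ℓ) + 1 / (n : ℝ)) ≤ 4 * (2 * k3 / ν * y⁻¹ + y⁻¹) := by linarith
      _ ≤ (k3 * X0 + (8 * k3 / ν + 4)) * y⁻¹ := by
        have : (k3 * X0 + (8 * k3 / ν + 4)) * y⁻¹ =
          k3 * X0 * y⁻¹ + 4 * (2 * k3 / ν * y⁻¹ + y⁻¹) := by ring
        rw [this]
        linarith

/-- The number of triples `(p, o, l)` in which the pattern `P` is not realised twice, where `p` is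
the parent function of a tree on `V` with root `r`. -/
theorem main (P : Pattern) : ∃ C : ℝ, 0 < C ∧ ∀ (V : Type) [Fintype V] (r : V),
    ({q : (V → V) × (V → Bool) × (V → V) | q.1 ∈ PF r ∧ ¬ Twice P q.1 r q.2.1 q.2.2}.ncard : ℝ) ≤
      C * ((Fintype.card V : ℝ) ^ (1 / 3 : ℝ))⁻¹ *
        ((Fintype.card V : ℝ) ^ (Fintype.card V - 2) * 2 ^ Fintype.card V *
          (Fintype.card V : ℝ) ^ Fintype.card V) := by
  obtain ⟨C, hC, h⟩ := few P
  refine ⟨C, hC, fun V _ r => ?_⟩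
  classical
  have h1 := h V r
  have h2 : K0 (Fintype.card V) (Fintype.card (Bool × V)) =
      (Fintype.card V : ℝ) ^ (Fintype.card V - 2) * 2 ^ Fintype.card V *
          (Fintype.card V : ℝ) ^ Fintype.card V := by
    unfold K0
    rw [Fintype.card_prod, Fintype.card_bool]
    push_cast
    rw [mul_pow, mul_assoc]
  rw [← h2]
  refine le_trans ?_ h1
  have h3 : {q : (V → V) × (V → Bool) × (V → V) | q.1 ∈ PF r ∧ ¬ Twice P q.1 r q.2.1 q.2.2}.ncard ≤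
      {ω : (V → V) × (V → Bool × V) | ω.1 ∈ PF r ∧
        ¬ Twice P ω.1 r (fun x => (ω.2 x).1) (fun x => (ω.2 x).2)}.ncard := by
    refine Set.ncard_le_ncard_of_injOn (fun q => (q.1, fun x => (q.2.1 x, q.2.2 x))) ?_ ?_
      (Set.toFinite _)
    · rintro ⟨p, o, l⟩ hq
      exact hq
    · rintro ⟨p, o, l⟩ _ ⟨p', o', l'⟩ _ he
      simp only [Prod.mk.injEq] at he
      obtain ⟨rfl, he⟩ := he
      have e1 : o = o' := funext fun x => congrArg Prod.fst (congrFun he x)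
      have e2 : l = l' := funext fun x => congrArg Prod.snd (congrFun he x)
      rw [e1, e2]
  exact_mod_cast h3

end Pool.Agent.ZO
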