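import Pool.Agent.ZO.ExNum
import Pool.Agent.ZO.Prob

/-! # Exponential bound: the number of decorated trees in which a pattern is not realised twice -/

set_option autoImplicit false

open scoped BigOperators Nat

namespace Pool.Agent.ZO

open Pool.Agent.WT.Trees (PF)
open Pool.Agent.GX

/-- the bound that the recursion gives -/
def WUse (P : Pattern) : Prop := ∀ (V : Type) [Fintype V] (ℓ A : ℕ) (r : V) (θ : ℝ), 1 ≤ A →
  20 * A ≤ Fintype.card V → 0 ≤ θ → 42 * θ * ((20 * A : ℕ) : ℝ) ≤ 1 →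
  θ ≤ (1 / 2) * ∑ s ∈ Finset.range (Fintype.card V), (Tn P ℓ A r s : ℝ) *
        ((Fintype.card (Bool × V) : ℝ) ^ (Fintype.card V - (s - 1)) /
          ((Fintype.card (Bool × V) : ℝ) ^ (Fintype.card V) * (s ! : ℝ)) *
            Real.exp (-(s : ℝ))) →
  ({ω : (V → V) × (V → Bool × V) | ω.1 ∈ PF r ∧
        ¬ Twice P ω.1 r (fun x => (ω.2 x).1) (fun x => (ω.2 x).2)}.ncard : ℝ) ≤
    2 * (Real.exp 1 * (Fintype.card (Bool × V) : ℝ) ^ (Fintype.card V) *
      ((Fintype.card V - 1)! : ℝ) * (((1 + θ) / Real.exp 1) ^ (Fintype.card V - 1))⁻¹)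

/-- the number of decorated trees in which a pattern is not realised twice -/
theorem few_exp (P : Pattern) (hW : WUse P) : ∃ C : ℝ, 0 < C ∧ ∀ (V : Type) [Fintype V] (r : V),
    ({ω : (V → V) × (V → Bool × V) | ω.1 ∈ PF r ∧
        ¬ Twice P ω.1 r (fun x => (ω.2 x).1) (fun x => (ω.2 x).2)}.ncard : ℝ) ≤
      C * Real.exp (-((Fintype.card V : ℝ) ^ (1 / 3 : ℝ) / C)) *
        K0 (Fintype.card V) (Fintype.card (Bool × V)) := by
  obtain ⟨c₀, hc₀, C₁, hC₁, n₀, hk⟩ := kap_lower P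
  set c₁ : ℝ := min (1 / 840) (c₀ / 2) with hc₁
  have hc₁0 : 0 < c₁ := lt_min (by norm_num) (by positivity)
  set γ : ℝ := c₁ / (4 * C₁) with hγ
  have hγ0 : 0 < γ := by positivity
  have e1 := Real.exp_pos 1
  set C : ℝ := 2 * Real.exp 1 * (720 * (2 / γ) ^ 6) + 2 / γ + 3 * ((n₀ : ℝ) + 1) with hC
  have hC0 : 0 < C := by positivity
  refine ⟨C, hC0, ?_⟩
  intro V _ r
  classical
  set n := Fintype.card V with hndef
  set c := Fintype.card (Bool × V) with hcdef
  have hn0 : 0 < n := Fintype.card_pos_iff.2 ⟨r⟩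
  have hc0 : 0 < c := Fintype.card_pos_iff.2 ⟨(false, r)⟩
  have hn' : (0 : ℝ) < n := by exact_mod_cast hn0
  have hn1 : (1 : ℝ) ≤ n := by exact_mod_cast hn0
  have hc' : (0 : ℝ) < c := by exact_mod_cast hc0
  have hKK : 0 < K0 n c := by unfold K0; positivity
  rcases Nat.lt_or_ge n n₀ with hsm | hbig
  · have h1 : ({ω : (V → V) × (V → Bool × V) | ω.1 ∈ PF r ∧
        ¬ Twice P ω.1 r (fun x => (ω.2 x).1) (fun x => (ω.2 x).2)}.ncard : ℝ) ≤ K0 n c := by
      rw [hndef, hcdef, ← card_Om (C := Bool × V) r]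
      rw [← Set.ncard_coe_finset]
      have hsub : {ω : (V → V) × (V → Bool × V) | ω.1 ∈ PF r ∧
        ¬ Twice P ω.1 r (fun x => (ω.2 x).1) (fun x => (ω.2 x).2)} ⊆
          (Om (Bool × V) r : Set ((V → V) × (V → Bool × V))) :=
        fun ω hω => Finset.mem_coe.2 (mem_Om.2 hω.1)
      exact_mod_cast Set.ncard_le_ncard hsub (Set.toFinite _)
    refine h1.trans ?_
    have h2 : 1 ≤ C * Real.exp (-((n : ℝ) ^ (1 / 3 : ℝ) / C)) := by
      apply small_le C n hn0
      have h3 : (n : ℝ) ≤ n₀ := by exact_mod_cast hsm.le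
      have h4 : 0 ≤ 2 * Real.exp 1 * (720 * (2 / γ) ^ 6) + 2 / γ := by positivity
      rw [hC]
      linarith
    nlinarith
  · obtain ⟨ℓ, A, hA, h80, hAC, hsum⟩ := hk V r hbig
    have hA0 : (0 : ℝ) < A := by exact_mod_cast hA
    set θ : ℝ := c₁ / A with hθ
    have hθ0 : 0 < θ := by positivity
    have hc1a : c₁ ≤ 1 / 840 := min_le_left _ _
    have hc1b : c₁ ≤ c₀ / 2 := min_le_right _ _
    have hθA : θ * A = c₁ := div_mul_cancel₀ _ hA0.ne'
    have hA1 : (1 : ℝ) ≤ A := by exact_mod_cast hA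
    have hθ1 : θ ≤ 1 := by nlinarith
    have h1 := hW V ℓ A r θ hA (by omega) hθ0.le (by
      push_cast
      calc 42 * θ * (20 * (A : ℝ)) = 840 * (θ * A) := by ring
        _ ≤ 1 := by rw [hθA]; linarith) (by
      rw [← hndef, ← hcdef] at hsum ⊢
      have h2 : θ ≤ 1 / 2 * (c₀ / A) := by
        rw [hθ, ← mul_div_assoc]
        apply div_le_div_of_nonneg_right _ hA0.le
        linarith
      refine h2.trans ?_
      exact mul_le_mul_of_nonneg_left hsum (by norm_num))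
    rw [← hndef, ← hcdef] at h1
    refine h1.trans ?_
    have hn2 : 2 ≤ n := by omega
    have h2 := tail_le n c hn2 θ hθ0.le hθ1
    set y : ℝ := (n : ℝ) ^ (1 / 3 : ℝ) with hy
    have hy0 : 0 < y := Real.rpow_pos_of_pos hn' _
    have hy23 : (n : ℝ) ^ (2 / 3 : ℝ) * y = n := by
      rw [hy, ← Real.rpow_add hn']
      norm_num
    have h3 : γ * y ≤ θ * n / 4 := by
      rw [hγ, hθ]
      have h4 : (A : ℝ) * y ≤ C₁ * n := by
        calc (A : ℝ) * y ≤ C₁ * (n : ℝ) ^ (2 / 3 : ℝ) * y :=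
              mul_le_mul_of_nonneg_right hAC hy0.le
          _ = C₁ * ((n : ℝ) ^ (2 / 3 : ℝ) * y) := by ring
          _ = C₁ * n := by rw [hy23]
      have h5 : c₁ / (4 * C₁) * y = c₁ * (A * y) / (4 * C₁ * A) := by
        field_simp
      have h6 : c₁ / A * n / 4 = c₁ * (C₁ * n) / (4 * C₁ * A) := by
        field_simp
      rw [h5, h6]
      apply div_le_div_of_nonneg_right _ (by positivity)
      exact mul_le_mul_of_nonneg_left h4 hc₁0.le
    have h4 : (n : ℝ) ^ 2 * Real.exp (-(θ * n / 4)) ≤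
        720 * (2 / γ) ^ 6 * Real.exp (-(γ / 2 * y)) := by
      refine le_trans ?_ (poly_le γ hγ0 n hn0)
      apply mul_le_mul_of_nonneg_left _ (by positivity)
      apply Real.exp_le_exp.2
      linarith
    have h5 : Real.exp (-(γ / 2 * y)) ≤ Real.exp (-(y / C)) := by
      apply Real.exp_le_exp.2
      have h6 : 2 / γ ≤ C := by
        rw [hC]
        have h7 : 0 ≤ 2 * Real.exp 1 * (720 * (2 / γ) ^ 6) := by positivity
        have h8 : (0 : ℝ) ≤ n₀ := Nat.cast_nonneg _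
        linarith
      have h7 : y / C ≤ y / (2 / γ) := div_le_div_of_nonneg_left hy0.le (by positivity) h6
      have h8 : y / (2 / γ) = γ / 2 * y := by field_simp
      linarith
    have h6 : 2 * Real.exp 1 * (720 * (2 / γ) ^ 6) ≤ C := by
      rw [hC]
      have h7 : 0 < 2 / γ := by positivity
      have h8 : (0 : ℝ) ≤ n₀ := Nat.cast_nonneg _
      linarith
    calc 2 * (Real.exp 1 * (c : ℝ) ^ n * ((n - 1)! : ℝ) *
            (((1 + θ) / Real.exp 1) ^ (n - 1))⁻¹)
        ≤ 2 * (Real.exp 1 * ((n : ℝ) ^ 2 * Real.exp (-(θ * n / 4))) * K0 n c) := by linarith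
      _ ≤ 2 * (Real.exp 1 * (720 * (2 / γ) ^ 6 * Real.exp (-(γ / 2 * y))) * K0 n c) := by
          gcongr
      _ = 2 * Real.exp 1 * (720 * (2 / γ) ^ 6) * Real.exp (-(γ / 2 * y)) * K0 n c := by ring
      _ ≤ C * Real.exp (-(y / C)) * K0 n c := by gcongr

/-- The number of triples `(p, o, l)` in which the pattern `P` is not realised twice, where `p` is
the parent function of a tree on `V` with root `r`. -/
theorem main_exp (P : Pattern) (hW : WUse P) :
    ∃ C : ℝ, 0 < C ∧ ∀ (V : Type) [Fintype V] (r : V),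
    ({q : (V → V) × (V → Bool) × (V → V) | q.1 ∈ PF r ∧ ¬ Twice P q.1 r q.2.1 q.2.2}.ncard : ℝ) ≤
      C * Real.exp (-((Fintype.card V : ℝ) ^ (1 / 3 : ℝ) / C)) *
        ((Fintype.card V : ℝ) ^ (Fintype.card V - 2) * 2 ^ Fintype.card V *
          (Fintype.card V : ℝ) ^ Fintype.card V) := by
  obtain ⟨C, hC, h⟩ := few_exp P hW
  refine ⟨C, hC, fun V _ r => ?_⟩
  classical
  have h1 := h V r
  have h2 : K0 (Fintype.card V) (Fintype.card (Bool × V)) =
      (Fintype.card V : ℝ) ^ (Fintype.card V - 2) * 2 ^ Fintype.card V *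
          (Fintype.card V : ℝ) ^ Fintype.card V := by
    unfold K0
    rw [Fintype.card_prod, Fintype.card_bool]
    push_cast
    rw [mul_pow, mul_assoc]
  rw [← h2]
  refine le_trans ?_ h1
  have h3 : {q : (V → V) × (V → Bool) × (V → V) | q.1 ∈ PF r ∧ ¬ Twice P q.1 r q.2.1 q.2.2}.ncard ≤
      {ω : (V → V) × (V → Bool × V) | ω.1 ∈ PF r ∧
        ¬ Twice P ω.1 r (fun x => (ω.2 x).1) (fun x => (ω.2 x).2)}.ncard := by
    refine Set.ncard_le_ncard_of_injOn (fun q => (q.1, fun x => (q.2.1 x, q.2.2 x))) ?_ ?_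
      (Set.toFinite _)
    · rintro ⟨p, o, l⟩ hq
      exact hq
    · rintro ⟨p, o, l⟩ _ ⟨p', o', l'⟩ _ he
      simp only [Prod.mk.injEq] at he
      obtain ⟨rfl, he⟩ := he
      have e1 : o = o' := funext fun x => congrArg Prod.fst (congrFun he x)
      have e2 : l = l' := funext fun x => congrArg Prod.snd (congrFun he x)
      rw [e1, e2]
  exact_mod_cast h3

end Pool.Agent.ZO
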