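import Pool.Agent.ZO.KapLow

/-! # Exponential bound: the final estimate -/

set_option autoImplicit false

open scoped BigOperators Nat

namespace Pool.Agent.ZO

theorem fac_le (n : ℕ) (hn : 1 ≤ n) :
    ((n - 1)! : ℝ) * Real.exp 1 ^ (n - 1) ≤ (n : ℝ) ^ 2 * (n : ℝ) ^ (n - 2) := by
  obtain ⟨m, rfl⟩ : ∃ m, n = m + 1 := ⟨n - 1, by omega⟩
  rcases Nat.eq_zero_or_pos m with rfl | hm
  · simp
  · obtain ⟨k, rfl⟩ : ∃ k, m = k + 1 := ⟨m - 1, by omega⟩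
    have h1 := am_lower (k + 1 + 1) (by omega)
    unfold am at h1
    set N : ℕ := k + 1 + 1 with hN
    have hN0 : (0 : ℝ) < N := by positivity
    have hN1 : (1 : ℝ) ≤ N := by exact_mod_cast hn
    have e1 := Real.exp_pos 1
    have hs : 0 < Real.sqrt N := Real.sqrt_pos.2 hN0
    have hs1 : Real.sqrt N ≤ N := by
      rw [Real.sqrt_le_left hN0.le]
      nlinarith
    have hf : (0 : ℝ) < (N ! : ℝ) := by exact_mod_cast Nat.factorial_pos _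
    rw [div_le_div_iff₀ (by positivity) hf] at h1
    have h2 : (N ! : ℝ) = N * ((N - 1)! : ℝ) := by
      rw [hN]
      have : k + 1 + 1 - 1 = k + 1 := by omega
      rw [this, Nat.factorial_succ (k + 1)]
      push_cast
      ring
    have h3 : Real.exp (N : ℝ) = Real.exp 1 * Real.exp 1 ^ (N - 1) := by
      rw [← pow_succ', show N - 1 + 1 = N by omega, ← Real.exp_nat_mul, mul_one]
    have h4 : (N : ℝ) ^ 2 * (N : ℝ) ^ (N - 2) = (N : ℝ) ^ N := by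
      rw [← pow_add]
      congr 1
      omega
    rw [h4]
    rw [h2, h3] at h1
    have h5 : N * (Real.exp 1 * (((N - 1)! : ℝ) * Real.exp 1 ^ (N - 1))) ≤
        N * (Real.exp 1 * (N : ℝ) ^ N) := by
      calc N * (Real.exp 1 * (((N - 1)! : ℝ) * Real.exp 1 ^ (N - 1)))
          = Real.exp 1 * Real.exp 1 ^ (N - 1) * (N * ((N - 1)! : ℝ)) := by ring
        _ ≤ (N : ℝ) ^ N * (Real.exp 1 * Real.sqrt N) := h1
        _ ≤ (N : ℝ) ^ N * (Real.exp 1 * N) := by gcongr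
        _ = _ := by ring
    have h6 := le_of_mul_le_mul_left h5 hN0
    exact le_of_mul_le_mul_left h6 e1

theorem one_add_ge (θ : ℝ) (h0 : 0 ≤ θ) (h1 : θ ≤ 1) : Real.exp (θ / 2) ≤ 1 + θ := by
  have h2 : Real.exp (θ / 2) ≤ 1 / (1 - θ / 2) := by
    have h3 := Real.add_one_le_exp (-(θ / 2))
    rw [Real.exp_neg] at h3
    have h4 : 0 < 1 - θ / 2 := by linarith
    rw [le_div_iff₀ h4]
    have h5 : 0 < Real.exp (θ / 2) := Real.exp_pos _
    have h6 : 1 - θ / 2 ≤ (Real.exp (θ / 2))⁻¹ := by linarith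
    calc Real.exp (θ / 2) * (1 - θ / 2) ≤ Real.exp (θ / 2) * (Real.exp (θ / 2))⁻¹ :=
          mul_le_mul_of_nonneg_left h6 h5.le
      _ = 1 := mul_inv_cancel₀ h5.ne'
  refine h2.trans ?_
  rw [div_le_iff₀ (by linarith)]
  nlinarith

theorem tail_le (n c : ℕ) (hn : 2 ≤ n) (θ : ℝ) (h0 : 0 ≤ θ) (h1 : θ ≤ 1) :
    Real.exp 1 * (c : ℝ) ^ n * ((n - 1)! : ℝ) * (((1 + θ) / Real.exp 1) ^ (n - 1))⁻¹ ≤
      Real.exp 1 * ((n : ℝ) ^ 2 * Real.exp (-(θ * n / 4))) * K0 n c := by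
  have e1 := Real.exp_pos 1
  have hf := fac_le n (by omega)
  have h2 : (((1 + θ) / Real.exp 1) ^ (n - 1))⁻¹ =
      Real.exp 1 ^ (n - 1) * ((1 + θ) ^ (n - 1))⁻¹ := by
    rw [div_pow, inv_div, div_eq_mul_inv]
  have h3 : ((1 + θ) ^ (n - 1))⁻¹ ≤ Real.exp (-(θ * n / 4)) := by
    rw [Real.exp_neg]
    apply inv_anti₀ (Real.exp_pos _)
    calc Real.exp (θ * n / 4) ≤ Real.exp (θ / 2) ^ (n - 1) := by
          rw [← Real.exp_nat_mul]
          apply Real.exp_le_exp.2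
          rw [Nat.cast_sub (by omega)]
          have : (2 : ℝ) ≤ n := by exact_mod_cast hn
          push_cast
          nlinarith
      _ ≤ (1 + θ) ^ (n - 1) := pow_le_pow_left₀ (Real.exp_pos _).le (one_add_ge θ h0 h1) _
  rw [h2]
  unfold K0
  calc Real.exp 1 * (c : ℝ) ^ n * ((n - 1)! : ℝ) *
        (Real.exp 1 ^ (n - 1) * ((1 + θ) ^ (n - 1))⁻¹)
      = Real.exp 1 * (c : ℝ) ^ n * (((n - 1)! : ℝ) * Real.exp 1 ^ (n - 1)) *
          ((1 + θ) ^ (n - 1))⁻¹ := by ring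
    _ ≤ Real.exp 1 * (c : ℝ) ^ n * ((n : ℝ) ^ 2 * (n : ℝ) ^ (n - 2)) *
          Real.exp (-(θ * n / 4)) := by
        have : 0 ≤ 1 + θ := by linarith
        gcongr
    _ = _ := by ring

/-- the polynomial factor -/
theorem poly_le (γ : ℝ) (hγ : 0 < γ) (n : ℕ) (hn : 1 ≤ n) :
    (n : ℝ) ^ 2 * Real.exp (-(γ * (n : ℝ) ^ (1 / 3 : ℝ))) ≤
      720 * (2 / γ) ^ 6 * Real.exp (-(γ / 2 * (n : ℝ) ^ (1 / 3 : ℝ))) := by
  have hn' : (0 : ℝ) < n := by exact_mod_cast hn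
  set y : ℝ := (n : ℝ) ^ (1 / 3 : ℝ) with hy
  have hy0 : 0 < y := Real.rpow_pos_of_pos hn' _
  have hy3 : y ^ 3 = n := by
    rw [hy, ← Real.rpow_natCast, ← Real.rpow_mul hn'.le]
    norm_num
  have h1 := Real.pow_div_factorial_le_exp (γ / 2 * y) (by positivity) 6
  have h2 : ((6 ! : ℕ) : ℝ) = 720 := by norm_num [Nat.factorial]
  rw [h2, div_le_iff₀ (by norm_num)] at h1
  have h3 : (n : ℝ) ^ 2 = (2 / γ) ^ 6 * (γ / 2 * y) ^ 6 := by
    rw [← hy3]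
    field_simp
  have h4 : Real.exp (-(γ * y)) = Real.exp (-(γ / 2 * y)) * Real.exp (-(γ / 2 * y)) := by
    rw [← Real.exp_add]
    congr 1
    ring
  have h5 : Real.exp (γ / 2 * y) * Real.exp (-(γ / 2 * y)) = 1 := by
    rw [← Real.exp_add]
    simp
  rw [h3, h4]
  calc (2 / γ) ^ 6 * (γ / 2 * y) ^ 6 * (Real.exp (-(γ / 2 * y)) * Real.exp (-(γ / 2 * y)))
      ≤ (2 / γ) ^ 6 * (Real.exp (γ / 2 * y) * 720) *
          (Real.exp (-(γ / 2 * y)) * Real.exp (-(γ / 2 * y))) := by gcongr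
    _ = 720 * (2 / γ) ^ 6 * (Real.exp (γ / 2 * y) * Real.exp (-(γ / 2 * y))) *
          Real.exp (-(γ / 2 * y)) := by ring
    _ = _ := by rw [h5]; ring

/-- small numbers of vertices -/
theorem small_le (C : ℝ) (n : ℕ) (hn : 1 ≤ n) (hC : 3 * (n : ℝ) ≤ C) :
    1 ≤ C * Real.exp (-((n : ℝ) ^ (1 / 3 : ℝ) / C)) := by
  have hn1 : (1 : ℝ) ≤ n := by exact_mod_cast hn
  have hC0 : 0 < C := by linarith
  have h1 : (n : ℝ) ^ (1 / 3 : ℝ) ≤ n := by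
    conv_rhs => rw [← Real.rpow_one (n : ℝ)]
    exact Real.rpow_le_rpow_of_exponent_le hn1 (by norm_num)
  have h2 : (n : ℝ) ^ (1 / 3 : ℝ) / C ≤ 1 / 3 := by
    rw [div_le_iff₀ hC0]
    linarith
  have h3 := Real.add_one_le_exp (-((n : ℝ) ^ (1 / 3 : ℝ) / C))
  have h4 : 2 / 3 ≤ Real.exp (-((n : ℝ) ^ (1 / 3 : ℝ) / C)) := by linarith
  nlinarith

end Pool.Agent.ZO
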