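import Pool.Agent.ZO.ExTree

/-!
# Exponential bound: the recursion
-/

set_option autoImplicit false

open scoped BigOperators

namespace Pool.Agent.ZO

open Pool.Agent.GX

variable {V C : Type} [Fintype V] [Fintype C] [DecidableEq V]

theorem indep (D : Finset V) (F G : (V → C) → ℝ)
    (hF : ∀ d d' : V → C, (∀ x ∈ D, d x = d' x) → F d = F d')
    (hG : ∀ d d' : V → C, (∀ x, x ∉ D → d x = d' x) → G d = G d') :
    (Fintype.card (V → C) : ℝ) * ∑ d, F d * G d = (∑ d, F d) * ∑ d, G d := by
  classical
  let Φ : (V → C) × (V → C) → (V → C) × (V → C) := fun q =>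
    (D.piecewise q.1 q.2, D.piecewise q.2 q.1)
  have hΦ : Function.Involutive Φ := by
    rintro ⟨d, d'⟩
    refine Prod.ext ?_ ?_
    · funext x
      by_cases hx : x ∈ D <;> simp [Φ, hx]
    · funext x
      by_cases hx : x ∈ D <;> simp [Φ, hx]
  calc (Fintype.card (V → C) : ℝ) * ∑ d, F d * G d
      = ∑ q : (V → C) × (V → C), F q.1 * G q.1 := by
        rw [Fintype.sum_prod_type, Finset.mul_sum]
        refine Finset.sum_congr rfl fun d _ => ?_
        simp only [Finset.sum_const, nsmul_eq_mul, Finset.card_univ]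
    _ = ∑ q : (V → C) × (V → C), F (Φ q).1 * G (Φ q).1 :=
        (Equiv.sum_comp hΦ.toPerm (fun q : (V → C) × (V → C) => F q.1 * G q.1)).symm
    _ = ∑ q : (V → C) × (V → C), F q.1 * G q.2 := by
        refine Finset.sum_congr rfl fun q _ => ?_
        congr 1
        · refine hF _ _ fun x hx => ?_
          simp [Φ, hx]
        · refine hG _ _ fun x hx => ?_
          simp [Φ, hx]
    _ = (∑ d, F d) * ∑ d, G d := by
        rw [Finset.sum_mul_sum, Fintype.sum_prod_type]

/-- locality of the success at a vertex -/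
def Loc (S : (V → V) → V → (V → C) → Prop) : Prop :=
  ∀ (B B' : Finset V) (a a' : V) (g g' : V → V) (u : V) (d d' : V → C), TB B a g → TB B' a' g' →
    u ∈ B → u ∈ B' → below g u = below g' u →
    (∀ x ∈ below g u, x ≠ u → g x = g' x ∧ d x = d' x) → S g u d → S g' u d'

open Classical in
/-- the number of elements of `U` with the property `p` -/
noncomputable def cnt {V : Type} (U : Finset V) (p : V → Prop) : ℕ := (U.filter p).card

theorem cnt_congr {V : Type} {U : Finset V} {p q : V → Prop} (h : ∀ x ∈ U, (p x ↔ q x)) :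
    cnt U p = cnt U q := by
  classical
  unfold cnt
  congr 1
  exact Finset.filter_congr h

theorem cnt_union {V : Type} [DecidableEq V] {U U' : Finset V} (p : V → Prop)
    (h : Disjoint U U') : cnt (U ∪ U') p = cnt U p + cnt U' p := by
  classical
  unfold cnt
  rw [Finset.filter_union, Finset.card_union_of_disjoint (Finset.disjoint_filter_filter h)]

/-- the weight of a tree: the sum over the decorations -/
noncomputable def Wt (S : (V → V) → V → (V → C) → Prop) (t : ℝ) (U : Finset V) (g : V → V) : ℝ :=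
  ∑ d : V → C, t ^ cnt U fun u => S g u d

open Classical in
/-- the trees on `B` with root `a` -/
noncomputable def TBs (B : Finset V) (a : V) : Finset (V → V) := Finset.univ.filter fun g => TB B a g

theorem mem_TBs {B : Finset V} {a : V} {g : V → V} : g ∈ TBs B a ↔ TB B a g := by
  classical
  unfold TBs
  rw [Finset.mem_filter]
  exact and_iff_right (Finset.mem_univ _)

/-- the weighted number of trees, without the root -/
noncomputable def Wb (S : (V → V) → V → (V → C) → Prop) (t : ℝ) (B : Finset V)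
    (a : V) : ℝ :=
  ∑ g ∈ TBs B a, Wt S t (B.erase a) g

/-- the weighted number of trees, with the root -/
noncomputable def WR (S : (V → V) → V → (V → C) → Prop) (t : ℝ) (B : Finset V) (a : V) : ℝ :=
  ∑ g ∈ TBs B a, Wt S t B g

theorem Wt_nonneg (S : (V → V) → V → (V → C) → Prop) {t : ℝ} (ht : 0 ≤ t) (U : Finset V)
    (g : V → V) : 0 ≤ Wt S t U g := Finset.sum_nonneg fun _ _ => pow_nonneg ht _

theorem Wb_nonneg (S : (V → V) → V → (V → C) → Prop) {t : ℝ} (ht : 0 ≤ t) (B : Finset V) (a : V) :
    0 ≤ Wb S t B a := Finset.sum_nonneg fun _ _ => Wt_nonneg S ht _ _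

theorem WR_nonneg (S : (V → V) → V → (V → C) → Prop) {t : ℝ} (ht : 0 ≤ t) (B : Finset V) (a : V) :
    0 ≤ WR S t B a := Finset.sum_nonneg fun _ _ => Wt_nonneg S ht _ _

theorem Wt_split {S : (V → V) → V → (V → C) → Prop} (hS : Loc S) (t : ℝ)
    {B : Finset V} {a u : V} {g : V → V} (h : TB B a g) (hu : u ∈ B) (hua : u ≠ a) (hga : g u = a) :
    (Fintype.card (V → C) : ℝ) * Wt S t (B.erase a) g =
      Wt S t (bel g u) (gin g u) * Wt S t ((B \ bel g u).erase a) (gex g u) := by
  classical
  have hD : TB (bel g u) u (gin g u) := tb_gin g u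
  have hE : TB (B \ bel g u) a (gex g u) := h.gex hua
  have hbelB : ∀ x, x ∈ below g u → x ∈ B := fun x hx => h.below_sub hu hx
  -- success in the branch
  have hin : ∀ w ∈ bel g u, ∀ d : V → C, S g w d ↔ S (gin g u) w d := by
    intro w hw d
    have hw' := mem_bel.1 hw
    have hb : below g w = below (gin g u) w := (below_gin h hu hw').symm
    have hx : ∀ x ∈ below g w, x ≠ w → g x = gin g u x := by
      intro x hx hxw
      have hxu : x ∈ below g u := below_trans' hx hw'
      have hne : x ≠ u := by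
        rintro rfl
        obtain ⟨i, hi⟩ := hx
        obtain ⟨j, hj⟩ := hw'
        exact hxw (h.antisymm hu hi hj)
      exact (gin_eq hxu hne).symm
    constructor
    · exact hS B _ a u g _ w d d h hD (hbelB w hw') hw hb fun x h1 h2 => ⟨hx x h1 h2, rfl⟩
    · refine hS _ B u a _ g w d d hD h hw (hbelB w hw') hb.symm fun x h1 h2 => ?_
      rw [← hb] at h1
      exact ⟨(hx x h1 h2).symm, rfl⟩
  -- success outside the branch
  have hex : ∀ w ∈ (B \ bel g u).erase a, ∀ d : V → C, S g w d ↔ S (gex g u) w d := by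
    intro w hw d
    rw [Finset.mem_erase] at hw
    have hwB : w ∈ B := (Finset.mem_sdiff.1 hw.2).1
    have hwu : w ∉ below g u := fun h' => (Finset.mem_sdiff.1 hw.2).2 (mem_bel.2 h')
    have hb : below g w = below (gex g u) w := (below_gex h hga hwu hw.1).symm
    have hx : ∀ x ∈ below g w, x ≠ w → g x = gex g u x := by
      intro x hx _
      exact (gex_eq (notMem_below_of_ext h hga hwu hw.1 hx)).symm
    constructor
    · exact hS B _ a a g _ w d d h hE hwB hw.2 hb fun x h1 h2 => ⟨hx x h1 h2, rfl⟩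
    · refine hS _ B a a _ g w d d hE h hw.2 hwB hb.symm fun x h1 h2 => ?_
      rw [← hb] at h1
      exact ⟨(hx x h1 h2).symm, rfl⟩
  have hcard : ∀ d : V → C, (cnt (B.erase a) fun w => S g w d) =
      (cnt (bel g u) fun w => S (gin g u) w d) +
        cnt ((B \ bel g u).erase a) fun w => S (gex g u) w d := by
    intro d
    have hun : B.erase a = bel g u ∪ (B \ bel g u).erase a := by
      ext x
      rw [Finset.mem_union, Finset.mem_erase, Finset.mem_erase, Finset.mem_sdiff, mem_bel]
      constructor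
      · rintro ⟨h1, h2⟩
        by_cases h3 : x ∈ below g u
        · exact Or.inl h3
        · exact Or.inr ⟨h1, h2, h3⟩
      · rintro (h1 | ⟨h1, h2, _⟩)
        · exact ⟨fun h2 => h.root_notMem hua (h2 ▸ h1), hbelB x h1⟩
        · exact ⟨h1, h2⟩
    have hdis : Disjoint (bel g u) ((B \ bel g u).erase a) := by
      rw [Finset.disjoint_left]
      intro x h1 h2
      exact (Finset.mem_sdiff.1 (Finset.mem_erase.1 h2).2).2 h1
    rw [hun, cnt_union _ hdis, cnt_congr fun w hw => hin w hw d, cnt_congr fun w hw => hex w hw d]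
  unfold Wt
  rw [← indep (bel g u) (fun d => t ^ cnt (bel g u) fun w => S (gin g u) w d)
    (fun d => t ^ cnt ((B \ bel g u).erase a) fun w => S (gex g u) w d)]
  · congr 1
    refine Finset.sum_congr rfl fun d _ => ?_
    rw [← pow_add, ← hcard d]
  · intro d d' hd
    have : (cnt (bel g u) fun w => S (gin g u) w d) = cnt (bel g u) fun w => S (gin g u) w d' := by
      apply cnt_congr
      intro w hw
      have hb := below_gin h hu (mem_bel.1 hw)
      constructor
      · refine hS _ _ u u _ _ w d d' hD hD hw hw rfl fun x h1 _ => ⟨rfl, hd x ?_⟩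
        rw [hb] at h1
        exact mem_bel.2 (below_trans' h1 (mem_bel.1 hw))
      · refine hS _ _ u u _ _ w d' d hD hD hw hw rfl fun x h1 _ => ⟨rfl, (hd x ?_).symm⟩
        rw [hb] at h1
        exact mem_bel.2 (below_trans' h1 (mem_bel.1 hw))
    simp only [this]
  · intro d d' hd
    have : (cnt ((B \ bel g u).erase a) fun w => S (gex g u) w d) =
        cnt ((B \ bel g u).erase a) fun w => S (gex g u) w d' := by
      apply cnt_congr
      intro w hw
      rw [Finset.mem_erase] at hw
      have hwu : w ∉ below g u := fun h' => (Finset.mem_sdiff.1 hw.2).2 (mem_bel.2 h')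
      have hwE : w ∈ B \ bel g u := hw.2
      have hb := below_gex h hga hwu hw.1
      constructor
      · refine hS _ _ a a _ _ w d d' hE hE hwE hwE rfl fun x h1 _ => ⟨rfl, hd x ?_⟩
        rw [hb] at h1
        exact fun h2 => notMem_below_of_ext h hga hwu hw.1 h1 (mem_bel.1 h2)
      · refine hS _ _ a a _ _ w d' d hE hE hwE hwE rfl fun x h1 _ => ⟨rfl, (hd x ?_).symm⟩
        rw [hb] at h1
        exact fun h2 => notMem_below_of_ext h hga hwu hw.1 h1 (mem_bel.1 h2)
    simp only [this]

/-- the recursion -/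
theorem rec_le {S : (V → V) → V → (V → C) → Prop} (hS : Loc S) {t : ℝ}
    (ht : 0 ≤ t) {B : Finset V} {a v : V} (hv : v ∈ B) (hva : v ≠ a) :
    (Fintype.card (V → C) : ℝ) * Wb S t B a ≤
      ∑ D ∈ (B.erase a).powerset.filter (fun D => v ∈ D), (∑ u ∈ D, WR S t D u) *
        Wb S t (B \ D) a := by
  classical
  -- the child of the root above `v`
  let uu : (V → V) → V := fun g => if h : TB B a g then (h.exists_child hv hva).choose else a
  have huu : ∀ g, TB B a g → uu g ∈ B ∧ uu g ≠ a ∧ g (uu g) = a ∧ v ∈ below g (uu g) := by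
    intro g h
    have : uu g = (h.exists_child hv hva).choose := dif_pos h
    rw [this]
    exact (h.exists_child hv hva).choose_spec
  let J : Finset (Σ _ : Finset V, Σ _ : V, (V → V) × (V → V)) :=
    ((B.erase a).powerset.filter (fun D => v ∈ D)).sigma fun D =>
      D.sigma fun u => TBs D u ×ˢ TBs (B \ D) a
  let f : (Σ _ : Finset V, Σ _ : V, (V → V) × (V → V)) → ℝ := fun j =>
    Wt S t j.1 j.2.2.1 * Wt S t ((B \ j.1).erase a) j.2.2.2
  let φ : (V → V) → (Σ _ : Finset V, Σ _ : V, (V → V) × (V → V)) := fun g =>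
    ⟨bel g (uu g), uu g, (gin g (uu g), gex g (uu g))⟩
  have hR : ∑ D ∈ (B.erase a).powerset.filter (fun D => v ∈ D), (∑ u ∈ D, WR S t D u) *
        Wb S t (B \ D) a = ∑ j ∈ J, f j := by
    rw [Finset.sum_sigma]
    refine Finset.sum_congr rfl fun D _ => ?_
    rw [Finset.sum_sigma, Finset.sum_mul]
    refine Finset.sum_congr rfl fun u _ => ?_
    rw [Finset.sum_product, WR, Wb, Finset.sum_mul_sum]
  have hmap : ∀ g ∈ TBs B a, φ g ∈ J := by
    intro g hg
    have h := mem_TBs.1 hg
    obtain ⟨h1, h2, h3, h4⟩ := huu g h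
    rw [Finset.mem_sigma, Finset.mem_filter, Finset.mem_powerset, Finset.mem_sigma,
      Finset.mem_product]
    refine ⟨⟨?_, mem_bel.2 h4⟩, mem_bel.2 (self_below _), mem_TBs.2 (tb_gin g _),
      mem_TBs.2 (h.gex h2)⟩
    intro x hx
    rw [Finset.mem_erase]
    have hx' := mem_bel.1 hx
    exact ⟨fun h5 => h.root_notMem h2 (h5 ▸ hx'), h.below_sub h1 hx'⟩
  have hinj : Set.InjOn φ (TBs B a : Set (V → V)) := by
    intro g hg g' hg' he
    have h := mem_TBs.1 (Finset.mem_coe.1 hg)
    have h' := mem_TBs.1 (Finset.mem_coe.1 hg')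
    obtain ⟨_, h2, h3, _⟩ := huu g h
    obtain ⟨_, h2', h3', _⟩ := huu g' h'
    simp only [φ, Sigma.mk.injEq, heq_eq_eq, Prod.mk.injEq] at he
    obtain ⟨e1, e2, e3, e4⟩ := he
    funext x
    by_cases hx : x ∈ bel g (uu g)
    · by_cases hxu : x = uu g
      · rw [hxu, h3, e2, h3']
      · have hx' : x ∈ bel g' (uu g') := e1 ▸ hx
        have hxu' : x ≠ uu g' := e2 ▸ hxu
        have := congrFun e3 x
        rw [gin_eq (mem_bel.1 hx) hxu, gin_eq (mem_bel.1 hx') hxu'] at this
        exact this
    · have hx' : x ∉ bel g' (uu g') := e1 ▸ hx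
      have := congrFun e4 x
      rw [gex_eq (fun h => hx (mem_bel.2 h)), gex_eq (fun h => hx' (mem_bel.2 h))] at this
      exact this
  rw [hR, Wb, Finset.mul_sum]
  have hL : ∀ g ∈ TBs B a, (Fintype.card (V → C) : ℝ) * Wt S t (B.erase a) g = f (φ g) := by
    intro g hg
    have h := mem_TBs.1 hg
    obtain ⟨h1, h2, h3, h4⟩ := huu g h
    have h5 := Wt_split hS t h h1 h2 h3
    exact h5
  rw [Finset.sum_congr rfl hL, ← Finset.sum_image (f := f) hinj]
  refine Finset.sum_le_sum_of_subset_of_nonneg ?_ ?_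
  · intro j hj
    obtain ⟨g, hg, rfl⟩ := Finset.mem_image.1 hj
    exact hmap g hg
  · intro j _ _
    exact mul_nonneg (Wt_nonneg S ht _ _) (Wt_nonneg S ht _ _)

end Pool.Agent.ZO
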