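import Pool.Agent.ZO.ExRec

/-!
# Exponential bound: symmetry and the numerical recursion
-/

set_option autoImplicit false

open scoped BigOperators Nat

namespace Pool.Agent.ZO

open Pool.Agent.GX

variable {V C : Type} [Fintype V] [Fintype C] [DecidableEq V]

/-- conjugation of functions by a permutation -/
def cj {V : Type} (σ : Equiv.Perm V) : (V → V) ≃ (V → V) where
  toFun g := fun y => σ (g (σ.symm y))
  invFun g := fun y => σ.symm (g (σ y))
  left_inv g := by funext y; simp
  right_inv g := by funext y; simp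

omit [Fintype V] [DecidableEq V] in
theorem cj_iter (σ : Equiv.Perm V) (g : V → V) (m : ℕ) (x : V) :
    (cj σ g)^[m] (σ x) = σ (g^[m] x) := by
  induction m with
  | zero => rfl
  | succ m ih =>
    rw [Function.iterate_succ_apply', Function.iterate_succ_apply', ih]
    simp [cj]

/-- invariance under permutations -/
def Eqv (S : (V → V) → V → (V → C) → Prop) (act : Equiv.Perm V → ((V → C) ≃ (V → C))) : Prop :=
  ∀ (σ : Equiv.Perm V) (g : V → V) (u : V) (d : V → C), S (cj σ g) (σ u) (act σ d) ↔ S g u d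

omit [Fintype V] [DecidableEq V] in
theorem TB.cj {B : Finset V} {a : V} {g : V → V} (h : TB B a g) (σ : Equiv.Perm V) :
    TB (B.map σ.toEmbedding) (σ a) (cj σ g) where
  aB := Finset.mem_map_of_mem _ h.aB
  root := by simp [ZO.cj, h.root]
  mem := by
    intro x hx
    rw [Finset.mem_map] at hx
    obtain ⟨y, hy, rfl⟩ := hx
    rw [Finset.mem_map]
    exact ⟨g y, h.mem y hy, by simp [ZO.cj]⟩
  reach := by
    intro x hx
    rw [Finset.mem_map] at hx
    obtain ⟨y, hy, rfl⟩ := hx
    obtain ⟨m, hm⟩ := h.reach y hy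
    exact ⟨m, by
      show (ZO.cj σ g)^[m] (σ y) = σ a
      rw [cj_iter, hm]⟩
  out := by
    intro x hx
    have h1 : σ.symm x ∉ B := by
      intro h1
      apply hx
      rw [Finset.mem_map]
      exact ⟨σ.symm x, h1, by simp⟩
    show σ (g (σ.symm x)) = x
    rw [h.out _ h1, Equiv.apply_symm_apply]

omit [Fintype V] [DecidableEq V] in
theorem cj_symm_cj (σ : Equiv.Perm V) (g : V → V) : cj σ.symm (cj σ g) = g := by
  funext y
  simp [cj]

omit [Fintype V] [DecidableEq V] in
theorem map_symm_map (σ : Equiv.Perm V) (B : Finset V) :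
    (B.map σ.toEmbedding).map σ.symm.toEmbedding = B := by
  ext x
  simp

theorem cnt_map {V : Type} (σ : Equiv.Perm V) (U : Finset V) (p : V → Prop) :
    cnt (U.map σ.toEmbedding) p = cnt U fun x => p (σ x) := by
  classical
  unfold cnt
  rw [Finset.filter_map, Finset.card_map]
  rfl

theorem Wt_cj {S : (V → V) → V → (V → C) → Prop} {act : Equiv.Perm V → ((V → C) ≃ (V → C))}
    (hE : Eqv S act) (t : ℝ) (U : Finset V) (g : V → V) (σ : Equiv.Perm V) :
    Wt S t (U.map σ.toEmbedding) (cj σ g) = Wt S t U g := by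
  unfold Wt
  rw [← Equiv.sum_comp (act σ)]
  refine Finset.sum_congr rfl fun d _ => ?_
  congr 1
  rw [cnt_map]
  exact cnt_congr fun u _ => hE σ g u d

theorem Wb_cj {S : (V → V) → V → (V → C) → Prop} {act : Equiv.Perm V → ((V → C) ≃ (V → C))}
    (hE : Eqv S act) (t : ℝ) (B : Finset V) (a : V) (σ : Equiv.Perm V) :
    Wb S t (B.map σ.toEmbedding) (σ a) = Wb S t B a := by
  unfold Wb
  symm
  refine Finset.sum_equiv (cj σ) (fun g => ?_) fun g _ => ?_
  · rw [mem_TBs, mem_TBs]
    constructor
    · exact fun h => h.cj σ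
    · intro h
      have h2 := h.cj σ.symm
      rw [cj_symm_cj, map_symm_map, Equiv.symm_apply_apply] at h2
      exact h2
  · rw [← Wt_cj hE t (B.erase a) g σ, Finset.map_erase]
    rfl

theorem WR_cj {S : (V → V) → V → (V → C) → Prop} {act : Equiv.Perm V → ((V → C) ≃ (V → C))}
    (hE : Eqv S act) (t : ℝ) (B : Finset V) (a : V) (σ : Equiv.Perm V) :
    WR S t (B.map σ.toEmbedding) (σ a) = WR S t B a := by
  unfold WR
  symm
  refine Finset.sum_equiv (cj σ) (fun g => ?_) fun g _ => ?_
  · rw [mem_TBs, mem_TBs]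
    constructor
    · exact fun h => h.cj σ
    · intro h
      have h2 := h.cj σ.symm
      rw [cj_symm_cj, map_symm_map, Equiv.symm_apply_apply] at h2
      exact h2
  · rw [Wt_cj hE t B g σ]

/-- the number of successes at the root -/
noncomputable def NS (S : (V → V) → V → (V → C) → Prop) (B : Finset V) (a : V) : ℝ :=
  ∑ g ∈ TBs B a, (({d : V → C | S g a d}.ncard : ℕ) : ℝ)

omit [Fintype C] in
theorem NS_cj {S : (V → V) → V → (V → C) → Prop} {act : Equiv.Perm V → ((V → C) ≃ (V → C))}
    (hE : Eqv S act) (B : Finset V) (a : V) (σ : Equiv.Perm V) :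
    NS S (B.map σ.toEmbedding) (σ a) = NS S B a := by
  unfold NS
  symm
  refine Finset.sum_equiv (cj σ) (fun g => ?_) fun g _ => ?_
  · rw [mem_TBs, mem_TBs]
    constructor
    · exact fun h => h.cj σ
    · intro h
      have h2 := h.cj σ.symm
      rw [cj_symm_cj, map_symm_map, Equiv.symm_apply_apply] at h2
      exact h2
  · congr 1
    have : {d : V → C | S (cj σ g) (σ a) d} = act σ '' {d : V → C | S g a d} := by
      ext d
      constructor
      · intro h
        refine ⟨(act σ).symm d, ?_, Equiv.apply_symm_apply _ _⟩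
        have h2 := (hE σ g a ((act σ).symm d)).1
        rw [Equiv.apply_symm_apply] at h2
        exact h2 h
      · rintro ⟨d', h, rfl⟩
        exact (hE σ g a d').2 h
    rw [this, Set.ncard_image_of_injective _ (act σ).injective]

omit [Fintype V] in
theorem exists_perm [Finite V] {B B' : Finset V} {a a' : V} (ha : a ∈ B) (ha' : a' ∈ B')
    (hc : B.card = B'.card) : ∃ σ : Equiv.Perm V, B.map σ.toEmbedding = B' ∧ σ a = a' := by
  classical
  have e : {x // x ∈ B} ≃ {x // x ∈ B'} := Finset.equivOfCardEq hc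
  let e' : {x // x ∈ B} ≃ {x // x ∈ B'} := e.trans (Equiv.swap (e ⟨a, ha⟩) ⟨a', ha'⟩)
  have h1 : e' ⟨a, ha⟩ = ⟨a', ha'⟩ := by
    simp [e']
  refine ⟨e'.extendSubtype, ?_, ?_⟩
  · ext y
    rw [Finset.mem_map]
    constructor
    · rintro ⟨x, hx, rfl⟩
      exact e'.extendSubtype_mem x hx
    · intro hy
      refine ⟨(e'.symm ⟨y, hy⟩).1, (e'.symm ⟨y, hy⟩).2, ?_⟩
      show e'.extendSubtype (e'.symm ⟨y, hy⟩).1 = y
      rw [e'.extendSubtype_apply_of_mem _ (e'.symm ⟨y, hy⟩).2]
      simp
  · rw [e'.extendSubtype_apply_of_mem _ ha, h1]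

open Classical in
/-- a function of a pointed set that depends only on the number of elements -/
noncomputable def num (F : Finset V → V → ℝ) (k : ℕ) : ℝ :=
  if h : ∃ q : Finset V × V, q.2 ∈ q.1 ∧ q.1.card = k then F h.choose.1 h.choose.2 else 0

theorem num_eq {F : Finset V → V → ℝ}
    (hF : ∀ (B : Finset V) (a : V) (σ : Equiv.Perm V), F (B.map σ.toEmbedding) (σ a) = F B a)
    {B : Finset V} {a : V} (ha : a ∈ B) : F B a = num F B.card := by
  classical
  have h : ∃ q : Finset V × V, q.2 ∈ q.1 ∧ q.1.card = B.card := ⟨(B, a), ha, rfl⟩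
  unfold num
  rw [dif_pos h]
  obtain ⟨h1, h2⟩ := h.choose_spec
  obtain ⟨σ, hσ, hσa⟩ := exists_perm h1 ha h2
  have h3 := hF h.choose.1 h.choose.2 σ
  rw [hσ, hσa] at h3
  exact h3

theorem num_nonneg {F : Finset V → V → ℝ} (h0 : ∀ B a, 0 ≤ F B a) (k : ℕ) : 0 ≤ num F k := by
  unfold num
  split_ifs
  · exact h0 _ _
  · exact le_rfl

omit [Fintype V] in
theorem sum_contains {A : Finset V} {v : V} (hv : v ∈ A) (F : ℕ → ℝ) :
    ∑ D ∈ A.powerset.filter (fun D => v ∈ D), F D.card =
      ∑ j ∈ Finset.range A.card, ((A.card - 1).choose j : ℝ) * F (j + 1) := by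
  have h1 : ∑ D ∈ A.powerset.filter (fun D => v ∈ D), F D.card =
      ∑ D ∈ (A.erase v).powerset, F (D.card + 1) := by
    refine Finset.sum_bij' (fun D _ => D.erase v) (fun D _ => insert v D) ?_ ?_ ?_ ?_ ?_
    · intro D hD
      rw [Finset.mem_filter, Finset.mem_powerset] at hD
      rw [Finset.mem_powerset]
      exact Finset.erase_subset_erase _ hD.1
    · intro D hD
      rw [Finset.mem_powerset] at hD
      rw [Finset.mem_filter, Finset.mem_powerset]
      refine ⟨?_, Finset.mem_insert_self _ _⟩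
      intro x hx
      rw [Finset.mem_insert] at hx
      rcases hx with rfl | hx
      · exact hv
      · exact Finset.mem_of_mem_erase (hD hx)
    · intro D hD
      rw [Finset.mem_filter] at hD
      exact Finset.insert_erase hD.2
    · intro D hD
      rw [Finset.mem_powerset] at hD
      exact Finset.erase_insert fun h => Finset.notMem_erase v A (hD h)
    · intro D hD
      rw [Finset.mem_filter] at hD
      rw [Finset.card_erase_of_mem hD.2,
        Nat.sub_add_cancel (Finset.card_pos.2 ⟨v, hD.2⟩)]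
  rw [h1, Finset.sum_powerset_apply_card (fun s => F (s + 1)), Finset.card_erase_of_mem hv,
    Nat.sub_add_cancel (Finset.card_pos.2 ⟨v, hv⟩)]
  exact Finset.sum_congr rfl fun j _ => by rw [nsmul_eq_mul]

/-- the numerical recursion -/
theorem rec_num {S : (V → V) → V → (V → C) → Prop} {act : Equiv.Perm V → ((V → C) ≃ (V → C))}
    (hS : Loc S) (hE : Eqv S act) {t : ℝ} (ht : 0 ≤ t) (m : ℕ) :
    (Fintype.card (V → C) : ℝ) * num (Wb S t) (m + 2) ≤
      ∑ j ∈ Finset.range (m + 1), (m.choose j : ℝ) *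
        (((j + 1 : ℕ) : ℝ) * num (WR S t) (j + 1) * num (Wb S t) (m + 1 - j)) := by
  classical
  by_cases hm : m + 2 ≤ Fintype.card V
  · obtain ⟨B, _, hB⟩ := Finset.exists_subset_card_eq (s := (Finset.univ : Finset V)) hm
    obtain ⟨a, ha⟩ : B.Nonempty := Finset.card_pos.1 (by omega)
    have hB1 : (B.erase a).card = m + 1 := by rw [Finset.card_erase_of_mem ha, hB]; omega
    obtain ⟨v, hv⟩ : (B.erase a).Nonempty := Finset.card_pos.1 (by omega)
    rw [← hB, ← num_eq (fun B a σ => Wb_cj hE t B a σ) ha]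
    refine (rec_le hS ht (Finset.mem_of_mem_erase hv) (Finset.ne_of_mem_erase hv)).trans
      (le_of_eq ?_)
    have h1 : ∀ D ∈ (B.erase a).powerset.filter (fun D => v ∈ D),
        (∑ u ∈ D, WR S t D u) * Wb S t (B \ D) a =
          (fun s : ℕ => (s : ℝ) * num (WR S t) s * num (Wb S t) (m + 2 - s)) D.card := by
      intro D hD
      rw [Finset.mem_filter, Finset.mem_powerset] at hD
      have h2 : ∀ u ∈ D, WR S t D u = num (WR S t) D.card := fun u hu =>
        num_eq (fun B a σ => WR_cj hE t B a σ) hu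
      have hDB : D ⊆ B := fun x hx => Finset.mem_of_mem_erase (hD.1 hx)
      have haD : a ∈ B \ D := by
        rw [Finset.mem_sdiff]
        exact ⟨ha, fun h => Finset.notMem_erase a B (hD.1 h)⟩
      rw [Finset.sum_congr rfl h2, Finset.sum_const, nsmul_eq_mul,
        num_eq (fun B a σ => Wb_cj hE t B a σ) haD, Finset.card_sdiff_of_subset hDB, hB]
    rw [Finset.sum_congr rfl h1,
      sum_contains hv (fun s : ℕ => (s : ℝ) * num (WR S t) s * num (Wb S t) (m + 2 - s)), hB1]
    refine Finset.sum_congr rfl fun j hj => ?_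
    have e1 : m + 1 - 1 = m := by omega
    have e2 : m + 2 - (j + 1) = m + 1 - j := by omega
    simp only [e1, e2]
  · have h0 : num (Wb S t) (m + 2) = 0 := by
      unfold num
      rw [dif_neg]
      rintro ⟨q, _, hq⟩
      have := Finset.card_le_univ q.1
      omega
    rw [h0, mul_zero]
    refine Finset.sum_nonneg fun j _ => mul_nonneg (Nat.cast_nonneg _) (mul_nonneg (mul_nonneg
      (Nat.cast_nonneg _) (num_nonneg (fun B a => WR_nonneg S ht B a) _))
      (num_nonneg (fun B a => Wb_nonneg S ht B a) _))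

/-- successes at the root -/
theorem WR_le {S : (V → V) → V → (V → C) → Prop} {t : ℝ}
    (hD : ∀ (B : Finset V) (a : V) (g : V → V) (u u' : V) (d : V → C), TB B a g → u ∈ B → u' ∈ B →
      u ≠ u' → S g u d → S g u' d → Disjoint (below g u) (below g u'))
    (B : Finset V) (a : V) : WR S t B a ≤ Wb S t B a - (1 - t) * NS S B a := by
  classical
  unfold WR Wb NS
  rw [Finset.mul_sum, ← Finset.sum_sub_distrib]
  refine Finset.sum_le_sum fun g hg => ?_
  have h := mem_TBs.1 hg
  have hN : (({d : V → C | S g a d}.ncard : ℕ) : ℝ) = ∑ d : V → C, if S g a d then (1 : ℝ) else 0 := by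
    rw [Finset.sum_boole, Set.ncard_eq_toFinset_card']
    congr 2
    ext d
    simp
  rw [hN, Finset.mul_sum]
  unfold Wt
  rw [← Finset.sum_sub_distrib]
  refine Finset.sum_le_sum fun d _ => ?_
  have hB : B = {a} ∪ B.erase a := by
    ext x
    rw [Finset.mem_union, Finset.mem_singleton, Finset.mem_erase]
    constructor
    · intro hx
      by_cases hxa : x = a
      · exact Or.inl hxa
      · exact Or.inr ⟨hxa, hx⟩
    · rintro (rfl | ⟨_, hx⟩)
      · exact h.aB
      · exact hx
  have hdis : Disjoint ({a} : Finset V) (B.erase a) := by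
    rw [Finset.disjoint_singleton_left]
    exact Finset.notMem_erase a B
  have hc : (cnt B fun u => S g u d) = (cnt {a} fun u => S g u d) +
      cnt (B.erase a) fun u => S g u d := by
    conv_lhs => rw [hB]
    exact cnt_union _ hdis
  by_cases hSa : S g a d
  · have h1 : (cnt {a} fun u => S g u d) = 1 := by
      unfold cnt
      rw [Finset.filter_singleton, if_pos hSa, Finset.card_singleton]
    have h2 : (cnt (B.erase a) fun u => S g u d) = 0 := by
      unfold cnt
      rw [Finset.card_eq_zero, Finset.filter_eq_empty_iff]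
      intro u hu hSu
      rw [Finset.mem_erase] at hu
      have h3 := hD B a g u a d h hu.2 h.aB hu.1 hSu hSa
      obtain ⟨m, hm⟩ := h.reach u hu.2
      exact Set.disjoint_left.1 h3 (self_below u) ⟨m, hm⟩
    rw [hc, h1, h2, if_pos hSa]
    simp
  · have h1 : (cnt {a} fun u => S g u d) = 0 := by
      unfold cnt
      rw [Finset.filter_singleton, if_neg hSa, Finset.card_empty]
    rw [hc, h1, if_neg hSa, zero_add, mul_zero, sub_zero]

theorem Wb_le {S : (V → V) → V → (V → C) → Prop} {t : ℝ} (ht : 0 ≤ t) (ht1 : t ≤ 1)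
    (B : Finset V) (a : V) : Wb S t B a ≤ (TBs B a).card * (Fintype.card (V → C) : ℝ) := by
  unfold Wb
  have h1 : ∀ g ∈ TBs B a, Wt S t (B.erase a) g ≤ (Fintype.card (V → C) : ℝ) := by
    intro g _
    unfold Wt
    calc ∑ d : V → C, t ^ (cnt (B.erase a) fun u => S g u d) ≤ ∑ _d : V → C, (1 : ℝ) :=
          Finset.sum_le_sum fun d _ => pow_le_one₀ ht ht1
      _ = _ := by simp
  refine (Finset.sum_le_sum h1).trans (le_of_eq ?_)
  rw [Finset.sum_const, nsmul_eq_mul]

end Pool.Agent.ZO
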