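import Pool.Agent.GX.Defs

/-!
# Exponential bound: trees on subsets, the branch of a vertex
-/

set_option autoImplicit false

open scoped BigOperators

namespace Pool.Agent.ZO

open Pool.Agent.GX

variable {V : Type}

/-- `g` is the parent function of a tree on `B` with root `a`, and the identity outside `B` -/
structure TB (B : Finset V) (a : V) (g : V → V) : Prop where
  aB : a ∈ B
  root : g a = a
  mem : ∀ x ∈ B, g x ∈ B
  reach : ∀ x ∈ B, ∃ m, g^[m] x = a
  out : ∀ x, x ∉ B → g x = x

section

variable {B : Finset V} {a : V} {g : V → V}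

theorem TB.iter (h : TB B a g) {x : V} (hx : x ∈ B) (m : ℕ) : g^[m] x ∈ B := by
  induction m with
  | zero => exact hx
  | succ m ih =>
    rw [Function.iterate_succ_apply']
    exact h.mem _ ih

theorem fix_iterate {x : V} (h : g x = x) (m : ℕ) : g^[m] x = x := by
  induction m with
  | zero => rfl
  | succ m ih => rw [Function.iterate_succ_apply', ih, h]

theorem TB.below_sub (h : TB B a g) {u : V} (hu : u ∈ B) {x : V} (hx : x ∈ below g u) :
    x ∈ B := by
  by_contra hxB
  obtain ⟨m, hm⟩ := hx
  rw [fix_iterate (h.out x hxB) m] at hm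
  exact hxB (hm ▸ hu)

theorem TB.antisymm (h : TB B a g) {x y : V} (hx : x ∈ B) {i j : ℕ} (h1 : g^[i] x = y)
    (h2 : g^[j] y = x) : x = y := by
  by_cases h0 : i + j = 0
  · have : i = 0 := by omega
    subst this
    exact h1
  · obtain ⟨m, hm⟩ := h.reach x hx
    have hper : ∀ k, g^[k * (i + j)] x = x := by
      intro k
      induction k with
      | zero => simp
      | succ k ih =>
        have : (k + 1) * (i + j) = j + (i + k * (i + j)) := by ring
        rw [this, Function.iterate_add_apply, Function.iterate_add_apply, ih, h1, h2]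
    have hle : m ≤ m * (i + j) := Nat.le_mul_of_pos_right _ (by omega)
    have hxa : x = a := by
      have h3 := hper m
      rw [← Nat.sub_add_cancel hle, Function.iterate_add_apply, hm, fix_iterate h.root] at h3
      exact h3.symm
    rw [hxa, fix_iterate h.root] at h1
    rw [hxa, h1]

/-- below a vertex that is not the root there is no root -/
theorem TB.root_notMem (h : TB B a g) {u : V} (hu : u ≠ a) : a ∉ below g u := by
  rintro ⟨m, hm⟩
  rw [fix_iterate h.root] at hm
  exact hu hm.symm

theorem below_parent {u x : V} (h : g x ∈ below g u) : x ∈ below g u := by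
  obtain ⟨m, hm⟩ := h
  exact ⟨m + 1, by rw [Function.iterate_succ_apply]; exact hm⟩

theorem parent_below {u x : V} (h : x ∈ below g u) (hx : x ≠ u) : g x ∈ below g u := by
  obtain ⟨m, hm⟩ := h
  cases m with
  | zero => exact absurd hm hx
  | succ m => exact ⟨m, by rw [Function.iterate_succ_apply] at hm; exact hm⟩

theorem self_below (u : V) : u ∈ below g u := ⟨0, rfl⟩

theorem below_trans' {x y w : V} (h : x ∈ below g y) (h' : y ∈ below g w) : x ∈ below g w := by
  obtain ⟨m, hm⟩ := h
  obtain ⟨k, hk⟩ := h'
  exact ⟨k + m, by rw [Function.iterate_add_apply, hm, hk]⟩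

/-- the child of the root above a vertex -/
theorem TB.exists_child (h : TB B a g) {v : V} (hv : v ∈ B) (hva : v ≠ a) :
    ∃ u, u ∈ B ∧ u ≠ a ∧ g u = a ∧ v ∈ below g u := by
  classical
  have hex := h.reach v hv
  set m := Nat.find hex with hm
  have h1 : g^[m] v = a := Nat.find_spec hex
  have h0 : m ≠ 0 := by
    intro h0
    rw [h0] at h1
    exact hva h1
  obtain ⟨k, hk⟩ := Nat.exists_eq_succ_of_ne_zero h0
  refine ⟨g^[k] v, h.iter hv k, ?_, ?_, ⟨k, rfl⟩⟩
  · exact Nat.find_min hex (by omega)
  · rw [← Function.iterate_succ_apply' g k v, ← hk]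
    exact h1

end

section

variable [Fintype V]

open Classical in
/-- the set of the vertices below `u` -/
noncomputable def bel (g : V → V) (u : V) : Finset V := Finset.univ.filter fun x => x ∈ below g u

theorem mem_bel {g : V → V} {u x : V} : x ∈ bel g u ↔ x ∈ below g u := by
  classical
  unfold bel
  rw [Finset.mem_filter]
  exact and_iff_right (Finset.mem_univ _)

theorem coe_bel (g : V → V) (u : V) : (bel g u : Set V) = below g u := by
  ext x
  exact mem_bel

open Classical in
/-- the tree below `u` -/
noncomputable def gin (g : V → V) (u : V) (x : V) : V := if x ∈ bel g u ∧ x ≠ u then g x else x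

open Classical in
/-- the tree without the vertices below `u` -/
noncomputable def gex (g : V → V) (u : V) (x : V) : V := if x ∈ bel g u then x else g x

variable {B : Finset V} {a : V} {g : V → V} {u : V}

theorem gin_eq {x : V} (hx : x ∈ below g u) (hxu : x ≠ u) : gin g u x = g x :=
  if_pos ⟨mem_bel.2 hx, hxu⟩

theorem gin_top : gin g u u = u := if_neg fun h => h.2 rfl

theorem gin_out {x : V} (hx : x ∉ below g u) : gin g u x = x := if_neg fun h => hx (mem_bel.1 h.1)

theorem gex_in {x : V} (hx : x ∈ below g u) : gex g u x = x := if_pos (mem_bel.2 hx)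

theorem gex_eq {x : V} (hx : x ∉ below g u) : gex g u x = g x := if_neg fun h => hx (mem_bel.1 h)

/-- iterates of `gin` -/
theorem gin_iter {x : V} : ∀ m : ℕ, (∀ j < m, g^[j] x ∈ below g u ∧ g^[j] x ≠ u) →
    (gin g u)^[m] x = g^[m] x := by
  intro m
  induction m with
  | zero => intro _; rfl
  | succ m ih =>
    intro h
    rw [Function.iterate_succ_apply', Function.iterate_succ_apply', ih fun j hj => h j (by omega)]
    exact gin_eq (h m (by omega)).1 (h m (by omega)).2

omit [Fintype V] in
theorem hit_first {x : V} (hx : x ∈ below g u) : ∃ m, g^[m] x = u ∧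
    ∀ j < m, g^[j] x ∈ below g u ∧ g^[j] x ≠ u := by
  classical
  refine ⟨Nat.find hx, Nat.find_spec hx, fun j hj => ⟨?_, Nat.find_min hx hj⟩⟩
  refine ⟨Nat.find hx - j, ?_⟩
  rw [← Function.iterate_add_apply, Nat.sub_add_cancel hj.le]
  exact Nat.find_spec hx

theorem tb_gin (g : V → V) (u : V) : TB (bel g u) u (gin g u) where
  aB := mem_bel.2 (self_below u)
  root := gin_top
  mem := by
    intro x hx
    rw [mem_bel] at hx ⊢
    by_cases hxu : x = u
    · rw [hxu, gin_top]
      exact self_below u
    · rw [gin_eq hx hxu]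
      exact parent_below hx hxu
  reach := by
    intro x hx
    rw [mem_bel] at hx
    obtain ⟨m, hm, hj⟩ := hit_first hx
    exact ⟨m, by rw [gin_iter m hj, hm]⟩
  out := by
    intro x hx
    exact gin_out fun h => hx (mem_bel.2 h)

theorem gex_iter {x : V} : ∀ m : ℕ, (∀ j < m, g^[j] x ∉ below g u) →
    (gex g u)^[m] x = g^[m] x := by
  intro m
  induction m with
  | zero => intro _; rfl
  | succ m ih =>
    intro h
    rw [Function.iterate_succ_apply', Function.iterate_succ_apply', ih fun j hj => h j (by omega)]
    exact gex_eq (h m (by omega))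

omit [Fintype V] in
theorem notMem_iter {x : V} (hx : x ∉ below g u) (m : ℕ) : g^[m] x ∉ below g u := by
  rintro ⟨k, hk⟩
  exact hx ⟨k + m, by rw [Function.iterate_add_apply]; exact hk⟩

theorem TB.gex [DecidableEq V] (h : TB B a g) (hu : u ≠ a) : TB (B \ bel g u) a (gex g u) where
  aB := by
    rw [Finset.mem_sdiff]
    exact ⟨h.aB, fun h' => h.root_notMem hu (mem_bel.1 h')⟩
  root := by
    rw [gex_eq (h.root_notMem hu)]
    exact h.root
  mem := by
    intro x hx
    rw [Finset.mem_sdiff, mem_bel] at hx ⊢
    rw [gex_eq hx.2]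
    exact ⟨h.mem x hx.1, fun h' => hx.2 (below_parent h')⟩
  reach := by
    intro x hx
    rw [Finset.mem_sdiff, mem_bel] at hx
    obtain ⟨m, hm⟩ := h.reach x hx.1
    exact ⟨m, by rw [gex_iter m fun j _ => notMem_iter hx.2 j, hm]⟩
  out := by
    intro x hx
    by_cases h1 : x ∈ below g u
    · exact gex_in h1
    · rw [gex_eq h1]
      apply h.out
      intro h2
      apply hx
      rw [Finset.mem_sdiff, mem_bel]
      exact ⟨h2, h1⟩

/-- below a vertex of the branch -/
theorem below_gin (h : TB B a g) (hu : u ∈ B) {w : V} (hw : w ∈ below g u) :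
    below (gin g u) w = below g w := by
  ext x
  constructor
  · rintro ⟨m, hm⟩
    by_cases hx : x ∈ below g u
    · -- the orbit of `x` under `gin`
      obtain ⟨k, hk, hj⟩ := hit_first hx
      by_cases hmk : m ≤ k
      · rw [gin_iter m fun j hjm => hj j (by omega)] at hm
        exact ⟨m, hm⟩
      · have h1 : (gin g u)^[m] x = u := by
          have : m = (m - k) + k := by omega
          rw [this, Function.iterate_add_apply, gin_iter k hj, hk]
          exact fix_iterate gin_top _
        rw [h1] at hm
        exact ⟨k, by rw [hk, hm]⟩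
    · rw [fix_iterate (gin_out hx)] at hm
      exact absurd (hm ▸ hw) hx
  · rintro ⟨m, hm⟩
    have hx : x ∈ below g u := below_trans' ⟨m, hm⟩ hw
    obtain ⟨k, hk, hj⟩ := hit_first hx
    by_cases hmk : m ≤ k
    · exact ⟨m, by rw [gin_iter m fun j hjm => hj j (by omega), hm]⟩
    · have h1 : g^[m - k] u = w := by
        rw [← hk, ← Function.iterate_add_apply, Nat.sub_add_cancel (by omega), hm]
      obtain ⟨j, hj'⟩ := hw
      have h2 : u = w := h.antisymm hu h1 hj'
      rw [← h2]
      exact ⟨k, by rw [gin_iter k hj, hk]⟩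

/-- below a vertex outside the branch -/
theorem below_gex (h : TB B a g) (hga : g u = a) {w : V} (hw : w ∉ below g u) (hwa : w ≠ a) :
    below (gex g u) w = below g w := by
  ext x
  constructor
  · rintro ⟨m, hm⟩
    by_cases hx : x ∈ below g u
    · rw [fix_iterate (gex_in hx)] at hm
      exact absurd (hm ▸ hx) hw
    · rw [gex_iter m fun j _ => notMem_iter hx j] at hm
      exact ⟨m, hm⟩
  · rintro ⟨m, hm⟩
    have hx : x ∉ below g u := by
      intro hx
      obtain ⟨k, hk, hj⟩ := hit_first hx
      by_cases hmk : m < k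
      · exact hw (hm ▸ (hj m hmk).1)
      · by_cases hmk' : m = k
        · rw [hmk', hk] at hm
          exact hw (hm ▸ self_below u)
        · have : m = (m - k - 1) + 1 + k := by omega
          rw [this, Function.iterate_add_apply, hk, Function.iterate_add_apply,
            Function.iterate_one, hga, fix_iterate h.root] at hm
          exact hwa hm.symm
    exact ⟨m, by rw [gex_iter m fun j _ => notMem_iter hx j, hm]⟩

theorem notMem_below_of_ext (h : TB B a g) (hga : g u = a) {w : V} (hw : w ∉ below g u)
    (hwa : w ≠ a) {x : V} (hx : x ∈ below g w) : x ∉ below g u := by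
  intro hxu
  obtain ⟨m, hm⟩ := hx
  obtain ⟨k, hk, hj⟩ := hit_first hxu
  by_cases hmk : m < k
  · exact hw (hm ▸ (hj m hmk).1)
  · by_cases hmk' : m = k
    · rw [hmk', hk] at hm
      exact hw (hm ▸ self_below u)
    · have : m = (m - k - 1) + 1 + k := by omega
      rw [this, Function.iterate_add_apply, hk, Function.iterate_add_apply,
        Function.iterate_one, hga, fix_iterate h.root] at hm
      exact hwa hm.symm

end

end Pool.Agent.ZO
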