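import Pool.Agent.ZO.Succ

/-! # Zero-one law: the number of successful templates on a set depends only on its size -/

set_option autoImplicit false

open scoped BigOperators

namespace Pool.Agent.ZO

open Pool.Agent.WT.Trees (PF)
open Pool.Agent.GX

section

variable {V : Type} (σ : Equiv.Perm V) (g : V → V)

theorem conj_it (m : ℕ) (x : V) : (fun y => σ (g (σ.symm y)))^[m] (σ x) = σ (g^[m] x) := by
  induction m with
  | zero => rfl
  | succ m ih =>
    rw [Function.iterate_succ_apply', Function.iterate_succ_apply', ih]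
    simp

theorem conj_it' (m : ℕ) (y : V) :
    (fun y => σ (g (σ.symm y)))^[m] y = σ (g^[m] (σ.symm y)) := by
  rw [← conj_it σ g m (σ.symm y), Equiv.apply_symm_apply]

theorem conj_below (x : V) : below (fun y => σ (g (σ.symm y))) (σ x) = σ '' below g x := by
  ext y
  constructor
  · rintro ⟨m, hm⟩
    rw [conj_it'] at hm
    exact ⟨σ.symm y, ⟨m, σ.injective hm⟩, Equiv.apply_symm_apply _ _⟩
  · rintro ⟨w, ⟨m, hm⟩, rfl⟩
    exact ⟨m, by rw [conj_it, hm]⟩

theorem conj_sz (x : V) : sz (fun y => σ (g (σ.symm y))) (σ x) = sz g x := by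
  unfold sz
  rw [conj_below, Set.ncard_image_of_injective _ σ.injective]

end

variable {V : Type} [Fintype V] {P : Pattern} {ℓ A : ℕ} {r : V}

open Classical in
/-- the template moved by a permutation -/
noncomputable def mv (r : V) (σ : Equiv.Perm V) (D' : Finset V) (τ : Tm V (Bool × V)) :
    Tm V (Bool × V) where
  D := D'
  u := σ τ.u
  g := fun y => σ (τ.g (σ.symm y))
  d := fun y => if y ∈ D' ∧ y ≠ σ τ.u then ((τ.d (σ.symm y)).1, σ (τ.d (σ.symm y)).2) else (false, r)

theorem mv_mem (σ : Equiv.Perm V) (D' : Finset V) (hr : r ∉ D') (τ : Tm V (Bool × V))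
    (hτ : τ ∈ TT P ℓ A r) (hσ : ∀ x, σ x ∈ D' ↔ x ∈ τ.D) (hc : D'.card = τ.D.card) :
    mv r σ D' τ ∈ TT P ℓ A r := by
  classical
  obtain ⟨hw, z, idx, att, dl, hs⟩ := mem_TT.1 hτ
  have hd : ∀ x, x ∈ τ.D → x ≠ τ.u →
      (mv r σ D' τ).d (σ x) = ((τ.d x).1, σ (τ.d x).2) := by
    intro x hx hxu
    have h1 : σ x ∈ D' ∧ σ x ≠ σ τ.u := ⟨(hσ x).2 hx, fun h => hxu (σ.injective h)⟩
    simp only [mv]
    rw [if_pos h1, Equiv.symm_apply_apply]
  have hit : ∀ m x, (mv r σ D' τ).g^[m] (σ x) = σ (τ.g^[m] x) := fun m x => conj_it σ τ.g m x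
  refine mem_TT.2 ⟨⟨hr, (hσ _).2 hw.top, ?_, ?_, ?_, ?_, ?_⟩, σ z, idx, att, dl, ?_⟩
  · simp only [mv]
    rw [Equiv.symm_apply_apply, hw.gtop]
  · intro y hy
    simp only [mv] at hy ⊢
    rw [hσ]
    apply hw.inD
    rw [← hσ, Equiv.apply_symm_apply]
    exact hy
  · intro y hy
    simp only [mv] at hy
    have hx : σ.symm y ∈ τ.D := by
      rw [← hσ, Equiv.apply_symm_apply]
      exact hy
    obtain ⟨m, hm⟩ := hw.reach _ hx
    refine ⟨m, ?_⟩
    have h := hit m (σ.symm y)
    rw [Equiv.apply_symm_apply] at h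
    rw [h, hm]
    rfl
  · intro y hy
    simp only [mv] at hy ⊢
    have hx : σ.symm y ∉ τ.D := by
      rw [← hσ, Equiv.apply_symm_apply]
      exact hy
    rw [hw.gout _ hx, Equiv.apply_symm_apply]
  · intro y hy
    simp only [mv] at hy ⊢
    rw [if_neg]
    rintro ⟨h1, h2⟩
    rcases hy with h | h
    · exact h h1
    · exact h2 h
  · set L := Ls P.N ℓ with hL
    have hsD : ∀ i, sv τ.g z L i ∈ τ.D := fun i => wf_iter hw hs.zD _
    have hsu : ∀ i, sv τ.g z L i ≠ τ.u := fun i h =>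
      hs.nu (fix_iter hw.gtop h (Nat.sub_le _ _))
    have hsv : ∀ i, sv (mv r σ D' τ).g (σ z) L i = σ (sv τ.g z L i) := fun i => hit _ _
    have hy : ∀ j, (mv r σ D' τ).d (sv (mv r σ D' τ).g (σ z) L (idx j)) =
        ((τ.d (sv τ.g z L (idx j))).1, σ (τ.d (sv τ.g z L (idx j))).2) := by
      intro j
      rw [hsv, hd _ (hsD _) (hsu _)]
    refine ⟨(hσ z).2 hs.zD, ?_, ?_, ?_, ?_, ?_, ?_, hs.idx_mem, hs.att_mem, hs.dl_pos, ?_, ?_, ?_,
      ?_, ?_⟩
    · rw [hit]
      exact fun h => hs.nu (σ.injective h)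
    · rw [hit, hs.hu]
      rfl
    · change 16 * A ≤ D'.card
      rw [hc]
      exact hs.cardlo
    · change D'.card < 20 * A
      rw [hc]
      exact hs.cardhi
    · rw [hit]
      exact (conj_sz σ τ.g _).trans_lt hs.szq
    · exact hs.szz.trans_eq (conj_sz σ τ.g _).symm
    · intro j h1 h2
      rw [hy]
      exact hs.ori j h1 h2
    · intro j h1 h2
      rw [hy]
      exact (hσ _).2 (hs.labD j h1 h2)
    · intro j h1 h2
      rw [hy, hsv]
      simp only
      rw [hit, hs.path j h1 h2]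
    · intro i hi h
      rw [hsv, hd _ (hsD _) (hsu _)]
      simp only
      change σ _ ∉ D'
      rw [hσ]
      exact hs.stat1 i hi h
    · intro j h1 h2 i hi
      rw [hy]
      simp only
      rw [hit]
      have hlD := hs.labD j h1 h2
      have hne : τ.g^[i] (τ.d (sv τ.g z L (idx j))).2 ≠ τ.u := by
        intro h
        have h3 := fix_iter hw.gtop h hi.le
        rw [hs.path j h1 h2] at h3
        exact hsu _ h3
      rw [hd _ (wf_iter hw hlD i) hne]
      simp only
      change σ _ ∉ D'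
      rw [hσ]
      exact hs.stat2 j h1 h2 i hi

omit [Fintype V] in
theorem mv_inj (σ : Equiv.Perm V) (D D' : Finset V) {τ τ' : Tm V (Bool × V)}
    (hσ : ∀ x, σ x ∈ D' ↔ x ∈ D) (h : τ.Wf r (false, r)) (h' : τ'.Wf r (false, r)) (hD : τ.D = D)
    (hD' : τ'.D = D) (he : mv r σ D' τ = mv r σ D' τ') : τ = τ' := by
  classical
  obtain ⟨E, u, g, d⟩ := τ
  obtain ⟨E', u', g', d'⟩ := τ'
  simp only at hD hD'
  subst hD
  subst hD'
  simp only [mv, Tm.mk.injEq, true_and] at he
  obtain ⟨h1, h2, h3⟩ := he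
  have hu : u = u' := σ.injective h1
  subst hu
  have hg : g = g' := by
    funext x
    have := congrFun h2 (σ x)
    simp only [Equiv.symm_apply_apply] at this
    exact σ.injective this
  subst hg
  have hd : d = d' := by
    funext x
    by_cases hx : x ∈ E' ∧ x ≠ u
    · have := congrFun h3 (σ x)
      have h4 : σ x ∈ D' ∧ σ x ≠ σ u := ⟨(hσ x).2 hx.1, fun h => hx.2 (σ.injective h)⟩
      simp only [Equiv.symm_apply_apply] at this
      rw [if_pos h4, if_pos h4, Prod.mk.injEq] at this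
      exact Prod.ext this.1 (σ.injective this.2)
    · have hx' : x ∉ E' ∨ x = u := by
        by_contra hcon
        push Not at hcon
        exact hx hcon
      exact (h.dout x hx').trans (h'.dout x hx').symm
  subst hd
  rfl

theorem fiber_le (D D' : Finset V) (hr' : r ∉ D') (hc : D.card = D'.card)
    [DecidableEq V] :
    ((TT P ℓ A r).filter fun τ => τ.D = D).card ≤ ((TT P ℓ A r).filter fun τ => τ.D = D').card := by
  classical
  have e : {x // x ∈ D} ≃ {x // x ∈ D'} := Finset.equivOfCardEq hc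
  set σ : Equiv.Perm V := e.extendSubtype with hσ
  have hs : ∀ x, σ x ∈ D' ↔ x ∈ D := by
    intro x
    constructor
    · intro h
      by_contra hx
      exact e.extendSubtype_not_mem x hx h
    · intro h
      exact e.extendSubtype_mem x h
  apply Finset.card_le_card_of_injOn (mv r σ D')
  · intro τ hτ
    rw [Finset.mem_coe, Finset.mem_filter] at hτ ⊢
    refine ⟨mv_mem σ D' hr' τ hτ.1 ?_ ?_, rfl⟩
    · rw [hτ.2]
      exact hs
    · rw [hτ.2, hc]
  · intro τ hτ τ' hτ' he
    rw [Finset.mem_coe, Finset.mem_filter] at hτ hτ'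
    exact mv_inj σ D D' hs (mem_TT.1 hτ.1).1 (mem_TT.1 hτ'.1).1 hτ.2 hτ'.2 he

open Classical in
/-- the number of successful templates on a set with `s` elements -/
noncomputable def Tn (P : Pattern) (ℓ A : ℕ) (r : V) (s : ℕ) : ℕ :=
  if h : ∃ D : Finset V, r ∉ D ∧ D.card = s then
    ((TT P ℓ A r).filter fun τ => τ.D = h.choose).card else 0

theorem fiber_eq (D : Finset V) (hr : r ∉ D) [DecidableEq V] :
    ((TT P ℓ A r).filter fun τ => τ.D = D).card = Tn P ℓ A r D.card := by
  classical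
  unfold Tn
  have h : ∃ D' : Finset V, r ∉ D' ∧ D'.card = D.card := ⟨D, hr, rfl⟩
  rw [dif_pos h]
  have h1 := h.choose_spec
  apply le_antisymm
  · have h2 := fiber_le (P := P) (ℓ := ℓ) (A := A) D h.choose h1.1 h1.2.symm
    refine le_trans (le_of_eq ?_) (h2.trans (le_of_eq ?_)) <;> congr
  · have h2 := fiber_le (P := P) (ℓ := ℓ) (A := A) h.choose D hr h1.2
    refine le_trans (le_of_eq ?_) (h2.trans (le_of_eq ?_)) <;> congr

end Pool.Agent.ZO
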