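import Pool.Agent.ZO.AC
import Pool.Agent.ZO.Back2
import Pool.Agent.ZO.ACDefs

/-!
# Howie's reduction: subcomplexes of complexes that 3-deform to a point
-/

set_option autoImplicit false

open scoped BigOperators

namespace Pool.Agent.ZO

open Pool.Agent.FoxAsph Pool.Agent.WT Pool.Agent.RelGap

theorem ACMove.step {X ι : Type} [DecidableEq ι] {r r' : ι → FreeGroup X} (h : ACMove r r') :
    ACStep r r' := by
  obtain ⟨i, hk, h1 | ⟨j, hj, h1⟩ | ⟨g, h1⟩⟩ := h
  · have : r' = Function.update r i (r i)⁻¹ := by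
      funext k
      by_cases hki : k = i
      · subst hki
        rw [Function.update_self, h1]
      · rw [Function.update_of_ne hki, hk k hki]
    rw [this]
    exact ACStep.inv r i
  · have : r' = Function.update r i (r i * r j) := by
      funext k
      by_cases hki : k = i
      · subst hki
        rw [Function.update_self, h1]
      · rw [Function.update_of_ne hki, hk k hki]
    rw [this]
    exact ACStep.mul r i j (Ne.symm hj)
  · have : r' = Function.update r i (g * r i * g⁻¹) := by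
      funext k
      by_cases hki : k = i
      · subst hki
        rw [Function.update_self, h1]
      · rw [Function.update_of_ne hki, hk k hki]
    rw [this]
    exact ACStep.conj r i g

theorem path_step {X ι : Type} [DecidableEq ι] {r r' : ι → FreeGroup X}
    (h : Relation.ReflTransGen ACMove r r') : Relation.ReflTransGen ACStep r r' := by
  induction h with
  | refl => exact Relation.ReflTransGen.refl
  | tail _ h ih => exact ih.tail h.step

theorem lift_pmap {X G : Type} [Group G] (U : Set X) (g : X → G) (w : Word X)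
    (h : ∀ l ∈ w, l.1 ∈ U) :
    FreeGroup.lift (fun u : U => g u.1)
      (FreeGroup.mk (w.pmap (fun l hl => ((⟨l.1, hl⟩ : U), l.2)) h)) =
      FreeGroup.lift g (FreeGroup.mk w) := by
  induction w with
  | nil => rw [List.pmap_nil, lift_nil, lift_nil]
  | cons l w ih =>
    obtain ⟨x, b⟩ := l
    rw [List.pmap_cons, lift_cons, lift_cons, ih]

section

variable {X ι : Type} [Fintype X] [Fintype ι] (rel : ι → Word X) (U : Set X) (S : Finset ι)
  (h : ∀ i ∈ S, ∀ l ∈ rel i, l.1 ∈ U)

open Classical in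
/-- A non-aspherical subcomplex of a complex that 3-deforms to a point gives a non-aspherical
presentation in which every generator is a product of conjugates of some of the generators. -/
theorem exists_wirt (hAC : ACTrivial rel) (hna : ¬ Aspherical (SubPres rel U S h)) :
    ∃ (X' J : Type) (_ : Fintype X') (_ : Fintype J) (σ : X' → FreeGroup (X' ⊕ J))
      (relQ : X' → Word (X' ⊕ J)),
      (∀ x, σ x ∈ Subgroup.normalClosure
        (Set.range fun j : J => FreeGroup.of (Sum.inr j : X' ⊕ J))) ∧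
      (∀ x, FreeGroup.mk (relQ x) = FreeGroup.of (Sum.inl x) * (σ x)⁻¹) ∧
      ¬ Aspherical relQ := by
  obtain ⟨m, e, hpath⟩ := hAC
  set r' : ι ⊕ Fin m → FreeGroup (X ⊕ Fin m) :=
    Sum.elim (fun i => FreeGroup.map Sum.inl (FreeGroup.mk (rel i)))
      (fun k => FreeGroup.of (Sum.inr k)) with hr'
  have hpath' : Relation.ReflTransGen ACStep r' (fun i => FreeGroup.of (e i)) := path_step hpath
  let J : Type := {i' : ι ⊕ Fin m // ¬ ∃ i ∈ S, i' = Sum.inl i}
  let a : FreeGroup (X ⊕ Fin m) →* FreeGroup ((X ⊕ Fin m) ⊕ J) := FreeGroup.map Sum.inl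
  let N : Subgroup (FreeGroup ((X ⊕ Fin m) ⊕ J)) := Subgroup.normalClosure
    (Set.range fun j : J => FreeGroup.of (Sum.inr j : (X ⊕ Fin m) ⊕ J))
  let σ₀ : ι ⊕ Fin m → FreeGroup ((X ⊕ Fin m) ⊕ J) := fun i' =>
    if hi : ∃ i ∈ S, i' = Sum.inl i then 1 else FreeGroup.of (Sum.inr ⟨i', hi⟩)
  have hσ₀ : ∀ i, σ₀ i ∈ N := by
    intro i'
    by_cases hi : ∃ i ∈ S, i' = Sum.inl i
    · simp only [σ₀, dif_pos hi]
      exact N.one_mem
    · simp only [σ₀, dif_neg hi]
      exact Subgroup.subset_normalClosure ⟨⟨i', hi⟩, rfl⟩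
  obtain ⟨σ', hσ', hEq, hDep⟩ := ac_path a N hpath' σ₀ hσ₀
  let relQ : X ⊕ Fin m → Word ((X ⊕ Fin m) ⊕ J) := fun x =>
    (FreeGroup.of (Sum.inl x) * (σ' (e.symm x))⁻¹).toWord
  have hmk : ∀ x, FreeGroup.mk (relQ x) = FreeGroup.of (Sum.inl x) * (σ' (e.symm x))⁻¹ :=
    fun x => FreeGroup.mk_toWord
  refine ⟨X ⊕ Fin m, J, inferInstance, Fintype.ofFinite J, fun x => σ' (e.symm x), relQ,
    fun x => hσ' _, hmk, ?_⟩
  have haof : ∀ x, a (FreeGroup.of x) = FreeGroup.of (Sum.inl x) := fun x => FreeGroup.map.of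
  -- the values in the group of `relQ`
  have hQfin : ∀ i, valF relQ (a (FreeGroup.of (e i))) = valF relQ (σ' i) := by
    intro i
    have h1 := valF_rel relQ (e i)
    rw [hmk, Equiv.symm_apply_apply, map_mul, map_inv, mul_inv_eq_one] at h1
    rw [haof]
    exact h1
  have hQin := (hEq _ (valF relQ)).2 hQfin
  have hQS : ∀ i ∈ S, valF relQ (a (r' (Sum.inl i))) = 1 := by
    intro i hi
    rw [hQin]
    have : ∃ i₁ ∈ S, (Sum.inl i : ι ⊕ Fin m) = Sum.inl i₁ := ⟨i, hi, rfl⟩
    simp only [σ₀, dif_pos this, map_one]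
  -- the homomorphism to the group of `relQ`
  set L := SubPres rel U S h with hL
  let f : U → FreeGroup ((X ⊕ Fin m) ⊕ J) := fun u => FreeGroup.of (Sum.inl (Sum.inl u.1))
  have hf : ∀ i : S, FreeGroup.lift f (FreeGroup.mk (L i)) = a (r' (Sum.inl i.1)) := by
    intro i
    have h1 := lift_pmap U (fun x => (FreeGroup.of (Sum.inl (Sum.inl x)) :
      FreeGroup ((X ⊕ Fin m) ⊕ J))) (rel i.1) (h i.1 i.2)
    refine h1.trans ?_
    show _ = FreeGroup.map Sum.inl (FreeGroup.map Sum.inl (FreeGroup.mk (rel i.1)))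
    have h2 : (FreeGroup.lift fun x => (FreeGroup.of (Sum.inl (Sum.inl x)) :
        FreeGroup ((X ⊕ Fin m) ⊕ J))) = (FreeGroup.map Sum.inl).comp (FreeGroup.map Sum.inl) := by
      refine FreeGroup.ext_hom _ _ fun x => ?_
      rw [FreeGroup.lift_apply_of, MonoidHom.comp_apply, FreeGroup.map.of, FreeGroup.map.of]
    rw [h2]
    rfl
  obtain ⟨φ, hφ⟩ := exists_map L ((valF relQ).comp (FreeGroup.lift f)) (fun i => by
    rw [MonoidHom.comp_apply, hf i]
    exact hQS i.1 i.2)
  -- the homomorphism back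
  let ψ : X ⊕ Fin m → Grp L := Sum.elim
    (fun x => if hx : x ∈ U then val L [(⟨x, hx⟩, true)] else 1) (fun _ => 1)
  let θL : FreeGroup ((X ⊕ Fin m) ⊕ J) →* Grp L :=
    FreeGroup.lift (Sum.elim ψ (fun j : J => FreeGroup.lift ψ (r' j.1)))
  have hθa : ∀ w, θL (a w) = FreeGroup.lift ψ w := by
    intro w
    have h1 : θL.comp a = FreeGroup.lift ψ := by
      refine FreeGroup.ext_hom _ _ fun x => ?_
      rw [MonoidHom.comp_apply, haof]
      simp only [θL, FreeGroup.lift_apply_of, Sum.elim_inl]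
    exact DFunLike.congr_fun h1 w
  have hθS : ∀ i ∈ S, θL (a (r' (Sum.inl i))) = 1 := by
    intro i hi
    rw [hθa]
    show FreeGroup.lift ψ (FreeGroup.map Sum.inl (FreeGroup.mk (rel i))) = 1
    have h1 : (FreeGroup.lift ψ).comp (FreeGroup.map Sum.inl) =
        FreeGroup.lift (fun x => ψ (Sum.inl x)) := by
      refine FreeGroup.ext_hom _ _ fun x => ?_
      rw [MonoidHom.comp_apply, FreeGroup.map.of, FreeGroup.lift_apply_of, FreeGroup.lift_apply_of]
    have h2 : FreeGroup.lift ψ (FreeGroup.map Sum.inl (FreeGroup.mk (rel i))) =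
        FreeGroup.lift (fun x => ψ (Sum.inl x)) (FreeGroup.mk (rel i)) := by
      rw [← h1]
      rfl
    rw [h2, ← lift_pmap U (fun x => ψ (Sum.inl x)) (rel i) (h i hi)]
    have h3 : (fun u : U => ψ (Sum.inl u.1)) = fun u => val L [(u, true)] := by
      funext u
      simp only [ψ, Sum.elim_inl, dif_pos u.2]
    rw [h3]
    exact (lift_val L (L ⟨i, hi⟩)).trans (val_rel L ⟨i, hi⟩)
  have hLin : ∀ i, θL (a (r' i)) = θL (σ₀ i) := by
    intro i'
    by_cases hi : ∃ i ∈ S, i' = Sum.inl i
    · obtain ⟨i, hiS, rfl⟩ := hi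
      have hi : ∃ i₁ ∈ S, (Sum.inl i : ι ⊕ Fin m) = Sum.inl i₁ := ⟨i, hiS, rfl⟩
      rw [hθS i hiS]
      simp only [σ₀, dif_pos hi, map_one]
    · rw [hθa]
      simp only [σ₀, dif_neg hi]
      simp only [θL, FreeGroup.lift_apply_of, Sum.elim_inr]
  have hLfin := (hEq _ θL).1 hLin
  obtain ⟨φ', hφ'⟩ := exists_map relQ θL (fun x => by
    rw [hmk, map_mul, map_inv, mul_inv_eq_one, ← hLfin, haof, Equiv.apply_symm_apply])
  have hφφ : φ'.comp φ = MonoidHom.id _ := by
    refine PresentedGroup.ext fun u => ?_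
    show φ' (φ (valF L (FreeGroup.of u))) = valF L (FreeGroup.of u)
    rw [hφ, MonoidHom.comp_apply, FreeGroup.lift_apply_of, hφ']
    simp only [f, θL, FreeGroup.lift_apply_of, Sum.elim_inl, ψ, dif_pos u.2]
    rfl
  have hφi : Function.Injective φ := by
    intro x y hxy
    have h1 := DFunLike.congr_fun hφφ x
    have h2 := DFunLike.congr_fun hφφ y
    rw [MonoidHom.comp_apply, MonoidHom.id_apply] at h1 h2
    rw [← h1, ← h2, hxy]
  -- the kernel vector
  unfold Aspherical at hna
  push Not at hna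
  obtain ⟨z, hz, hz0⟩ := hna
  have hker := ker_transfer L relQ φ f (fun u => by
    rw [← of_val, hφ, MonoidHom.comp_apply, FreeGroup.lift_apply_of]) z hz
  set ρ := MonoidAlgebra.mapDomainRingHom ℤ φ with hρ
  have hρi : Function.Injective ρ := fun a b hab => MonoidAlgebra.mapDomain_injective hφi hab
  let Z : ι ⊕ Fin m → MonoidAlgebra ℤ (Grp relQ) :=
    Sum.elim (fun i => if hi : i ∈ S then ρ (z ⟨i, hi⟩) else 0) (fun _ => 0)
  have hD0 : Dep relQ (fun i => a (r' i)) σ₀ := by
    refine ⟨Z, ?_, ?_⟩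
    · intro hZ
      apply hz0
      funext i
      have h1 := congrFun hZ (Sum.inl i.1)
      simp only [Z, Sum.elim_inl, dif_pos i.2, Pi.zero_apply] at h1
      exact hρi (h1.trans (map_zero ρ).symm)
    · rw [Fintype.sum_sum_type]
      have h2 : ∀ k : Fin m, Z (Sum.inr k) • (D relQ (a (r' (Sum.inr k))) -
          D relQ (σ₀ (Sum.inr k))) = 0 := by
        intro k
        simp only [Z, Sum.elim_inr, zero_smul]
      rw [Finset.sum_congr rfl fun k _ => h2 k, Finset.sum_const_zero, add_zero]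
      have h3 : ∀ i : ι, Z (Sum.inl i) • (D relQ (a (r' (Sum.inl i))) -
          D relQ (σ₀ (Sum.inl i))) = if hi : i ∈ S then
            ρ (z ⟨i, hi⟩) • D relQ (FreeGroup.lift f (FreeGroup.mk (L ⟨i, hi⟩))) else 0 := by
        intro i
        by_cases hi : i ∈ S
        · have hi' : ∃ i₁ ∈ S, (Sum.inl i : ι ⊕ Fin m) = Sum.inl i₁ := ⟨i, hi, rfl⟩
          simp only [Z, Sum.elim_inl, dif_pos hi, σ₀, dif_pos hi', hf ⟨i, hi⟩]
          rw [D_one, sub_zero]
        · simp only [Z, Sum.elim_inl, dif_neg hi, zero_smul]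
      rw [Finset.sum_congr rfl fun i _ => h3 i]
      refine Eq.trans ?_ hker
      symm
      refine Finset.sum_bij_ne_zero (fun i _ _ => i.1) (fun _ _ _ => Finset.mem_univ _)
        (fun a _ _ b _ _ hab => Subtype.ext hab) ?_ ?_
      · intro i _ hi0
        by_cases hi : i ∈ S
        · rw [dif_pos hi] at hi0
          exact ⟨⟨i, hi⟩, Finset.mem_univ _, hi0, rfl⟩
        · rw [dif_neg hi] at hi0
          exact absurd rfl hi0
      · intro i _ _
        rw [dif_pos i.2]
  obtain ⟨z', hz', hsum'⟩ := hDep _ relQ hQin hD0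
  intro hasph
  rw [aspherical_iff] at hasph
  apply hz'
  have hy := hasph (fun x => z' (e.symm x)) (by
    rw [← hsum', ← Equiv.sum_comp e.symm]
    refine Finset.sum_congr rfl fun x _ => ?_
    congr 1
    have h5 := hQfin (e.symm x)
    rw [haof, Equiv.apply_symm_apply] at h5
    show _ = D relQ (a (FreeGroup.of (e (e.symm x)))) - D relQ (σ' (e.symm x))
    rw [hmk, D_mul, D_inv, h5, smul_neg, smul_smul, ← map_mul, mul_inv_cancel, map_one, one_smul,
      haof, Equiv.apply_symm_apply, sub_eq_add_neg])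
  funext i
  have h6 := congrFun hy (e i)
  simpa using h6

end

end Pool.Agent.ZO
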