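import Pool.Agent.ZO.Ratio2

/-! # Zero-one law: the expected number, one term -/

set_option autoImplicit false

open scoped BigOperators Nat

namespace Pool.Agent.ZO

open Stirling

/-- `m ^ m / m!` -/
noncomputable def am (m : ℕ) : ℝ := (m : ℝ) ^ m / (m ! : ℝ)

theorem am_pos {m : ℕ} (hm : 1 ≤ m) : 0 < am m := by
  unfold am
  have : (0 : ℝ) < m := by exact_mod_cast hm
  positivity

theorem am_eq (m : ℕ) (hm : 1 ≤ m) :
    am m = Real.exp m / (stirlingSeq m * Real.sqrt (2 * m)) := by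
  have h1 := fac_eq m hm
  have h2 := st_pos m hm
  have hm' : (0 : ℝ) < m := by exact_mod_cast hm
  have h3 : (0 : ℝ) < Real.sqrt (2 * m) := Real.sqrt_pos.2 (by positivity)
  have h4 := Real.exp_pos (m : ℝ)
  unfold am
  rw [h1]
  field_simp

theorem am_lower (m : ℕ) (hm : 1 ≤ m) : Real.exp m / (Real.exp 1 * Real.sqrt m) ≤ am m := by
  rw [am_eq m hm]
  have h2 := st_pos m hm
  have hm' : (0 : ℝ) < m := by exact_mod_cast hm
  have h3 : (0 : ℝ) < Real.sqrt (2 * m) := Real.sqrt_pos.2 (by positivity)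
  apply div_le_div_of_nonneg_left (Real.exp_pos _).le (by positivity)
  have h4 := st_anti le_rfl hm
  rw [stirlingSeq_one] at h4
  calc stirlingSeq m * Real.sqrt (2 * m) ≤ Real.exp 1 / Real.sqrt 2 * Real.sqrt (2 * m) :=
        mul_le_mul_of_nonneg_right h4 h3.le
    _ = Real.exp 1 * Real.sqrt m := by
      rw [Real.sqrt_mul (by norm_num : (0 : ℝ) ≤ 2)]
      have : Real.sqrt 2 ≠ 0 := by positivity
      field_simp

theorem am_ratio {n a : ℕ} (ha : 1 ≤ a) (han : a ≤ n) (hn : n ≤ 2 * a) :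
    am n * (Real.exp (-((n - a : ℕ) : ℝ)) / 2) ≤ am a := by
  rw [am_eq n (ha.trans han), am_eq a ha]
  have h1 := st_ratio han hn ha
  have h2 := st_pos n (ha.trans han)
  have h2a := st_pos a ha
  have hn' : (0 : ℝ) < n := by exact_mod_cast (ha.trans han)
  have ha' : (0 : ℝ) < a := by exact_mod_cast ha
  have hn1 : (1 : ℝ) ≤ n := by exact_mod_cast (ha.trans han)
  have h3 : (0 : ℝ) < Real.sqrt (2 * n) := Real.sqrt_pos.2 (by positivity)
  have h3a : (0 : ℝ) < Real.sqrt (2 * a) := Real.sqrt_pos.2 (by positivity)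
  have h4 : Real.sqrt (2 * a) ≤ Real.sqrt (2 * n) := by
    apply Real.sqrt_le_sqrt
    have : (a : ℝ) ≤ n := by exact_mod_cast han
    linarith
  have h5 : stirlingSeq a ≤ 2 * stirlingSeq n := by
    have h6 : stirlingSeq a / stirlingSeq n ≤ 2 := by
      refine h1.trans ?_
      have : 1 / (n : ℝ) ≤ 1 := by rw [div_le_one hn']; exact hn1
      linarith
    rwa [div_le_iff₀ h2] at h6
  have h7 : Real.exp (n : ℝ) * Real.exp (-((n - a : ℕ) : ℝ)) = Real.exp a := by
    rw [← Real.exp_add]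
    congr 1
    rw [Nat.cast_sub han]
    ring
  have h8 : stirlingSeq a * Real.sqrt (2 * a) ≤ 2 * stirlingSeq n * Real.sqrt (2 * n) :=
    mul_le_mul h5 h4 h3a.le (by positivity)
  calc Real.exp n / (stirlingSeq n * Real.sqrt (2 * n)) * (Real.exp (-((n - a : ℕ) : ℝ)) / 2)
      = Real.exp a / (2 * stirlingSeq n * Real.sqrt (2 * n)) := by
        rw [← h7]
        field_simp
    _ ≤ Real.exp a / (stirlingSeq a * Real.sqrt (2 * a)) :=
      div_le_div_of_nonneg_left (Real.exp_pos _).le (by positivity) h8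

theorem desc_lower (m w : ℕ) (hw : w ^ 2 ≤ m) :
    (m : ℝ) ^ w / 2 ≤ ((m.descFactorial w : ℕ) : ℝ) := by
  rcases Nat.eq_zero_or_pos m with hm | hm
  · subst hm
    have : w = 0 := by
      rcases Nat.eq_zero_or_pos w with h | h
      · exact h
      · have := pow_pos h 2
        omega
    subst this
    norm_num
  have hm' : (0 : ℝ) < m := by exact_mod_cast hm
  have key : ∀ i ≤ w, (m : ℝ) ^ i * (1 - (i : ℝ) * i / (2 * m)) ≤ ((m.descFactorial i : ℕ) : ℝ) := by
    intro i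
    induction i with
    | zero => intro _; simp
    | succ i ih =>
      intro hi
      have h1 := ih (by omega)
      have him : i ≤ m := by nlinarith [Nat.le_self_pow (n := 2) (by norm_num) w]
      rw [Nat.descFactorial_succ]
      push_cast [Nat.cast_sub him]
      have h2 : (0 : ℝ) ≤ (m : ℝ) - i := by
        have : (i : ℝ) ≤ m := by exact_mod_cast him
        linarith
      refine le_trans ?_ (mul_le_mul_of_nonneg_left h1 h2)
      rw [pow_succ]
      have h3 : (m : ℝ) ^ i * m * (1 - ((i : ℝ) + 1) * ((i : ℝ) + 1) / (2 * m)) =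
        (m : ℝ) ^ i * (m - ((i : ℝ) + 1) * ((i : ℝ) + 1) / 2) := by
        field_simp
      have h4 : ((m : ℝ) - i) * ((m : ℝ) ^ i * (1 - (i : ℝ) * i / (2 * m))) =
        (m : ℝ) ^ i * (m - i - (i : ℝ) * i / 2 + (i : ℝ) * i * i / (2 * m)) := by
        field_simp
        ring
      rw [h3, h4]
      apply mul_le_mul_of_nonneg_left _ (by positivity)
      have h5 : (0 : ℝ) ≤ (i : ℝ) * i * i / (2 * m) := by positivity
      nlinarith
  refine le_trans ?_ (key w le_rfl)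
  have h1 : (w : ℝ) * w / (2 * m) ≤ 1 / 2 := by
    rw [div_le_div_iff₀ (by positivity) (by norm_num)]
    have : (w : ℝ) ^ 2 ≤ m := by exact_mod_cast hw
    nlinarith
  have h2 : (0 : ℝ) < (m : ℝ) ^ w := by positivity
  nlinarith

/-- the exact value of one term -/
theorem term_eq (n c k k' m w : ℕ) (hk : 1 ≤ k) (hk' : 1 ≤ k') (hm : 1 ≤ m) (hw : w ≤ m)
    (hs : k + k' + m < n) :
    ((n - 1).choose (k + k' + m) : ℝ) * (((k + k' + m).choose k : ℝ) *
      ((k + k' + m - k).choose k' : ℝ) * ((k : ℝ) ^ (k - 1) * (k' : ℝ) ^ (k' - 1) *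
        ((m.descFactorial w : ℕ) : ℝ) * ((w : ℝ) * (m : ℝ) ^ (m - w) / m))) *
      (K1 n c (k + k' + m) * (c : ℝ) ^ (k + k' + m - 1)) =
    K0 n c * (n * (am (n - (k + k' + m)) / am n) * (am k / k) * (am k' / k') * (w * (am m / m)) *
      (((m.descFactorial w : ℕ) : ℝ) / (m : ℝ) ^ w)) := by
  obtain ⟨x, rfl⟩ : ∃ x, n = x + 1 + (k + k' + m) := ⟨n - (1 + (k + k' + m)), by omega⟩
  set s := k + k' + m with hsdef
  set n := x + 1 + s with hn
  have e1 : n - s = x + 1 := by omega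
  have e2 : n - 1 = x + s := by omega
  have e3 : s - k = k' + m := by omega
  have hn0 : (0 : ℝ) < n := by
    have : 0 < n := by omega
    exact_mod_cast this
  have hx0 : (0 : ℝ) < ((x + 1 : ℕ) : ℝ) := by exact_mod_cast Nat.succ_pos x
  have hk0 : (0 : ℝ) < k := by exact_mod_cast hk
  have hk0' : (0 : ℝ) < k' := by exact_mod_cast hk'
  have hm0 : (0 : ℝ) < m := by exact_mod_cast hm
  have c1 : ((x + s).choose s : ℝ) = ((x + s) ! : ℝ) / ((s ! : ℝ) * (x ! : ℝ)) := by
    rw [Nat.cast_choose ℝ (Nat.le_add_left s x), Nat.add_sub_cancel]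
  have c2 : (s.choose k : ℝ) = (s ! : ℝ) / ((k ! : ℝ) * ((k' + m) ! : ℝ)) := by
    rw [Nat.cast_choose ℝ (by omega : k ≤ s), e3]
  have c3 : ((k' + m).choose k' : ℝ) = ((k' + m) ! : ℝ) / ((k' ! : ℝ) * (m ! : ℝ)) := by
    rw [Nat.cast_choose ℝ (Nat.le_add_right k' m), Nat.add_sub_cancel_left]
  have f1 : (n ! : ℝ) = n * ((x + s) ! : ℝ) := by
    have : n = (x + s) + 1 := by omega
    rw [this, Nat.factorial_succ]; push_cast; ring
  have f2 : ((x + 1) ! : ℝ) = ((x + 1 : ℕ) : ℝ) * (x ! : ℝ) := by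
    rw [Nat.factorial_succ]; push_cast; ring
  have p1 : (k : ℝ) ^ k = (k : ℝ) ^ (k - 1) * k := by
    rw [← pow_succ, Nat.sub_add_cancel hk]
  have p2 : (k' : ℝ) ^ k' = (k' : ℝ) ^ (k' - 1) * k' := by
    rw [← pow_succ, Nat.sub_add_cancel hk']
  have p3 : (m : ℝ) ^ m = (m : ℝ) ^ (m - w) * (m : ℝ) ^ w := by
    rw [← pow_add, Nat.sub_add_cancel hw]
  have p4 : (c : ℝ) ^ (n - (s - 1)) * (c : ℝ) ^ (s - 1) = (c : ℝ) ^ n := by
    rw [← pow_add]
    congr 1
    omega
  unfold K1 K0 am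
  rw [e1, e2, e3, c1, c2, c3, f1, f2, p1, p2, p3, pow_b _ (by omega), pow_c _ (by omega : 1 ≤ n),
    ← p4]
  have q1 : (0 : ℝ) < (x ! : ℝ) := by exact_mod_cast Nat.factorial_pos x
  have q2 : (0 : ℝ) < (s ! : ℝ) := by exact_mod_cast Nat.factorial_pos s
  have q3 : (0 : ℝ) < (k ! : ℝ) := by exact_mod_cast Nat.factorial_pos k
  have q4 : (0 : ℝ) < (k' ! : ℝ) := by exact_mod_cast Nat.factorial_pos k'
  have q5 : (0 : ℝ) < (m ! : ℝ) := by exact_mod_cast Nat.factorial_pos m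
  have q6 : (0 : ℝ) < ((k' + m) ! : ℝ) := by exact_mod_cast Nat.factorial_pos (k' + m)
  have q7 : (0 : ℝ) < ((x + s) ! : ℝ) := by exact_mod_cast Nat.factorial_pos (x + s)
  have q8 : (0 : ℝ) < (n : ℝ) ^ n := by positivity
  have q9 : (0 : ℝ) < (m : ℝ) ^ w := by positivity
  generalize (n : ℝ) ^ n = nn at q8 ⊢
  generalize ((x + 1 : ℕ) : ℝ) ^ (x + 1) = xx
  generalize (m : ℝ) ^ w = mw at q9 ⊢
  generalize (m : ℝ) ^ (m - w) = mmw
  generalize (c : ℝ) ^ (n - (s - 1)) = cc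
  generalize (c : ℝ) ^ (s - 1) = cs
  generalize (k : ℝ) ^ (k - 1) = kk
  generalize (k' : ℝ) ^ (k' - 1) = kk'
  generalize ((m.descFactorial w : ℕ) : ℝ) = ds
  generalize ((x + 1 : ℕ) : ℝ) = x1 at hx0 ⊢
  field_simp

/-- lower bound for one term -/
theorem term_lower (n c k k' m w : ℕ) (B : ℝ) (hk : 1 ≤ k) (hk' : 1 ≤ k') (hw0 : 1 ≤ w)
    (hw : w ^ 2 ≤ m) (hm2 : m ≤ 2 * w ^ 2)
    (hs : 2 * (k + k' + m) ≤ n) (hB : 0 < B) (hkB : (k : ℝ) ≤ 13 * B ^ 2)
    (hkB' : (k' : ℝ) ≤ 5 * B ^ 2) :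
    K0 n c * (n / (12480 * Real.exp 3 * B ^ 6 * w ^ 2)) ≤
    ((n - 1).choose (k + k' + m) : ℝ) * (((k + k' + m).choose k : ℝ) *
      ((k + k' + m - k).choose k' : ℝ) * ((k : ℝ) ^ (k - 1) * (k' : ℝ) ^ (k' - 1) *
        ((m.descFactorial w : ℕ) : ℝ) * ((w : ℝ) * (m : ℝ) ^ (m - w) / m))) *
      (K1 n c (k + k' + m) * (c : ℝ) ^ (k + k' + m - 1)) := by
  have hwm : w ≤ m := (Nat.le_self_pow (by norm_num) w).trans hw
  have hm : 1 ≤ m := hw0.trans hwm
  rw [term_eq n c k k' m w hk hk' hm hwm (by omega)]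
  have hK : 0 ≤ K0 n c := by unfold K0; positivity
  apply mul_le_mul_of_nonneg_left _ hK
  set s := k + k' + m with hsdef
  have hk0 : (0 : ℝ) < k := by exact_mod_cast hk
  have hk0' : (0 : ℝ) < k' := by exact_mod_cast hk'
  have hm0 : (0 : ℝ) < m := by exact_mod_cast hm
  have hw1 : (0 : ℝ) < w := by exact_mod_cast hw0
  have hn0 : (0 : ℝ) < n := by
    have : 0 < n := by omega
    exact_mod_cast this
  have r0 := am_ratio (n := n) (a := n - s) (by omega) (by omega) (by omega)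
  have hns : n - (n - s) = s := by omega
  rw [hns] at r0
  have an := am_pos (m := n) (by omega)
  have r1 : Real.exp (-(s : ℝ)) / 2 ≤ am (n - s) / am n := by
    rw [le_div_iff₀ an]
    linarith [mul_comm (am n) (Real.exp (-(s : ℝ)) / 2)]
  -- bounds of the square roots
  have sq1 : Real.sqrt k ≤ 4 * B := by
    rw [Real.sqrt_le_left (by positivity)]
    nlinarith
  have sq2 : Real.sqrt k' ≤ 3 * B := by
    rw [Real.sqrt_le_left (by positivity)]
    nlinarith
  have hm2' : (m : ℝ) ≤ 2 * (w : ℝ) ^ 2 := by exact_mod_cast hm2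
  have sq3 : Real.sqrt m ≤ 2 * w := by
    rw [Real.sqrt_le_left (by positivity)]
    nlinarith
  have b1 : Real.exp k / (Real.exp 1 * (4 * B)) / (13 * B ^ 2) ≤ am k / k := by
    have h1 := am_lower k hk
    have h2 : Real.exp k / (Real.exp 1 * (4 * B)) ≤ Real.exp k / (Real.exp 1 * Real.sqrt k) := by
      apply div_le_div_of_nonneg_left (Real.exp_pos _).le (by positivity)
      exact mul_le_mul_of_nonneg_left sq1 (Real.exp_pos _).le
    have h3 := am_pos hk
    calc Real.exp k / (Real.exp 1 * (4 * B)) / (13 * B ^ 2) ≤ am k / (13 * B ^ 2) := by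
          apply div_le_div_of_nonneg_right (h2.trans h1) (by positivity)
      _ ≤ am k / k := div_le_div_of_nonneg_left h3.le hk0 hkB
  have b2 : Real.exp k' / (Real.exp 1 * (3 * B)) / (5 * B ^ 2) ≤ am k' / k' := by
    have h1 := am_lower k' hk'
    have h2 : Real.exp k' / (Real.exp 1 * (3 * B)) ≤ Real.exp k' / (Real.exp 1 * Real.sqrt k') := by
      apply div_le_div_of_nonneg_left (Real.exp_pos _).le (by positivity)
      exact mul_le_mul_of_nonneg_left sq2 (Real.exp_pos _).le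
    have h3 := am_pos hk'
    calc Real.exp k' / (Real.exp 1 * (3 * B)) / (5 * B ^ 2) ≤ am k' / (5 * B ^ 2) := by
          apply div_le_div_of_nonneg_right (h2.trans h1) (by positivity)
      _ ≤ am k' / k' := div_le_div_of_nonneg_left h3.le hk0' hkB'
  have b3 : Real.exp m / (Real.exp 1 * (2 * w)) / (2 * (w : ℝ) ^ 2) ≤ am m / m := by
    have h1 := am_lower m hm
    have h2 : Real.exp m / (Real.exp 1 * (2 * w)) ≤ Real.exp m / (Real.exp 1 * Real.sqrt m) := by
      apply div_le_div_of_nonneg_left (Real.exp_pos _).le (by positivity)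
      exact mul_le_mul_of_nonneg_left sq3 (Real.exp_pos _).le
    have h3 := am_pos hm
    calc Real.exp m / (Real.exp 1 * (2 * w)) / (2 * (w : ℝ) ^ 2) ≤ am m / (2 * (w : ℝ) ^ 2) := by
          apply div_le_div_of_nonneg_right (h2.trans h1) (by positivity)
      _ ≤ am m / m := div_le_div_of_nonneg_left h3.le hm0 hm2'
  have b4 : (1 : ℝ) / 2 ≤ ((m.descFactorial w : ℕ) : ℝ) / (m : ℝ) ^ w := by
    have h1 := desc_lower m w hw
    have h2 : (0 : ℝ) < (m : ℝ) ^ w := by positivity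
    rw [le_div_iff₀ h2]
    linarith
  have hexp : Real.exp (-(s : ℝ)) * Real.exp k * Real.exp k' * Real.exp m = 1 := by
    rw [← Real.exp_add, ← Real.exp_add, ← Real.exp_add, hsdef]
    push_cast
    have : -((k : ℝ) + k' + m) + k + k' + m = 0 := by ring
    rw [this, Real.exp_zero]
  have he3 : Real.exp 3 = Real.exp 1 * Real.exp 1 * Real.exp 1 := by
    rw [← Real.exp_add, ← Real.exp_add]
    norm_num
  have hprod : n * (Real.exp (-(s : ℝ)) / 2) * (Real.exp k / (Real.exp 1 * (4 * B)) / (13 * B ^ 2)) *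
      (Real.exp k' / (Real.exp 1 * (3 * B)) / (5 * B ^ 2)) *
      (w * (Real.exp m / (Real.exp 1 * (2 * w)) / (2 * (w : ℝ) ^ 2))) * (1 / 2) =
      n / (12480 * Real.exp 3 * B ^ 6 * w ^ 2) := by
    have e0 := Real.exp_pos 1
    have : n * (Real.exp (-(s : ℝ)) / 2) * (Real.exp k / (Real.exp 1 * (4 * B)) / (13 * B ^ 2)) *
      (Real.exp k' / (Real.exp 1 * (3 * B)) / (5 * B ^ 2)) *
      (w * (Real.exp m / (Real.exp 1 * (2 * w)) / (2 * (w : ℝ) ^ 2))) * (1 / 2) =
      (Real.exp (-(s : ℝ)) * Real.exp k * Real.exp k' * Real.exp m) *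
        (n / (12480 * (Real.exp 1 * Real.exp 1 * Real.exp 1) * B ^ 6 * w ^ 2)) := by
      field_simp
      ring
    rw [this, hexp, one_mul, he3]
  rw [← hprod]
  have ek := Real.exp_pos (k : ℝ)
  have ek' := Real.exp_pos (k' : ℝ)
  have em := Real.exp_pos (m : ℝ)
  have e0 := Real.exp_pos 1
  have en := Real.exp_pos (-(s : ℝ))
  have ak := am_pos hk
  have ak' := am_pos hk'
  have amm := am_pos hm
  have ans := am_pos (m := n - s) (by omega)
  gcongr

end Pool.Agent.ZO
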