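import Pool.Agent.ZO.Count2
import Pool.Agent.ZO.Num

/-! # Zero-one law: the expected number of successful templates -/

set_option autoImplicit false

open scoped BigOperators Nat

namespace Pool.Agent.ZO

open Pool.Agent.WT.Trees (PF)
open Pool.Agent.GX

/-- the constant of a pattern -/
def kap (N : ℕ) : ℕ := N * (N + 2) + N + 2

theorem kap_ge (N : ℕ) : 2 ≤ kap N := by
  unfold kap
  omega

theorem card_KK (A w : ℕ) : (KK A w).card = A * (A * w ^ 2) := by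
  unfold KK
  rw [Finset.card_product, Finset.card_product, Nat.card_Ico, Nat.card_Ico, Nat.card_Ico]
  have h1 : 13 * A - 12 * A = A := by omega
  have h2 : 5 * A - 4 * A = A := by omega
  have h3 : 2 * w ^ 2 - w ^ 2 = w ^ 2 := by omega
  rw [h1, h2, h3]

theorem w_le {N ℓ : ℕ} (hℓ : 1 ≤ ℓ) {dl : Fin N → ℕ} (hdl : ∀ j, 1 ≤ dl j ∧ dl j ≤ ℓ) :
    Ls N ℓ + 1 + ∑ j, dl j ≤ kap N * ℓ := by
  have h1 : ∑ j, dl j ≤ N * ℓ := by
    calc ∑ j, dl j ≤ ∑ _j : Fin N, ℓ := Finset.sum_le_sum fun j _ => (hdl j).2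
      _ = N * ℓ := by rw [Finset.sum_const, Finset.card_univ, Fintype.card_fin, smul_eq_mul]
  unfold kap Ls
  nlinarith

variable {V : Type} [Fintype V] [DecidableEq V]

/-- one summand of the expected number -/
noncomputable def Fq (n c w : ℕ) (q : ℕ × ℕ × ℕ) : ℝ :=
  ((n - 1).choose (q.1 + q.2.1 + q.2.2) : ℝ) * (((q.1 + q.2.1 + q.2.2).choose q.1 : ℝ) *
      ((q.1 + q.2.1 + q.2.2 - q.1).choose q.2.1 : ℝ) * Wc q.1 q.2.1 q.2.2 w) *
      (K1 n c (q.1 + q.2.1 + q.2.2) * (c : ℝ) ^ (q.1 + q.2.1 + q.2.2 - 1))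

theorem sum_Fq (n c w : ℕ) (b : ℕ) (hb : 1 ≤ b) (hw0 : 1 ≤ w) (hwb : w ≤ b)
    (hn : 40 * b ^ 2 ≤ n) :
    K0 n c * (n / (12480 * Real.exp 3 * (b : ℝ) ^ 2)) ≤ ∑ q ∈ KK (b ^ 2) w, Fq n c w q := by
  have hb0 : (0 : ℝ) < b := by exact_mod_cast hb
  have hw1 : (0 : ℝ) < w := by exact_mod_cast hw0
  have hwb2 : w ^ 2 ≤ b ^ 2 := Nat.pow_le_pow_left hwb 2
  have h1 : ∀ q ∈ KK (b ^ 2) w,
      K0 n c * (n / (12480 * Real.exp 3 * (b : ℝ) ^ 6 * (w : ℝ) ^ 2)) ≤ Fq n c w q := by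
    intro q hq
    unfold KK at hq
    simp only [Finset.mem_product, Finset.mem_Ico] at hq
    obtain ⟨⟨h1, h2⟩, ⟨h3, h4⟩, ⟨h5, h6⟩⟩ := hq
    have hb2 : 1 ≤ b ^ 2 := Nat.one_le_pow _ _ hb
    unfold Fq Wc
    refine term_lower n c q.1 q.2.1 q.2.2 w b (by omega) (by omega) hw0 h5 h6.le (by omega) hb0 ?_ ?_
    · exact_mod_cast h2.le
    · exact_mod_cast h4.le
  have h2 := Finset.card_nsmul_le_sum _ _ _ h1
  refine le_trans (le_of_eq ?_) h2
  rw [card_KK, nsmul_eq_mul]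
  push_cast
  have e3 := Real.exp_pos 3
  field_simp

theorem EE_lower (P : Pattern) (ℓ : ℕ) (hℓ : 1 ≤ ℓ) (r : V)
    (hn : 40 * (kap P.N * ℓ) ^ 3 ≤ Fintype.card V) :
    K0 (Fintype.card V) (Fintype.card (Bool × V)) *
      ((ℓ : ℝ) ^ (3 * P.N) * Fintype.card V / (24960 * Real.exp 3 * ((kap P.N * ℓ : ℕ) : ℝ) ^ 2 *
        (2 * (Fintype.card V : ℝ)) ^ P.N)) ≤
      EE (Fintype.card V) (Fintype.card (Bool × V)) (Tn P ℓ ((kap P.N * ℓ) ^ 2) r) := by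
  classical
  set n := Fintype.card V with hndef
  set b := kap P.N * ℓ with hb
  set A := b ^ 2 with hA
  set c := Fintype.card (Bool × V) with hcdef
  have hc : (c : ℝ) = 2 * (n : ℝ) := by
    rw [hcdef, Fintype.card_prod, Fintype.card_bool]
    push_cast
    rfl
  have hκ := kap_ge P.N
  have hb1 : 2 ≤ b := by rw [hb]; nlinarith
  have hn0 : 0 < n := by
    have : 1 ≤ b ^ 3 := Nat.one_le_pow _ _ (by omega)
    omega
  have hn0' : (0 : ℝ) < n := by exact_mod_cast hn0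
  have hc0 : (0 : ℝ) < c := by rw [hc]; positivity
  have hA1 : 1 ≤ A := Nat.one_le_pow _ _ (by omega)
  have hbA : b ^ 3 = A * b := by rw [hA]; ring
  have hnA : 80 * A ≤ n := by nlinarith
  have hK1 : ∀ s, 0 ≤ K1 n c s := fun s => by unfold K1; positivity
  -- the number of successful templates
  have claim : ∀ s ∈ Finset.range n,
      ∑ att ∈ AttF P ℓ, ∑ dl ∈ DlF P ℓ,
        ∑ q ∈ (KK A (Ls P.N ℓ + 1 + ∑ j, dl j)).filter (fun q => q.1 + q.2.1 + q.2.2 = s),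
          (ℓ : ℝ) ^ P.N * ((s.choose q.1 : ℝ) * ((s - q.1).choose q.2.1 : ℝ) *
            Wc q.1 q.2.1 q.2.2 (Ls P.N ℓ + 1 + ∑ j, dl j)) * (c : ℝ) ^ (s - 1) ≤
        (Tn P ℓ A r s : ℝ) * (2 * (c : ℝ) ^ P.N) := by
    intro s hs
    rw [Finset.mem_range] at hs
    by_cases hsA : s < 20 * A
    · obtain ⟨D, hD, hDs⟩ : ∃ D ⊆ (Finset.univ : Finset V).erase r, D.card = s := by
        apply Finset.exists_subset_card_eq
        rw [Finset.card_erase_of_mem (Finset.mem_univ r), Finset.card_univ]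
        omega
      have hrD : r ∉ D := fun h => Finset.notMem_erase r _ (hD h)
      have hsm : 2 * (D.card * (Ls P.N ℓ + 1 + P.N * ℓ)) ≤ Fintype.card V := by
        rw [hDs, ← hndef]
        have h1 : Ls P.N ℓ + 1 + P.N * ℓ ≤ b := by
          rw [hb]
          unfold kap Ls
          nlinarith
        calc 2 * (s * (Ls P.N ℓ + 1 + P.N * ℓ)) ≤ 2 * ((20 * A) * b) := by
              gcongr
          _ = 40 * b ^ 3 := by rw [hA]; ring
          _ ≤ n := hn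
      have h1 := count1 (P := P) (ℓ := ℓ) (A := A) (r := r) D hrD hsm
      rw [← hndef, ← hc, hDs] at h1
      refine le_trans ?_ h1
      rw [mul_assoc, Finset.sum_mul]
      apply Finset.sum_le_sum
      intro att hatt
      rw [Finset.sum_mul]
      apply Finset.sum_le_sum
      intro dl hdl
      have h2 := count2 (A := A) hatt hdl D hA1 (by
        rw [hA]
        exact Nat.pow_le_pow_left (w_le hℓ (mem_DlF.1 hdl)) 2)
      rw [hDs] at h2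
      rw [← Finset.sum_mul, ← Finset.mul_sum]
      calc _ = (∑ q ∈ (KK A (Ls P.N ℓ + 1 + ∑ j, dl j)).filter (fun q => q.1 + q.2.1 + q.2.2 = s),
              (s.choose q.1 : ℝ) * ((s - q.1).choose q.2.1 : ℝ) *
                Wc q.1 q.2.1 q.2.2 (Ls P.N ℓ + 1 + ∑ j, dl j)) *
              ((ℓ : ℝ) ^ P.N * (c : ℝ) ^ (s - 1)) := by ring
        _ ≤ _ := mul_le_mul_of_nonneg_right h2 (by positivity)
    · have h0 : ∀ dl ∈ DlF P ℓ,
          (KK A (Ls P.N ℓ + 1 + ∑ j, dl j)).filter (fun q => q.1 + q.2.1 + q.2.2 = s) = ∅ := by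
        intro dl hdl
        have h3 : (Ls P.N ℓ + 1 + ∑ j, dl j) ^ 2 ≤ A := by
          rw [hA]
          exact Nat.pow_le_pow_left (w_le hℓ (mem_DlF.1 hdl)) 2
        apply Finset.filter_false_of_mem
        intro q hq
        unfold KK at hq
        simp only [Finset.mem_product, Finset.mem_Ico] at hq
        omega
      have h1 : ∑ att ∈ AttF P ℓ, ∑ dl ∈ DlF P ℓ,
        ∑ q ∈ (KK A (Ls P.N ℓ + 1 + ∑ j, dl j)).filter (fun q => q.1 + q.2.1 + q.2.2 = s),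
          (ℓ : ℝ) ^ P.N * ((s.choose q.1 : ℝ) * ((s - q.1).choose q.2.1 : ℝ) *
            Wc q.1 q.2.1 q.2.2 (Ls P.N ℓ + 1 + ∑ j, dl j)) * (c : ℝ) ^ (s - 1) = 0 := by
        apply Finset.sum_eq_zero
        intro att _
        apply Finset.sum_eq_zero
        intro dl hdl
        rw [h0 dl hdl, Finset.sum_empty]
      rw [h1]
      positivity
  -- the sum
  have hEE : EE n c (Tn P ℓ A r) * (2 * (c : ℝ) ^ P.N) =
      ∑ s ∈ Finset.range n, ((n - 1).choose s : ℝ) * K1 n c s *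
        ((Tn P ℓ A r s : ℝ) * (2 * (c : ℝ) ^ P.N)) := by
    unfold EE
    rw [Finset.sum_mul]
    exact Finset.sum_congr rfl fun s _ => by ring
  have h2 : ∑ s ∈ Finset.range n, ((n - 1).choose s : ℝ) * K1 n c s *
      (∑ att ∈ AttF P ℓ, ∑ dl ∈ DlF P ℓ,
        ∑ q ∈ (KK A (Ls P.N ℓ + 1 + ∑ j, dl j)).filter (fun q => q.1 + q.2.1 + q.2.2 = s),
          (ℓ : ℝ) ^ P.N * ((s.choose q.1 : ℝ) * ((s - q.1).choose q.2.1 : ℝ) *
            Wc q.1 q.2.1 q.2.2 (Ls P.N ℓ + 1 + ∑ j, dl j)) * (c : ℝ) ^ (s - 1)) ≤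
      EE n c (Tn P ℓ A r) * (2 * (c : ℝ) ^ P.N) := by
    rw [hEE]
    apply Finset.sum_le_sum
    intro s hs
    exact mul_le_mul_of_nonneg_left (claim s hs) (mul_nonneg (by positivity) (hK1 s))
  have h3 : ∑ s ∈ Finset.range n, ((n - 1).choose s : ℝ) * K1 n c s *
      (∑ att ∈ AttF P ℓ, ∑ dl ∈ DlF P ℓ,
        ∑ q ∈ (KK A (Ls P.N ℓ + 1 + ∑ j, dl j)).filter (fun q => q.1 + q.2.1 + q.2.2 = s),
          (ℓ : ℝ) ^ P.N * ((s.choose q.1 : ℝ) * ((s - q.1).choose q.2.1 : ℝ) *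
            Wc q.1 q.2.1 q.2.2 (Ls P.N ℓ + 1 + ∑ j, dl j)) * (c : ℝ) ^ (s - 1)) =
      ∑ att ∈ AttF P ℓ, ∑ dl ∈ DlF P ℓ, (ℓ : ℝ) ^ P.N *
        ∑ q ∈ KK A (Ls P.N ℓ + 1 + ∑ j, dl j), Fq n c (Ls P.N ℓ + 1 + ∑ j, dl j) q := by
    simp only [Finset.mul_sum]
    rw [Finset.sum_comm]
    apply Finset.sum_congr rfl
    intro att _
    rw [Finset.sum_comm]
    apply Finset.sum_congr rfl
    intro dl hdl
    have hwA : (Ls P.N ℓ + 1 + ∑ j, dl j) ^ 2 ≤ A := by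
      rw [hA]
      exact Nat.pow_le_pow_left (w_le hℓ (mem_DlF.1 hdl)) 2
    set w := Ls P.N ℓ + 1 + ∑ j, dl j with hw
    have hmap : ∀ q ∈ KK A w, q.1 + q.2.1 + q.2.2 ∈ Finset.range n := by
      intro q hq
      unfold KK at hq
      simp only [Finset.mem_product, Finset.mem_Ico] at hq
      rw [Finset.mem_range]
      omega
    rw [← Finset.sum_fiberwise_of_maps_to hmap]
    apply Finset.sum_congr rfl
    intro s _
    apply Finset.sum_congr rfl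
    intro q hq
    rw [Finset.mem_filter] at hq
    obtain ⟨_, rfl⟩ := hq
    unfold Fq
    ring
  have h4 : ∀ dl ∈ DlF P ℓ, K0 n c * (n / (12480 * Real.exp 3 * (b : ℝ) ^ 2)) ≤
      ∑ q ∈ KK A (Ls P.N ℓ + 1 + ∑ j, dl j), Fq n c (Ls P.N ℓ + 1 + ∑ j, dl j) q := by
    intro dl hdl
    rw [hA]
    refine sum_Fq n c _ b (by omega) (by omega) (w_le hℓ (mem_DlF.1 hdl)) ?_
    rw [← hA]
    omega
  have h5 : (ℓ : ℝ) ^ P.N * ((ℓ : ℝ) ^ P.N * ((ℓ : ℝ) ^ P.N *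
      (K0 n c * (n / (12480 * Real.exp 3 * (b : ℝ) ^ 2))))) ≤
      EE n c (Tn P ℓ A r) * (2 * (c : ℝ) ^ P.N) := by
    refine le_trans ?_ (h3 ▸ h2)
    have h6 : ∀ att ∈ AttF P ℓ, (ℓ : ℝ) ^ P.N * ((ℓ : ℝ) ^ P.N *
      (K0 n c * (n / (12480 * Real.exp 3 * (b : ℝ) ^ 2)))) ≤ ∑ dl ∈ DlF P ℓ, (ℓ : ℝ) ^ P.N *
        ∑ q ∈ KK A (Ls P.N ℓ + 1 + ∑ j, dl j), Fq n c (Ls P.N ℓ + 1 + ∑ j, dl j) q := by
      intro att _
      have h7 := Finset.card_nsmul_le_sum (DlF P ℓ) (fun dl => (ℓ : ℝ) ^ P.N *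
        ∑ q ∈ KK A (Ls P.N ℓ + 1 + ∑ j, dl j), Fq n c (Ls P.N ℓ + 1 + ∑ j, dl j) q)
        ((ℓ : ℝ) ^ P.N * (K0 n c * (n / (12480 * Real.exp 3 * (b : ℝ) ^ 2))))
        (fun dl hdl => mul_le_mul_of_nonneg_left (h4 dl hdl) (by positivity))
      rw [card_DlF, nsmul_eq_mul] at h7
      push_cast at h7
      exact h7
    have h8 := Finset.card_nsmul_le_sum _ _ _ h6
    rw [card_AttF, nsmul_eq_mul] at h8
    push_cast at h8
    exact h8
  rw [← hc]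
  have hcN : (0 : ℝ) < 2 * (c : ℝ) ^ P.N := by positivity
  rw [← mul_le_mul_iff_left₀ hcN]
  refine le_trans (le_of_eq ?_) h5
  have e3 := Real.exp_pos 3
  have hb0 : (0 : ℝ) < b := by
    have : 0 < b := by omega
    exact_mod_cast this
  have hcN' : (0 : ℝ) < (c : ℝ) ^ P.N := by positivity
  rw [pow_mul']
  field_simp
  ring

end Pool.Agent.ZO
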