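import Pool.Agent.ZO.RealOf
import Pool.Agent.ZO.Exch

/-! # Zero-one law: marked trees and their successful decorations -/

set_option autoImplicit false

open scoped BigOperators

namespace Pool.Agent.ZO

open Pool.Agent.WT.Trees (PF)
open Pool.Agent.GX

/-- a tree on `D` with top `u`, a spine that ends in `z`, and a marked vertex for every step, which
hangs at the position `att` of the spine on a path of length `dl` -/
structure MG {V : Type} (P : Pattern) (ℓ A : ℕ) (D : Finset V) (u : V) (g : V → V) (z : V)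
    (att dl : Fin P.N → ℕ) (y : Fin P.N → V) : Prop where
  uD : u ∈ D
  gtop : g u = u
  inD : ∀ x ∈ D, g x ∈ D
  reach : ∀ x ∈ D, ∃ m, g^[m] x = u
  gout : ∀ x, x ∉ D → g x = x
  zD : z ∈ D
  nu : g^[Ls P.N ℓ + 1] z ≠ u
  hu : g^[Ls P.N ℓ + 2] z = u
  cardlo : 16 * A ≤ D.card
  cardhi : D.card < 20 * A
  szq : sz g (g^[Ls P.N ℓ + 1] z) < 16 * A
  szz : 12 * A ≤ sz g z
  att_mem : ∀ j : Fin P.N, att j ∈ blk ℓ (ba P.N (P.lam (j.1 + 1)) (j.1 + 1))
  dl_mem : ∀ j, 1 ≤ dl j ∧ dl j ≤ ℓ
  yD : ∀ j, y j ∈ D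
  path : ∀ j, g^[dl j] (y j) = sv g z (Ls P.N ℓ) (att j)
  off : ∀ j, ∀ i < dl j, ∀ k ≤ Ls P.N ℓ + 1, g^[i] (y j) ≠ sv g z (Ls P.N ℓ) k

section

variable {V : Type} {P : Pattern} {ℓ A : ℕ} {D : Finset V} {u : V} {g : V → V} {z : V}
  {att dl : Fin P.N → ℕ} {y : Fin P.N → V}

theorem MG.it (h : MG P ℓ A D u g z att dl y) {x : V} (hx : x ∈ D) (i : ℕ) : g^[i] x ∈ D := by
  induction i with
  | zero => exact hx
  | succ i ih =>
    rw [Function.iterate_succ_apply']
    exact h.inD _ ih

theorem MG.svD (h : MG P ℓ A D u g z att dl y) (i : ℕ) : sv g z (Ls P.N ℓ) i ∈ D := h.it h.zD _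

theorem MG.svu (h : MG P ℓ A D u g z att dl y) (i : ℕ) : sv g z (Ls P.N ℓ) i ≠ u :=
  fun h' => h.nu (fix_iter h.gtop h' (Nat.sub_le _ _))

/-- the spine is injective -/
theorem MG.sv_inj (h : MG P ℓ A D u g z att dl y) {i i' : ℕ} (hi : i ≤ Ls P.N ℓ + 1)
    (hi' : i' ≤ Ls P.N ℓ + 1) (he : sv g z (Ls P.N ℓ) i = sv g z (Ls P.N ℓ) i') : i = i' := by
  have key : ∀ i i', i < i' → i' ≤ Ls P.N ℓ + 1 →
      sv g z (Ls P.N ℓ) i ≠ sv g z (Ls P.N ℓ) i' := by
    intro i i' h1 h2 he
    -- the orbit of `sv i'` is periodic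
    set L := Ls P.N ℓ with hL
    have hper : g^[i' - i] (sv g z L i') = sv g z L i' := by
      rw [← he]
      nth_rewrite 1 [he]
      simp only [sv]
      rw [← Function.iterate_add_apply]
      congr 2
      omega
    obtain ⟨m, hm⟩ := h.reach _ (h.svD i')
    rw [← hL] at hm
    have h3 : g^[(i' - i) * m] (sv g z L i') = sv g z L i' := by
      rw [Function.iterate_mul]
      exact Function.iterate_fixed hper m
    have h4 : g^[(i' - i) * m] (sv g z L i') = u :=
      fix_iter h.gtop hm (Nat.le_mul_of_pos_left m (by omega))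
    exact h.svu i' (h3.symm.trans h4)
  rcases lt_trichotomy i i' with h1 | h1 | h1
  · exact absurd he (key i i' h1 hi')
  · exact h1
  · exact absurd he.symm (key i' i h1 hi)

/-- the end of the spine is unique -/
theorem MG.z_unique [Fintype V] (h : MG P ℓ A D u g z att dl y) {z' : V}
    {att' dl' : Fin P.N → ℕ} {y' : Fin P.N → V} (h' : MG P ℓ A D u g z' att' dl' y') : z = z' := by
  classical
  by_contra hne
  set L := Ls P.N ℓ with hL
  have hsub : ∀ w : V, w ∈ D → w ≠ u → below g w ⊆ (D : Set V) := by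
    intro w hw _ x hx
    by_contra hxD
    obtain ⟨m, hm⟩ := hx
    rw [Function.iterate_fixed (h.gout x hxD)] at hm
    exact hxD (hm ▸ hw)
  have hzu : z ≠ u := fun e => h.nu (fix_iter h.gtop (j := 0) e (Nat.zero_le _))
  have hzu' : z' ≠ u := fun e => h'.nu (fix_iter h.gtop (j := 0) e (Nat.zero_le _))
  have key : ∀ w w' : V, g^[L + 1] w ≠ u → g^[L + 2] w = u → g^[L + 1] w' ≠ u →
      g^[L + 2] w' = u → w ≠ w' → w ∈ below g w' → False := by
    rintro w w' h1 h2 h3 h4 h5 ⟨m, hm⟩
    rcases m with _ | m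
    · exact h5 hm
    · have h6 : g^[L + 1] w' = u := by
        rw [← hm, ← Function.iterate_add_apply]
        have h7 : L + 1 + (m + 1) = m + (L + 2) := by omega
        rw [h7, Function.iterate_add_apply, h2]
        exact Function.iterate_fixed h.gtop m
      exact h3 h6
  have hdis : Disjoint (below g z) (below g z') := by
    rw [Set.disjoint_left]
    intro x hx hx'
    rcases below_chain hx hx' with e | e
    · exact key z z' h.nu h.hu h'.nu h'.hu hne e
    · exact key z' z h'.nu h'.hu h.nu h.hu (Ne.symm hne) e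
  have h1 := Set.ncard_le_ncard (Set.union_subset (hsub z h.zD hzu) (hsub z' h'.zD hzu'))
    (Set.toFinite _)
  rw [Set.ncard_union_eq hdis (Set.toFinite _) (Set.toFinite _), Set.ncard_coe_finset] at h1
  have h2 := h.szz
  have h3 := h'.szz
  have h4 := h.cardhi
  unfold sz at h2 h3
  omega

/-- positions and lengths are determined by the tree and the marked vertices -/
theorem MG.att_unique (h : MG P ℓ A D u g z att dl y) {att' dl' : Fin P.N → ℕ}
    (h' : MG P ℓ A D u g z att' dl' y) : att = att' ∧ dl = dl' := by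
  have hatt : ∀ (a : Fin P.N → ℕ), (∀ j : Fin P.N, a j ∈ blk ℓ (ba P.N (P.lam (j.1 + 1)) (j.1 + 1))) →
      ∀ j, a j ≤ Ls P.N ℓ := fun a ha j =>
    blk_le (ha j) (ba_le (P.le _) (by omega) (by have := j.2; omega))
  have hdl : dl = dl' := by
    funext j
    rcases lt_trichotomy (dl j) (dl' j) with h1 | h1 | h1
    · exact absurd (h.path j) (h'.off j _ h1 _ ((hatt att h.att_mem j).trans (Nat.le_succ _)))
    · exact h1
    · exact absurd (h'.path j) (h.off j _ h1 _ ((hatt att' h'.att_mem j).trans (Nat.le_succ _)))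
  refine ⟨?_, hdl⟩
  funext j
  apply h.sv_inj ((hatt att h.att_mem j).trans (Nat.le_succ _))
    ((hatt att' h'.att_mem j).trans (Nat.le_succ _))
  rw [← h.path j, ← h'.path j, hdl]

end

variable {V : Type} [Fintype V] [DecidableEq V] {P : Pattern} {ℓ A : ℕ} {D : Finset V} {u : V}
  {g : V → V} {z : V} {att dl : Fin P.N → ℕ} {y : Fin P.N → V}

/-- the spine and the paths to the marked vertices -/
def Hs {N : ℕ} (g : V → V) (z : V) (L : ℕ) (dl : Fin N → ℕ) (y : Fin N → V) : Finset V :=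
  (Finset.range (L + 1)).image (sv g z L) ∪
    Finset.univ.biUnion fun j => (Finset.range (dl j)).image fun i => g^[i] (y j)

omit [Fintype V] in
theorem Hs_card {N : ℕ} (g : V → V) (z : V) (L ℓ : ℕ) (dl : Fin N → ℕ) (y : Fin N → V)
    (h : ∀ j, dl j ≤ ℓ) : (Hs g z L dl y).card ≤ L + 1 + N * ℓ := by
  unfold Hs
  refine (Finset.card_union_le _ _).trans ?_
  apply Nat.add_le_add
  · exact Finset.card_image_le.trans (Finset.card_range _).le
  · refine Finset.card_biUnion_le.trans ?_
    calc ∑ j : Fin N, ((Finset.range (dl j)).image fun i => g^[i] (y j)).card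
        ≤ ∑ _j : Fin N, ℓ := Finset.sum_le_sum fun j _ =>
          (Finset.card_image_le.trans (Finset.card_range _).le).trans (h j)
      _ = N * ℓ := by rw [Finset.sum_const, Finset.card_univ, Fintype.card_fin, smul_eq_mul]

/-- allowed decorations -/
def allow (r : V) (P : Pattern) (D : Finset V) (u : V) (g : V → V) (z : V) (L : ℕ)
    (dl : Fin P.N → ℕ) (y : Fin P.N → V) (idx : Fin P.N → ℕ) (x : V) : Finset (Bool × V) :=
  if x ∉ D ∨ x = u then {(false, r)}
  else (Finset.univ.filter fun c : Bool × V =>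
    (∀ j, x = sv g z L (idx j) → c = (P.eps (j.1 + 1), y j)) ∧
    (x ∈ Hs g z L dl y → (∀ j, x ≠ sv g z L (idx j)) → c.2 ∉ D))

end Pool.Agent.ZO
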