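import Mathlib

/-! # Zero-one law: the ratio of the second moment -/

set_option autoImplicit false

open scoped BigOperators Nat

namespace Pool.Agent.ZO

open Stirling

theorem fac_eq (m : ℕ) (hm : 1 ≤ m) :
    (m ! : ℝ) = stirlingSeq m * Real.sqrt (2 * m) * (m : ℝ) ^ m * (Real.exp m)⁻¹ := by
  have hm' : (0 : ℝ) < m := by exact_mod_cast hm
  have h1 : Real.sqrt (2 * (m : ℝ)) ≠ 0 := (Real.sqrt_pos.2 (by positivity)).ne'
  have h2 : ((m : ℝ) / Real.exp 1) ^ m ≠ 0 := by positivity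
  have h3 : Real.exp (m : ℝ) = Real.exp 1 ^ m := by
    rw [← Real.exp_nat_mul, mul_one]
  rw [stirlingSeq, h3]
  have h4 : ((m : ℝ) / Real.exp 1) ^ m = (m : ℝ) ^ m * (Real.exp 1 ^ m)⁻¹ := by
    rw [div_pow, div_eq_mul_inv]
  rw [h4] at h2 ⊢
  field_simp

theorem st_pos (m : ℕ) (hm : 1 ≤ m) : 0 < stirlingSeq m := by
  obtain ⟨k, rfl⟩ := Nat.exists_eq_add_of_le' hm
  exact stirlingSeq'_pos k

theorem st_anti {a b : ℕ} (ha : 1 ≤ a) (hab : a ≤ b) : stirlingSeq b ≤ stirlingSeq a := by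
  obtain ⟨k, rfl⟩ := Nat.exists_eq_add_of_le' ha
  obtain ⟨j, rfl⟩ := Nat.exists_eq_add_of_le' (ha.trans hab)
  exact stirlingSeq'_antitone (by omega)

/-- the exact ratio, with `n = x + 1 + s + s'` -/
theorem ratio (x s s' : ℕ) :
    ((x + s').choose s' : ℝ) * (x + 1 : ℕ) ^ (x + 1) *
        (((x + 1 + s + s' : ℕ) : ℝ) ^ (x + 1 + s + s') / ((x + 1 + s + s' : ℕ) : ℝ) ^ 2) ≤
      stirlingSeq (x + 1 + s) / stirlingSeq (x + 1 + s + s') * ((x + s + s').choose s' : ℝ) *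
        (((x + 1 + s' : ℕ) : ℝ) ^ (x + 1 + s') / (x + 1 + s' : ℕ)) *
        (((x + 1 + s : ℕ) : ℝ) ^ (x + 1 + s) / (x + 1 + s : ℕ)) := by
  set n := x + 1 + s + s' with hn
  set N1 := x + 1 + s' with hN1
  set N2 := x + 1 + s with hN2
  set N3 := x + 1 with hN3
  have p3 : (0 : ℝ) < N3 := by exact_mod_cast Nat.succ_pos x
  have p1 : (0 : ℝ) < N1 := by
    have : 0 < N1 := by omega
    exact_mod_cast this
  have p2 : (0 : ℝ) < N2 := by
    have : 0 < N2 := by omega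
    exact_mod_cast this
  have pn : (0 : ℝ) < n := by
    have : 0 < n := by omega
    exact_mod_cast this
  have f3 : (N3 ! : ℝ) = N3 * (x ! : ℝ) := by
    rw [hN3, Nat.factorial_succ]; push_cast; ring
  have f1 : (N1 ! : ℝ) = N1 * ((x + s') ! : ℝ) := by
    have : N1 = (x + s') + 1 := by omega
    rw [this, Nat.factorial_succ]; push_cast; ring
  have f2 : (N2 ! : ℝ) = N2 * ((x + s) ! : ℝ) := by
    have : N2 = (x + s) + 1 := by omega
    rw [this, Nat.factorial_succ]; push_cast; ring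
  have fn : (n ! : ℝ) = n * ((x + s + s') ! : ℝ) := by
    have : n = (x + s + s') + 1 := by omega
    rw [this, Nat.factorial_succ]; push_cast; ring
  have c1 : ((x + s').choose s' : ℝ) = ((x + s') ! : ℝ) / ((s' ! : ℝ) * (x ! : ℝ)) := by
    rw [Nat.cast_choose ℝ (Nat.le_add_left s' x), Nat.add_sub_cancel]
  have c2 : ((x + s + s').choose s' : ℝ) = ((x + s + s') ! : ℝ) / ((s' ! : ℝ) * ((x + s) ! : ℝ)) := by
    rw [Nat.cast_choose ℝ (Nat.le_add_left s' (x + s)), Nat.add_sub_cancel]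
  have e3 := fac_eq N3 (by omega)
  have e1 := fac_eq N1 (by omega)
  have e2 := fac_eq N2 (by omega)
  have en := fac_eq n (by omega)
  have q3 := st_pos N3 (by omega)
  have q1 := st_pos N1 (by omega)
  have q2 := st_pos N2 (by omega)
  have qn := st_pos n (by omega)
  have x3 : (x ! : ℝ) = stirlingSeq N3 * Real.sqrt (2 * N3) * (N3 : ℝ) ^ N3 * (Real.exp N3)⁻¹ / N3 := by
    rw [← e3, f3]; field_simp
  have x1 : ((x + s') ! : ℝ) =
      stirlingSeq N1 * Real.sqrt (2 * N1) * (N1 : ℝ) ^ N1 * (Real.exp N1)⁻¹ / N1 := by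
    rw [← e1, f1]; field_simp
  have x2 : ((x + s) ! : ℝ) =
      stirlingSeq N2 * Real.sqrt (2 * N2) * (N2 : ℝ) ^ N2 * (Real.exp N2)⁻¹ / N2 := by
    rw [← e2, f2]; field_simp
  have xn : ((x + s + s') ! : ℝ) =
      stirlingSeq n * Real.sqrt (2 * n) * (n : ℝ) ^ n * (Real.exp n)⁻¹ / n := by
    rw [← en, fn]; field_simp
  have hexp : Real.exp N1 * Real.exp N2 = Real.exp n * Real.exp N3 := by
    rw [← Real.exp_add, ← Real.exp_add]
    congr 1
    have : N1 + N2 = n + N3 := by omega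
    exact_mod_cast this
  have hsq : Real.sqrt (2 * N1) * Real.sqrt (2 * N2) * N3 ≤
      Real.sqrt (2 * n) * Real.sqrt (2 * N3) * n := by
    have a1 : Real.sqrt (2 * N1) ≤ Real.sqrt (2 * n) := by
      apply Real.sqrt_le_sqrt
      have : (N1 : ℝ) ≤ n := by exact_mod_cast (by omega : N1 ≤ n)
      linarith
    have a2 : Real.sqrt (2 * N2) * N3 ≤ Real.sqrt (2 * N3) * n := by
      have b1 : (N3 : ℝ) ≤ n := by exact_mod_cast (by omega : N3 ≤ n)
      have b2 : (N2 : ℝ) ≤ n := by exact_mod_cast (by omega : N2 ≤ n)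
      have h1 : Real.sqrt (2 * N2) * N3 = Real.sqrt (2 * N3) * (Real.sqrt N2 * Real.sqrt N3) := by
        rw [Real.sqrt_mul (by norm_num) (N2 : ℝ), Real.sqrt_mul (by norm_num) (N3 : ℝ)]
        have h3 : Real.sqrt N3 * Real.sqrt N3 = (N3 : ℝ) := Real.mul_self_sqrt p3.le
        calc Real.sqrt 2 * Real.sqrt N2 * (N3 : ℝ)
            = Real.sqrt 2 * Real.sqrt N2 * (Real.sqrt N3 * Real.sqrt N3) := by rw [h3]
          _ = Real.sqrt 2 * Real.sqrt N3 * (Real.sqrt N2 * Real.sqrt N3) := by ring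
      rw [h1]
      apply mul_le_mul_of_nonneg_left _ (Real.sqrt_nonneg _)
      rw [← Real.sqrt_mul p2.le]
      apply Real.sqrt_le_iff.2
      exact ⟨pn.le, by nlinarith⟩
    calc Real.sqrt (2 * N1) * Real.sqrt (2 * N2) * N3
        = Real.sqrt (2 * N1) * (Real.sqrt (2 * N2) * N3) := by ring
      _ ≤ Real.sqrt (2 * n) * (Real.sqrt (2 * N3) * n) :=
        mul_le_mul a1 a2 (by positivity) (Real.sqrt_nonneg _)
      _ = _ := by ring
  have hst : stirlingSeq N1 ≤ stirlingSeq N3 := st_anti (by omega) (by omega)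
  have hs3 : 0 < Real.sqrt (2 * (N3 : ℝ)) := Real.sqrt_pos.2 (by positivity)
  have hs1 : 0 < Real.sqrt (2 * (N1 : ℝ)) := Real.sqrt_pos.2 (by positivity)
  have hs2 : 0 < Real.sqrt (2 * (N2 : ℝ)) := Real.sqrt_pos.2 (by positivity)
  have hsn : 0 < Real.sqrt (2 * (n : ℝ)) := Real.sqrt_pos.2 (by positivity)
  rw [c1, c2, x3, x1, x2, xn]
  have hf : (0 : ℝ) < (s' ! : ℝ) := by exact_mod_cast Nat.factorial_pos s'
  have hE1 := Real.exp_pos (N1 : ℝ)
  have hE2 := Real.exp_pos (N2 : ℝ)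
  have hE3 := Real.exp_pos (N3 : ℝ)
  have hEn := Real.exp_pos (n : ℝ)
  have L : stirlingSeq N1 * √(2 * ↑N1) * ↑N1 ^ N1 * (Real.exp ↑N1)⁻¹ / ↑N1 /
        ((s' ! : ℝ) * (stirlingSeq N3 * √(2 * ↑N3) * ↑N3 ^ N3 * (Real.exp ↑N3)⁻¹ / ↑N3)) *
        (N3 : ℝ) ^ N3 * ((n : ℝ) ^ n / (n : ℝ) ^ 2) =
      ((N1 : ℝ) ^ N1 * (n : ℝ) ^ n / ((s' ! : ℝ) * N1 * n)) *
        ((stirlingSeq N1 / stirlingSeq N3) * (√(2 * ↑N1) * N3 / (√(2 * ↑N3) * n)) *
          (Real.exp N3 / Real.exp N1)) := by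
    field_simp
  have R : stirlingSeq N2 / stirlingSeq n *
        (stirlingSeq n * √(2 * ↑n) * ↑n ^ n * (Real.exp ↑n)⁻¹ / ↑n /
        ((s' ! : ℝ) * (stirlingSeq N2 * √(2 * ↑N2) * ↑N2 ^ N2 * (Real.exp ↑N2)⁻¹ / ↑N2))) *
        ((N1 : ℝ) ^ N1 / N1) * ((N2 : ℝ) ^ N2 / N2) =
      ((N1 : ℝ) ^ N1 * (n : ℝ) ^ n / ((s' ! : ℝ) * N1 * n)) *
        ((√(2 * ↑n) / √(2 * ↑N2)) * (Real.exp N2 / Real.exp n)) := by
    field_simp
  rw [L, R]
  apply mul_le_mul_of_nonneg_left _ (by positivity)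
  have hE : Real.exp N3 / Real.exp N1 = Real.exp N2 / Real.exp n := by
    rw [div_eq_div_iff hE1.ne' hEn.ne', mul_comm (Real.exp (N2 : ℝ)), hexp, mul_comm]
  rw [hE]
  apply mul_le_mul_of_nonneg_right _ (by positivity)
  have g1 : stirlingSeq N1 / stirlingSeq N3 ≤ 1 := (div_le_one q3).2 hst
  have g2 : √(2 * ↑N1) * N3 / (√(2 * ↑N3) * n) ≤ √(2 * ↑n) / √(2 * ↑N2) := by
    rw [div_le_div_iff₀ (by positivity) hs2]
    nlinarith [hsq]
  calc stirlingSeq N1 / stirlingSeq N3 * (√(2 * ↑N1) * N3 / (√(2 * ↑N3) * n))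
      ≤ 1 * (√(2 * ↑N1) * N3 / (√(2 * ↑N3) * n)) :=
        mul_le_mul_of_nonneg_right g1 (by positivity)
    _ ≤ _ := by rw [one_mul]; exact g2

end Pool.Agent.ZO
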