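import Pool.Agent.ZO.Ratio

/-! # Zero-one law: the ratio of the second moment, second part -/

set_option autoImplicit false

open scoped BigOperators Nat

namespace Pool.Agent.ZO

open Stirling

theorem log_st_le (a : ℕ) (ha : 1 ≤ a) (j : ℕ) :
    Real.log (stirlingSeq a) - Real.log (stirlingSeq (a + j)) ≤
      1 / (12 * a) - 1 / (12 * (a + j : ℕ)) := by
  induction j with
  | zero => simp
  | succ j ih =>
    have h := log_stirlingSeq_sdiff_le (a + j)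
    have ha' : (0 : ℝ) < a := by exact_mod_cast ha
    have e : (1 : ℝ) / (12 * ((a + j : ℕ) : ℝ) * (((a + j : ℕ) : ℝ) + 1)) =
        1 / (12 * ((a + j : ℕ) : ℝ)) - 1 / (12 * ((a + (j + 1) : ℕ) : ℝ)) := by
      have h1 : ((a + (j + 1) : ℕ) : ℝ) = ((a + j : ℕ) : ℝ) + 1 := by push_cast; ring
      have h2 : (0 : ℝ) < ((a + j : ℕ) : ℝ) := by
        have : 0 < a + j := by omega
        exact_mod_cast this
      rw [h1]
      field_simp
      ring
    rw [e] at h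
    have h3 : a + (j + 1) = a + j + 1 := by omega
    rw [h3] at h ⊢
    linarith

theorem st_ratio {n a : ℕ} (han : a ≤ n) (ha : n ≤ 2 * a) (h : 1 ≤ a) :
    stirlingSeq a / stirlingSeq n ≤ 1 + 1 / n := by
  obtain ⟨j, rfl⟩ := Nat.exists_eq_add_of_le han
  have h1 := log_st_le a h j
  have p1 := st_pos a h
  have p2 := st_pos (a + j) (by omega)
  have ha' : (0 : ℝ) < a := by exact_mod_cast h
  have hn' : (0 : ℝ) < ((a + j : ℕ) : ℝ) := by
    have : 0 < a + j := by omega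
    exact_mod_cast this
  have h2 : Real.log (stirlingSeq a / stirlingSeq (a + j)) ≤ 1 / (2 * ((a + j : ℕ) : ℝ)) := by
    rw [Real.log_div p1.ne' p2.ne']
    refine h1.trans ?_
    have h3 : (0 : ℝ) ≤ 1 / (12 * ((a + j : ℕ) : ℝ)) := by positivity
    have h4 : (1 : ℝ) / (12 * a) ≤ 1 / (2 * ((a + j : ℕ) : ℝ)) := by
      apply one_div_le_one_div_of_le (by positivity)
      have : ((a + j : ℕ) : ℝ) ≤ 2 * a := by exact_mod_cast ha
      linarith
    linarith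
  have h5 : stirlingSeq a / stirlingSeq (a + j) ≤ Real.exp (1 / (2 * ((a + j : ℕ) : ℝ))) := by
    rw [← Real.exp_log (div_pos p1 p2)]
    exact Real.exp_le_exp.2 h2
  refine h5.trans ?_
  have h6 : (1 : ℝ) / (2 * ((a + j : ℕ) : ℝ)) ≤ 1 := by
    rw [div_le_one (by positivity)]
    have : (1 : ℝ) ≤ ((a + j : ℕ) : ℝ) := by exact_mod_cast (by omega : 1 ≤ a + j)
    linarith
  have h7 := Real.exp_bound_div_one_sub_of_interval (x := 1 / (2 * ((a + j : ℕ) : ℝ)))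
    (by positivity) (by
      rw [div_lt_one (by positivity)]
      have : (1 : ℝ) ≤ ((a + j : ℕ) : ℝ) := by exact_mod_cast (by omega : 1 ≤ a + j)
      linarith)
  refine h7.trans ?_
  set N : ℝ := ((a + j : ℕ) : ℝ) with hN
  have hN1 : (1 : ℝ) ≤ N := by
    rw [hN]
    exact_mod_cast (by omega : 1 ≤ a + j)
  have h8 : 1 / (1 - 1 / (2 * N)) = 2 * N / (2 * N - 1) := by
    have : (2 * N - 1) ≠ 0 := by linarith
    field_simp
  rw [h8]
  rw [div_le_iff₀ (by linarith)]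
  have h9 : (1 + 1 / N) * (2 * N - 1) = 2 * N + (1 - 1 / N) := by
    field_simp
    ring
  rw [h9]
  have : 1 / N ≤ 1 := by rw [div_le_one (by linarith)]; exact hN1
  linarith

theorem pow_a (m : ℕ) (hm : 1 ≤ m) : (m : ℝ) ^ (m - 2) * (m : ℝ) ^ 2 = (m : ℝ) ^ m := by
  rcases Nat.lt_or_ge m 2 with h | h
  · have : m = 1 := by omega
    subst this
    norm_num
  · rw [← pow_add]
    congr 1
    omega

theorem pow_b (m : ℕ) (hm : 1 ≤ m) : (m : ℝ) ^ (m - 2) * (m : ℝ) = (m : ℝ) ^ m / m := by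
  have hm' : (0 : ℝ) < m := by exact_mod_cast hm
  rw [← pow_a m hm]
  field_simp

theorem pow_c (m : ℕ) (hm : 1 ≤ m) : (m : ℝ) ^ (m - 2) = (m : ℝ) ^ m / (m : ℝ) ^ 2 := by
  have hm' : (0 : ℝ) < m := by exact_mod_cast hm
  rw [← pow_a m hm]
  field_simp

/-- decorated trees that match one template -/
noncomputable def K1 (n c s : ℕ) : ℝ :=
  ((n - s : ℕ) : ℝ) ^ (n - s - 2) * ((n - s : ℕ) : ℝ) * (c : ℝ) ^ (n - (s - 1))

/-- decorated trees that match two templates -/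
noncomputable def K2 (n c s : ℕ) : ℝ :=
  ((n - s : ℕ) : ℝ) ^ (n - s - 2) * ((n - s : ℕ) : ℝ) ^ 2 * (c : ℝ) ^ (n - (s - 2))

/-- all decorated trees -/
noncomputable def K0 (n c : ℕ) : ℝ := (n : ℝ) ^ (n - 2) * (c : ℝ) ^ n

theorem ratio2 (n c s s' : ℕ) (hs : 1 ≤ s) (hs' : 1 ≤ s') (h : 4 * s ≤ n) (h' : 4 * s' ≤ n) :
    ((n - 1 - s).choose s' : ℝ) * K2 n c (s + s') * K0 n c ≤
      (1 + 1 / n) * ((n - 1).choose s' : ℝ) * K1 n c s * K1 n c s' := by
  obtain ⟨x, rfl⟩ : ∃ x, n = x + 1 + s + s' := ⟨n - (1 + s + s'), by omega⟩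
  have h1 := ratio x s s'
  have e1 : x + 1 + s + s' - 1 - s = x + s' := by omega
  have e2 : x + 1 + s + s' - 1 = x + s + s' := by omega
  have e3 : x + 1 + s + s' - (s + s') = x + 1 := by omega
  have e4 : x + 1 + s + s' - s = x + 1 + s' := by omega
  have e5 : x + 1 + s + s' - s' = x + 1 + s := by omega
  unfold K1 K2 K0
  rw [e1, e2, e3, e4, e5, pow_a _ (by omega), pow_b _ (by omega), pow_b _ (by omega),
    pow_c _ (by omega : 1 ≤ x + 1 + s + s')]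
  have hc : (c : ℝ) ^ (x + 1 + s + s' - (s + s' - 2)) * (c : ℝ) ^ (x + 1 + s + s') =
      (c : ℝ) ^ (x + 1 + s + s' - (s - 1)) * (c : ℝ) ^ (x + 1 + s + s' - (s' - 1)) := by
    rw [← pow_add, ← pow_add]
    congr 1
    omega
  set n := x + 1 + s + s' with hn
  have hst : stirlingSeq (x + 1 + s) / stirlingSeq n ≤ 1 + 1 / n :=
    st_ratio (by omega) (by omega) (by omega)
  have hB : 0 ≤ ((x + s + s').choose s' : ℝ) *
        (((x + 1 + s' : ℕ) : ℝ) ^ (x + 1 + s') / (x + 1 + s' : ℕ)) *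
        (((x + 1 + s : ℕ) : ℝ) ^ (x + 1 + s) / (x + 1 + s : ℕ)) := by positivity
  have h2 : ((x + s').choose s' : ℝ) * (x + 1 : ℕ) ^ (x + 1) * ((n : ℝ) ^ n / (n : ℝ) ^ 2) ≤
      (1 + 1 / n) * (((x + s + s').choose s' : ℝ) *
        (((x + 1 + s' : ℕ) : ℝ) ^ (x + 1 + s') / (x + 1 + s' : ℕ)) *
        (((x + 1 + s : ℕ) : ℝ) ^ (x + 1 + s) / (x + 1 + s : ℕ))) := by
    refine h1.trans ?_
    have h3 := mul_le_mul_of_nonneg_right hst hB
    calc _ = stirlingSeq (x + 1 + s) / stirlingSeq n * (((x + s + s').choose s' : ℝ) *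
        (((x + 1 + s' : ℕ) : ℝ) ^ (x + 1 + s') / (x + 1 + s' : ℕ)) *
        (((x + 1 + s : ℕ) : ℝ) ^ (x + 1 + s) / (x + 1 + s : ℕ))) := by ring
      _ ≤ _ := h3
  have hcc : (0 : ℝ) ≤ (c : ℝ) ^ (n - (s - 1)) * (c : ℝ) ^ (n - (s' - 1)) := by positivity
  have h4 := mul_le_mul_of_nonneg_right h2 hcc
  calc ((x + s').choose s' : ℝ) * (((x + 1 : ℕ) : ℝ) ^ (x + 1) * (c : ℝ) ^ (n - (s + s' - 2))) *
        ((n : ℝ) ^ n / (n : ℝ) ^ 2 * (c : ℝ) ^ n)
      = ((x + s').choose s' : ℝ) * (x + 1 : ℕ) ^ (x + 1) * ((n : ℝ) ^ n / (n : ℝ) ^ 2) *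
        ((c : ℝ) ^ (n - (s + s' - 2)) * (c : ℝ) ^ n) := by ring
    _ = ((x + s').choose s' : ℝ) * (x + 1 : ℕ) ^ (x + 1) * ((n : ℝ) ^ n / (n : ℝ) ^ 2) *
        ((c : ℝ) ^ (n - (s - 1)) * (c : ℝ) ^ (n - (s' - 1))) := by rw [hc]
    _ ≤ _ := h4
    _ = _ := by ring

end Pool.Agent.ZO
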