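import Pool.Agent.ZO.Cyl
import Pool.Agent.ZO.Ratio2

/-! # Zero-one law: the second moment method for families of templates -/

set_option autoImplicit false

open scoped BigOperators Nat

namespace Pool.Agent.ZO

open Pool.Agent.WT.Trees (PF)
open Pool.Agent.GX

noncomputable instance tmFintype {V C : Type} [Fintype V] [Fintype C] : Fintype (Tm V C) := by
  classical
  exact Fintype.ofInjective (fun τ : Tm V C => (τ.D, τ.u, τ.g, τ.d)) (by
    rintro ⟨a, b, c, d⟩ ⟨a', b', c', d'⟩ h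
    simp only [Prod.mk.injEq] at h
    obtain ⟨rfl, rfl, rfl, rfl⟩ := h
    rfl)

variable {V C : Type} [Fintype V] [Fintype C]

open Classical in
/-- all decorated trees with root `r` -/
noncomputable def Om (C : Type) [Fintype C] (r : V) : Finset ((V → V) × (V → C)) :=
  Finset.univ.filter fun ω => ω.1 ∈ PF r

theorem mem_Om {r : V} {ω : (V → V) × (V → C)} : ω ∈ Om C r ↔ ω.1 ∈ PF r := by
  classical
  unfold Om
  rw [Finset.mem_filter]
  exact and_iff_right (Finset.mem_univ _)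

theorem card_Om (r : V) : ((Om C r).card : ℝ) = K0 (Fintype.card V) (Fintype.card C) := by
  classical
  have h : ((Om C r : Finset ((V → V) × (V → C))) : Set ((V → V) × (V → C))) =
      PF r ×ˢ (Set.univ : Set (V → C)) := by
    ext ω
    rw [Finset.mem_coe, mem_Om]
    constructor
    · intro h
      exact ⟨h, Set.mem_univ _⟩
    · intro h
      exact h.1
  have h2 : (Om C r).card = (Fintype.card V) ^ (Fintype.card V - 2) *
      Fintype.card C ^ Fintype.card V := by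
    rw [← Set.ncard_coe_finset, h, Set.ncard_prod, card_PF, Set.ncard_univ,
      Nat.card_eq_fintype_card, Fintype.card_fun]
  rw [h2, K0]
  push_cast
  ring

open Classical in
/-- the templates in `𝒯` that `ω` matches -/
noncomputable def Xm (r : V) (𝒯 : Finset (Tm V C)) (ω : (V → V) × (V → C)) : Finset (Tm V C) :=
  𝒯.filter fun τ => τ.Mt r ω

theorem sum_group (r : V) (𝒯 : Finset (Tm V C)) (A : Finset V) (hrA : r ∉ A)
    (T : ℕ → ℕ) [DecidableEq V] [DecidableEq (Tm V C)]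
    (hT : ∀ D : Finset V, r ∉ D → (𝒯.filter fun τ => τ.D = D).card = T D.card) (f : ℕ → ℝ) :
    ∑ τ ∈ 𝒯.filter (fun τ => τ.D ⊆ A), f τ.D.card =
      ∑ s ∈ Finset.range (A.card + 1), (A.card.choose s : ℝ) * (T s * f s) := by
  classical
  have h1 : ∀ τ ∈ 𝒯.filter (fun τ => τ.D ⊆ A), τ.D ∈ A.powerset := by
    intro τ hτ
    rw [Finset.mem_powerset]
    exact (Finset.mem_filter.1 hτ).2
  rw [← Finset.sum_fiberwise_of_maps_to h1]
  have h2 : ∀ D ∈ A.powerset,
      ∑ τ ∈ (𝒯.filter (fun τ => τ.D ⊆ A)).filter (fun τ => τ.D = D), f τ.D.card =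
        (fun s => (T s : ℝ) * f s) D.card := by
    intro D hD
    rw [Finset.mem_powerset] at hD
    have h3 : (𝒯.filter (fun τ => τ.D ⊆ A)).filter (fun τ => τ.D = D) =
        𝒯.filter (fun τ => τ.D = D) := by
      ext τ
      simp only [Finset.mem_filter]
      constructor
      · rintro ⟨⟨a, _⟩, b⟩
        exact ⟨a, b⟩
      · rintro ⟨a, b⟩
        exact ⟨⟨a, b ▸ hD⟩, b⟩
    rw [h3]
    have h4 : ∀ τ ∈ 𝒯.filter (fun τ => τ.D = D), f τ.D.card = f D.card := by
      intro τ hτ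
      rw [(Finset.mem_filter.1 hτ).2]
    rw [Finset.sum_congr rfl h4, Finset.sum_const, hT D (fun h => hrA (hD h)), nsmul_eq_mul]
  rw [Finset.sum_congr rfl h2, Finset.sum_powerset_apply_card (fun s => (T s : ℝ) * f s)]
  refine Finset.sum_congr rfl fun s _ => ?_
  rw [nsmul_eq_mul]

/-- the expected number (times the number of decorated trees) -/
noncomputable def EE (n c : ℕ) (T : ℕ → ℕ) : ℝ :=
  ∑ s ∈ Finset.range n, ((n - 1).choose s : ℝ) * (T s * K1 n c s)

theorem second_moment (r : V) (c₀ : C) (𝒯 : Finset (Tm V C)) (hwf : ∀ τ ∈ 𝒯, τ.Wf r c₀)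
    (T : ℕ → ℕ) [DecidableEq V] [DecidableEq (Tm V C)]
    (hT : ∀ D : Finset V, r ∉ D → (𝒯.filter fun τ => τ.D = D).card = T D.card)
    (hdis : ∀ τ ∈ 𝒯, ∀ τ' ∈ 𝒯, ∀ ω, τ.Mt r ω → τ'.Mt r ω → τ ≠ τ' → Disjoint τ.D τ'.D)
    (hsz : ∀ τ ∈ 𝒯, 4 * τ.D.card ≤ Fintype.card V) (μ : ℝ) (hμ : 2 ≤ μ)
    (hE : EE (Fintype.card V) (Fintype.card C) T = μ * K0 (Fintype.card V) (Fintype.card C)) :
    ({ω : (V → V) × (V → C) | ω.1 ∈ PF r ∧ (Xm r 𝒯 ω).card ≤ 1}.ncard : ℝ) ≤
      4 * (1 / μ + 1 / Fintype.card V) * K0 (Fintype.card V) (Fintype.card C) := by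
  classical
  set n := Fintype.card V with hn
  set c := Fintype.card C with hc
  have hcpos : 0 < c := Fintype.card_pos_iff.2 ⟨c₀⟩
  have hnpos : 0 < n := Fintype.card_pos_iff.2 ⟨r⟩
  have hn' : (0 : ℝ) < n := by exact_mod_cast hnpos
  have hK0 : 0 < K0 n c := by
    unfold K0
    have : (0 : ℝ) < c := by exact_mod_cast hcpos
    positivity
  have hK1 : ∀ s, 0 ≤ K1 n c s := fun s => by unfold K1; positivity
  have hK2 : ∀ s, 0 ≤ K2 n c s := fun s => by unfold K2; positivity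
  -- the group sums
  set A : Finset V := Finset.univ.erase r with hA
  have hrA : r ∉ A := Finset.notMem_erase r _
  have hcA : A.card = n - 1 := by
    rw [hA, Finset.card_erase_of_mem (Finset.mem_univ r), Finset.card_univ]
  have hsubA : ∀ τ ∈ 𝒯, τ.D ⊆ A := by
    intro τ hτ x hx
    rw [hA, Finset.mem_erase]
    exact ⟨fun h => (hwf τ hτ).root (h ▸ hx), Finset.mem_univ _⟩
  have hfil : 𝒯.filter (fun τ => τ.D ⊆ A) = 𝒯 := Finset.filter_true_of_mem hsubA
  have hall : ∀ f : ℕ → ℝ, ∑ τ ∈ 𝒯, f τ.D.card =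
      ∑ s ∈ Finset.range n, ((n - 1).choose s : ℝ) * (T s * f s) := by
    intro f
    have h := sum_group r 𝒯 A hrA T hT f
    rw [hfil, hcA, Nat.sub_add_cancel hnpos] at h
    exact h
  have hT0 : ∀ s < n, T s ≠ 0 → 1 ≤ s ∧ 4 * s ≤ n := by
    intro s hs hTs
    obtain ⟨D, hDA, hDs⟩ := Finset.exists_subset_card_eq (s := A) (n := s) (by rw [hcA]; omega)
    have hrD : r ∉ D := fun h => hrA (hDA h)
    have h1 := hT D hrD
    rw [hDs] at h1
    have h2 : 0 < (𝒯.filter fun τ => τ.D = D).card := by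
      rw [h1]
      exact Nat.pos_of_ne_zero hTs
    obtain ⟨τ, hτ⟩ := Finset.card_pos.1 h2
    rw [Finset.mem_filter] at hτ
    have h3 := hsz τ hτ.1
    rw [hτ.2, hDs] at h3
    have h4 : τ.u ∈ D := hτ.2 ▸ (hwf τ hτ.1).top
    have h5 : 0 < D.card := Finset.card_pos.2 ⟨_, h4⟩
    rw [hDs] at h5
    exact ⟨h5, h3⟩
  have hEE : ∑ τ ∈ 𝒯, K1 n c τ.D.card = EE n c T := hall (fun s => K1 n c s)
  -- the pair sum
  have hpair : ∀ τ ∈ 𝒯, (∑ τ' ∈ 𝒯.filter (fun τ' => Disjoint τ.D τ'.D),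
      K2 n c (τ.D.card + τ'.D.card)) * K0 n c ≤ (1 + 1 / n) * K1 n c τ.D.card * EE n c T := by
    intro τ hτ
    have hτs : 1 ≤ τ.D.card := Finset.card_pos.2 ⟨_, (hwf τ hτ).top⟩
    have hτ4 := hsz τ hτ
    set B : Finset V := A \ τ.D with hB
    have hrB : r ∉ B := fun h => hrA (Finset.mem_sdiff.1 h).1
    have hcB : B.card = n - 1 - τ.D.card := by
      rw [hB, Finset.card_sdiff_of_subset (hsubA τ hτ), hcA]
    have hfB : 𝒯.filter (fun τ' => Disjoint τ.D τ'.D) = 𝒯.filter (fun τ' => τ'.D ⊆ B) := by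
      ext τ'
      simp only [Finset.mem_filter]
      refine and_congr_right fun hτ' => ?_
      rw [hB, Finset.subset_sdiff]
      constructor
      · intro h
        exact ⟨hsubA τ' hτ', h.symm⟩
      · intro h
        exact h.2.symm
    rw [hfB, sum_group r 𝒯 B hrB T hT (fun s => K2 n c (τ.D.card + s)), hcB, Finset.sum_mul]
    have hsub : Finset.range (n - 1 - τ.D.card + 1) ⊆ Finset.range n := by
      intro s hs
      rw [Finset.mem_range] at hs ⊢
      omega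
    have hterm : ∀ s ∈ Finset.range n,
        ((n - 1 - τ.D.card).choose s : ℝ) * (T s * K2 n c (τ.D.card + s)) * K0 n c ≤
          (1 + 1 / n) * K1 n c τ.D.card * (((n - 1).choose s : ℝ) * (T s * K1 n c s)) := by
      intro s hs
      rw [Finset.mem_range] at hs
      by_cases h0 : T s = 0
      · rw [h0]
        simp
      · obtain ⟨h1, h2⟩ := hT0 s hs h0
        have h3 := ratio2 n c τ.D.card s hτs h1 hτ4 h2
        have hTn : (0 : ℝ) ≤ T s := Nat.cast_nonneg _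
        have h4 := mul_le_mul_of_nonneg_left h3 hTn
        calc _ = (T s : ℝ) * (((n - 1 - τ.D.card).choose s : ℝ) * K2 n c (τ.D.card + s) * K0 n c) := by
              ring
          _ ≤ _ := h4
          _ = _ := by ring
    calc ∑ s ∈ Finset.range (n - 1 - τ.D.card + 1),
          ((n - 1 - τ.D.card).choose s : ℝ) * (T s * K2 n c (τ.D.card + s)) * K0 n c
        ≤ ∑ s ∈ Finset.range n,
          ((n - 1 - τ.D.card).choose s : ℝ) * (T s * K2 n c (τ.D.card + s)) * K0 n c :=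
          Finset.sum_le_sum_of_subset_of_nonneg hsub fun s _ _ =>
            mul_nonneg (mul_nonneg (Nat.cast_nonneg _) (mul_nonneg (Nat.cast_nonneg _) (hK2 _)))
              hK0.le
      _ ≤ ∑ s ∈ Finset.range n,
          (1 + 1 / n) * K1 n c τ.D.card * (((n - 1).choose s : ℝ) * (T s * K1 n c s)) :=
          Finset.sum_le_sum hterm
      _ = _ := by rw [← Finset.mul_sum]; rfl
  have hE2 : (∑ τ ∈ 𝒯, ∑ τ' ∈ 𝒯.filter (fun τ' => Disjoint τ.D τ'.D),
      K2 n c (τ.D.card + τ'.D.card)) * K0 n c ≤ (1 + 1 / n) * EE n c T * EE n c T := by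
    rw [Finset.sum_mul]
    refine (Finset.sum_le_sum hpair).trans (le_of_eq ?_)
    rw [← Finset.sum_mul, ← Finset.mul_sum, hEE]
  -- sums over Om
  have hMt : ∀ τ ∈ 𝒯, (((Om C r).filter fun ω => τ.Mt r ω).card : ℝ) = K1 n c τ.D.card := by
    intro τ hτ
    have h := card_one (hwf τ hτ)
    have h2 : {ω : (V → V) × (V → C) | τ.Mt r ω} =
        (((Om C r).filter fun ω => τ.Mt r ω : Finset ((V → V) × (V → C))) :
          Set ((V → V) × (V → C))) := by
      ext ω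
      rw [Finset.mem_coe, Finset.mem_filter, mem_Om]
      exact ⟨fun h => ⟨h.1, h⟩, fun h => h.2⟩
    rw [h2, Set.ncard_coe_finset] at h
    rw [h, K1]
    push_cast
    ring
  have hMt2 : ∀ τ ∈ 𝒯, ∀ τ' ∈ 𝒯, Disjoint τ.D τ'.D →
      (((Om C r).filter fun ω => τ.Mt r ω ∧ τ'.Mt r ω).card : ℝ) =
        K2 n c (τ.D.card + τ'.D.card) := by
    intro τ hτ τ' hτ' hd
    have h := card_two (hwf τ hτ) (hwf τ' hτ') hd
    have h2 : {ω : (V → V) × (V → C) | τ.Mt r ω ∧ τ'.Mt r ω} =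
        (((Om C r).filter fun ω => τ.Mt r ω ∧ τ'.Mt r ω : Finset ((V → V) × (V → C))) :
          Set ((V → V) × (V → C))) := by
      ext ω
      rw [Finset.mem_coe, Finset.mem_filter, mem_Om]
      exact ⟨fun h => ⟨h.1.1, h⟩, fun h => h.2⟩
    rw [h2, Set.ncard_coe_finset] at h
    rw [h, K2]
    push_cast
    ring
  set X : (V → V) × (V → C) → ℝ := fun ω => ((Xm r 𝒯 ω).card : ℝ) with hX
  have hXi : ∀ ω, X ω = ∑ τ ∈ 𝒯, if τ.Mt r ω then (1 : ℝ) else 0 := by
    intro ω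
    rw [hX]
    simp only [Xm, Finset.card_filter]
    push_cast
    exact Finset.sum_congr rfl fun τ _ => by split_ifs <;> simp
  have hS1 : ∑ ω ∈ Om C r, X ω = EE n c T := by
    rw [← hEE, Finset.sum_congr rfl fun ω _ => hXi ω, Finset.sum_comm]
    refine Finset.sum_congr rfl fun τ hτ => ?_
    rw [← hMt τ hτ, Finset.card_filter]
    push_cast
    exact Finset.sum_congr rfl fun ω _ => by split_ifs <;> simp
  have hS2 : ∑ ω ∈ Om C r, X ω ^ 2 ≤ EE n c T + ∑ τ ∈ 𝒯,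
      ∑ τ' ∈ 𝒯.filter (fun τ' => Disjoint τ.D τ'.D), K2 n c (τ.D.card + τ'.D.card) := by
    have h1 : ∀ ω ∈ Om C r, X ω ^ 2 =
        ∑ τ ∈ 𝒯, ∑ τ' ∈ 𝒯, if τ.Mt r ω ∧ τ'.Mt r ω then (1 : ℝ) else 0 := by
      intro ω _
      rw [sq, hXi ω, Finset.sum_mul_sum]
      refine Finset.sum_congr rfl fun τ _ => Finset.sum_congr rfl fun τ' _ => ?_
      by_cases h : τ.Mt r ω <;> by_cases h' : τ'.Mt r ω <;> simp [h, h']
    rw [Finset.sum_congr rfl h1, Finset.sum_comm, ← hEE, ← Finset.sum_add_distrib]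
    refine Finset.sum_le_sum fun τ hτ => ?_
    rw [Finset.sum_comm]
    have h2 : ∀ τ' ∈ 𝒯, (∑ ω ∈ Om C r, if τ.Mt r ω ∧ τ'.Mt r ω then (1 : ℝ) else 0) ≤
        (if τ' = τ then K1 n c τ.D.card else 0) +
          if Disjoint τ.D τ'.D then K2 n c (τ.D.card + τ'.D.card) else 0 := by
      intro τ' hτ'
      have h3 : (∑ ω ∈ Om C r, if τ.Mt r ω ∧ τ'.Mt r ω then (1 : ℝ) else 0) =
          (((Om C r).filter fun ω => τ.Mt r ω ∧ τ'.Mt r ω).card : ℝ) := by
        rw [Finset.card_filter]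
        push_cast
        exact Finset.sum_congr rfl fun ω _ => by split_ifs <;> simp
      rw [h3]
      by_cases hd : Disjoint τ.D τ'.D
      · rw [if_pos hd, hMt2 τ hτ τ' hτ' hd]
        have : (0 : ℝ) ≤ if τ' = τ then K1 n c τ.D.card else 0 := by
          split_ifs
          · exact hK1 _
          · exact le_rfl
        linarith
      · rw [if_neg hd, add_zero]
        by_cases he : τ' = τ
        · rw [if_pos he, he, ← hMt τ hτ]
          simp only [and_self]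
          exact le_rfl
        · rw [if_neg he]
          have h4 : (Om C r).filter (fun ω => τ.Mt r ω ∧ τ'.Mt r ω) = ∅ := by
            rw [Finset.filter_eq_empty_iff]
            rintro ω _ ⟨h5, h6⟩
            exact hd (hdis τ hτ τ' hτ' ω h5 h6 fun h => he h.symm)
          rw [h4]
          simp
    refine (Finset.sum_le_sum h2).trans (le_of_eq ?_)
    rw [Finset.sum_add_distrib, Finset.sum_ite_eq' 𝒯 τ, if_pos hτ, Finset.sum_filter]
  have hcard : ((Om C r).card : ℝ) = K0 n c := card_Om r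
  have hvar : ∑ ω ∈ Om C r, (X ω - μ) ^ 2 ≤ (μ + μ ^ 2 / n) * K0 n c := by
    have h1 : ∑ ω ∈ Om C r, (X ω - μ) ^ 2 =
        ∑ ω ∈ Om C r, X ω ^ 2 - 2 * μ * ∑ ω ∈ Om C r, X ω + μ ^ 2 * (Om C r).card := by
      have h2 : ∀ ω ∈ Om C r, (X ω - μ) ^ 2 = X ω ^ 2 - 2 * μ * X ω + μ ^ 2 := by
        intro ω _
        ring
      rw [Finset.sum_congr rfl h2, Finset.sum_add_distrib, Finset.sum_sub_distrib,
        ← Finset.mul_sum, Finset.sum_const, nsmul_eq_mul]
      ring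
    rw [h1, hcard, hS1, hE]
    rw [hE] at hS2 hE2
    set Q := ∑ τ ∈ 𝒯, ∑ τ' ∈ 𝒯.filter (fun τ' => Disjoint τ.D τ'.D),
      K2 n c (τ.D.card + τ'.D.card) with hQ
    have h3 : Q ≤ (1 + 1 / n) * μ ^ 2 * K0 n c := by
      have h4 : Q * K0 n c ≤ ((1 + 1 / n) * μ ^ 2 * K0 n c) * K0 n c := by
        refine hE2.trans (le_of_eq ?_)
        ring
      exact le_of_mul_le_mul_right h4 hK0
    have h5 : (1 + 1 / (n : ℝ)) * μ ^ 2 * K0 n c = μ ^ 2 * K0 n c + μ ^ 2 / n * K0 n c := by ring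
    nlinarith [hS2, h3, h5]
  set B : Finset ((V → V) × (V → C)) := (Om C r).filter fun ω => (Xm r 𝒯 ω).card ≤ 1 with hB
  have hBset : {ω : (V → V) × (V → C) | ω.1 ∈ PF r ∧ (Xm r 𝒯 ω).card ≤ 1} =
      (B : Set ((V → V) × (V → C))) := by
    ext ω
    rw [hB, Finset.mem_coe, Finset.mem_filter, mem_Om]
    rfl
  rw [hBset, Set.ncard_coe_finset]
  have hBv : (B.card : ℝ) * (μ ^ 2 / 4) ≤ (μ + μ ^ 2 / n) * K0 n c := by
    calc (B.card : ℝ) * (μ ^ 2 / 4) = ∑ ω ∈ B, μ ^ 2 / 4 := by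
          rw [Finset.sum_const, nsmul_eq_mul]
      _ ≤ ∑ ω ∈ B, (X ω - μ) ^ 2 := by
          refine Finset.sum_le_sum fun ω hω => ?_
          have h1 : X ω ≤ 1 := by
            rw [hB, Finset.mem_filter] at hω
            show ((Xm r 𝒯 ω).card : ℝ) ≤ 1
            exact_mod_cast hω.2
          have h2 : μ / 2 ≤ μ - X ω := by linarith
          nlinarith
      _ ≤ ∑ ω ∈ Om C r, (X ω - μ) ^ 2 :=
          Finset.sum_le_sum_of_subset_of_nonneg (Finset.filter_subset _ _) fun _ _ _ => sq_nonneg _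
      _ ≤ _ := hvar
  have hμ0 : 0 < μ := by linarith
  have h6 : 4 * (1 / μ + 1 / (n : ℝ)) * K0 n c * (μ ^ 2 / 4) = (μ + μ ^ 2 / n) * K0 n c := by
    field_simp
  have h7 : (B.card : ℝ) * (μ ^ 2 / 4) ≤ 4 * (1 / μ + 1 / (n : ℝ)) * K0 n c * (μ ^ 2 / 4) := by
    rw [h6]
    exact hBv
  exact le_of_mul_le_mul_right h7 (by positivity)

end Pool.Agent.ZO
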