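import Pool.Agent.ZO.SM
import Pool.Agent.ZO.Defs

/-! # Zero-one law: successful templates -/

set_option autoImplicit false

open scoped BigOperators

namespace Pool.Agent.ZO

open Pool.Agent.WT.Trees (PF)
open Pool.Agent.GX

/-- block `b` of length `ℓ` of positions -/
def blk (ℓ b : ℕ) : Finset ℕ := Finset.Ioc (b * ℓ) ((b + 1) * ℓ)

/-- the block of the position of the step `j ≥ 1` -/
def bs (N j : ℕ) : ℕ := (j - 1) * (N + 1) + N

/-- the block of segment `c` in which the path to the label of step `j ≥ 1` is attached -/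
def ba (N c j : ℕ) : ℕ := c * (N + 1) + (j - 1)

/-- the last position -/
def Ls (N ℓ : ℕ) : ℕ := N * (N + 2) * ℓ

/-- the vertex of the spine at position `i`, if `z` is the vertex after the last position -/
def sv {V : Type} (g : V → V) (z : V) (L i : ℕ) : V := g^[L + 1 - i] z

/-- success of a template with data `z` (end of the spine), `idx` (positions of the steps), `att`
(positions where the paths to the labels are attached), `dl` (lengths of these paths) -/
structure Succ {V : Type} (P : Pattern) (ℓ A : ℕ) (D : Finset V) (u : V) (g : V → V)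
    (d : V → Bool × V) (z : V) (idx att dl : ℕ → ℕ) : Prop where
  zD : z ∈ D
  nu : g^[Ls P.N ℓ + 1] z ≠ u
  hu : g^[Ls P.N ℓ + 2] z = u
  cardlo : 16 * A ≤ D.card
  cardhi : D.card < 20 * A
  szq : sz g (g^[Ls P.N ℓ + 1] z) < 16 * A
  szz : 12 * A ≤ sz g z
  idx_mem : ∀ j, 1 ≤ j → j ≤ P.N → idx j ∈ blk ℓ (bs P.N j)
  att_mem : ∀ j, 1 ≤ j → j ≤ P.N → att j ∈ blk ℓ (ba P.N (P.lam j) j)
  dl_pos : ∀ j, 1 ≤ j → j ≤ P.N → 1 ≤ dl j
  ori : ∀ j, 1 ≤ j → j ≤ P.N → (d (sv g z (Ls P.N ℓ) (idx j))).1 = P.eps j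
  labD : ∀ j, 1 ≤ j → j ≤ P.N → (d (sv g z (Ls P.N ℓ) (idx j))).2 ∈ D
  path : ∀ j, 1 ≤ j → j ≤ P.N →
    g^[dl j] (d (sv g z (Ls P.N ℓ) (idx j))).2 = sv g z (Ls P.N ℓ) (att j)
  stat1 : ∀ i ≤ Ls P.N ℓ, (∀ j, 1 ≤ j → j ≤ P.N → i ≠ idx j) → (d (sv g z (Ls P.N ℓ) i)).2 ∉ D
  stat2 : ∀ j, 1 ≤ j → j ≤ P.N → ∀ i < dl j,
    (d (g^[i] (d (sv g z (Ls P.N ℓ) (idx j))).2)).2 ∉ D

open Classical in
/-- the successful templates -/
noncomputable def TT {V : Type} [Fintype V] (P : Pattern) (ℓ A : ℕ) (r : V) :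
    Finset (Tm V (Bool × V)) :=
  Finset.univ.filter fun τ => τ.Wf r (false, r) ∧
    ∃ z idx att dl, Succ P ℓ A τ.D τ.u τ.g τ.d z idx att dl

theorem mem_TT {V : Type} [Fintype V] {P : Pattern} {ℓ A : ℕ} {r : V} {τ : Tm V (Bool × V)} :
    τ ∈ TT P ℓ A r ↔ τ.Wf r (false, r) ∧
      ∃ z idx att dl, Succ P ℓ A τ.D τ.u τ.g τ.d z idx att dl := by
  classical
  unfold TT
  rw [Finset.mem_filter]
  exact and_iff_right (Finset.mem_univ _)

section aux

variable {V C : Type} {r : V} {c₀ : C} {τ : Tm V C} {ω : (V → V) × (V → C)}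

theorem below_trans {p : V → V} {x y w : V} (h : x ∈ below p y) (h' : y ∈ below p w) :
    x ∈ below p w := by
  obtain ⟨m, rfl⟩ := h
  obtain ⟨k, rfl⟩ := h'
  exact ⟨k + m, Function.iterate_add_apply _ _ _ _⟩

theorem fix_iter {g : V → V} {u : V} (h : g u = u) {x : V} {j : ℕ} (hj : g^[j] x = u) {i : ℕ}
    (hi : j ≤ i) : g^[i] x = u := by
  obtain ⟨k, rfl⟩ := Nat.exists_eq_add_of_le' hi
  rw [Function.iterate_add_apply, hj]
  exact Function.iterate_fixed h k

theorem wf_iter (hτ : τ.Wf r c₀) {x : V} (hx : x ∈ τ.D) (i : ℕ) : τ.g^[i] x ∈ τ.D := by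
  induction i with
  | zero => exact hx
  | succ i ih =>
    rw [Function.iterate_succ_apply']
    exact hτ.inD _ ih

theorem mt_iter (hτ : τ.Wf r c₀) (hm : τ.Mt r ω) {x : V} (hx : x ∈ τ.D) :
    ∀ i, (∀ j < i, τ.g^[j] x ≠ τ.u) → ω.1^[i] x = τ.g^[i] x := by
  intro i
  induction i with
  | zero => intro _; rfl
  | succ i ih =>
    intro h
    rw [Function.iterate_succ_apply', Function.iterate_succ_apply',
      ih fun j hj => h j (Nat.lt_succ_of_lt hj)]
    exact (hm.2.2 _ (wf_iter hτ hx i) (h i (Nat.lt_succ_self i))).1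

/-- an iterate that is not the top -/
theorem mt_iter' (hτ : τ.Wf r c₀) (hm : τ.Mt r ω) {x : V} (hx : x ∈ τ.D) {i : ℕ}
    (hi : τ.g^[i] x ≠ τ.u) : ω.1^[i] x = τ.g^[i] x :=
  mt_iter hτ hm hx i fun _ hj h => hi (fix_iter hτ.gtop h hj.le)

theorem mem_D (hm : τ.Mt r ω) {x : V} : x ∈ below ω.1 τ.u ↔ x ∈ τ.D := by
  rw [hm.2.1]
  exact Finset.mem_coe

theorem top_ne_root' (hτ : τ.Wf r c₀) : τ.u ≠ r := fun h => hτ.root (h ▸ hτ.top)

/-- antisymmetry of being below, in trees -/
theorem below_antisymm {p : V → V} (hp : p ∈ PF r) {x y : V} (h : x ∈ below p y)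
    (h' : y ∈ below p x) : x = y := by
  by_contra hne
  obtain ⟨a, ha⟩ := h
  obtain ⟨b, hb⟩ := h'
  have hab : 0 < b + a := by
    rcases Nat.eq_zero_or_pos a with h0 | h0
    · rw [h0] at ha
      exact absurd ha hne
    · omega
  have h1 : p^[b + a] x = x := by
    rw [Function.iterate_add_apply, ha, hb]
  have hx : x = r := FringeAux.eq_root_of_periodic hp hab h1
  have h2 : p^[a + b] y = y := by
    rw [Function.iterate_add_apply, hb, ha]
  have hy : y = r := FringeAux.eq_root_of_periodic hp (by omega) h2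
  exact hne (hx.trans hy.symm)

theorem below_chain {p : V → V} {x y w : V} (h : x ∈ below p y) (h' : x ∈ below p w) :
    y ∈ below p w ∨ w ∈ below p y := by
  obtain ⟨a, rfl⟩ := h
  obtain ⟨b, rfl⟩ := h'
  rcases le_total a b with h | h
  · left
    exact ⟨b - a, by rw [← Function.iterate_add_apply, Nat.sub_add_cancel h]⟩
  · right
    exact ⟨a - b, by rw [← Function.iterate_add_apply, Nat.sub_add_cancel h]⟩

theorem mt_below (hτ : τ.Wf r c₀) (hm : τ.Mt r ω) {x : V} (hx : x ∈ τ.D) (hxu : x ≠ τ.u) :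
    below ω.1 x = below τ.g x := by
  ext y
  constructor
  · rintro ⟨m, hy⟩
    have hyD : y ∈ τ.D := (mem_D hm).1 (below_trans ⟨m, hy⟩ ((mem_D hm).2 hx))
    refine ⟨m, ?_⟩
    rw [← mt_iter hτ hm hyD m, hy]
    intro j hj h
    -- the orbit of `y` under the true parent function passes through the top before `x`
    classical
    obtain ⟨k, h1, hk, h3⟩ : ∃ k, τ.g^[k] y = τ.u ∧ (∀ i < k, τ.g^[i] y ≠ τ.u) ∧ k ≤ j := by
      have hex : ∃ j, τ.g^[j] y = τ.u := ⟨j, h⟩
      exact ⟨Nat.find hex, Nat.find_spec hex, fun i hi => Nat.find_min hex hi,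
        Nat.find_min' hex h⟩
    have h2 : ω.1^[k] y = τ.u := by
      rw [mt_iter hτ hm hyD _ hk, h1]
    have h4 : τ.u ∈ below ω.1 x := by
      refine ⟨m - k, ?_⟩
      have h5 : ω.1^[m - k] (ω.1^[k] y) = x := by
        rw [← Function.iterate_add_apply, Nat.sub_add_cancel (h3.trans hj.le), hy]
      rwa [h2] at h5
    exact hxu (below_antisymm hm.1 ((mem_D hm).2 hx) h4)
  · rintro ⟨m, hy⟩
    have hyD : y ∈ τ.D := by
      by_contra h
      have h1 : τ.g^[m] y = y := Function.iterate_fixed (hτ.gout y h) m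
      rw [h1] at hy
      exact h (hy ▸ hx)
    refine ⟨m, ?_⟩
    rw [mt_iter' hτ hm hyD (by rw [hy]; exact hxu), hy]

theorem sz_mono [Fintype V] {p : V → V} {x y : V} (h : x ∈ below p y) : sz p x ≤ sz p y :=
  Set.ncard_le_ncard (fun _ hw => below_trans hw h) (Set.toFinite _)

end aux

variable {V : Type} [Fintype V] {P : Pattern} {ℓ A : ℕ} {r : V}

/-- below the top of a successful template there is no large branch -/
theorem small_below {τ : Tm V (Bool × V)} (hτ : τ ∈ TT P ℓ A r)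
    {ω : (V → V) × (V → Bool × V)} (hm : τ.Mt r ω) {x : V} (hx : x ∈ τ.D) (hxu : x ≠ τ.u) :
    sz ω.1 x < 16 * A := by
  classical
  obtain ⟨hw, z, idx, att, dl, hs⟩ := mem_TT.1 hτ
  set L := Ls P.N ℓ with hL
  have hp := hm.1
  have hur := top_ne_root' hw
  set q := τ.g^[L + 1] z with hq
  have hqD : q ∈ τ.D := wf_iter hw hs.zD _
  have hqu : q ≠ τ.u := hs.nu
  have hzu : z ≠ τ.u := fun h => hs.nu (fix_iter hw.gtop (j := 0) h (Nat.zero_le _))
  have hqp : ω.1 q = τ.u := by
    rw [(hm.2.2 q hqD hqu).1, hq, ← Function.iterate_succ_apply' τ.g (L + 1) z]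
    exact hs.hu
  have hbq := mt_below hw hm hqD hqu
  have hszq : sz ω.1 q < 16 * A := by
    unfold sz
    rw [hbq]
    exact hs.szq
  have hszz : 12 * A ≤ sz ω.1 z := by
    unfold sz
    rw [mt_below hw hm hs.zD hzu]
    exact hs.szz
  have hzq : z ∈ below ω.1 q := by
    rw [hbq]
    exact ⟨L + 1, rfl⟩
  -- the child above `x`
  have hxb : x ∈ below ω.1 τ.u := (mem_D hm).2 hx
  obtain ⟨m, hmx⟩ := hxb
  have hmpos : m ≠ 0 := by
    rintro rfl
    exact hxu hmx
  obtain ⟨k, rfl⟩ := Nat.exists_eq_succ_of_ne_zero hmpos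
  set c := ω.1^[k] x with hc
  have hcp : ω.1 c = τ.u := by
    rw [hc, ← Function.iterate_succ_apply' ω.1 k x]
    exact hmx
  have hxc : x ∈ below ω.1 c := ⟨k, rfl⟩
  have hcu : c ≠ τ.u := by
    intro h
    rw [h] at hcp
    exact hur (FringeAux.eq_root_of_periodic hp Nat.one_pos hcp)
  refine (sz_mono hxc).trans_lt ?_
  by_cases hcq : c = q
  · rw [hcq]
    exact hszq
  · have hdis : Disjoint (below ω.1 c) (below ω.1 q) := by
      rw [Set.disjoint_left]
      intro y hy hy'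
      have key : ∀ a b : V, ω.1 a = τ.u → ω.1 b = τ.u → a ≠ b → b ≠ τ.u → a ∈ below ω.1 b → False := by
        rintro a b ha hb hab hbu ⟨m, hm'⟩
        rcases m with _ | m
        · exact hab hm'
        · rw [Function.iterate_succ_apply, ha] at hm'
          have h1 : τ.u ∈ below ω.1 b := ⟨m, hm'⟩
          have h2 : b ∈ below ω.1 τ.u := ⟨1, hb⟩
          exact hbu (below_antisymm hp h2 h1)
      rcases below_chain hy hy' with h | h
      · exact key c q hcp hqp hcq hqu h
      · exact key q c hqp hcp (Ne.symm hcq) hcu h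
    have hsub : insert τ.u (below ω.1 c ∪ below ω.1 q) ⊆ (τ.D : Set V) := by
      rw [← hm.2.1]
      intro y hy
      rcases hy with rfl | hy | hy
      · exact FringeAux.self_mem_below _ _
      · exact below_trans hy ⟨1, hcp⟩
      · exact below_trans hy ⟨1, hqp⟩
    have hnu : τ.u ∉ below ω.1 c ∪ below ω.1 q := by
      rintro (h | h)
      · exact hcu (below_antisymm hp ⟨1, hcp⟩ h)
      · exact hqu (below_antisymm hp ⟨1, hqp⟩ h)
    have h1 := Set.ncard_le_ncard hsub (Set.toFinite _)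
    rw [Set.ncard_insert_of_notMem hnu (Set.toFinite _),
      Set.ncard_union_eq hdis (Set.toFinite _) (Set.toFinite _), Set.ncard_coe_finset] at h1
    have h2 : 12 * A ≤ sz ω.1 q := hszz.trans (sz_mono hzq)
    have h3 := hs.cardhi
    unfold sz at h2 ⊢
    omega

/-- two successful templates that match the same decorated tree have disjoint vertex sets -/
theorem TT_disjoint {τ τ' : Tm V (Bool × V)} (hτ : τ ∈ TT P ℓ A r) (hτ' : τ' ∈ TT P ℓ A r)
    {ω : (V → V) × (V → Bool × V)} (hm : τ.Mt r ω) (hm' : τ'.Mt r ω) (hne : τ ≠ τ') :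
    Disjoint τ.D τ'.D := by
  classical
  have hw := (mem_TT.1 hτ).1
  have hw' := (mem_TT.1 hτ').1
  have hu : τ.u ≠ τ'.u := by
    intro h
    apply hne
    have hD : τ.D = τ'.D := by
      apply Finset.coe_injective
      rw [← hm.2.1, ← hm'.2.1, h]
    obtain ⟨D, u, g, d⟩ := τ
    obtain ⟨D', u', g', d'⟩ := τ'
    simp only at h hD
    subst h
    subst hD
    have hg : g = g' := by
      funext x
      by_cases hx : x ∈ D
      · by_cases hxu : x = u
        · have h1 := hw.gtop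
          have h2 := hw'.gtop
          simp only at h1 h2
          rw [hxu, h1, h2]
        · exact ((hm.2.2 x hx hxu).1).symm.trans (hm'.2.2 x hx hxu).1
      · exact (hw.gout x hx).trans (hw'.gout x hx).symm
    have hd : d = d' := by
      funext x
      by_cases hx : x ∈ D
      · by_cases hxu : x = u
        · exact (hw.dout x (Or.inr hxu)).trans (hw'.dout x (Or.inr hxu)).symm
        · exact ((hm.2.2 x hx hxu).2).symm.trans (hm'.2.2 x hx hxu).2
      · exact (hw.dout x (Or.inl hx)).trans (hw'.dout x (Or.inl hx)).symm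
    rw [hg, hd]
  have key : ∀ τ τ' : Tm V (Bool × V), τ ∈ TT P ℓ A r → τ' ∈ TT P ℓ A r → τ.Mt r ω →
      τ'.Mt r ω → τ.u ≠ τ'.u → τ'.u ∈ below ω.1 τ.u → False := by
    intro τ τ' hτ hτ' hm hm' hu h
    have h1 := small_below hτ hm ((mem_D hm).1 h) (Ne.symm hu)
    obtain ⟨_, z, idx, att, dl, hs⟩ := mem_TT.1 hτ'
    have h2 := hs.cardlo
    have h3 : sz ω.1 τ'.u = τ'.D.card := by
      unfold sz
      rw [hm'.2.1, Set.ncard_coe_finset]
    omega
  rw [Finset.disjoint_left]
  intro x hx hx'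
  rcases below_chain ((mem_D hm).2 hx) ((mem_D hm').2 hx') with h | h
  · exact key τ' τ hτ' hτ hm' hm hu.symm h
  · exact key τ τ' hτ hτ' hm hm' hu h

end Pool.Agent.ZO
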