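import Pool.Agent.ZO.Aff

/-!
# Transfer of non-asphericity to a larger presentation
-/

set_option autoImplicit false

open scoped BigOperators

namespace Pool.Agent.ZO

open Pool.Agent.FoxAsph Pool.Agent.WT

/-- the row of Fox derivatives of a word -/
noncomputable def row {X ι : Type} (rel : ι → Word X) (w : Word X) : X → MonoidAlgebra ℤ (Grp rel) :=
  fun x => fox rel x w

/-- the span of the rows of all relators except `i₀` -/
noncomputable def rowSpan {X ι : Type} (rel : ι → Word X) (i₀ : ι) :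
    Submodule (MonoidAlgebra ℤ (Grp rel)) (X → MonoidAlgebra ℤ (Grp rel)) :=
  Submodule.span _ (Set.range fun i : {i : ι // i ≠ i₀} => row rel (rel i))

/-- the generators in the quotient by the rows -/
noncomputable def gm {X ι : Type} (rel : ι → Word X) (i₀ : ι) (x : X) :
    (X → MonoidAlgebra ℤ (Grp rel)) ⧸ rowSpan rel i₀ := by
  classical
  exact (rowSpan rel i₀).mkQ (Pi.single x 1)

theorem sum_gm {X ι : Type} [Fintype X] (rel : ι → Word X) (i₀ : ι) (w : Word X) :
    ∑ x, fox rel x w • gm rel i₀ x = (rowSpan rel i₀).mkQ (row rel w) := by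
  classical
  unfold gm
  have h1 : ∀ x, fox rel x w • (rowSpan rel i₀).mkQ (Pi.single x 1) =
      (rowSpan rel i₀).mkQ (Pi.single x (fox rel x w)) := by
    intro x
    rw [← map_smul]
    congr 1
    ext y
    by_cases h : y = x
    · subst h
      simp
    · simp [h]
  rw [Finset.sum_congr rfl (fun x _ => by convert h1 x), ← map_sum]
  congr 1
  ext1 y
  rw [Finset.sum_apply]
  unfold row
  rw [Finset.sum_eq_single y]
  · rw [Pi.single_eq_same]
  · intro x _ hx
    rw [Pi.single_eq_of_ne (Ne.symm hx)]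
  · intro h
    exact absurd (Finset.mem_univ y) h

/-- in an aspherical presentation a multiple of a row is in the span of the other rows only if the
coefficient is 0 -/
theorem coeff_eq_zero {X ι : Type} [Fintype ι] (rel : ι → Word X) (h : Aspherical rel) (i₀ : ι)
    (c : MonoidAlgebra ℤ (Grp rel)) (hc : c • (rowSpan rel i₀).mkQ (row rel (rel i₀)) = 0) :
    c = 0 := by
  classical
  rw [← map_smul, Submodule.mkQ_apply, Submodule.Quotient.mk_eq_zero] at hc
  unfold rowSpan at hc
  rw [Submodule.mem_span_range_iff_exists_fun] at hc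
  obtain ⟨a, ha⟩ := hc
  have hz := h (fun i => if hi : i = i₀ then c else - a ⟨i, hi⟩) ?_
  · have := congrFun hz i₀
    simpa using this
  · intro x
    have h1 : ∑ i : ι, (if hi : i = i₀ then c else - a ⟨i, hi⟩) * fox rel x (rel i) =
        c * fox rel x (rel i₀) - ∑ i : {i : ι // i ≠ i₀}, a i * fox rel x (rel i) := by
      rw [← Finset.add_sum_erase Finset.univ _ (Finset.mem_univ i₀), dif_pos rfl, sub_eq_add_neg,
        ← Finset.sum_neg_distrib]
      congr 1
      rw [Finset.sum_subtype (Finset.univ.erase i₀) (p := fun i => i ≠ i₀)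
        (fun i => by simp) (fun i => (if hi : i = i₀ then c else - a ⟨i, hi⟩) * fox rel x (rel i))]
      refine Finset.sum_congr rfl (fun i _ => ?_)
      rw [dif_neg i.2, neg_mul]
    rw [h1]
    have h2 := congrFun ha x
    rw [Finset.sum_apply] at h2
    have h3 : ∑ i : {i : ι // i ≠ i₀}, a i * fox rel x (rel i) = c * fox rel x (rel i₀) := h2
    rw [h3, sub_self]

/-- Transfer: if `rel` is aspherical, so is `rel₀`. Here `σ` maps the generators of `rel₀` to
generators of `rel`, and the relators of `rel₀` are consequences of those of `rel` in a triangular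
way: modulo all relators of `rel` but `j e₀`, the earlier relators of `rel₀` hold and the relator
`e₀` becomes `j e₀`. -/
theorem transfer {X₀ ι₀ X ι : Type} [Fintype X₀] [Fintype ι₀] [Fintype X] [Fintype ι]
    (rel₀ : ι₀ → Word X₀) (rel : ι → Word X) (σ : X₀ → X) (j : ι₀ → ι) (τ : ι₀ → ℕ)
    (hτ : Function.Injective τ)
    (hψ : ∃ ψ : Grp rel →* Grp rel₀, ∀ x, ψ (val rel [(σ x, true)]) = val rel₀ [(x, true)])
    (H : ∀ (G : Type) [Group G] (Θ : X → G) (e₀ : ι₀),
      (∀ i, i ≠ j e₀ → FreeGroup.lift Θ (FreeGroup.mk (rel i)) = 1) →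
      (∀ e, τ e < τ e₀ → FreeGroup.lift (fun x => Θ (σ x)) (FreeGroup.mk (rel₀ e)) = 1) ∧
        FreeGroup.lift (fun x => Θ (σ x)) (FreeGroup.mk (rel₀ e₀)) =
          FreeGroup.lift Θ (FreeGroup.mk (rel (j e₀))))
    (h : Aspherical rel) : Aspherical rel₀ := by
  classical
  -- the homomorphism of groups
  have hval : ∀ (w : Word X),
      FreeGroup.lift (fun x => val rel [(x, true)]) (FreeGroup.mk w) = val rel w := by
    intro w
    induction w with
    | nil => rw [lift_nil, val_nil]
    | cons l w ih =>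
      obtain ⟨x, b⟩ := l
      rw [lift_cons, ih, val_cons rel (x, b) w]
      cases b with
      | true => rw [if_pos rfl]
      | false => rw [if_neg Bool.false_ne_true, val_inv]
  have hall : ∀ e, FreeGroup.lift (fun x => val rel [(σ x, true)]) (FreeGroup.mk (rel₀ e)) = 1 := by
    intro e
    have h1 := (H (Grp rel) (fun x => val rel [(x, true)]) e
      (fun i _ => by rw [hval, val_rel])).2
    rw [h1, hval, val_rel]
  let φ : Grp rel₀ →* Grp rel := PresentedGroup.toGroup (f := fun x => val rel [(σ x, true)])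
    (by rintro _ ⟨e, rfl⟩; exact hall e)
  have hφ : ∀ x, φ (val rel₀ [(x, true)]) = val rel [(σ x, true)] := by
    intro x
    have h1 : val rel₀ [(x, true)] = PresentedGroup.of x := rfl
    rw [h1]
    exact PresentedGroup.toGroup.of _
  obtain ⟨ψ, hψ⟩ := hψ
  have hψφ : ∀ g, ψ (φ g) = g := by
    intro g
    have h1 : ψ.comp φ = MonoidHom.id _ := by
      apply PresentedGroup.ext
      intro x
      have h2 : (PresentedGroup.of x : Grp rel₀) = val rel₀ [(x, true)] := rfl
      rw [h2]
      show ψ (φ _) = _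
      rw [hφ, hψ]
      rfl
    exact DFunLike.congr_fun h1 g
  have hφi : Function.Injective φ := fun a b hab => by rw [← hψφ a, hab, hψφ]
  let ρ : MonoidAlgebra ℤ (Grp rel₀) →+* MonoidAlgebra ℤ (Grp rel) :=
    MonoidAlgebra.mapDomainRingHom ℤ φ
  have hρi : Function.Injective ρ := by
    intro a b hab
    exact MonoidAlgebra.mapDomain_injective hφi hab
  have hρof : ∀ g, ρ (MonoidAlgebra.of ℤ (Grp rel₀) g) = MonoidAlgebra.of ℤ (Grp rel) (φ g) := by
    intro g
    show MonoidAlgebra.mapDomainRingHom ℤ φ _ = _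
    simp [MonoidAlgebra.of_apply]
  intro Y hY
  by_contra hne
  -- the last relator with a nonzero coefficient
  obtain ⟨e₀, he₀, hmax⟩ : ∃ e₀, Y e₀ ≠ 0 ∧ ∀ e, Y e ≠ 0 → τ e ≤ τ e₀ := by
    have hne' : (Finset.univ.filter fun e => Y e ≠ 0).Nonempty := by
      rw [Finset.filter_nonempty_iff]
      by_contra hcon
      push Not at hcon
      exact hne (funext fun e => hcon e (Finset.mem_univ e))
    obtain ⟨e₀, h1, h2⟩ := Finset.exists_max_image _ τ hne'
    rw [Finset.mem_filter] at h1
    exact ⟨e₀, h1.2, fun e he => h2 e (by rw [Finset.mem_filter]; exact ⟨Finset.mem_univ _, he⟩)⟩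
  let M := (X → MonoidAlgebra ℤ (Grp rel)) ⧸ rowSpan rel (j e₀)
  let m : X → M := gm rel (j e₀)
  let Θ : X → Equiv.Perm M := aff rel (RingHom.id _) m
  have hΘ : ∀ w, FreeGroup.lift Θ (FreeGroup.mk w) = affW rel (RingHom.id _) m w := fun w => rfl
  have hΘrel : ∀ i, ∀ y : M, FreeGroup.lift Θ (FreeGroup.mk (rel i)) y =
      y + (rowSpan rel (j e₀)).mkQ (row rel (rel i)) := by
    intro i y
    rw [hΘ, affW_rel]
    congr 1
    exact sum_gm rel (j e₀) (rel i)
  have hΘ1 : ∀ i, i ≠ j e₀ → FreeGroup.lift Θ (FreeGroup.mk (rel i)) = 1 := by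
    intro i hi
    ext y
    rw [hΘrel, Equiv.Perm.one_apply]
    have h1 : (rowSpan rel (j e₀)).mkQ (row rel (rel i)) = 0 := by
      rw [Submodule.mkQ_apply, Submodule.Quotient.mk_eq_zero]
      exact Submodule.subset_span ⟨⟨i, hi⟩, rfl⟩
    rw [h1, add_zero]
  obtain ⟨Ha, Hb⟩ := H (Equiv.Perm M) Θ e₀ hΘ1
  have hcomp : (fun x => Θ (σ x)) = aff rel₀ ρ (fun x => m (σ x)) := by
    funext x
    ext y
    show MonoidAlgebra.of ℤ (Grp rel) (val rel [(σ x, true)]) • y + m (σ x) =
      ρ (MonoidAlgebra.of ℤ (Grp rel₀) (val rel₀ [(x, true)])) • y + m (σ x)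
    rw [hρof, hφ]
  have hsum := sum_affW rel₀ ρ (fun x => m (σ x)) Y hY
  have haffW : ∀ e, affW rel₀ ρ (fun x => m (σ x)) (rel₀ e) =
      FreeGroup.lift (fun x => Θ (σ x)) (FreeGroup.mk (rel₀ e)) := by
    intro e
    rw [hcomp]
    rfl
  rw [Finset.sum_eq_single e₀] at hsum
  · rw [haffW, Hb, hΘrel, zero_add] at hsum
    have h1 := coeff_eq_zero rel h (j e₀) _ hsum
    exact he₀ (hρi (h1.trans (map_zero ρ).symm))
  · intro e _ hee
    by_cases hYe : Y e = 0
    · rw [hYe, map_zero, zero_smul]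
    · have hlt : τ e < τ e₀ := lt_of_le_of_ne (hmax e hYe) (fun h => hee (hτ h))
      rw [haffW, Ha e hlt, Equiv.Perm.one_apply, smul_zero]
  · intro h
    exact absurd (Finset.mem_univ _) h

end Pool.Agent.ZO
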