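import Pool.Agent.ZO.Trans

/-!
# Transfer of non-asphericity along a substitution
-/

set_option autoImplicit false

open scoped BigOperators

namespace Pool.Agent.ZO

open Pool.Agent.FoxAsph Pool.Agent.WT

/-- the element of the presented group of an element of the free group -/
def valF {X ι : Type} (rel : ι → Word X) (g : FreeGroup X) : Grp rel := PresentedGroup.mk _ g

theorem valF_mk {X ι : Type} (rel : ι → Word X) (w : Word X) :
    valF rel (FreeGroup.mk w) = val rel w := rfl

theorem valF_mul {X ι : Type} (rel : ι → Word X) (g h : FreeGroup X) :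
    valF rel (g * h) = valF rel g * valF rel h := map_mul _ _ _

theorem valF_one {X ι : Type} (rel : ι → Word X) : valF rel 1 = 1 := map_one _

theorem valF_inv {X ι : Type} (rel : ι → Word X) (g : FreeGroup X) :
    valF rel g⁻¹ = (valF rel g)⁻¹ := map_inv _ _

theorem valF_of {X ι : Type} (rel : ι → Word X) (x : X) :
    valF rel (FreeGroup.of x) = val rel [(x, true)] := rfl

/-- a homomorphism of the free group is determined by the presented group -/
theorem lift_valF {X ι : Type} (rel : ι → Word X) (g : FreeGroup X) :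
    FreeGroup.lift (fun x => valF rel (FreeGroup.of x)) g = valF rel g := by
  have h : FreeGroup.lift (fun x => valF rel (FreeGroup.of x)) =
      (PresentedGroup.mk (Set.range fun i => FreeGroup.mk (rel i)) : FreeGroup X →* Grp rel) := by
    ext x
    simp [valF]
  exact DFunLike.congr_fun h g

theorem lift_comp {X Y G : Type} [Group G] (f : X → FreeGroup Y) (Θ : Y → G) (g : FreeGroup X) :
    FreeGroup.lift Θ (FreeGroup.lift f g) = FreeGroup.lift (fun x => FreeGroup.lift Θ (f x)) g := by
  have h : (FreeGroup.lift Θ).comp (FreeGroup.lift f) =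
      FreeGroup.lift (fun x => FreeGroup.lift Θ (f x)) := by
    ext x
    simp
  exact DFunLike.congr_fun h g

/-- Transfer along a substitution: if `rel` is aspherical, so is `rel₀`. Here `f` maps the generators
of `rel₀` to words in the generators of `rel`, and the relators of `rel₀` are consequences of those
of `rel` in a triangular way. -/
theorem transferF {X₀ ι₀ X ι : Type} [Fintype X₀] [Fintype ι₀] [Fintype X] [Fintype ι]
    (rel₀ : ι₀ → Word X₀) (rel : ι → Word X) (f : X₀ → FreeGroup X) (j : ι₀ → ι) (τ : ι₀ → ℕ)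
    (hψ : ∃ ψ : Grp rel →* Grp rel₀, ∀ x, ψ (valF rel (f x)) = valF rel₀ (FreeGroup.of x))
    (H : ∀ (G : Type) [Group G] (Θ : X → G) (e₀ : ι₀),
      (∀ i, i ≠ j e₀ → FreeGroup.lift Θ (FreeGroup.mk (rel i)) = 1) →
      (∀ e, e ≠ e₀ → τ e ≤ τ e₀ →
        FreeGroup.lift (fun x => FreeGroup.lift Θ (f x)) (FreeGroup.mk (rel₀ e)) = 1) ∧
        FreeGroup.lift (fun x => FreeGroup.lift Θ (f x)) (FreeGroup.mk (rel₀ e₀)) =
          FreeGroup.lift Θ (FreeGroup.mk (rel (j e₀))))
    (h : Aspherical rel) : Aspherical rel₀ := by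
  classical
  have hall : ∀ e, FreeGroup.lift (fun x => valF rel (f x)) (FreeGroup.mk (rel₀ e)) = 1 := by
    intro e
    have h1 := (H (Grp rel) (fun x => valF rel (FreeGroup.of x)) e
      (fun i _ => by rw [lift_valF, valF_mk, val_rel])).2
    rw [lift_valF, valF_mk, val_rel] at h1
    rw [← h1]
    congr 2
    funext x
    exact (lift_valF rel (f x)).symm
  let φ : Grp rel₀ →* Grp rel := PresentedGroup.toGroup (f := fun x => valF rel (f x))
    (by rintro _ ⟨e, rfl⟩; exact hall e)
  have hφ : ∀ x, φ (valF rel₀ (FreeGroup.of x)) = valF rel (f x) := by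
    intro x
    exact PresentedGroup.toGroup.of _
  obtain ⟨ψ, hψ⟩ := hψ
  have hψφ : ∀ g, ψ (φ g) = g := by
    intro g
    have h1 : ψ.comp φ = MonoidHom.id _ := by
      apply PresentedGroup.ext
      intro x
      show ψ (φ (valF rel₀ (FreeGroup.of x))) = _
      rw [hφ, hψ]
      rfl
    exact DFunLike.congr_fun h1 g
  have hφi : Function.Injective φ := fun a b hab => by rw [← hψφ a, hab, hψφ]
  let ρ : MonoidAlgebra ℤ (Grp rel₀) →+* MonoidAlgebra ℤ (Grp rel) :=
    MonoidAlgebra.mapDomainRingHom ℤ φ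
  have hρi : Function.Injective ρ := by
    intro a b hab
    exact MonoidAlgebra.mapDomain_injective hφi hab
  have hρof : ∀ g, ρ (MonoidAlgebra.of ℤ (Grp rel₀) g) = MonoidAlgebra.of ℤ (Grp rel) (φ g) := by
    intro g
    show MonoidAlgebra.mapDomainRingHom ℤ φ _ = _
    simp [MonoidAlgebra.of_apply]
  intro Y hY
  by_contra hne
  obtain ⟨e₀, he₀, hmax⟩ : ∃ e₀, Y e₀ ≠ 0 ∧ ∀ e, Y e ≠ 0 → τ e ≤ τ e₀ := by
    have hne' : (Finset.univ.filter fun e => Y e ≠ 0).Nonempty := by
      rw [Finset.filter_nonempty_iff]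
      by_contra hcon
      push Not at hcon
      exact hne (funext fun e => hcon e (Finset.mem_univ e))
    obtain ⟨e₀, h1, h2⟩ := Finset.exists_max_image _ τ hne'
    rw [Finset.mem_filter] at h1
    exact ⟨e₀, h1.2, fun e he => h2 e (by rw [Finset.mem_filter]; exact ⟨Finset.mem_univ _, he⟩)⟩
  let M := (X → MonoidAlgebra ℤ (Grp rel)) ⧸ rowSpan rel (j e₀)
  let m : X → M := gm rel (j e₀)
  let Θ : X → Equiv.Perm M := aff rel (RingHom.id _) m
  have hΘ : ∀ w, FreeGroup.lift Θ (FreeGroup.mk w) = affW rel (RingHom.id _) m w := fun w => rfl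
  have hΘrel : ∀ i, ∀ y : M, FreeGroup.lift Θ (FreeGroup.mk (rel i)) y =
      y + (rowSpan rel (j e₀)).mkQ (row rel (rel i)) := by
    intro i y
    rw [hΘ, affW_rel]
    congr 1
    exact sum_gm rel (j e₀) (rel i)
  have hΘ1 : ∀ i, i ≠ j e₀ → FreeGroup.lift Θ (FreeGroup.mk (rel i)) = 1 := by
    intro i hi
    ext y
    rw [hΘrel, Equiv.Perm.one_apply]
    have h1 : (rowSpan rel (j e₀)).mkQ (row rel (rel i)) = 0 := by
      rw [Submodule.mkQ_apply, Submodule.Quotient.mk_eq_zero]
      exact Submodule.subset_span ⟨⟨i, hi⟩, rfl⟩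
    rw [h1, add_zero]
  obtain ⟨Ha, Hb⟩ := H (Equiv.Perm M) Θ e₀ hΘ1
  -- the affine maps of the substituted generators
  have hcomp : (fun x => FreeGroup.lift Θ (f x)) =
      aff rel₀ ρ (fun x => FreeGroup.lift Θ (f x) 0) := by
    funext x
    ext y
    have h1 : f x = FreeGroup.mk (f x).toWord := FreeGroup.mk_toWord.symm
    have h2 : ∀ y : M, FreeGroup.lift Θ (f x) y =
        MonoidAlgebra.of ℤ (Grp rel) (valF rel (f x)) • y +
          ∑ x', fox rel x' (f x).toWord • m x' := by
      intro y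
      conv_lhs => rw [h1]
      rw [hΘ, affW_apply]
      conv_rhs => rw [h1, valF_mk, FreeGroup.toWord_mk, ← FreeGroup.toWord_mk, FreeGroup.mk_toWord]
      rfl
    rw [aff_apply]
    have h3 : ρ (MonoidAlgebra.of ℤ (Grp rel₀) (val rel₀ [(x, true)])) =
        MonoidAlgebra.of ℤ (Grp rel) (valF rel (f x)) := by
      rw [hρof]
      congr 1
      exact hφ x
    rw [h3, h2 y, h2 0, smul_zero, zero_add]
  have hsum := sum_affW rel₀ ρ (fun x => FreeGroup.lift Θ (f x) 0) Y hY
  have haffW : ∀ e, affW rel₀ ρ (fun x => FreeGroup.lift Θ (f x) 0) (rel₀ e) =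
      FreeGroup.lift (fun x => FreeGroup.lift Θ (f x)) (FreeGroup.mk (rel₀ e)) := by
    intro e
    rw [hcomp]
    rfl
  rw [Finset.sum_eq_single e₀] at hsum
  · rw [haffW, Hb, hΘrel, zero_add] at hsum
    have h1 := coeff_eq_zero rel h (j e₀) _ hsum
    exact he₀ (hρi (h1.trans (map_zero ρ).symm))
  · intro e _ hee
    by_cases hYe : Y e = 0
    · rw [hYe, map_zero, zero_smul]
    · rw [haffW, Ha e hee (hmax e hYe), Equiv.Perm.one_apply, smul_zero]
  · intro h
    exact absurd (Finset.mem_univ _) h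

end Pool.Agent.ZO
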