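import Pool.Agent.ZO.TransF
import Pool.Agent.ZO.Tour

/-!
# From word relations `x = product of conjugates` to labelled oriented forests
-/

set_option autoImplicit false

open scoped BigOperators

namespace Pool.Agent.ZO

open Pool.Agent.FoxAsph Pool.Agent.WT

namespace Wirt

/-- a conjugate of `ρ_j` or of its inverse: the conjugating element, `j`, and the sign -/
abbrev Ent (X J : Type) : Type := FreeGroup (X ⊕ J) × J × Bool

/-- the power with exponent 1 or -1 -/
def sg {G : Type} [Group G] (b : Bool) (a : G) : G := if b then a else a⁻¹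

theorem sg_true {G : Type} [Group G] (a : G) : sg true a = a := rfl

theorem sg_false {G : Type} [Group G] (a : G) : sg false a = a⁻¹ := rfl

theorem map_sg {G H : Type} [Group G] [Group H] (φ : G →* H) (b : Bool) (a : G) :
    φ (sg b a) = sg b (φ a) := by
  cases b
  · exact map_inv φ a
  · rfl

theorem conj_sg {G : Type} [Group G] (b : Bool) (g a : G) :
    sg b (g * a * g⁻¹) = g * sg b a * g⁻¹ := by
  cases b
  · rw [sg_false, sg_false]
    group
  · rfl

/-- the conjugate -/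
def cj {X J : Type} (t : Ent X J) : FreeGroup (X ⊕ J) :=
  t.1 * sg t.2.2 (FreeGroup.of (Sum.inr t.2.1)) * t.1⁻¹

theorem cj_not {X J : Type} (t : Ent X J) : cj (t.1, t.2.1, !t.2.2) = (cj t)⁻¹ := by
  obtain ⟨g, j, b⟩ := t
  unfold cj
  cases b
  · show g * sg true _ * g⁻¹ = (g * sg false _ * g⁻¹)⁻¹
    rw [sg_true, sg_false]
    group
  · show g * sg false _ * g⁻¹ = (g * sg true _ * g⁻¹)⁻¹
    rw [sg_true, sg_false]
    group

theorem exists_decomp {X J : Type} (s : FreeGroup (X ⊕ J))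
    (hs : s ∈ Subgroup.normalClosure (Set.range fun j : J => FreeGroup.of (Sum.inr j : X ⊕ J))) :
    ∃ L : List (Ent X J), (L.map cj).prod = s := by
  unfold Subgroup.normalClosure at hs
  induction hs using Subgroup.closure_induction with
  | mem x hx =>
    rw [Group.mem_conjugatesOfSet_iff] at hx
    obtain ⟨_, ⟨j, rfl⟩, hx⟩ := hx
    obtain ⟨c, hc⟩ := isConj_iff.1 hx
    refine ⟨[(c, j, true)], ?_⟩
    rw [List.map_singleton, List.prod_singleton]
    exact hc
  | one => exact ⟨[], rfl⟩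
  | mul x y _ _ hx hy =>
    obtain ⟨L, hL⟩ := hx
    obtain ⟨L', hL'⟩ := hy
    exact ⟨L ++ L', by rw [List.map_append, List.prod_append, hL, hL']⟩
  | inv x _ hx =>
    obtain ⟨L, hL⟩ := hx
    refine ⟨(L.map fun t => ((t.1, t.2.1, !t.2.2) : Ent X J)).reverse, ?_⟩
    rw [← hL, List.prod_inv_reverse, List.map_reverse, List.map_map, List.map_map]
    congr 2
    apply List.map_congr_left
    intro t _
    exact cj_not t

section
variable {X J : Type} (L : X → List (Ent X J)) (j₀ : J)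

/-- the factors, with a trivial product in front -/
def LL (x : X) : List (Ent X J) := (1, j₀, true) :: (1, j₀, false) :: L x

theorem prod_LL (x : X) : ((LL L j₀ x).map cj).prod = ((L x).map cj).prod := by
  unfold LL
  rw [List.map_cons, List.map_cons, List.prod_cons, List.prod_cons, ← mul_assoc]
  have h1 : cj ((1, j₀, true) : Ent X J) * cj ((1, j₀, false) : Ent X J) = 1 := by
    unfold cj
    show 1 * sg true _ * 1⁻¹ * (1 * sg false _ * 1⁻¹) = 1
    rw [sg_true, sg_false]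
    group
  rw [h1, one_mul]

/-- the factors of all the words -/
abbrev KK : Type := Σ x : X, Fin (LL L j₀ x).length

/-- the factor `κ` -/
def ent (κ : KK L j₀) : Ent X J := (LL L j₀ κ.1).get κ.2

/-- the first factor of the word of `x` -/
def k0 (x : X) : KK L j₀ := ⟨x, ⟨0, Nat.succ_pos _⟩⟩

theorem ent_k0 (x : X) : ent L j₀ (k0 L j₀ x) = (1, j₀, true) := rfl

/-- the generators in terms of the factors -/
def ff : X ⊕ J → FreeGroup (KK L j₀ ⊕ J) :=
  Sum.elim (fun x => (List.ofFn fun k : Fin (LL L j₀ x).length =>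
    sg (ent L j₀ ⟨x, k⟩).2.2 (FreeGroup.of (Sum.inl ⟨x, k⟩))).prod)
    (fun j => FreeGroup.of (Sum.inr j))

/-- a product of factors in a group -/
theorem prod_factors {G : Type} [Group G] (Θ₀ : X ⊕ J → G) (x : X) :
    (List.ofFn fun k : Fin (LL L j₀ x).length => sg (ent L j₀ ⟨x, k⟩).2.2
      (FreeGroup.lift Θ₀ ((ent L j₀ ⟨x, k⟩).1 * FreeGroup.of (Sum.inr (ent L j₀ ⟨x, k⟩).2.1) *
        (ent L j₀ ⟨x, k⟩).1⁻¹))).prod = FreeGroup.lift Θ₀ ((L x).map cj).prod := by
  rw [← prod_LL L j₀ x]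
  have h1 : (LL L j₀ x).map cj = List.ofFn fun k : Fin (LL L j₀ x).length =>
      cj (ent L j₀ ⟨x, k⟩) := by
    conv_lhs => rw [← List.ofFn_get (LL L j₀ x), List.map_ofFn]
    rfl
  rw [h1, map_list_prod, List.map_ofFn]
  congr 2
  funext k
  show _ = FreeGroup.lift Θ₀ (cj (ent L j₀ ⟨x, k⟩))
  rw [← map_sg, conj_sg]
  rfl

section words
open Classical

/-- the conjugating word of a factor -/
noncomputable def ww (κ : KK L j₀) : Word (KK L j₀ ⊕ J) :=
  (FreeGroup.lift (ff L j₀) (ent L j₀ κ).1).toWord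

theorem mk_ww (κ : KK L j₀) :
    FreeGroup.mk (ww L j₀ κ) = FreeGroup.lift (ff L j₀) (ent L j₀ κ).1 := FreeGroup.mk_toWord

theorem ww_k0 (x : X) : ww L j₀ (k0 L j₀ x) = [] := by
  unfold ww
  rw [ent_k0, map_one, FreeGroup.toWord_one]

end words

variable [Fintype X]

/-- the common length of the padded words -/
noncomputable def BB : ℕ := 1 + ∑ κ : KK L j₀, (ww L j₀ κ).length

theorem BB_pos : 0 < BB L j₀ := by
  unfold BB
  omega

theorem len_le (κ : KK L j₀) : (ww L j₀ κ).length ≤ BB L j₀ := by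
  unfold BB
  have := Finset.single_le_sum (f := fun κ : KK L j₀ => (ww L j₀ κ).length)
    (fun _ _ => Nat.zero_le _) (Finset.mem_univ κ)
  omega

/-- the conjugating word, padded -/
noncomputable def pad (κ : KK L j₀) : Word (KK L j₀ ⊕ J) :=
  ww L j₀ κ ++ List.replicate (BB L j₀ - (ww L j₀ κ).length) (Sum.inr (ent L j₀ κ).2.1, true)

theorem len_pad (κ : KK L j₀) : (pad L j₀ κ).length = BB L j₀ := by
  unfold pad
  rw [List.length_append, List.length_replicate]
  have := len_le L j₀ κ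
  omega

theorem lift_append {G Y : Type} [Group G] (f : Y → G) (u w : Word Y) :
    FreeGroup.lift f (FreeGroup.mk (u ++ w)) =
      FreeGroup.lift f (FreeGroup.mk u) * FreeGroup.lift f (FreeGroup.mk w) := by
  rw [← map_mul, FreeGroup.mul_mk]

theorem lift_replicate {G Y : Type} [Group G] (f : Y → G) (y : Y) (k : ℕ) :
    FreeGroup.lift f (FreeGroup.mk (List.replicate k (y, true))) = f y ^ k := by
  induction k with
  | zero => rw [List.replicate_zero, lift_nil, pow_zero]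
  | succ k ih => rw [List.replicate_succ, lift_cons, ih, if_pos rfl, pow_succ']

theorem conj_pad {G : Type} [Group G] (Θ' : KK L j₀ ⊕ J → G) (κ : KK L j₀) :
    FreeGroup.lift Θ' (FreeGroup.mk (pad L j₀ κ)) * Θ' (Sum.inr (ent L j₀ κ).2.1) *
      (FreeGroup.lift Θ' (FreeGroup.mk (pad L j₀ κ)))⁻¹ =
    FreeGroup.lift Θ' (FreeGroup.mk (ww L j₀ κ)) * Θ' (Sum.inr (ent L j₀ κ).2.1) *
      (FreeGroup.lift Θ' (FreeGroup.mk (ww L j₀ κ)))⁻¹ := by
  unfold pad
  rw [lift_append, lift_replicate]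
  generalize FreeGroup.lift Θ' (FreeGroup.mk (ww L j₀ κ)) = a
  generalize Θ' (Sum.inr (ent L j₀ κ).2.1) = b
  generalize BB L j₀ - (ww L j₀ κ).length = k
  have h : b ^ k * b * (b ^ k)⁻¹ = b := by
    rw [← pow_succ, pow_succ', mul_inv_cancel_right]
  calc a * b ^ k * b * (a * b ^ k)⁻¹ = a * (b ^ k * b * (b ^ k)⁻¹) * a⁻¹ := by
        rw [mul_inv_rev]
        simp only [mul_assoc]
    _ = a * b * a⁻¹ := by rw [h]

/-- the vertices of the forest -/
abbrev VV : Type := J ⊕ (KK L j₀ × Fin (BB L j₀))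

/-- position `q` of the factor `κ` -/
noncomputable def vt (κ : KK L j₀) (q : ℕ) : VV L j₀ :=
  if h : q < BB L j₀ then Sum.inr (κ, ⟨q, h⟩) else Sum.inl (ent L j₀ κ).2.1

/-- the vertex of a letter -/
noncomputable def vl : KK L j₀ ⊕ J → VV L j₀ := Sum.elim (fun κ => vt L j₀ κ 0) Sum.inl

theorem vt_lt (κ : KK L j₀) {q : ℕ} (h : q < BB L j₀) : vt L j₀ κ q = Sum.inr (κ, ⟨q, h⟩) :=
  dif_pos h

theorem vt_BB (κ : KK L j₀) : vt L j₀ κ (BB L j₀) = Sum.inl (ent L j₀ κ).2.1 :=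
  dif_neg (lt_irrefl _)

/-- the letter of an edge -/
noncomputable def lt (e : KK L j₀ × Fin (BB L j₀)) : (KK L j₀ ⊕ J) × Bool :=
  (pad L j₀ e.1).get ⟨e.2, by rw [len_pad]; exact e.2.2⟩

/-- the tail of an edge -/
noncomputable def tl (e : KK L j₀ × Fin (BB L j₀)) : VV L j₀ :=
  if (lt L j₀ e).2 then vt L j₀ e.1 e.2 else vt L j₀ e.1 (e.2 + 1)

/-- the head of an edge -/
noncomputable def hd (e : KK L j₀ × Fin (BB L j₀)) : VV L j₀ :=
  if (lt L j₀ e).2 then vt L j₀ e.1 (e.2 + 1) else vt L j₀ e.1 e.2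

variable [Fintype J]

/-- the forest -/
noncomputable def F : LOF where
  V := VV L j₀
  E := KK L j₀ × Fin (BB L j₀)
  fV := inferInstance
  fE := inferInstance
  tail := tl L j₀
  head := hd L j₀
  label := fun e => vl L j₀ (lt L j₀ e).1
  forest := by
    classical
    rintro ⟨κ, q⟩
    -- the positions up to `q`
    let ind : VV L j₀ → ℤ := fun y => match y with
      | Sum.inl _ => 0
      | Sum.inr (κ', q') => if κ' = κ ∧ q'.1 ≤ q.1 then 1 else 0
    have h1 : ind (vt L j₀ κ q) = 1 := by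
      rw [vt_lt L j₀ κ q.2]
      show (if κ = κ ∧ q.1 ≤ q.1 then (1 : ℤ) else 0) = 1
      rw [if_pos ⟨rfl, le_rfl⟩]
    have h2 : ind (vt L j₀ κ (q + 1)) = 0 := by
      by_cases h : q.1 + 1 < BB L j₀
      · rw [vt_lt L j₀ κ h]
        show (if κ = κ ∧ q.1 + 1 ≤ q.1 then (1 : ℤ) else 0) = 0
        rw [if_neg (fun hc => absurd hc.2 (by omega))]
      · have h3 : vt L j₀ κ (q + 1) = Sum.inl (ent L j₀ κ).2.1 := dif_neg h
        rw [h3]
    have h3 : ∀ e : KK L j₀ × Fin (BB L j₀), e ≠ (κ, q) →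
        ind (vt L j₀ e.1 e.2) = ind (vt L j₀ e.1 (e.2 + 1)) := by
      rintro ⟨κ', q'⟩ hne
      rw [vt_lt L j₀ κ' q'.2]
      show (if κ' = κ ∧ q'.1 ≤ q.1 then (1 : ℤ) else 0) = ind (vt L j₀ κ' (q'.1 + 1))
      by_cases hκ : κ' = κ
      · subst hκ
        have hqq : q'.1 ≠ q.1 := fun h => hne (by rw [Fin.ext h])
        by_cases h : q'.1 + 1 < BB L j₀
        · rw [vt_lt L j₀ κ' h]
          show _ = (if κ' = κ' ∧ q'.1 + 1 ≤ q.1 then (1 : ℤ) else 0)
          by_cases h4 : q'.1 ≤ q.1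
          · rw [if_pos ⟨rfl, h4⟩, if_pos ⟨rfl, by omega⟩]
          · rw [if_neg (fun hc => h4 hc.2), if_neg (fun hc => h4 (by omega))]
        · have h4 : vt L j₀ κ' (q'.1 + 1) = Sum.inl (ent L j₀ κ').2.1 := dif_neg h
          rw [h4]
          have h5 := q.2
          show (if κ' = κ' ∧ q'.1 ≤ q.1 then (1 : ℤ) else 0) = 0
          rw [if_neg (fun hc => by omega)]
      · rw [if_neg (fun hc => hκ hc.1)]
        by_cases h : q'.1 + 1 < BB L j₀
        · rw [vt_lt L j₀ κ' h]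
          show _ = (if κ' = κ ∧ q'.1 + 1 ≤ q.1 then (1 : ℤ) else 0)
          rw [if_neg (fun hc => hκ hc.1)]
        · have h4 : vt L j₀ κ' (q'.1 + 1) = Sum.inl (ent L j₀ κ').2.1 := dif_neg h
          rw [h4]
    by_cases hs : (lt L j₀ (κ, q)).2
    · refine ⟨fun y => - ind y, ?_, ?_⟩
      · show - ind (if (lt L j₀ (κ, q)).2 then _ else _) - - ind (if (lt L j₀ (κ, q)).2 then _ else _)
          = 1
        rw [if_pos hs, if_pos hs]
        show - ind (vt L j₀ κ (q + 1)) - - ind (vt L j₀ κ q) = 1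
        rw [h1, h2]
        norm_num
      · intro e he
        show - ind (if (lt L j₀ e).2 then vt L j₀ e.1 (e.2 + 1) else vt L j₀ e.1 e.2) =
          - ind (if (lt L j₀ e).2 then vt L j₀ e.1 e.2 else vt L j₀ e.1 (e.2 + 1))
        have h4 := h3 e he
        by_cases h5 : (lt L j₀ e).2
        · rw [if_pos h5, if_pos h5, h4]
        · rw [if_neg h5, if_neg h5, h4]
    · refine ⟨ind, ?_, ?_⟩
      · show ind (if (lt L j₀ (κ, q)).2 then _ else _) - ind (if (lt L j₀ (κ, q)).2 then _ else _) = 1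
        rw [if_neg hs, if_neg hs]
        show ind (vt L j₀ κ q) - ind (vt L j₀ κ (q + 1)) = 1
        rw [h1, h2]
        norm_num
      · intro e he
        show ind (if (lt L j₀ e).2 then vt L j₀ e.1 (e.2 + 1) else vt L j₀ e.1 e.2) =
          ind (if (lt L j₀ e).2 then vt L j₀ e.1 e.2 else vt L j₀ e.1 (e.2 + 1))
        have h4 := h3 e he
        by_cases h5 : (lt L j₀ e).2
        · rw [if_pos h5, if_pos h5, h4]
        · rw [if_neg h5, if_neg h5, h4]

/-- the relator of an edge in a group -/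
theorem lift_F {G : Type} [Group G] (Θ : VV L j₀ → G) (e : KK L j₀ × Fin (BB L j₀)) :
    FreeGroup.lift Θ (FreeGroup.mk ((F L j₀).rel e)) = if (lt L j₀ e).2 then
      Θ (vt L j₀ e.1 e.2) * Θ (vl L j₀ (lt L j₀ e).1) * (Θ (vt L j₀ e.1 (e.2 + 1)))⁻¹ *
        (Θ (vl L j₀ (lt L j₀ e).1))⁻¹
      else Θ (vt L j₀ e.1 (e.2 + 1)) * Θ (vl L j₀ (lt L j₀ e).1) * (Θ (vt L j₀ e.1 e.2))⁻¹ *
        (Θ (vl L j₀ (lt L j₀ e).1))⁻¹ := by
  show FreeGroup.lift Θ (FreeGroup.mk [(tl L j₀ e, true), (vl L j₀ (lt L j₀ e).1, true),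
    (hd L j₀ e, false), (vl L j₀ (lt L j₀ e).1, false)]) = _
  rw [lift_cons, lift_cons, lift_cons, lift_cons, lift_nil]
  simp only [if_true, Bool.false_eq_true, if_false, mul_one]
  unfold tl hd
  by_cases h : (lt L j₀ e).2
  · rw [if_pos h, if_pos h, if_pos h]
    simp only [mul_assoc]
  · rw [if_neg h, if_neg h, if_neg h]
    simp only [mul_assoc]

omit [Fintype X] [Fintype J] in
/-- the relation of an edge as a conjugation -/
theorem edge_iff {G : Type} [Group G] (a b c : G) (s : Bool) :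
    ((if s then a * c * b⁻¹ * c⁻¹ else b * c * a⁻¹ * c⁻¹) = 1) ↔ a = sg s c * b * (sg s c)⁻¹ := by
  cases s
  · rw [if_neg Bool.false_ne_true, sg_false, inv_inv, mul_inv_eq_one, mul_inv_eq_iff_eq_mul]
    constructor
    · intro h
      rw [mul_assoc, h, inv_mul_cancel_left]
    · intro h
      rw [h, ← mul_assoc, ← mul_assoc, mul_inv_cancel, one_mul]
  · rw [if_pos rfl, sg_true, mul_inv_eq_one, mul_inv_eq_iff_eq_mul]
    constructor
    · intro h
      rw [← h, mul_inv_cancel_right]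
    · intro h
      rw [h, inv_mul_cancel_right]

/-- the suffixes of the padded word -/
noncomputable def suf {G : Type} [Group G] (Θ' : KK L j₀ ⊕ J → G) (κ : KK L j₀) (q : ℕ) : G :=
  FreeGroup.lift Θ' (FreeGroup.mk ((pad L j₀ κ).drop q))

omit [Fintype J] in
theorem suf_BB {G : Type} [Group G] (Θ' : KK L j₀ ⊕ J → G) (κ : KK L j₀) :
    suf L j₀ Θ' κ (BB L j₀) = 1 := by
  unfold suf
  rw [List.drop_eq_nil_of_le (by rw [len_pad]), lift_nil]

omit [Fintype J] in
theorem suf_step {G : Type} [Group G] (Θ' : KK L j₀ ⊕ J → G) (e : KK L j₀ × Fin (BB L j₀)) :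
    suf L j₀ Θ' e.1 e.2 = sg (lt L j₀ e).2 (Θ' (lt L j₀ e).1) * suf L j₀ Θ' e.1 (e.2 + 1) := by
  have h : (e.2 : ℕ) < (pad L j₀ e.1).length := by
    rw [len_pad]
    exact e.2.2
  unfold suf
  rw [List.drop_eq_getElem_cons h]
  have h2 : (pad L j₀ e.1)[(e.2 : ℕ)] = lt L j₀ e := rfl
  rw [h2]
  obtain ⟨c, b⟩ := lt L j₀ e
  rw [lift_cons]
  rfl

omit [Fintype J] in
/-- going down a chain -/
theorem chain {G : Type} [Group G] (Θ' : KK L j₀ ⊕ J → G) (κ : KK L j₀) (a : ℕ → G) (q₀ : ℕ)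
    (hq₀ : q₀ ≤ BB L j₀)
    (h : ∀ q : Fin (BB L j₀), q₀ ≤ q → a q = sg (lt L j₀ (κ, q)).2 (Θ' (lt L j₀ (κ, q)).1) *
      a (q + 1) * (sg (lt L j₀ (κ, q)).2 (Θ' (lt L j₀ (κ, q)).1))⁻¹) :
    a q₀ = suf L j₀ Θ' κ q₀ * a (BB L j₀) * (suf L j₀ Θ' κ q₀)⁻¹ := by
  have key : ∀ d q, q₀ ≤ q → q + d = BB L j₀ →
      a q = suf L j₀ Θ' κ q * a (BB L j₀) * (suf L j₀ Θ' κ q)⁻¹ := by
    intro d
    induction d with
    | zero =>
      intro q _ hq
      have : q = BB L j₀ := by omega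
      rw [this, suf_BB]
      simp
    | succ d ih =>
      intro q hq0 hq
      have hlt : q < BB L j₀ := by omega
      have h1 := h ⟨q, hlt⟩ hq0
      have h2 := suf_step L j₀ Θ' (κ, ⟨q, hlt⟩)
      simp only at h1 h2
      rw [h1, h2, ih (q + 1) (by omega) (by omega)]
      group
  exact key (BB L j₀ - q₀) q₀ le_rfl (by omega)

end

end Wirt

end Pool.Agent.ZO
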